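import Pool.Agent.Helper113.Gorin.Defs

set_option autoImplicit false

open Metric Set Topology

namespace H113G



lemma deg1_9515 {n : ℕ} {τ : Type*} (w : Fin n → ℂ) (f : Fin n → τ) :
    (∑ j, MvPolynomial.C (w j) * MvPolynomial.X (f j) : MvPolynomial τ ℂ).totalDegree ≤ 1 := by
  refine MvPolynomial.totalDegree_finsetSum_le ?_
  intro j _
  refine (MvPolynomial.totalDegree_mul _ _).trans ?_
  rw [MvPolynomial.totalDegree_C, MvPolynomial.totalDegree_X]

lemma pdl_9515 {n : ℕ} (w : Fin n → ℂ) (j : Fin n) :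
    MvPolynomial.pderiv (Sum.inl j) (∑ i, MvPolynomial.C (w i) * MvPolynomial.X (Sum.inl i) :
      MvPolynomial (Fin n ⊕ Fin n) ℂ) = MvPolynomial.C (w j) := by
  rw [map_sum, Finset.sum_eq_single j]
  · rw [MvPolynomial.pderiv_C_mul, MvPolynomial.pderiv_X_self, mul_one]
  · intro i _ hij
    rw [MvPolynomial.pderiv_C_mul, MvPolynomial.pderiv_X_of_ne, mul_zero]
    intro h
    exact hij (Sum.inl_injective h)
  · intro h
    exact absurd (Finset.mem_univ j) h

lemma pdr_9515 {n : ℕ} (w : Fin n → ℂ) (j : Fin n) :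
    MvPolynomial.pderiv (Sum.inr j) (∑ i, MvPolynomial.C (w i) * MvPolynomial.X (Sum.inr i) :
      MvPolynomial (Fin n ⊕ Fin n) ℂ) = MvPolynomial.C (w j) := by
  rw [map_sum, Finset.sum_eq_single j]
  · rw [MvPolynomial.pderiv_C_mul, MvPolynomial.pderiv_X_self, mul_one]
  · intro i _ hij
    rw [MvPolynomial.pderiv_C_mul, MvPolynomial.pderiv_X_of_ne, mul_zero]
    intro h
    exact hij (Sum.inr_injective h)
  · intro h
    exact absurd (Finset.mem_univ j) h

lemma pdlr_9515 {n : ℕ} (w : Fin n → ℂ) (j : Fin n) :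
    MvPolynomial.pderiv (Sum.inl j) (∑ i, MvPolynomial.C (w i) * MvPolynomial.X (Sum.inr i) :
      MvPolynomial (Fin n ⊕ Fin n) ℂ) = 0 := by
  rw [map_sum]
  apply Finset.sum_eq_zero
  intro i _
  rw [MvPolynomial.pderiv_C_mul, MvPolynomial.pderiv_X_of_ne (by simp), mul_zero]

lemma pdrl_9515 {n : ℕ} (w : Fin n → ℂ) (j : Fin n) :
    MvPolynomial.pderiv (Sum.inr j) (∑ i, MvPolynomial.C (w i) * MvPolynomial.X (Sum.inl i) :
      MvPolynomial (Fin n ⊕ Fin n) ℂ) = 0 := by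
  rw [map_sum]
  apply Finset.sum_eq_zero
  intro i _
  rw [MvPolynomial.pderiv_C_mul, MvPolynomial.pderiv_X_of_ne (by simp), mul_zero]

lemma evl_9515 {n : ℕ} (w m₁ n₁ : Fin n → ℂ) :
    MvPolynomial.eval (Sum.elim m₁ n₁) (∑ i, MvPolynomial.C (w i) * MvPolynomial.X (Sum.inl i) :
      MvPolynomial (Fin n ⊕ Fin n) ℂ) = ∑ i, m₁ i * w i := by
  rw [map_sum]
  apply Finset.sum_congr rfl
  intro i _
  simp [mul_comm]

lemma evr_9515 {n : ℕ} (w m₁ n₁ : Fin n → ℂ) :
    MvPolynomial.eval (Sum.elim m₁ n₁) (∑ i, MvPolynomial.C (w i) * MvPolynomial.X (Sum.inr i) :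
      MvPolynomial (Fin n ⊕ Fin n) ℂ) = ∑ i, n₁ i * w i := by
  rw [map_sum]
  apply Finset.sum_congr rfl
  intro i _
  simp [mul_comm]

theorem Epol_props {n : ℕ} (w w' : Fin n → ℂ) :
    (Epol w w').totalDegree ≤ 3 ∧
    (∀ m₁ n₁ : Fin n → ℂ, MvPolynomial.eval (Sum.elim m₁ n₁) (Epol w w') =
      (∑ j, n₁ j * w j) * (∑ j, m₁ j * w' j) - (∑ j, m₁ j * w j) * (∑ j, n₁ j * w' j) -
      (∑ j, m₁ j * w j) * (∑ j, n₁ j * w j) * ((∑ j, n₁ j * w j) - (∑ j, m₁ j * w j))) ∧
    (∀ m₁ n₁ μ ν : Fin n → ℂ,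
      ∑ j, (Sum.elim μ ν) j *
        MvPolynomial.eval (Sum.elim m₁ n₁) (MvPolynomial.pderiv j (Epol w w')) =
      dE m₁ n₁ μ ν w w') := by
  refine ⟨?_, ?_, ?_⟩
  · unfold Epol
    have hX := deg1_9515 w (Sum.inl : Fin n → Fin n ⊕ Fin n)
    have hX' := deg1_9515 w' (Sum.inl : Fin n → Fin n ⊕ Fin n)
    have hY := deg1_9515 w (Sum.inr : Fin n → Fin n ⊕ Fin n)
    have hY' := deg1_9515 w' (Sum.inr : Fin n → Fin n ⊕ Fin n)
    generalize (∑ j, MvPolynomial.C (w j) * MvPolynomial.X (Sum.inl j) :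
      MvPolynomial (Fin n ⊕ Fin n) ℂ) = X at *
    generalize (∑ j, MvPolynomial.C (w' j) * MvPolynomial.X (Sum.inl j) :
      MvPolynomial (Fin n ⊕ Fin n) ℂ) = X' at *
    generalize (∑ j, MvPolynomial.C (w j) * MvPolynomial.X (Sum.inr j) :
      MvPolynomial (Fin n ⊕ Fin n) ℂ) = Y at *
    generalize (∑ j, MvPolynomial.C (w' j) * MvPolynomial.X (Sum.inr j) :
      MvPolynomial (Fin n ⊕ Fin n) ℂ) = Y' at *
    show (Y * X' - X * Y' - X * Y * (Y - X)).totalDegree ≤ 3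
    have h1 : (Y * X').totalDegree ≤ 2 :=
      (MvPolynomial.totalDegree_mul _ _).trans (by omega)
    have h2 : (X * Y').totalDegree ≤ 2 :=
      (MvPolynomial.totalDegree_mul _ _).trans (by omega)
    have h3 : (X * Y).totalDegree ≤ 2 :=
      (MvPolynomial.totalDegree_mul _ _).trans (by omega)
    have h4 : (Y - X).totalDegree ≤ 1 :=
      (MvPolynomial.totalDegree_sub _ _).trans (max_le hY hX)
    have h5 : (X * Y * (Y - X)).totalDegree ≤ 3 :=
      (MvPolynomial.totalDegree_mul _ _).trans (by omega)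
    have h6 : (Y * X' - X * Y').totalDegree ≤ 2 :=
      (MvPolynomial.totalDegree_sub _ _).trans (max_le h1 h2)
    exact (MvPolynomial.totalDegree_sub _ _).trans (max_le (h6.trans (by norm_num)) h5)
  · intro m₁ n₁
    simp only [Epol, map_sub, map_mul, evl_9515, evr_9515]
  · intro m₁ n₁ μ ν
    rw [Fintype.sum_sum_type]
    simp only [Sum.elim_inl, Sum.elim_inr]
    have hl : ∀ j : Fin n, MvPolynomial.eval (Sum.elim m₁ n₁)
        (MvPolynomial.pderiv (Sum.inl j) (Epol w w')) =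
        w' j * (∑ i, n₁ i * w i) + w j * (-(∑ i, n₁ i * w' i) -
          (∑ i, n₁ i * w i) * ((∑ i, n₁ i * w i) - (∑ i, m₁ i * w i)) +
          (∑ i, m₁ i * w i) * (∑ i, n₁ i * w i)) := by
      intro j
      simp only [Epol, map_sub, Derivation.leibniz, smul_eq_mul, pdl_9515, pdlr_9515, map_add,
        map_mul, evl_9515, evr_9515, MvPolynomial.eval_C, map_zero]
      ring
    have hr : ∀ j : Fin n, MvPolynomial.eval (Sum.elim m₁ n₁)
        (MvPolynomial.pderiv (Sum.inr j) (Epol w w')) =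
        w j * ((∑ i, m₁ i * w' i) - (∑ i, m₁ i * w i) * ((∑ i, n₁ i * w i) - (∑ i, m₁ i * w i)) -
          (∑ i, m₁ i * w i) * (∑ i, n₁ i * w i)) - w' j * (∑ i, m₁ i * w i) := by
      intro j
      simp only [Epol, map_sub, Derivation.leibniz, smul_eq_mul, pdr_9515, pdrl_9515, map_add,
        map_mul, evl_9515, evr_9515, MvPolynomial.eval_C, map_zero]
      ring
    simp only [hl, hr]
    have h1 : ∀ A B : ℂ, ∑ j, μ j * (w' j * A + w j * B) =
        (∑ j, μ j * w' j) * A + (∑ j, μ j * w j) * B := by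
      intro A B
      rw [Finset.sum_mul, Finset.sum_mul, ← Finset.sum_add_distrib]
      apply Finset.sum_congr rfl
      intro j _
      ring
    have h2 : ∀ A B : ℂ, ∑ j, ν j * (w j * B - w' j * A) =
        (∑ j, ν j * w j) * B - (∑ j, ν j * w' j) * A := by
      intro A B
      rw [Finset.sum_mul, Finset.sum_mul, ← Finset.sum_sub_distrib]
      apply Finset.sum_congr rfl
      intro j _
      ring
    rw [h1, h2]
    simp only [dE]
    ring

end H113G
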