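import Pool.Agent.Helper113.Gorin.Defs

set_option autoImplicit false

open Metric Set Topology

namespace H113G



theorem alg_data {m : ℕ} (Y : Set (Fin m → ℂ)) (hY : IsAlg Y) (hne : Y.Nonempty)
    (hprime : ∀ P Q : MvPolynomial (Fin m) ℂ,
      (∀ y ∈ Y, MvPolynomial.eval y P * MvPolynomial.eval y Q = 0) →
      (∀ y ∈ Y, MvPolynomial.eval y P = 0) ∨ (∀ y ∈ Y, MvPolynomial.eval y Q = 0))
    (hring : ∀ (B : Type) [CommRing B] [IsDomain B] [Algebra ℂ B] [Algebra.FiniteType ℂ B],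
      ∃ (k : ℕ) (φ : MvPolynomial (Fin k) ℂ →ₐ[ℂ] B) (θ : B)
        (P : Polynomial (MvPolynomial (Fin k) ℂ)),
        Function.Injective φ ∧ φ.Finite ∧ P.Monic ∧
        (∃ (U V : Polynomial (MvPolynomial (Fin k) ℂ)) (d : MvPolynomial (Fin k) ℂ), d ≠ 0 ∧
          U * P + V * Polynomial.derivative P = Polynomial.C d) ∧
        P.eval₂ φ.toRingHom θ = 0 ∧
        (∀ G : Polynomial (MvPolynomial (Fin k) ℂ), G.eval₂ φ.toRingHom θ = 0 → P ∣ G) ∧
        (∀ b : B, ∃ (a : MvPolynomial (Fin k) ℂ) (Q : Polynomial (MvPolynomial (Fin k) ℂ)),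
          a ≠ 0 ∧ φ a * b = Q.eval₂ φ.toRingHom θ) ∧
        (∀ b : B, ∃ R : Polynomial (MvPolynomial (Fin k) ℂ),
          R.Monic ∧ R.eval₂ φ.toRingHom b = 0))
    (hhom : ∀ (B : Type) [CommRing B] [IsDomain B] [Algebra ℂ B] [Algebra.FiniteType ℂ B]
      (k : ℕ) (φ : MvPolynomial (Fin k) ℂ →ₐ[ℂ] B) (θ : B)
      (P : Polynomial (MvPolynomial (Fin k) ℂ)), φ.Finite → P.eval₂ φ.toRingHom θ = 0 →
      (∀ G : Polynomial (MvPolynomial (Fin k) ℂ), G.eval₂ φ.toRingHom θ = 0 → P ∣ G) →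
      ∀ (z : Fin k → ℂ) (ρ : ℂ), (P.map (MvPolynomial.eval z)).eval ρ = 0 →
      ∃ χ : B →ₐ[ℂ] ℂ, (∀ a, χ (φ a) = MvPolynomial.eval z a) ∧ χ θ = ρ) :
    ∃ (k : ℕ) (π : Fin k → MvPolynomial (Fin m) ℂ) (Θ : MvPolynomial (Fin m) ℂ)
      (P : Polynomial (MvPolynomial (Fin k) ℂ)),
      P.Monic ∧
      (∃ (U V : Polynomial (MvPolynomial (Fin k) ℂ)) (d : MvPolynomial (Fin k) ℂ), d ≠ 0 ∧
        U * P + V * Polynomial.derivative P = Polynomial.C d) ∧
      (∀ y ∈ Y, (P.map (MvPolynomial.eval (fun i => MvPolynomial.eval y (π i)))).eval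
        (MvPolynomial.eval y Θ) = 0) ∧
      (∃ (a : MvPolynomial (Fin k) ℂ) (Q : Fin m → Polynomial (MvPolynomial (Fin k) ℂ)), a ≠ 0 ∧
        ∀ y ∈ Y, ∀ j, MvPolynomial.eval (fun i => MvPolynomial.eval y (π i)) a * y j =
          ((Q j).map (MvPolynomial.eval (fun i => MvPolynomial.eval y (π i)))).eval
            (MvPolynomial.eval y Θ)) ∧
      (∀ D : MvPolynomial (Fin k) ℂ, D ≠ 0 →
        ∃ y ∈ Y, MvPolynomial.eval (fun i => MvPolynomial.eval y (π i)) D ≠ 0) ∧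
      (∀ j : Fin m, ∃ R : Polynomial (MvPolynomial (Fin k) ℂ), R.Monic ∧
        ∀ y ∈ Y, (R.map (MvPolynomial.eval (fun i => MvPolynomial.eval y (π i)))).eval
          (y j) = 0) ∧
      (∀ (z : Fin k → ℂ) (ρ : ℂ), (P.map (MvPolynomial.eval z)).eval ρ = 0 →
        ∃ y ∈ Y, (∀ i, MvPolynomial.eval y (π i) = z i) ∧ MvPolynomial.eval y Θ = ρ) := by
  classical
  let I : Ideal (MvPolynomial (Fin m) ℂ) :=
    { carrier := {P | ∀ y ∈ Y, MvPolynomial.eval y P = 0}
      add_mem' := by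
        intro a b ha hb y hy
        rw [map_add, ha y hy, hb y hy, add_zero]
      zero_mem' := by
        intro y _
        exact map_zero _
      smul_mem' := by
        intro c x hx y hy
        rw [smul_eq_mul, map_mul, hx y hy, mul_zero] }
  have hI : ∀ P, P ∈ I ↔ ∀ y ∈ Y, MvPolynomial.eval y P = 0 := fun P => Iff.rfl
  have hIp : I.IsPrime := by
    constructor
    · intro htop
      obtain ⟨y, hy⟩ := hne
      have h1 : (1 : MvPolynomial (Fin m) ℂ) ∈ I := by rw [htop]; exact Submodule.mem_top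
      have h2 := (hI 1).1 h1 y hy
      rw [map_one] at h2
      exact one_ne_zero h2
    · intro P Q hPQ
      have h1 := (hI _).1 hPQ
      rcases hprime P Q (fun y hy => by rw [← map_mul]; exact h1 y hy) with h | h
      · exact Or.inl ((hI P).2 h)
      · exact Or.inr ((hI Q).2 h)
  have hdom : IsDomain (MvPolynomial (Fin m) ℂ ⧸ I) := Ideal.Quotient.isDomain I
  have hft : Algebra.FiniteType ℂ (MvPolynomial (Fin m) ℂ ⧸ I) :=
    Algebra.FiniteType.of_surjective (Ideal.Quotient.mkₐ ℂ I) (Ideal.Quotient.mkₐ_surjective ℂ I)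
  obtain ⟨k, φ, θ, P, hinj, hfin, hmonic, hdisc, hPθ, hmin, hfrac, hint⟩ :=
    hring (MvPolynomial (Fin m) ℂ ⧸ I)
  have hsurj : Function.Surjective (Ideal.Quotient.mk I) := Ideal.Quotient.mk_surjective
  choose π hπ using fun i : Fin k => hsurj (φ (MvPolynomial.X i))
  obtain ⟨Θ, hΘ⟩ := hsurj θ
  -- evaluation at a point of `Y`
  have hchi : ∀ y ∈ Y, ∃ χ : (MvPolynomial (Fin m) ℂ ⧸ I) →ₐ[ℂ] ℂ,
      ∀ p, χ (Ideal.Quotient.mk I p) = MvPolynomial.eval y p := by
    intro y hy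
    refine ⟨Ideal.Quotient.liftₐ I (MvPolynomial.aeval y) ?_, ?_⟩
    · intro a ha
      rw [MvPolynomial.aeval_eq_eval]
      exact (hI a).1 ha y hy
    · intro p
      have h1 : Ideal.Quotient.liftₐ I (MvPolynomial.aeval y) (by
        intro a ha
        rw [MvPolynomial.aeval_eq_eval]
        exact (hI a).1 ha y hy) (Ideal.Quotient.mk I p) = MvPolynomial.aeval y p := rfl
      rw [h1, MvPolynomial.aeval_eq_eval]
  have key1 : ∀ y ∈ Y, ∀ χ : (MvPolynomial (Fin m) ℂ ⧸ I) →ₐ[ℂ] ℂ,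
      (∀ p, χ (Ideal.Quotient.mk I p) = MvPolynomial.eval y p) → ∀ p,
      χ (φ p) = MvPolynomial.eval (fun i => MvPolynomial.eval y (π i)) p := by
    intro y hy χ hχ p
    have h1 : χ.comp φ = MvPolynomial.aeval (fun i => MvPolynomial.eval y (π i)) := by
      apply MvPolynomial.algHom_ext
      intro i
      rw [MvPolynomial.aeval_X, AlgHom.comp_apply, ← hπ i, hχ]
    have h2 := congrArg (fun f : MvPolynomial (Fin k) ℂ →ₐ[ℂ] ℂ => f p) h1
    simp only [AlgHom.comp_apply] at h2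
    rw [h2, MvPolynomial.aeval_eq_eval]
  have key2 : ∀ y ∈ Y, ∀ χ : (MvPolynomial (Fin m) ℂ ⧸ I) →ₐ[ℂ] ℂ,
      (∀ p, χ (Ideal.Quotient.mk I p) = MvPolynomial.eval y p) →
      ∀ (G : Polynomial (MvPolynomial (Fin k) ℂ)) (b : MvPolynomial (Fin m) ℂ ⧸ I),
      χ (G.eval₂ φ.toRingHom b) =
        (G.map (MvPolynomial.eval (fun i => MvPolynomial.eval y (π i)))).eval (χ b) := by
    intro y hy χ hχ G b
    have h1 := Polynomial.hom_eval₂ G φ.toRingHom χ.toRingHom b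
    have h2 : χ.toRingHom.comp φ.toRingHom =
        MvPolynomial.eval (fun i => MvPolynomial.eval y (π i)) := by
      apply RingHom.ext
      intro p
      exact key1 y hy χ hχ p
    rw [h2] at h1
    rw [Polynomial.eval_map]
    exact h1
  refine ⟨k, π, Θ, P, hmonic, hdisc, ?_, ?_, ?_, ?_, ?_⟩
  · intro y hy
    obtain ⟨χ, hχ⟩ := hchi y hy
    rw [← hχ Θ, hΘ, ← key2 y hy χ hχ P θ, hPθ, map_zero]
  · choose a Q ha hQ using fun j : Fin m => hfrac (Ideal.Quotient.mk I (MvPolynomial.X j))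
    refine ⟨∏ j, a j, fun j => Polynomial.C (∏ i ∈ Finset.univ.erase j, a i) * Q j,
      Finset.prod_ne_zero_iff.2 fun j _ => ha j, ?_⟩
    intro y hy j
    obtain ⟨χ, hχ⟩ := hchi y hy
    have h1 := congrArg χ (hQ j)
    rw [map_mul, key1 y hy χ hχ, hχ, MvPolynomial.eval_X, key2 y hy χ hχ] at h1
    have h2 : ∏ i, a i = (∏ i ∈ Finset.univ.erase j, a i) * a j :=
      (Finset.prod_erase_mul _ _ (Finset.mem_univ j)).symm
    rw [Polynomial.map_mul, Polynomial.map_C, Polynomial.eval_mul, Polynomial.eval_C, h2, map_mul,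
      mul_assoc, h1, ← hΘ, hχ]
  · intro D hD
    by_contra hcon
    push Not at hcon
    have h1 : φ D = 0 := by
      obtain ⟨p, hp⟩ := hsurj (φ D)
      rw [← hp, Ideal.Quotient.eq_zero_iff_mem, hI]
      intro y hy
      obtain ⟨χ, hχ⟩ := hchi y hy
      rw [← hχ p, hp, key1 y hy χ hχ]
      exact hcon y hy
    exact hD (hinj (by rw [h1, map_zero]))
  · intro j
    obtain ⟨R, hR, hR2⟩ := hint (Ideal.Quotient.mk I (MvPolynomial.X j))
    refine ⟨R, hR, ?_⟩
    intro y hy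
    obtain ⟨χ, hχ⟩ := hchi y hy
    have h1 := key2 y hy χ hχ R (Ideal.Quotient.mk I (MvPolynomial.X j))
    rw [hR2, map_zero, hχ, MvPolynomial.eval_X] at h1
    exact h1.symm
  · intro z ρ hz
    obtain ⟨χ, hχ1, hχ2⟩ := hhom (MvPolynomial (Fin m) ℂ ⧸ I) k φ θ P hfin hPθ hmin z ρ hz
    have h1 : ∀ p, χ (Ideal.Quotient.mk I p) =
        MvPolynomial.eval (fun j => χ (Ideal.Quotient.mk I (MvPolynomial.X j))) p := by
      intro p
      have h2 : χ.comp (Ideal.Quotient.mkₐ ℂ I) =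
          MvPolynomial.aeval (fun j => χ (Ideal.Quotient.mk I (MvPolynomial.X j))) := by
        apply MvPolynomial.algHom_ext
        intro i
        rw [MvPolynomial.aeval_X, AlgHom.comp_apply]
        rfl
      have h3 := congrArg (fun f : MvPolynomial (Fin m) ℂ →ₐ[ℂ] ℂ => f p) h2
      simp only [AlgHom.comp_apply] at h3
      rw [MvPolynomial.aeval_eq_eval] at h3
      exact h3
    refine ⟨fun j => χ (Ideal.Quotient.mk I (MvPolynomial.X j)), ?_, ?_, ?_⟩
    · obtain ⟨S, hS⟩ := hY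
      rw [hS]
      intro p hp
      rw [← h1 p]
      have h2 : p ∈ I := by
        rw [hI]
        intro y hy
        rw [hS] at hy
        exact hy p hp
      rw [Ideal.Quotient.eq_zero_iff_mem.2 h2, map_zero]
    · intro i
      rw [← h1, hπ, hχ1, MvPolynomial.eval_X]
    · rw [← h1, hΘ, hχ2]


end H113G
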