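import Pool.Agent.Helper113.Gorin.Defs

set_option autoImplicit false

open Metric Set Topology

namespace H113G




open scoped Convex in
theorem conv_joined {U s : Set ℂ} (hU : IsOpen U) (hc : Convex ℝ U) (hs : s.Countable)
    {a b : ℂ} (ha : a ∈ U \ s) (hb : b ∈ U \ s) : JoinedIn (U \ s) a b := by
  rcases eq_or_ne a b with rfl | hab
  · exact JoinedIn.refl ha
  have h : 1 < Module.rank ℝ ℂ := by
    rw [Complex.rank_real_complex]; exact Cardinal.one_lt_two
  let c := (2 : ℝ)⁻¹ • (a + b)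
  let x := (2 : ℝ)⁻¹ • (b - a)
  have Ia : c - x = a := by
    simp only [c, x]
    module
  have Ib : c + x = b := by
    simp only [c, x]
    module
  have x_ne_zero : x ≠ 0 := by simpa [x] using sub_ne_zero.2 hab.symm
  obtain ⟨y, hy⟩ : ∃ y, LinearIndependent ℝ ![x, y] :=
    exists_linearIndependent_pair_of_one_lt_rank h x_ne_zero
  have A : Set.Countable {t : ℝ | ([c + x -[ℝ] c + t • y] ∩ s).Nonempty} := by
    apply countable_ofPred_nonempty_of_disjoint _ (fun t ↦ inter_subset_right) hs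
    intro t t' htt'
    apply disjoint_iff_inter_eq_empty.2
    have N : {c + x} ∩ s = ∅ := by
      simpa only [singleton_inter_eq_empty, mem_compl_iff, Ib] using hb.2
    rw [inter_assoc, inter_comm s, inter_assoc, inter_self, ← inter_assoc, ← subset_empty_iff, ← N]
    apply inter_subset_inter_left
    apply Eq.subset
    apply segment_inter_eq_endpoint_of_linearIndependent_of_ne hy htt'.symm
  have B : Set.Countable {t : ℝ | ([c - x -[ℝ] c + t • y] ∩ s).Nonempty} := by
    apply countable_ofPred_nonempty_of_disjoint _ (fun t ↦ inter_subset_right) hs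
    intro t t' htt'
    apply disjoint_iff_inter_eq_empty.2
    have N : {c - x} ∩ s = ∅ := by
      simpa only [singleton_inter_eq_empty, mem_compl_iff, Ia] using ha.2
    rw [inter_assoc, inter_comm s, inter_assoc, inter_self, ← inter_assoc, ← subset_empty_iff, ← N]
    apply inter_subset_inter_left
    rw [sub_eq_add_neg _ x]
    apply Eq.subset
    apply segment_inter_eq_endpoint_of_linearIndependent_of_ne _ htt'.symm
    convert! hy.units_smul ![-1, 1]
    simp [← List.ofFn_inj]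
  have hcU : c ∈ U := by
    have := hc ha.1 hb.1 (by norm_num : (0 : ℝ) ≤ 1 / 2) (by norm_num : (0 : ℝ) ≤ 1 / 2) (by norm_num)
    convert this using 1
    simp only [c]
    rw [smul_add]; norm_num
  have hO : IsOpen {t : ℝ | c + t • y ∈ U} := hU.preimage (by fun_prop)
  obtain ⟨t, htU, ht⟩ := ((A.union B).dense_compl ℝ).inter_open_nonempty _ hO ⟨0, by simpa using hcU⟩
  simp only [compl_union, mem_inter_iff, mem_compl_iff, mem_ofPred_eq, not_nonempty_iff_eq_empty]
    at ht
  have hzU : c + t • y ∈ U := htU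
  have JA : JoinedIn (U \ s) a (c + t • y) := by
    apply JoinedIn.of_segment_subset
    intro w hw
    refine ⟨hc.segment_subset ha.1 hzU hw, fun hws => ?_⟩
    have : w ∈ [c - x -[ℝ] c + t • y] ∩ s := ⟨by rw [Ia]; exact hw, hws⟩
    rw [ht.2] at this
    exact this
  have JB : JoinedIn (U \ s) b (c + t • y) := by
    apply JoinedIn.of_segment_subset
    intro w hw
    refine ⟨hc.segment_subset hb.1 hzU hw, fun hws => ?_⟩
    have : w ∈ [c + x -[ℝ] c + t • y] ∩ s := ⟨by rw [Ib]; exact hw, hws⟩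
    rw [ht.1] at this
    exact this
  exact JA.trans JB.symm

theorem ball_minus {n : ℕ} {U : Set (Fin n → ℂ)} (hU : IsOpen U) (hc : Convex ℝ U)
    {φ : (Fin n → ℂ) → ℂ} (hφ : DifferentiableOn ℂ φ U) {x₀ : Fin n → ℂ} (hx : x₀ ∈ U)
    (h0 : φ x₀ ≠ 0) :
    IsPreconnected {x | x ∈ U ∧ φ x ≠ 0} ∧ U ⊆ closure {x | x ∈ U ∧ φ x ≠ 0} := by
  -- restriction to complex lines
  have line : ∀ a ∈ U, ∀ b ∈ U, φ a ≠ 0 →
      IsOpen {ζ : ℂ | a + ζ • (b - a) ∈ U} ∧ Convex ℝ {ζ : ℂ | a + ζ • (b - a) ∈ U} ∧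
      (∀ᶠ ζ in Filter.codiscreteWithin {ζ : ℂ | a + ζ • (b - a) ∈ U}, φ (a + ζ • (b - a)) ≠ 0) := by
    intro a ha b hb h
    have hcont : Continuous fun ζ : ℂ => a + ζ • (b - a) := by fun_prop
    have ho : IsOpen {ζ : ℂ | a + ζ • (b - a) ∈ U} := hU.preimage hcont
    have hcv : Convex ℝ {ζ : ℂ | a + ζ • (b - a) ∈ U} := by
      intro z hz w hw p q hp hq hpq
      have := hc hz hw hp hq hpq
      show a + (p • z + q • w) • (b - a) ∈ U
      convert this using 1
      have e : a = (p + q) • a := by rw [hpq, one_smul]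
      calc a + (p • z + q • w) • (b - a) = (p + q) • a + (p • z + q • w) • (b - a) := by rw [← e]
        _ = p • (a + z • (b - a)) + q • (a + w • (b - a)) := by
          rw [add_smul, add_smul, smul_add, smul_add, smul_assoc, smul_assoc]
          abel
    refine ⟨ho, hcv, ?_⟩
    have hd : DifferentiableOn ℂ (fun ζ : ℂ => φ (a + ζ • (b - a))) {ζ : ℂ | a + ζ • (b - a) ∈ U} := by
      apply hφ.comp (t := U)
      · fun_prop
      · intro ζ hζ; exact hζ
    have han := hd.analyticOnNhd ho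
    rcases han.eqOn_zero_or_eventually_ne_zero_of_preconnected hcv.isPreconnected with h1 | h1
    · exfalso
      have h2 : (0 : ℂ) ∈ {ζ : ℂ | a + ζ • (b - a) ∈ U} := by simpa using ha
      have := h1 h2
      simp at this
      exact h this
    · exact h1
  refine ⟨?_, ?_⟩
  · apply isPreconnected_of_forall_pair
    rintro a ⟨ha, ha'⟩ b ⟨hb, hb'⟩
    obtain ⟨ho, hcv, hev⟩ := line a ha b hb ha'
    let Ω : Set ℂ := {ζ : ℂ | a + ζ • (b - a) ∈ U}
    let Z : Set ℂ := {ζ : ℂ | φ (a + ζ • (b - a)) = 0} ∩ Ω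
    have hZ : Z.Countable := by
      apply (HereditarilyLindelofSpace.isLindelof _).countable_of_isDiscrete
        (isDiscrete_of_codiscreteWithin _)
      exact hev
    have h0Ω : (0 : ℂ) ∈ Ω \ Z := by
      refine ⟨by simpa [Ω] using ha, fun hz => ha' ?_⟩
      have := hz.1
      simpa using this
    have h1Ω : (1 : ℂ) ∈ Ω \ Z := by
      refine ⟨by simpa [Ω] using hb, fun hz => hb' ?_⟩
      have := hz.1
      simpa using this
    obtain ⟨γ, hγ⟩ := conv_joined ho hcv hZ h0Ω h1Ω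
    refine ⟨Set.range (fun τ => a + γ τ • (b - a)), ?_, ⟨0, by simp⟩, ⟨1, by simp⟩, ?_⟩
    · rintro _ ⟨τ, rfl⟩
      have h1 := hγ τ
      exact ⟨h1.1, fun hz => h1.2 ⟨hz, h1.1⟩⟩
    · apply isPreconnected_range
      fun_prop
  · intro b hb
    obtain ⟨ho, hcv, hev⟩ := line x₀ hx b hb h0
    have h1 : (1 : ℂ) ∈ {ζ : ℂ | x₀ + ζ • (b - x₀) ∈ U} := by simpa using hb
    have hev1 : ∀ᶠ ζ in 𝓝[≠] (1 : ℂ), x₀ + ζ • (b - x₀) ∈ {x | x ∈ U ∧ φ x ≠ 0} := by
      have e1 := mem_codiscreteWithin_iff_forall_mem_nhdsNE.mp hev 1 h1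
      have e2 : {ζ : ℂ | x₀ + ζ • (b - x₀) ∈ U} ∈ 𝓝[≠] (1 : ℂ) :=
        mem_nhdsWithin_of_mem_nhds (ho.mem_nhds h1)
      filter_upwards [e1, e2] with ζ z1 z2
      rcases z1 with z1 | z1
      · exact ⟨z2, z1⟩
      · exact absurd z2 z1
    have ht : Filter.Tendsto (fun ζ : ℂ => x₀ + ζ • (b - x₀)) (𝓝[≠] (1 : ℂ)) (𝓝 b) := by
      have hcont : Continuous fun ζ : ℂ => x₀ + ζ • (b - x₀) := by fun_prop
      have := (hcont.tendsto 1).mono_left (nhdsWithin_le_nhds (s := {(1 : ℂ)}ᶜ))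
      simpa using this
    exact mem_closure_of_tendsto ht hev1

end H113G
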