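import Pool.Agent.Helper113.Gorin.Defs

set_option autoImplicit false

open Metric Set Topology

namespace H113G



theorem bertini {m k e : ℕ} (Y : Set (Fin m → ℂ)) (pr : (Fin m → ℂ) → (Fin k → ℂ))
    (δ : MvPolynomial (Fin k) ℂ) (h : Cov Y pr δ e)
    (hthin : ∀ D : MvPolynomial (Fin k) ℂ, D ≠ 0 →
      IsPreconnected {y | y ∈ Y ∧ MvPolynomial.eval (pr y) D ≠ 0} ∧
      Y ⊆ closure {y | y ∈ Y ∧ MvPolynomial.eval (pr y) D ≠ 0})
    (hgen : ∃ D : MvPolynomial (Fin k) ℂ, D ≠ 0 ∧ ∀ v, MvPolynomial.eval v D ≠ 0 → RootStable δ v)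
    (y₀ : Yo Y pr δ) (hy₀ : pr y₀.1 = 0)
    (hloc : ∀ w₁ : Yo Y pr δ, RootStable δ (pr w₁.1) →
      ∀ᶠ w in 𝓝 w₁, (EndsAt (qY Y pr δ) y₀ w (pr w.1) 1 ↔ EndsAt (qY Y pr δ) y₀ w₁ (pr w₁.1) 1)) :
    ∀ w : Yo Y pr δ, RootStable δ (pr w.1) → EndsAt (qY Y pr δ) y₀ w (pr w.1) 1 := by
  obtain ⟨D, hD0, hD⟩ := hgen
  have hδ0 : δ ≠ 0 := by
    intro h0
    apply h.base
    rw [h0, map_zero]
  have hD' : D * δ ≠ 0 := mul_ne_zero hD0 hδ0
  obtain ⟨hpre, hdense⟩ := hthin _ hD'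
  set S' : Set (Fin m → ℂ) := {y | y ∈ Y ∧ MvPolynomial.eval (pr y) (D * δ) ≠ 0} with hS'
  have hS'δ : ∀ y ∈ S', MvPolynomial.eval (pr y) δ ≠ 0 := by
    rintro y ⟨_, h2⟩ h0
    apply h2
    rw [map_mul, h0, mul_zero]
  have hS'D : ∀ y ∈ S', MvPolynomial.eval (pr y) D ≠ 0 := by
    rintro y ⟨_, h2⟩ h0
    apply h2
    rw [map_mul, h0, zero_mul]
  set T : Set (Yo Y pr δ) := {w | w.1 ∈ S'} with hT
  have hind : Topology.IsInducing (fun w : Yo Y pr δ => w.1) := Topology.IsInducing.subtypeVal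
  have himg : (fun w : Yo Y pr δ => w.1) '' T = S' := by
    ext y
    constructor
    · rintro ⟨w, hw, rfl⟩
      exact hw
    · intro hy
      exact ⟨⟨y, hy.1, hS'δ y hy⟩, hy, rfl⟩
  have hTpre : IsPreconnected T := by
    rw [← hind.isPreconnected_image, himg]
    exact hpre
  have hTdense : ∀ w : Yo Y pr δ, w ∈ closure T := by
    intro w
    rw [hind.closure_eq_preimage_closure_image, himg]
    exact hdense w.2.1
  have hpc : Continuous pr := h.diff.continuous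
  -- existence of a good point
  obtain ⟨w₂, hw₂T, hw₂⟩ : ∃ w ∈ T, EndsAt (qY Y pr δ) y₀ w (pr w.1) 1 := by
    obtain ⟨r, hr, s, hs1, hs2⟩ := h.sections 0 h.base
    have h0r : (0 : Fin k → ℂ) ∈ ball (0 : Fin k → ℂ) r := mem_ball_self hr
    have hmem : ∀ z ∈ ball (0 : Fin k → ℂ) r, ∀ j, s j z ∈ Y ∧ pr (s j z) = z := by
      intro z hz j
      have : s j z ∈ {y | y ∈ Y ∧ pr y = z} := by
        rw [(hs2 z hz).2.2]
        exact ⟨j, rfl⟩
      exact this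
    have hex : ∀ y ∈ Y, pr y ∈ ball (0 : Fin k → ℂ) r → ∃ j, s j (pr y) = y := by
      intro y hy hpy
      have h1 : y ∈ {y' | y' ∈ Y ∧ pr y' = pr y} := ⟨hy, rfl⟩
      rw [(hs2 (pr y) hpy).2.2] at h1
      exact h1
    obtain ⟨i, hi⟩ := hex y₀.1 y₀.2.1 (by rw [hy₀]; exact h0r)
    rw [hy₀] at hi
    have hne : ∀ j, j ≠ i → s j 0 ≠ y₀.1 := by
      intro j hj h1
      apply hj
      apply (hs2 0 h0r).2.1
      show s j 0 = s i 0
      rw [h1, hi]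
    have hev : ∀ᶠ y in 𝓝 y₀.1, ∀ j, j ≠ i → s j (pr y) ≠ y := by
      rw [Filter.eventually_all]
      intro j
      by_cases hj : j = i
      · exact Filter.Eventually.of_forall (fun y h1 => absurd hj h1)
      have h1 : Filter.Tendsto (fun y => s j (pr y)) (𝓝 y₀.1) (𝓝 (s j 0)) := by
        have h2 : ContinuousAt (s j) 0 :=
          (hs1 j).continuousOn.continuousAt (isOpen_ball.mem_nhds h0r)
        have h3 : Filter.Tendsto pr (𝓝 y₀.1) (𝓝 0) := by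
          rw [← hy₀]
          exact hpc.tendsto _
        exact h2.tendsto.comp h3
      have h4 : Filter.Tendsto (fun y => s j (pr y) - y) (𝓝 y₀.1) (𝓝 (s j 0 - y₀.1)) :=
        h1.sub Filter.tendsto_id
      exact (h4.eventually_ne (sub_ne_zero.mpr (hne j hj))).mono
        (fun y hy _ => sub_ne_zero.mp hy)
    have hev2 : ∀ᶠ y in 𝓝 y₀.1, pr y ∈ ball (0 : Fin k → ℂ) r := by
      apply hpc.continuousAt.eventually_mem
      rw [hy₀]
      exact isOpen_ball.mem_nhds h0r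
    have hfr : ∃ᶠ y in 𝓝 y₀.1, y ∈ S' := mem_closure_iff_frequently.mp (hdense y₀.2.1)
    obtain ⟨y, hyS, hy1, hy2⟩ := (hfr.and_eventually (hev.and hev2)).exists
    obtain ⟨j, hj⟩ := hex y hyS.1 hy2
    have hji : j = i := by
      by_contra h1
      exact hy1 j h1 hj
    subst hji
    have hball : ∀ τ : unitInterval, (((τ : ℝ) : ℂ) • pr y) ∈ ball (0 : Fin k → ℂ) r := by
      intro τ
      rw [mem_ball_zero_iff] at hy2 ⊢
      rw [norm_smul]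
      have h1 : ‖((τ : ℝ) : ℂ)‖ ≤ 1 := by
        rw [Complex.norm_real, Real.norm_eq_abs, abs_of_nonneg τ.2.1]
        exact τ.2.2
      calc ‖((τ : ℝ) : ℂ)‖ * ‖pr y‖ ≤ 1 * ‖pr y‖ :=
            mul_le_mul_of_nonneg_right h1 (norm_nonneg _)
        _ < r := by rw [one_mul]; exact hy2
    have hcc : Continuous (fun τ : unitInterval => ((τ : ℝ) : ℂ)) :=
      Complex.continuous_ofReal.comp continuous_subtype_val
    have hYo : ∀ τ : unitInterval, s j (((τ : ℝ) : ℂ) • pr y) ∈ Y ∧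
        MvPolynomial.eval (pr (s j (((τ : ℝ) : ℂ) • pr y))) δ ≠ 0 := by
      intro τ
      obtain ⟨h1, h2⟩ := hmem _ (hball τ) j
      exact ⟨h1, by rw [h2]; exact (hs2 _ (hball τ)).1⟩
    refine ⟨⟨y, hyS.1, hS'δ y hyS⟩, hyS, ⟨fun τ => ((τ : ℝ) : ℂ), hcc⟩, ⟨?_, ?_, ?_⟩,
      ⟨fun τ => ⟨s j (((τ : ℝ) : ℂ) • pr y), hYo τ⟩, ?_⟩, ?_, ?_, ?_⟩
    · simp
    · simp
    · intro τ
      exact (hs2 _ (hball τ)).1
    · refine Continuous.subtype_mk ?_ _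
      exact (hs1 j).continuousOn.comp_continuous (hcc.smul continuous_const) hball
    · apply Subtype.ext
      show s j ((((0 : unitInterval) : ℝ) : ℂ) • pr y) = y₀.1
      simp [hi]
    · apply Subtype.ext
      show s j ((((1 : unitInterval) : ℝ) : ℂ) • pr y) = y
      simp [hj]
    · intro τ
      exact (hmem _ (hball τ) j).2
  -- constancy
  have hall : ∀ w ∈ T, EndsAt (qY Y pr δ) y₀ w (pr w.1) 1 := by
    by_contra hcon
    push Not at hcon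
    obtain ⟨w₃, hw₃T, hw₃⟩ := hcon
    have hloc' : ∀ w₁ ∈ T, ∀ᶠ w in 𝓝 w₁, (EndsAt (qY Y pr δ) y₀ w (pr w.1) 1 ↔
        EndsAt (qY Y pr δ) y₀ w₁ (pr w₁.1) 1) := fun w₁ hw₁ => hloc w₁ (hD _ (hS'D _ hw₁))
    have h1 : ∀ w₁ ∈ T, EndsAt (qY Y pr δ) y₀ w₁ (pr w₁.1) 1 →
        w₁ ∈ interior {w : Yo Y pr δ | EndsAt (qY Y pr δ) y₀ w (pr w.1) 1} := by
      intro w₁ hw₁ hP
      rw [mem_interior_iff_mem_nhds]
      exact (hloc' w₁ hw₁).mono (fun w hw => hw.mpr hP)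
    have h2 : ∀ w₁ ∈ T, ¬ EndsAt (qY Y pr δ) y₀ w₁ (pr w₁.1) 1 →
        w₁ ∈ interior {w : Yo Y pr δ | ¬ EndsAt (qY Y pr δ) y₀ w (pr w.1) 1} := by
      intro w₁ hw₁ hP
      rw [mem_interior_iff_mem_nhds]
      exact (hloc' w₁ hw₁).mono (fun w hw => fun h3 => hP (hw.mp h3))
    obtain ⟨w, -, hwa, hwb⟩ := hTpre _ _ isOpen_interior isOpen_interior
      (fun w hw => by
        by_cases hP : EndsAt (qY Y pr δ) y₀ w (pr w.1) 1
        · exact Or.inl (h1 w hw hP)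
        · exact Or.inr (h2 w hw hP)) ⟨w₂, hw₂T, h1 w₂ hw₂T hw₂⟩ ⟨w₃, hw₃T, h2 w₃ hw₃T hw₃⟩
    have ha := interior_subset hwa
    have hb := interior_subset hwb
    exact hb ha
  -- density
  intro w₁ hw₁
  have h1 := hloc w₁ hw₁
  have h2 : ∃ᶠ w in 𝓝 w₁, w ∈ T := mem_closure_iff_frequently.mp (hTdense w₁)
  obtain ⟨w, hwT, hw⟩ := (h2.and_eventually h1).exists
  exact hw.mp (hall w hwT)

end H113G
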