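import Pool.Agent.Helper113.Gorin.Defs

set_option autoImplicit false

open Metric Set Topology

namespace H113G



namespace Holo9491

open Metric Set Filter Topology Asymptotics

section General

variable {E F : Type*} [NormedAddCommGroup E] [NormedSpace ℂ E]
  [NormedAddCommGroup F] [NormedSpace ℂ F]

/-- Second order Taylor estimate for a bounded holomorphic map. -/
theorem norm_sub_sub_fderiv_le {f : E → F} {c : E} {R M : ℝ} (hR : 0 < R)
    (hd : DifferentiableOn ℂ f (ball c R)) (hM : ∀ z ∈ ball c R, ‖f z‖ ≤ M) {w : E}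
    (hw : w ∈ ball c R) :
    ‖f w - f c - fderiv ℂ f c (w - c)‖ ≤ 4 * M * (‖w - c‖ / R) ^ 2 := by
  have hcc : c ∈ ball c R := mem_ball_self hR
  have hM0 : 0 ≤ M := (norm_nonneg _).trans (hM c hcc)
  have hmaps : MapsTo f (ball c R) (closedBall (f c) (2 * M)) := by
    intro z hz
    rw [mem_closedBall, dist_eq_norm]
    calc ‖f z - f c‖ ≤ ‖f z‖ + ‖f c‖ := norm_sub_le _ _
      _ ≤ 2 * M := by linarith [hM z hz, hM c hcc]
  have hfd : ‖fderiv ℂ f c‖ ≤ 2 * M / R := Complex.norm_fderiv_le_div_of_mapsTo_ball hd hmaps hR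
  have hdc : DifferentiableAt ℂ f c := hd.differentiableAt (ball_mem_nhds _ hR)
  set g : E → F := fun z => f z - f c - fderiv ℂ f c (z - c) with hg
  have hgd : DifferentiableOn ℂ g (ball c R) := by
    intro z hz
    have h1 : DifferentiableAt ℂ f z := hd.differentiableAt (isOpen_ball.mem_nhds hz)
    exact (by fun_prop : DifferentiableAt ℂ g z).differentiableWithinAt
  have hgc : g c = 0 := by simp [hg]
  have hgmaps : MapsTo g (ball c R) (closedBall (g c) (4 * M)) := by
    intro z hz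
    rw [mem_closedBall, dist_eq_norm, hgc, sub_zero]
    have h1 : ‖f z - f c‖ ≤ 2 * M := by
      have := hmaps hz
      rwa [mem_closedBall, dist_eq_norm] at this
    have h2 : ‖fderiv ℂ f c (z - c)‖ ≤ 2 * M := by
      calc ‖fderiv ℂ f c (z - c)‖ ≤ ‖fderiv ℂ f c‖ * ‖z - c‖ := ContinuousLinearMap.le_opNorm _ _
        _ ≤ (2 * M / R) * R := by
            apply mul_le_mul hfd _ (norm_nonneg _) (by positivity)
            rw [mem_ball, dist_eq_norm] at hz
            exact hz.le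
        _ = 2 * M := by field_simp
    calc ‖g z‖ ≤ ‖f z - f c‖ + ‖fderiv ℂ f c (z - c)‖ := norm_sub_le _ _
      _ ≤ 4 * M := by linarith
  have hn : (g · - g c) =o[𝓝 c] (fun w ↦ ‖w - c‖ ^ 1) := by
    have := hdc.hasFDerivAt.isLittleO
    simp only [hgc, sub_zero, pow_one]
    exact this.norm_right
  have := Complex.dist_le_mul_div_pow_of_mapsTo_ball_of_isLittleO hgd hgmaps hn hw
  rw [hgc, dist_zero_right, dist_eq_norm] at this
  simpa only [hg] using this

omit [NormedSpace ℂ E] in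
theorem ball_half_subset {c w : E} {R : ℝ} (hw : w ∈ ball c (R / 2)) :
    ball w (R / 2) ⊆ ball c R := by
  intro x hx
  rw [mem_ball] at *
  calc dist x c ≤ dist x w + dist w c := dist_triangle _ _ _
    _ < R := by linarith

/-- Lipschitz type bound for bounded holomorphic maps. -/
theorem lipschitz_half {f : E → F} {c : E} {R M : ℝ}
    (hd : DifferentiableOn ℂ f (ball c R)) (hM : ∀ z ∈ ball c R, ‖f z‖ ≤ M) {w z : E}
    (hw : w ∈ ball c (R / 2)) (hz : z ∈ ball w (R / 2)) :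
    ‖f z - f w‖ ≤ 4 * M / R * ‖z - w‖ := by
  have hsub := ball_half_subset hw
  have hR : 0 < R / 2 := (dist_nonneg).trans_lt (mem_ball.1 hw)
  have hmaps : MapsTo f (ball w (R / 2)) (closedBall (f w) (2 * M)) := by
    intro x hx
    rw [mem_closedBall, dist_eq_norm]
    calc ‖f x - f w‖ ≤ ‖f x‖ + ‖f w‖ := norm_sub_le _ _
      _ ≤ 2 * M := by linarith [hM x (hsub hx), hM w (hsub (mem_ball_self hR))]
  have := Complex.dist_le_div_mul_dist_of_mapsTo_ball (hd.mono hsub) hmaps hz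
  rw [dist_eq_norm, dist_eq_norm] at this
  calc _ ≤ _ := this
    _ = _ := by
      have : R ≠ 0 := by linarith
      field_simp; ring

theorem norm_fderiv_le_half {f : E → F} {c : E} {R M : ℝ}
    (hd : DifferentiableOn ℂ f (ball c R)) (hM : ∀ z ∈ ball c R, ‖f z‖ ≤ M) {w : E}
    (hw : w ∈ ball c (R / 2)) :
    ‖fderiv ℂ f w‖ ≤ 4 * M / R := by
  have hsub := ball_half_subset hw
  have hR : 0 < R / 2 := (dist_nonneg).trans_lt (mem_ball.1 hw)
  have hmaps : MapsTo f (ball w (R / 2)) (closedBall (f w) (2 * M)) := by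
    intro x hx
    rw [mem_closedBall, dist_eq_norm]
    calc ‖f x - f w‖ ≤ ‖f x‖ + ‖f w‖ := norm_sub_le _ _
      _ ≤ 2 * M := by linarith [hM x (hsub hx), hM w (hsub (mem_ball_self hR))]
  have := Complex.norm_fderiv_le_div_of_mapsTo_ball (hd.mono hsub) hmaps hR
  calc _ ≤ _ := this
    _ = _ := by
      have : R ≠ 0 := by linarith
      field_simp; ring

/-- Uniform limits of holomorphic maps are holomorphic. -/
theorem differentiableOn_of_uniform_limit [CompleteSpace F] {f : ℕ → E → F} {g : E → F} {c : E}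
    {R : ℝ} (hf : ∀ n, DifferentiableOn ℂ (f n) (ball c R))
    (hlim : TendstoUniformlyOn f g atTop (ball c R)) :
    DifferentiableOn ℂ g (ball c (R / 2)) := by
  rcases le_or_gt R 0 with hR | hR
  · rw [ball_eq_empty.2 (by linarith)]
    exact differentiableOn_empty
  have hc : UniformCauchySeqOn (fun n => fderiv ℂ (f n)) atTop (ball c (R / 2)) := by
    rw [Metric.uniformCauchySeqOn_iff]
    intro ε hε
    obtain ⟨N, hN⟩ := Metric.uniformCauchySeqOn_iff.1 hlim.uniformCauchySeqOn (ε * R / 8)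
      (by positivity)
    refine ⟨N, fun m hm n hn w hw => ?_⟩
    have hsub := ball_half_subset hw
    have hR2 : 0 < R / 2 := by linarith
    have hwm : w ∈ ball c R := hsub (mem_ball_self hR2)
    have e1 : fderiv ℂ (f m) w - fderiv ℂ (f n) w = fderiv ℂ (fun x => f m x - f n x) w := by
      rw [fderiv_fun_sub ((hf m).differentiableAt (isOpen_ball.mem_nhds hwm))
        ((hf n).differentiableAt (isOpen_ball.mem_nhds hwm))]
    rw [dist_eq_norm, e1]
    have := norm_fderiv_le_half (f := fun x => f m x - f n x) (c := c) (R := R) (M := ε * R / 8)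
      ((hf m).sub (hf n)) (fun z hz => by
        have := hN m hm n hn z hz
        rw [dist_eq_norm] at this
        exact this.le) hw
    calc _ ≤ _ := this
      _ = ε / 2 := by field_simp; ring
      _ < ε := by linarith
  have hex : ∀ x ∈ ball c (R / 2), ∃ L : E →L[ℂ] F,
      Tendsto (fun n => fderiv ℂ (f n) x) atTop (𝓝 L) := by
    intro x hx
    exact cauchySeq_tendsto_of_complete (hc.cauchySeq hx)
  choose! g' hg' using hex
  have hu : TendstoUniformlyOn (fun n => fderiv ℂ (f n)) g' atTop (ball c (R / 2)) :=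
    hc.tendstoUniformlyOn_of_tendsto hg'
  intro x hx
  refine (hasFDerivAt_of_tendstoUniformlyOn (f := f) isOpen_ball hu (fun n y hy => ?_)
    (fun y hy => ?_) hx).differentiableAt.differentiableWithinAt
  · exact ((hf n).differentiableAt
      (isOpen_ball.mem_nhds (ball_subset_ball (by linarith) hy))).hasFDerivAt
  · exact hlim.tendsto_at (ball_subset_ball (by linarith) hy)

/-- A holomorphic map is locally bounded. -/
theorem exists_bound {f : E → F} {s : Set E} (hs : IsOpen s) (hf : DifferentiableOn ℂ f s)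
    {z : E} (hz : z ∈ s) : ∃ R > 0, ∃ M ≥ 0, ball z R ⊆ s ∧ ∀ w ∈ ball z R, ‖f w‖ ≤ M := by
  have hc : ContinuousAt f z := (hf.differentiableAt (hs.mem_nhds hz)).continuousAt
  have h1 : ∀ᶠ w in 𝓝 z, ‖f w‖ < ‖f z‖ + 1 :=
    hc.norm.eventually_lt continuousAt_const (by simp)
  obtain ⟨R, hR, h⟩ := Metric.eventually_nhds_iff_ball.1 (h1.and (hs.mem_nhds hz))
  exact ⟨R, hR, ‖f z‖ + 1, by positivity, fun w hw => (h w hw).2, fun w hw => (h w hw).1.le⟩

/-- Directional derivatives of holomorphic maps are holomorphic. -/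
theorem differentiableOn_fderiv_apply [CompleteSpace F] {f : E → F} {s : Set E} (hs : IsOpen s)
    (hf : DifferentiableOn ℂ f s) (v : E) :
    DifferentiableOn ℂ (fun z => fderiv ℂ f z v) s := by
  intro z hz
  obtain ⟨R, hR, M, hM0, hsub, hM⟩ := exists_bound hs hf hz
  obtain ⟨N, hN⟩ := exists_nat_gt (4 * ‖v‖ / R)
  set t : ℕ → ℂ := fun n => ((n + N + 1 : ℕ) : ℂ)⁻¹ with ht
  have htpos : ∀ n, t n ≠ 0 := fun n =>
    inv_ne_zero (Nat.cast_ne_zero.2 (Nat.succ_ne_zero (n + N)))
  have htn : ∀ n, ‖t n‖ = ((n + N + 1 : ℕ) : ℝ)⁻¹ := by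
    intro n
    rw [ht]
    simp only [norm_inv, Complex.norm_natCast]
  have htv : ∀ n, ‖t n • v‖ < R / 4 := by
    intro n
    rw [norm_smul, htn]
    have h1 : (N : ℝ) < ((n + N + 1 : ℕ) : ℝ) := by exact_mod_cast (by omega)
    have h2 : 4 * ‖v‖ / R < ((n + N + 1 : ℕ) : ℝ) := hN.trans h1
    have h3 : (0 : ℝ) < ((n + N + 1 : ℕ) : ℝ) := by positivity
    rw [div_lt_iff₀ hR] at h2
    rw [inv_mul_lt_iff₀ h3]
    linarith
  set F' : ℕ → E → F := fun n x => (t n)⁻¹ • (f (x + t n • v) - f x) with hF'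
  have hdiff : ∀ n, DifferentiableOn ℂ (F' n) (ball z (R / 4)) := by
    intro n x hx
    have hx1 : x ∈ ball z R := ball_subset_ball (by linarith) hx
    have hx2 : x + t n • v ∈ ball z R := by
      rw [mem_ball, dist_eq_norm] at *
      calc ‖x + t n • v - z‖ = ‖(x - z) + t n • v‖ := by congr 1; abel
        _ ≤ ‖x - z‖ + ‖t n • v‖ := norm_add_le _ _
        _ < R := by linarith [htv n]
    have d1 : DifferentiableAt ℂ f x := hf.differentiableAt (hs.mem_nhds (hsub hx1))
    have d2 : DifferentiableAt ℂ f (x + t n • v) := hf.differentiableAt (hs.mem_nhds (hsub hx2))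
    have d3 : DifferentiableAt ℂ (fun y => f (y + t n • v)) x := by
      have : DifferentiableAt ℂ (fun y : E => y + t n • v) x := by fun_prop
      exact DifferentiableAt.comp x d2 this
    exact ((d3.sub d1).const_smul _).differentiableWithinAt
  have hlim : TendstoUniformlyOn F' (fun x => fderiv ℂ f x v) atTop (ball z (R / 4)) := by
    rw [Metric.tendstoUniformlyOn_iff]
    intro ε hε
    have h0 : Tendsto (fun n : ℕ => (4 * M * (‖v‖ / (R / 2)) ^ 2) * ‖t n‖) atTop (𝓝 0) := by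
      have : Tendsto (fun n : ℕ => ‖t n‖) atTop (𝓝 0) := by
        simp only [htn]
        have := tendsto_inv_atTop_nhds_zero_nat (𝕜 := ℝ)
        exact (tendsto_add_atTop_iff_nat (N + 1)).2 this
      simpa using this.const_mul (4 * M * (‖v‖ / (R / 2)) ^ 2)
    filter_upwards [h0.eventually_lt_const hε] with n hn x hx
    have hx1 : x ∈ ball z (R / 2) := ball_subset_ball (by linarith) hx
    have hx3 := ball_half_subset hx1
    have hxx : x + t n • v ∈ ball x (R / 2) := by
      rw [mem_ball, dist_eq_norm]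
      simp only [add_sub_cancel_left]
      linarith [htv n]
    have key := norm_sub_sub_fderiv_le (f := f) (c := x) (R := R / 2) (M := M) (by linarith)
      (hf.mono (hx3.trans hsub)) (fun w hw => hM w (hx3 hw)) hxx
    rw [add_sub_cancel_left] at key
    have e1 : fderiv ℂ f x v - F' n x =
        -((t n)⁻¹ • (f (x + t n • v) - f x - fderiv ℂ f x (t n • v))) := by
      simp only [hF', map_smul, smul_sub, smul_smul, inv_mul_cancel₀ (htpos n), one_smul]
      abel
    rw [dist_eq_norm, e1, norm_neg, norm_smul, norm_inv]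
    have htp : 0 < ‖t n‖ := norm_pos_iff.2 (htpos n)
    calc ‖t n‖⁻¹ * ‖f (x + t n • v) - f x - fderiv ℂ f x (t n • v)‖
        ≤ ‖t n‖⁻¹ * (4 * M * (‖t n • v‖ / (R / 2)) ^ 2) := by gcongr
      _ = (4 * M * (‖v‖ / (R / 2)) ^ 2) * ‖t n‖ := by
          rw [norm_smul]; field_simp
      _ < ε := hn
  have := differentiableOn_of_uniform_limit hdiff hlim
  exact (this.differentiableAt (isOpen_ball.mem_nhds
    (mem_ball_self (by linarith)))).differentiableWithinAt

/-- Holomorphic maps on open subsets of a finite dimensional space are smooth. -/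
theorem contDiffOn_of_differentiableOn [FiniteDimensional ℂ E] [CompleteSpace F] {f : E → F}
    {s : Set E} (hs : IsOpen s) (hf : DifferentiableOn ℂ f s) (n : ℕ) : ContDiffOn ℂ n f s := by
  induction n generalizing f with
  | zero => exact contDiffOn_zero.2 hf.continuousOn
  | succ n ih =>
    have := contDiffOn_succ_of_fderiv_apply (n := (n : WithTop ℕ∞)) hf
      (fun h => absurd h (by simp)) (fun y => by
        have h1 := ih (differentiableOn_fderiv_apply hs hf y)
        refine h1.congr (fun x hx => ?_)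
        rw [fderivWithin_of_isOpen hs hx])
    exact_mod_cast this

end General

end Holo9491

theorem cd1_9491 {E F : Type} [NormedAddCommGroup E] [NormedSpace ℂ E] [FiniteDimensional ℂ E]
    [NormedAddCommGroup F] [NormedSpace ℂ F] [CompleteSpace F] {G : Set E} (hG : IsOpen G)
    {f : E → F} (hf : DifferentiableOn ℂ f G) {x : E} (hx : x ∈ G) : ContDiffAt ℂ 1 f x := by
  have h := Holo9491.contDiffOn_of_differentiableOn hG hf 1
  exact_mod_cast h.contDiffAt (hG.mem_nhds hx)

/-- a complement coordinate map for a surjective linear map -/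
theorem compl_9491 {m k : ℕ} (L : (Fin m → ℂ) →L[ℂ] (Fin k → ℂ)) (hL : Function.Surjective L) :
    ∃ (n : ℕ) (A : (Fin m → ℂ) →L[ℂ] (Fin n → ℂ)), Function.Bijective (L.prod A) := by
  obtain ⟨f, hf⟩ := Submodule.ClosedComplemented.of_finiteDimensional (𝕜 := ℂ)
    (LinearMap.ker (L : (Fin m → ℂ) →ₗ[ℂ] (Fin k → ℂ)))
  let K := LinearMap.ker (L : (Fin m → ℂ) →ₗ[ℂ] (Fin k → ℂ))
  let e : K ≃L[ℂ] (Fin (Module.finrank ℂ K) → ℂ) := (Module.finBasis ℂ K).equivFunL
  refine ⟨Module.finrank ℂ K, (e : K →L[ℂ] _).comp f, ?_, ?_⟩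
  · rw [injective_iff_map_eq_zero]
    intro x hx
    rw [ContinuousLinearMap.prod_apply, Prod.mk_eq_zero] at hx
    obtain ⟨h1, h2⟩ := hx
    have hxK : x ∈ K := h1
    have h3 : e (f x) = 0 := h2
    have h4 : f x = 0 := by
      have := congrArg e.symm h3
      simpa using this
    have h5 := hf ⟨x, hxK⟩
    rw [show f ((⟨x, hxK⟩ : K) : Fin m → ℂ) = f x from rfl, h4] at h5
    exact (congrArg Subtype.val h5).symm
  · rintro ⟨u, v⟩
    obtain ⟨x0, hx0⟩ := hL u
    refine ⟨x0 + ((e.symm v - f x0 : K) : Fin m → ℂ), ?_⟩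
    rw [ContinuousLinearMap.prod_apply]
    have h1 : L (((e.symm v - f x0 : K) : Fin m → ℂ)) = 0 := (e.symm v - f x0 : K).2
    refine Prod.ext ?_ ?_
    · show L (x0 + ((e.symm v - f x0 : K) : Fin m → ℂ)) = u
      rw [map_add, h1, hx0, add_zero]
    · show e (f (x0 + ((e.symm v - f x0 : K) : Fin m → ℂ))) = v
      rw [map_add, hf]
      simp


theorem charts_of_smooth {m : ℕ} (Y : Set (Fin m → ℂ)) (h : IsSmooth Y) : HasCharts Y := by
  intro p hp N hN
  obtain ⟨U, hU, hpU, k, F, hF, hsurj, hYU⟩ := h p hp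
  have hFp : F p = 0 := by
    have : p ∈ Y ∩ U := ⟨hp, hpU⟩
    rw [hYU] at this
    exact this.2
  obtain ⟨n, A, hbij⟩ := compl_9491 (fderiv ℂ F p) (hsurj p hpU)
  set L := fderiv ℂ F p with hLdef
  let Θ : (Fin m → ℂ) → (Fin k → ℂ) × (Fin n → ℂ) := fun x => (F x, A x)
  have hΘd : DifferentiableOn ℂ Θ U := hF.prodMk A.differentiable.differentiableOn
  have hΘc : ContDiffAt ℂ 1 Θ p := cd1_9491 hU hΘd hpU
  let e : (Fin m → ℂ) ≃L[ℂ] ((Fin k → ℂ) × (Fin n → ℂ)) :=
    (LinearEquiv.ofBijective ((L.prod A : (Fin m → ℂ) →L[ℂ] ((Fin k → ℂ) × (Fin n → ℂ))) :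
      (Fin m → ℂ) →ₗ[ℂ] ((Fin k → ℂ) × (Fin n → ℂ))) hbij).toContinuousLinearEquiv
  have he : (e : (Fin m → ℂ) →L[ℂ] ((Fin k → ℂ) × (Fin n → ℂ))) = L.prod A :=
    ContinuousLinearMap.ext fun _ => rfl
  have hΘ' : HasFDerivAt Θ (e : (Fin m → ℂ) →L[ℂ] ((Fin k → ℂ) × (Fin n → ℂ))) p := by
    rw [he]
    exact (hF.differentiableAt (hU.mem_nhds hpU)).hasFDerivAt.prodMk A.hasFDerivAt
  let φ := hΘc.toOpenPartialHomeomorph Θ hΘ' (by simp)
  have hφ : ∀ x, φ x = Θ x := fun x => rfl
  have hps : p ∈ φ.source := hΘc.mem_toOpenPartialHomeomorph_source hΘ' (by simp)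
  have hΘp : Θ p = (0, A p) := by
    show (F p, A p) = (0, A p)
    rw [hFp]
  have hpt : Θ p ∈ φ.target := φ.map_source hps
  have hsp : φ.symm (Θ p) = p := φ.left_inv hps
  have hinv : ContDiffAt ℂ 1 φ.symm (Θ p) := hΘc.to_localInverse hΘ' (by simp)
  have hev1 : ∀ᶠ y in 𝓝 (Θ p), DifferentiableAt ℂ φ.symm y := by
    filter_upwards [hinv.eventually (by simp)] with y hy
    exact hy.differentiableAt (by simp)
  have hev2 : ∀ᶠ y in 𝓝 (Θ p), y ∈ φ.target := φ.open_target.mem_nhds hpt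
  have hev3 : ∀ᶠ y in 𝓝 (Θ p), φ.symm y ∈ U ∩ N := by
    apply hinv.continuousAt.eventually_mem
    rw [hsp]
    exact Filter.inter_mem (hU.mem_nhds hpU) hN
  obtain ⟨ρ, hρ, hball⟩ := Metric.eventually_nhds_iff_ball.1 ((hev1.and hev2).and hev3)
  have hρc : (ρ : ℂ) ≠ 0 := by exact_mod_cast hρ.ne'
  have hnρ : ‖(ρ : ℂ)‖ = ρ := by rw [Complex.norm_real, Real.norm_of_nonneg hρ.le]
  have hmem : ∀ x ∈ ball (0 : Fin n → ℂ) 1,
      ((0 : Fin k → ℂ), A p + (ρ : ℂ) • x) ∈ ball (Θ p) ρ := by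
    intro x hx
    rw [mem_ball, hΘp, Prod.dist_eq, dist_self, max_lt_iff]
    refine ⟨hρ, ?_⟩
    rw [dist_eq_norm]
    simp only [add_sub_cancel_left]
    rw [norm_smul, hnρ]
    rw [mem_ball_zero_iff] at hx
    nlinarith
  set ψ : (Fin n → ℂ) → (Fin m → ℂ) := fun x => φ.symm ((0 : Fin k → ℂ), A p + (ρ : ℂ) • x) with hψ
  have hΘψ : ∀ x ∈ ball (0 : Fin n → ℂ) 1, Θ (ψ x) = ((0 : Fin k → ℂ), A p + (ρ : ℂ) • x) := by
    intro x hx
    exact φ.right_inv (hball _ (hmem x hx)).1.2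
  refine ⟨n, ψ, fun y => (ρ : ℂ)⁻¹ • (A y - A p), φ.source ∩ Θ ⁻¹' (ball (Θ p) ρ), ?_, ?_, ?_,
    ?_, ?_, ?_, ?_, ?_⟩
  · exact φ.isOpen_inter_preimage isOpen_ball
  · exact ⟨hps, mem_ball_self hρ⟩
  · rintro x ⟨hx1, hx2⟩
    have h1 := (hball _ hx2).2.2
    rwa [show φ.symm (Θ x) = x from φ.left_inv hx1] at h1
  · intro x hx
    have h1 := (hball _ (hmem x hx)).1.1
    have h2 : DifferentiableAt ℂ (fun x : Fin n → ℂ => ((0 : Fin k → ℂ), A p + (ρ : ℂ) • x)) x := by
      fun_prop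
    exact (DifferentiableAt.comp x h1 h2).differentiableWithinAt
  · show φ.symm ((0 : Fin k → ℂ), A p + (ρ : ℂ) • (0 : Fin n → ℂ)) = p
    rw [smul_zero, add_zero, ← hΘp, hsp]
  · apply Set.Subset.antisymm
    · rintro _ ⟨x, hx, rfl⟩
      have h1 := hball _ (hmem x hx)
      have h2 := hΘψ x hx
      have hF0 : F (ψ x) = 0 := congrArg Prod.fst h2
      refine ⟨?_, φ.map_target h1.1.2, ?_⟩
      · have h3 : ψ x ∈ U ∩ F ⁻¹' {0} := ⟨h1.2.1, hF0⟩
        rw [← hYU] at h3
        exact h3.1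
      · rw [Set.mem_preimage, h2]
        exact hmem x hx
    · rintro y ⟨hyY, hys, hyb⟩
      have h1 := (hball _ hyb).2.1
      rw [show φ.symm (Θ y) = y from φ.left_inv hys] at h1
      have hFy : F y = 0 := by
        have : y ∈ Y ∩ U := ⟨hyY, h1⟩
        rw [hYU] at this
        exact this.2
      have hΘy : Θ y = (0, A y) := by
        show (F y, A y) = (0, A y)
        rw [hFy]
      have h2 : ‖A y - A p‖ < ρ := by
        have h3 : Θ y ∈ ball (Θ p) ρ := hyb
        rw [mem_ball, hΘp, hΘy, Prod.dist_eq, max_lt_iff] at h3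
        rw [← dist_eq_norm]
        exact h3.2
      refine ⟨(ρ : ℂ)⁻¹ • (A y - A p), ?_, ?_⟩
      · rw [mem_ball_zero_iff, norm_smul, norm_inv, hnρ, inv_mul_lt_iff₀ hρ, mul_one]
        exact h2
      · show φ.symm ((0 : Fin k → ℂ), A p + (ρ : ℂ) • ((ρ : ℂ)⁻¹ • (A y - A p))) = y
        rw [smul_smul, mul_inv_cancel₀ hρc, one_smul, add_sub_cancel, ← hΘy]
        exact φ.left_inv hys
  · exact (by fun_prop : Continuous (fun y => (ρ : ℂ)⁻¹ • (A y - A p))).continuousOn
  · intro x hx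
    have h2 := hΘψ x hx
    have h3 : A (ψ x) = A p + (ρ : ℂ) • x := congrArg Prod.snd h2
    show (ρ : ℂ)⁻¹ • (A (ψ x) - A p) = x
    rw [h3, add_sub_cancel_left, smul_smul, inv_mul_cancel₀ hρc, one_smul]

end H113G
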