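import Pool.Agent.Helper113.Gorin.Defs

set_option autoImplicit false

open Metric Set Topology

namespace H113G



theorem HolOn.contOn {m : ℕ} {Y : Set (Fin m → ℂ)} {u : (Fin m → ℂ) → ℂ} (h : HolOn Y u) :
    ContinuousOn u Y := by
  intro p hp
  obtain ⟨U, hU, hpU, g, hg, hgu⟩ := h p hp
  have h1 : ContinuousWithinAt g Y p :=
    ((hg.differentiableAt (hU.mem_nhds hpU)).continuousAt).continuousWithinAt
  refine h1.congr_of_eventuallyEq ?_ (hgu p hp hpU).symm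
  filter_upwards [self_mem_nhdsWithin, mem_nhdsWithin_of_mem_nhds (hU.mem_nhds hpU)] with y h2 h3
  exact (hgu y h2 h3).symm

theorem HolOn.sub_const {m : ℕ} {Y : Set (Fin m → ℂ)} {u : (Fin m → ℂ) → ℂ} (h : HolOn Y u)
    (c : ℂ) : HolOn Y (fun y => u y - c) := by
  intro p hp
  obtain ⟨U, hU, hpU, g, hg, hgu⟩ := h p hp
  refine ⟨U, hU, hpU, fun y => g y - c, hg.sub_const c, ?_⟩
  intro y h1 h2
  simp only [hgu y h1 h2]

theorem poly_dense {k : ℕ} (D : MvPolynomial (Fin k) ℂ) (hD : D ≠ 0) :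
    Dense {v : Fin k → ℂ | MvPolynomial.eval v D ≠ 0} := by
  rw [dense_iff_inter_open]
  rintro W hW ⟨v, hv⟩
  by_contra hno
  rw [Set.not_nonempty_iff_eq_empty] at hno
  apply hD
  obtain ⟨ε, hε, hb⟩ := Metric.isOpen_iff.1 hW v hv
  apply MvPolynomial.funext_set (fun i => ball (v i) ε)
  · intro i
    exact infinite_of_mem_nhds (v i) (ball_mem_nhds _ hε)
  · intro x hx
    have hxW : x ∈ W := hb (by
      rw [mem_ball, dist_pi_lt_iff hε]
      intro i
      exact hx i trivial)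
    rw [map_zero]
    by_contra hne
    have : x ∈ W ∩ {v : Fin k → ℂ | MvPolynomial.eval v D ≠ 0} := ⟨hxW, hne⟩
    rw [hno] at this
    exact this

theorem sec_dense {m k e : ℕ} {Y : Set (Fin m → ℂ)} {pr : (Fin m → ℂ) → (Fin k → ℂ)}
    (hpr : Continuous pr)
    (hid : ∀ (u : (Fin m → ℂ) → ℂ), HolOn Y u → ∀ (N : Set (Fin m → ℂ)), IsOpen N →
      (Y ∩ N).Nonempty → (∀ y ∈ Y, y ∈ N → u y = 0) → ∀ y ∈ Y, u y = 0)
    {B : Set (Fin k → ℂ)} (hB : IsOpen B) (s : Fin e → (Fin k → ℂ) → (Fin m → ℂ))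
    (hs : ∀ i, ContinuousOn (s i) B)
    (hs2 : ∀ z' ∈ B, Function.Injective (fun i => s i z') ∧
        {y | y ∈ Y ∧ pr y = z'} = Set.range (fun i => s i z')) (i : Fin e)
    (u : (Fin m → ℂ) → ℂ) (hu : HolOn Y u) (c : ℂ) (hc : ∃ y ∈ Y, u y ≠ c)
    (W : Set (Fin k → ℂ)) (hW : IsOpen W) (hWB : W ⊆ B) (hne : W.Nonempty) :
    ∃ v ∈ W, u (s i v) ≠ c := by
  by_contra hall
  push Not at hall
  obtain ⟨v', hv'⟩ := hne
  have hmem : ∀ z' ∈ B, ∀ j, s j z' ∈ Y ∧ pr (s j z') = z' := by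
    intro z' hz' j
    have : s j z' ∈ {y | y ∈ Y ∧ pr y = z'} := by
      rw [(hs2 z' hz').2]
      exact ⟨j, rfl⟩
    exact this
  have hprv : pr (s i v') = v' := (hmem v' (hWB hv') i).2
  have h1 : ∀ᶠ y in 𝓝 (s i v'), pr y ∈ W := by
    apply hpr.continuousAt.eventually_mem
    rw [hprv]
    exact hW.mem_nhds hv'
  have h2 : ∀ᶠ y in 𝓝 (s i v'), ∀ j, j ≠ i → s j (pr y) ≠ y := by
    rw [Filter.eventually_all]
    intro j
    by_cases hj : j = i
    · exact Filter.Eventually.of_forall fun _ h => absurd hj h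
    · have hc1 : Filter.Tendsto (fun y => s j (pr y)) (𝓝 (s i v')) (𝓝 (s j v')) := by
        have h3 : ContinuousAt (s j) (pr (s i v')) := by
          rw [hprv]
          exact (hs j).continuousAt (hB.mem_nhds (hWB hv'))
        have h4 : Filter.Tendsto (fun y => s j (pr y)) (𝓝 (s i v')) (𝓝 (s j (pr (s i v')))) :=
          h3.comp hpr.continuousAt
        rwa [hprv] at h4
      have hne : s j v' ≠ s i v' := fun h => hj ((hs2 v' (hWB hv')).1 h)
      have hc2 : Filter.Tendsto (fun y => s j (pr y) - y) (𝓝 (s i v'))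
          (𝓝 (s j v' - s i v')) := hc1.sub Filter.tendsto_id
      filter_upwards [hc2.eventually_ne (sub_ne_zero.2 hne)] with y hy _
      exact sub_ne_zero.1 hy
  obtain ⟨N, hN, hNo, hNm⟩ := _root_.mem_nhds_iff.1 (h1.and h2)
  have key := hid (fun y => u y - c) (hu.sub_const c) N hNo
    ⟨s i v', (hmem v' (hWB hv') i).1, hNm⟩ (by
      intro y hy hyN
      obtain ⟨h3, h4⟩ := hN hyN
      have h5 : y ∈ {y' | y' ∈ Y ∧ pr y' = pr y} := ⟨hy, rfl⟩
      rw [(hs2 (pr y) (hWB h3)).2] at h5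
      obtain ⟨j, hj⟩ := h5
      have hj' : s j (pr y) = y := hj
      have hji : j = i := by
        by_contra hji
        exact h4 j hji hj'
      subst hji
      have h6 := hall (pr y) h3
      rw [hj'] at h6
      simp only [h6, sub_self])
  obtain ⟨y, hy, hyc⟩ := hc
  exact hyc (sub_eq_zero.1 (key y hy))

theorem choose_v {m k e : ℕ} (Y : Set (Fin m → ℂ)) (pr : (Fin m → ℂ) → (Fin k → ℂ))
    (δ : MvPolynomial (Fin k) ℂ) (h : Cov Y pr δ e)
    (hid : ∀ (u : (Fin m → ℂ) → ℂ), HolOn Y u → ∀ (N : Set (Fin m → ℂ)), IsOpen N →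
      (Y ∩ N).Nonempty → (∀ y ∈ Y, y ∈ N → u y = 0) → ∀ y ∈ Y, u y = 0)
    (D : MvPolynomial (Fin k) ℂ) (hD : D ≠ 0) (y₀ : Fin m → ℂ) (hy₀ : y₀ ∈ Y)
    (hp : pr y₀ = 0) {ι : Type} [Countable ι] (U : ι → (Fin m → ℂ) → ℂ)
    (hU : ∀ b, HolOn Y (U b)) (hnc : ∀ b, ∃ y ∈ Y, U b y ≠ U b y₀) :
    ∃ v : Fin k → ℂ, MvPolynomial.eval v D ≠ 0 ∧ ∃ r₀ : ℝ, 0 < r₀ ∧
      ∃ σ₀ : ℂ → (Fin m → ℂ), LSec Y pr v (ball 0 r₀) σ₀ ∧ σ₀ 0 = y₀ ∧
        (∀ t ∈ ball (0 : ℂ) r₀, MvPolynomial.eval (t • v) δ ≠ 0) ∧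
        ∀ b, ∃ t ∈ ball (0 : ℂ) r₀, U b (σ₀ t) ≠ U b y₀ := by
  obtain ⟨r, hr, s, hs, hs2⟩ := h.sections 0 h.base
  set B : Set (Fin k → ℂ) := ball 0 r with hBdef
  have hBo : IsOpen B := isOpen_ball
  have hmem : ∀ z' ∈ B, ∀ j, s j z' ∈ Y ∧ pr (s j z') = z' := by
    intro z' hz' j
    have : s j z' ∈ {y | y ∈ Y ∧ pr y = z'} := by
      rw [(hs2 z' hz').2.2]
      exact ⟨j, rfl⟩
    exact this
  have h0B : (0 : Fin k → ℂ) ∈ B := mem_ball_self hr
  obtain ⟨i, hi⟩ : ∃ i, s i 0 = y₀ := by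
    have : y₀ ∈ {y | y ∈ Y ∧ pr y = 0} := ⟨hy₀, hp⟩
    rw [(hs2 0 h0B).2.2] at this
    obtain ⟨i, hi⟩ := this
    exact ⟨i, hi⟩
  have hsc : ∀ j, ContinuousOn (s j) B := fun j => (hs j).continuousOn
  have hUc : ∀ b, ContinuousOn (fun v => U b (s i v)) B := fun b =>
    (hU b).contOn.comp (hsc i) fun z hz => (hmem z hz i).1
  -- the open sets
  let O : ι → Set (Fin k → ℂ) := fun b => B ∩ (fun v => U b (s i v)) ⁻¹' {U b y₀}ᶜ
  have hO : ∀ b, IsOpen (O b) := fun b =>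
    (hUc b).isOpen_inter_preimage hBo isOpen_compl_singleton
  have hOd : ∀ b, ∀ W : Set (Fin k → ℂ), IsOpen W → W ⊆ B → W.Nonempty → (W ∩ O b).Nonempty := by
    intro b W hW hWB hWne
    obtain ⟨v, hv, hne⟩ := sec_dense h.diff.continuous hid hBo s hsc
      (fun z hz => ⟨(hs2 z hz).2.1, (hs2 z hz).2.2⟩) i (U b) (hU b) (U b y₀) (hnc b) W hW hWB hWne
    exact ⟨v, hv, hWB hv, hne⟩
  let G : Option ι → Set (Fin k → ℂ) := fun o => match o with
    | none => {v | MvPolynomial.eval v D ≠ 0}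
    | some b => O b ∪ (closure B)ᶜ
  have hGo : ∀ o, IsOpen (G o) := by
    intro o
    cases o with
    | none =>
      exact isOpen_compl_singleton.preimage (MvPolynomial.continuous_eval D)
    | some b => exact (hO b).union isClosed_closure.isOpen_compl
  have hGd : ∀ o, Dense (G o) := by
    intro o
    cases o with
    | none => exact poly_dense D hD
    | some b =>
      rw [dense_iff_inter_open]
      intro W hW hWne
      by_cases hWc : W ⊆ closure B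
      · obtain ⟨w, hw⟩ := hWne
        have h1 : (W ∩ B).Nonempty := mem_closure_iff.1 (hWc hw) W hW hw
        obtain ⟨v, ⟨hv1, hv2⟩⟩ := hOd b (W ∩ B) (hW.inter hBo) inter_subset_right h1
        exact ⟨v, hv1.1, Or.inl hv2⟩
      · obtain ⟨w, hw, hwc⟩ := Set.not_subset.1 hWc
        exact ⟨w, hw, Or.inr hwc⟩
  have hdense := dense_iInter_of_isOpen hGo hGd
  obtain ⟨v, hvB, hvG⟩ := hdense.inter_open_nonempty B hBo ⟨0, h0B⟩
  rw [mem_iInter] at hvG
  have hvD : MvPolynomial.eval v D ≠ 0 := hvG none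
  have hvO : ∀ b, U b (s i v) ≠ U b y₀ := by
    intro b
    rcases hvG (some b) with h1 | h1
    · exact h1.2
    · exact absurd (subset_closure hvB) h1
  have hvn : ‖v‖ < r := by simpa [hBdef] using hvB
  -- the radius
  have hr' : 0 < (‖v‖ + r) / 2 := by have := norm_nonneg v; linarith
  have hr1 : 1 < r / ((‖v‖ + r) / 2) := by
    rw [one_lt_div hr']
    linarith
  have hball : ∀ t ∈ ball (0 : ℂ) (r / ((‖v‖ + r) / 2)), t • v ∈ B := by
    intro t ht
    rw [mem_ball_zero_iff] at ht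
    rw [hBdef, mem_ball_zero_iff, norm_smul]
    have h1 : ‖t‖ * ((‖v‖ + r) / 2) < r := by rwa [lt_div_iff₀ hr'] at ht
    have h2 : ‖t‖ * ‖v‖ ≤ ‖t‖ * ((‖v‖ + r) / 2) :=
      mul_le_mul_of_nonneg_left (by linarith) (norm_nonneg _)
    linarith
  refine ⟨v, hvD, r / ((‖v‖ + r) / 2), by linarith, fun t => s i (t • v), ⟨?_, ?_⟩, ?_, ?_, ?_⟩
  · exact (hs i).comp (differentiable_id.smul_const v).differentiableOn hball
  · intro t ht
    exact hmem _ (hball t ht) i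
  · simp only [zero_smul, hi]
  · intro t ht
    exact (hs2 _ (hball t ht)).1
  · intro b
    refine ⟨1, ?_, ?_⟩
    · rw [mem_ball_zero_iff, norm_one]
      exact hr1
    · simp only [one_smul]
      exact hvO b

end H113G
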