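import Pool.Agent.Helper113.Gorin.Defs

set_option autoImplicit false

open Metric Set Topology

namespace H113G




theorem hasStrictFDerivAt_eval {τ : Type} [Fintype τ] [DecidableEq τ] (P : MvPolynomial τ ℂ)
    (z : τ → ℂ) :
    HasStrictFDerivAt (fun x : τ → ℂ => MvPolynomial.eval x P)
      (∑ j, MvPolynomial.eval z (MvPolynomial.pderiv j P) •
        (ContinuousLinearMap.proj j : (τ → ℂ) →L[ℂ] ℂ)) z := by
  induction P using MvPolynomial.induction_on with
  | C a =>
    have e : (∑ j, MvPolynomial.eval z (MvPolynomial.pderiv j (MvPolynomial.C a)) •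
        (ContinuousLinearMap.proj j : (τ → ℂ) →L[ℂ] ℂ)) = 0 := by
      refine ContinuousLinearMap.ext fun v => ?_
      simp
    rw [e]
    simp only [MvPolynomial.eval_C]
    exact hasStrictFDerivAt_const a z
  | add p q hp hq =>
    have h := hp.add hq
    have e : (∑ j, MvPolynomial.eval z (MvPolynomial.pderiv j (p + q)) •
        (ContinuousLinearMap.proj j : (τ → ℂ) →L[ℂ] ℂ)) =
        (∑ j, MvPolynomial.eval z (MvPolynomial.pderiv j p) •
        (ContinuousLinearMap.proj j : (τ → ℂ) →L[ℂ] ℂ)) +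
        (∑ j, MvPolynomial.eval z (MvPolynomial.pderiv j q) •
        (ContinuousLinearMap.proj j : (τ → ℂ) →L[ℂ] ℂ)) := by
      refine ContinuousLinearMap.ext fun v => ?_
      simp [add_mul, Finset.sum_add_distrib]
    rw [e]
    refine h.congr_of_eventuallyEq (Filter.Eventually.of_forall fun x => ?_)
    simp
  | mul_X p i hp =>
    have hX : HasStrictFDerivAt (fun x : τ → ℂ => x i)
        (ContinuousLinearMap.proj i : (τ → ℂ) →L[ℂ] ℂ) z :=
      (ContinuousLinearMap.proj i : (τ → ℂ) →L[ℂ] ℂ).hasStrictFDerivAt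
    have h := hp.mul hX
    have e : (∑ j, MvPolynomial.eval z (MvPolynomial.pderiv j (p * MvPolynomial.X i)) •
        (ContinuousLinearMap.proj j : (τ → ℂ) →L[ℂ] ℂ)) =
        MvPolynomial.eval z p • (ContinuousLinearMap.proj i : (τ → ℂ) →L[ℂ] ℂ) + z i •
        (∑ j, MvPolynomial.eval z (MvPolynomial.pderiv j p) •
        (ContinuousLinearMap.proj j : (τ → ℂ) →L[ℂ] ℂ)) := by
      refine ContinuousLinearMap.ext fun v => ?_
      have e1 : ∀ j, MvPolynomial.eval z (MvPolynomial.pderiv j (p * MvPolynomial.X i)) * v j =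
        (if i = j then MvPolynomial.eval z p * v i
          else 0) + z i * (MvPolynomial.eval z (MvPolynomial.pderiv j p) * v j) := by
        intro j
        rw [MvPolynomial.pderiv_mul, MvPolynomial.pderiv_X, map_add, map_mul, map_mul,
          MvPolynomial.eval_X]
        by_cases hij : i = j
        · subst hij
          simp
          ring
        · rw [if_neg hij, Pi.single_apply, if_neg hij]
          simp
          ring
      have e2 : (∑ j, MvPolynomial.eval z (MvPolynomial.pderiv j (p * MvPolynomial.X i)) •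
        (ContinuousLinearMap.proj j : (τ → ℂ) →L[ℂ] ℂ)) v =
        ∑ j, MvPolynomial.eval z (MvPolynomial.pderiv j (p * MvPolynomial.X i)) * v j := by
        simp
      have e3 : (MvPolynomial.eval z p • (ContinuousLinearMap.proj i : (τ → ℂ) →L[ℂ] ℂ) + z i •
        (∑ j, MvPolynomial.eval z (MvPolynomial.pderiv j p) •
        (ContinuousLinearMap.proj j : (τ → ℂ) →L[ℂ] ℂ))) v =
        MvPolynomial.eval z p * v i + z i *
        (∑ j, MvPolynomial.eval z (MvPolynomial.pderiv j p) * v j) := by
        simp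
      rw [e2, e3, Finset.sum_congr rfl (fun j _ => e1 j), Finset.sum_add_distrib,
        ← Finset.mul_sum, Finset.sum_ite_eq]
      simp
    rw [e]
    refine h.congr_of_eventuallyEq (Filter.Eventually.of_forall fun x => ?_)
    simp

theorem exists_sep {τ : Type} [Fintype τ] [DecidableEq τ] {N : ℕ}
    (z : Fin N → τ → ℂ) (hz : Function.Injective z) :
    ∃ c : τ → ℂ, Function.Injective (fun i => ∑ j, c j * z i j) := by
  classical
  let P : MvPolynomial τ ℂ := ∏ p ∈ (Finset.univ : Finset (Fin N × Fin N)).filter (fun p => p.1 ≠ p.2),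
    ∑ j, MvPolynomial.C (z p.1 j - z p.2 j) * MvPolynomial.X j
  have hP : P ≠ 0 := by
    refine Finset.prod_ne_zero_iff.2 fun p hp h0 => ?_
    rw [Finset.mem_filter] at hp
    refine hp.2 (hz (funext fun j => ?_))
    have := congrArg (fun q => MvPolynomial.eval (Pi.single j (1 : ℂ)) q) h0
    simp only [map_sum, map_mul, MvPolynomial.eval_C, MvPolynomial.eval_X, map_zero] at this
    rw [Finset.sum_eq_single j] at this
    · simpa [sub_eq_zero] using this
    · intro b _ hb
      rw [Pi.single_apply, if_neg hb, mul_zero]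
    · intro h; exact absurd (Finset.mem_univ j) h
  by_contra hcon
  push Not at hcon
  refine hP (MvPolynomial.funext fun c => ?_)
  rw [map_zero]
  have h1 := hcon c
  rw [Function.Injective] at h1
  push Not at h1
  obtain ⟨i, k, hik, hne⟩ := h1
  simp only [P, map_prod]
  refine Finset.prod_eq_zero (i := (i, k)) (Finset.mem_filter.2 ⟨Finset.mem_univ _, hne⟩) ?_
  simp only [map_sum, map_mul, MvPolynomial.eval_C, MvPolynomial.eval_X]
  have : ∑ j, (z i j - z k j) * c j = (∑ j, c j * z i j) - ∑ j, c j * z k j := by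
    rw [← Finset.sum_sub_distrib]
    exact Finset.sum_congr rfl fun j _ => by ring
  rw [this]
  simpa [sub_eq_zero] using hik

theorem exists_rel {τ : Type} [Fintype τ] [DecidableEq τ]
    (Q : τ → MvPolynomial τ ℂ) (hdeg : ∀ α, (Q α).totalDegree ≤ 3) (g : MvPolynomial τ ℂ)
    (hg : g.totalDegree ≤ 1) (M : ℕ) (hM : M = (3 * Fintype.card τ + 1) ^ Fintype.card τ) :
    ∃ c : ((τ → Fin (M + 1)) × Fin (M + 1)) → ℂ, c ≠ 0 ∧
      ∑ ab, MvPolynomial.C (c ab) * ((∏ a, Q a ^ (ab.1 a : ℕ)) * g ^ (ab.2 : ℕ)) = 0 := by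
  classical
  set d := Fintype.card τ with hd
  set n := (3 * d + 1) * M with hn
  let L : (((τ → Fin (M + 1)) × Fin (M + 1)) → ℂ) →ₗ[ℂ] ((τ → Fin (n + 1)) → ℂ) :=
    { toFun := fun c s => MvPolynomial.coeff (Finsupp.equivFunOnFinite.symm fun j => (s j : ℕ))
        (∑ ab, MvPolynomial.C (c ab) * ((∏ a, Q a ^ (ab.1 a : ℕ)) * g ^ (ab.2 : ℕ)))
      map_add' := by
        intro c c'
        funext s
        simp only [Pi.add_apply, MvPolynomial.C_add, add_mul, Finset.sum_add_distrib,
          MvPolynomial.coeff_add]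
      map_smul' := by
        intro r c
        funext s
        simp only [Pi.smul_apply, smul_eq_mul, MvPolynomial.C_mul, mul_assoc, RingHom.id_apply]
        rw [← Finset.mul_sum, MvPolynomial.coeff_C_mul] }
  have hcard : Module.finrank ℂ ((τ → Fin (n + 1)) → ℂ) <
      Module.finrank ℂ (((τ → Fin (M + 1)) × Fin (M + 1)) → ℂ) := by
    rw [Module.finrank_fintype_fun_eq_card, Module.finrank_fintype_fun_eq_card]
    simp only [Fintype.card_fun, Fintype.card_fin, Fintype.card_prod]
    rw [← hd]
    have h1 : n + 1 ≤ (3 * d + 1) * (M + 1) := by rw [hn]; nlinarith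
    calc (n + 1) ^ d ≤ ((3 * d + 1) * (M + 1)) ^ d := Nat.pow_le_pow_left h1 d
      _ = (M + 1) ^ d * M := by rw [mul_pow, ← hM, mul_comm]
      _ < (M + 1) ^ d * (M + 1) := by
          refine Nat.mul_lt_mul_of_pos_left (Nat.lt_succ_self M) (by positivity)
  have hker := LinearMap.ker_ne_bot_of_finrank_lt (f := L) hcard
  obtain ⟨c, hc, hc0⟩ := (Submodule.ne_bot_iff _).1 hker
  refine ⟨c, hc0, ?_⟩
  rw [LinearMap.mem_ker] at hc
  ext s
  rw [MvPolynomial.coeff_zero]
  by_cases hs : ∀ j, s j ≤ n
  · have := congrFun hc (fun j => ⟨s j, Nat.lt_succ_of_le (hs j)⟩)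
    simp only [L, LinearMap.coe_mk, AddHom.coe_mk, Pi.zero_apply] at this
    rw [← this]
    congr 1
    ext j
    simp
  · push Not at hs
    obtain ⟨j, hj⟩ := hs
    apply MvPolynomial.coeff_eq_zero_of_totalDegree_lt
    refine lt_of_le_of_lt ?_ (lt_of_lt_of_le hj ?_)
    · refine MvPolynomial.totalDegree_finsetSum_le fun ab _ => ?_
      refine (MvPolynomial.totalDegree_mul _ _).trans ?_
      rw [MvPolynomial.totalDegree_C, zero_add]
      refine (MvPolynomial.totalDegree_mul _ _).trans ?_
      have h1 : (∏ a, Q a ^ (ab.1 a : ℕ)).totalDegree ≤ 3 * d * M := by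
        refine (MvPolynomial.totalDegree_finsetProd _ _).trans ?_
        refine (Finset.sum_le_sum (g := fun _ => 3 * M) fun a _ => ?_).trans ?_
        · refine (MvPolynomial.totalDegree_pow _ _).trans ?_
          have h2 : (ab.1 a : ℕ) ≤ M := Nat.le_of_lt_succ (ab.1 a).2
          have h3 := hdeg a
          nlinarith
        · rw [Finset.sum_const, Finset.card_univ, smul_eq_mul, ← hd]
          nlinarith
      have h4 : (g ^ (ab.2 : ℕ)).totalDegree ≤ M := by
        refine (MvPolynomial.totalDegree_pow _ _).trans ?_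
        have h2 : (ab.2 : ℕ) ≤ M := Nat.le_of_lt_succ ab.2.2
        nlinarith
      rw [hn]
      nlinarith
    · by_cases hjs : j ∈ s.support
      · exact Finset.single_le_sum (f := fun i => s i) (fun i _ => Nat.zero_le _) hjs
      · rw [Finsupp.notMem_support_iff] at hjs
        omega


theorem count_square {τ : Type} [Fintype τ] [DecidableEq τ] {N : ℕ}
    (Q : τ → MvPolynomial τ ℂ) (hdeg : ∀ α, (Q α).totalDegree ≤ 3)
    (z : Fin N → τ → ℂ) (hz : Function.Injective z)
    (h0 : ∀ i α, MvPolynomial.eval (z i) (Q α) = 0)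
    (hnd : ∀ i, ∀ ξ : τ → ℂ,
      (∀ α, ∑ j, ξ j * MvPolynomial.eval (z i) (MvPolynomial.pderiv j (Q α)) = 0) → ξ = 0) :
    N ≤ (3 * Fintype.card τ + 1) ^ Fintype.card τ := by
  classical
  obtain ⟨c, hc⟩ := exists_sep z hz
  set M := (3 * Fintype.card τ + 1) ^ Fintype.card τ with hM
  let g : MvPolynomial τ ℂ := ∑ j, MvPolynomial.C (c j) * MvPolynomial.X j
  have hgdeg : g.totalDegree ≤ 1 := by
    refine MvPolynomial.totalDegree_finsetSum_le fun j _ => ?_
    refine (MvPolynomial.totalDegree_mul _ _).trans ?_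
    rw [MvPolynomial.totalDegree_C, MvPolynomial.totalDegree_X]
  have hgeval : ∀ x : τ → ℂ, MvPolynomial.eval x g = ∑ j, c j * x j := by
    intro x
    simp [g]
  obtain ⟨cc, hcc0, hrel⟩ := exists_rel Q hdeg g hgdeg M hM
  -- a nonvanishing coefficient
  obtain ⟨⟨α0, b0⟩, hab⟩ : ∃ ab, cc ab ≠ 0 := by
    by_contra hh
    push Not at hh
    exact hcc0 (funext hh)
  let Pi0 : MvPolynomial τ ℂ := ∑ α : τ → Fin (M + 1),
    MvPolynomial.monomial (Finsupp.equivFunOnFinite.symm fun j => (α j : ℕ)) (cc (α, b0))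
  have hPi0 : Pi0 ≠ 0 := by
    intro h
    have h1 := congrArg (MvPolynomial.coeff (Finsupp.equivFunOnFinite.symm fun j => (α0 j : ℕ))) h
    rw [MvPolynomial.coeff_zero, MvPolynomial.coeff_sum, Finset.sum_eq_single α0] at h1
    · rw [MvPolynomial.coeff_monomial, if_pos rfl] at h1
      exact hab h1
    · intro β _ hβ
      rw [MvPolynomial.coeff_monomial, if_neg]
      intro he
      apply hβ
      have := Finsupp.equivFunOnFinite.symm.injective he
      funext j
      exact Fin.ext (congrFun this j)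
    · intro h; exact absurd (Finset.mem_univ _) h
  -- the local surjectivity
  let F : (τ → ℂ) → (τ → ℂ) := fun x a => MvPolynomial.eval x (Q a)
  have hF : ∀ i, Filter.map F (𝓝 (z i)) = 𝓝 (0 : τ → ℂ) := by
    intro i
    let F' : (τ → ℂ) →L[ℂ] (τ → ℂ) := ContinuousLinearMap.pi fun a =>
      ∑ j, MvPolynomial.eval (z i) (MvPolynomial.pderiv j (Q a)) •
        (ContinuousLinearMap.proj j : (τ → ℂ) →L[ℂ] ℂ)
    have h1 : HasStrictFDerivAt F F' (z i) := by
      refine hasStrictFDerivAt_pi.2 fun a => ?_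
      exact hasStrictFDerivAt_eval (Q a) (z i)
    have hinj : Function.Injective (F' : (τ → ℂ) →ₗ[ℂ] (τ → ℂ)) := by
      rw [← LinearMap.ker_eq_bot, LinearMap.ker_eq_bot']
      intro ξ hξ
      apply hnd i ξ
      intro a
      have := congrFun hξ a
      simp only [F', ContinuousLinearMap.coe_coe, ContinuousLinearMap.coe_pi',
        Pi.zero_apply] at this
      rw [← this]
      simp [mul_comm]
    have hsurj : Function.Surjective (F' : (τ → ℂ) →ₗ[ℂ] (τ → ℂ)) :=
      LinearMap.injective_iff_surjective.1 hinj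
    have h2 := h1.map_nhds_eq_of_surj (LinearMap.range_eq_top.2 hsurj)
    have h3 : F (z i) = 0 := funext fun a => h0 i a
    rw [h3] at h2
    exact h2
  -- neighbourhoods
  have hcont : Continuous (fun x : τ → ℂ => ∑ j, c j * x j) := by fun_prop
  have hT : ∃ U : Fin N → Set ℂ, (∀ i, U i ∈ 𝓝 (∑ j, c j * z i j)) ∧
      ∀ i k, i ≠ k → Disjoint (U i) (U k) := by
    obtain ⟨U, hU1, hU2⟩ := Set.Finite.t2_separation (Set.finite_range fun i : Fin N => ∑ j, c j * z i j)
    refine ⟨fun i => U (∑ j, c j * z i j), fun i => (hU1 _).2.mem_nhds (hU1 _).1, fun i k hik => ?_⟩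
    exact hU2 (Set.mem_range_self i) (Set.mem_range_self k) (fun h => hik (hc h))
  obtain ⟨U, hU, hdisj⟩ := hT
  have hyev : ∀ᶠ y in 𝓝 (0 : τ → ℂ), ∀ i, ∃ x, F x = y ∧ (∑ j, c j * x j) ∈ U i := by
    rw [Filter.eventually_all]
    intro i
    rw [← hF i, Filter.eventually_map]
    have : ∀ᶠ x in 𝓝 (z i), (∑ j, c j * x j) ∈ U i := hcont.continuousAt.eventually (hU i)
    filter_upwards [this] with x hx
    exact ⟨x, rfl, hx⟩
  obtain ⟨r, hr, hball⟩ := Metric.eventually_nhds_iff_ball.1 hyev
  obtain ⟨y, hy, hyne⟩ : ∃ y ∈ ball (0 : τ → ℂ) r, MvPolynomial.eval y Pi0 ≠ 0 := by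
    by_contra hh
    push Not at hh
    refine hPi0 (MvPolynomial.funext_set (fun _ : τ => ball (0 : ℂ) (r / 2)) (fun _ => ?_) fun x hx => ?_)
    · exact infinite_of_mem_nhds (0 : ℂ) (ball_mem_nhds _ (by positivity))
    · rw [map_zero]
      apply hh
      rw [mem_ball_zero_iff]
      refine lt_of_le_of_lt ((pi_norm_le_iff_of_nonneg (by positivity : (0 : ℝ) ≤ r / 2)).2 fun j => ?_)
        (by linarith : r / 2 < r)
      have := hx j (Set.mem_univ j)
      rw [mem_ball_zero_iff] at this
      exact this.le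
  choose x hx1 hx2 using hball y hy
  -- the polynomial in T
  let p : Polynomial ℂ := ∑ b : Fin (M + 1), Polynomial.monomial (b : ℕ)
    (∑ α : τ → Fin (M + 1), cc (α, b) * ∏ a, y a ^ (α a : ℕ))
  have hp0 : p ≠ 0 := by
    intro h
    have h1 := congrArg (fun q => Polynomial.coeff q (b0 : ℕ)) h
    simp only [p, Polynomial.finsetSum_coeff, Polynomial.coeff_monomial, Polynomial.coeff_zero] at h1
    rw [Finset.sum_eq_single b0] at h1
    · rw [if_pos rfl] at h1
      apply hyne
      rw [← h1]
      simp only [Pi0, map_sum, MvPolynomial.eval_monomial]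
      refine Finset.sum_congr rfl fun α _ => ?_
      congr 1
      rw [Finsupp.prod_fintype _ _ (fun i => pow_zero _)]
      rfl
    · intro b _ hb
      rw [if_neg]
      intro he
      exact hb (Fin.ext he)
    · intro h; exact absurd (Finset.mem_univ _) h
  have hpdeg : p.natDegree ≤ M := by
    refine Polynomial.natDegree_sum_le_of_forall_le _ _ fun b _ => ?_
    exact (Polynomial.natDegree_monomial_le _).trans (Nat.le_of_lt_succ b.2)
  have hroot : ∀ i, p.eval (∑ j, c j * x i j) = 0 := by
    intro i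
    have h1 := congrArg (MvPolynomial.eval (x i)) hrel
    rw [map_zero, map_sum] at h1
    rw [← h1, Fintype.sum_prod_type_right]
    simp only [p, Polynomial.eval_finsetSum, Polynomial.eval_monomial]
    refine Finset.sum_congr rfl fun b _ => ?_
    rw [Finset.sum_mul]
    refine Finset.sum_congr rfl fun α _ => ?_
    rw [map_mul, map_mul, MvPolynomial.eval_C, map_pow, map_prod, hgeval, mul_assoc]
    congr 2
    refine Finset.prod_congr rfl fun a _ => ?_
    rw [map_pow]
    congr 1
    exact (congrFun (hx1 i) a).symm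
  have hinj : Function.Injective (fun i : Fin N => ∑ j, c j * x i j) := by
    intro i k hik
    by_contra hne
    have h1 := hdisj i k hne
    refine Set.disjoint_left.1 h1 (hx2 i) ?_
    simp only at hik
    rw [hik]
    exact hx2 k
  have hsub : (Finset.univ.image (fun i : Fin N => ∑ j, c j * x i j)) ⊆ p.roots.toFinset := by
    intro w hw
    rw [Finset.mem_image] at hw
    obtain ⟨i, _, rfl⟩ := hw
    rw [Multiset.mem_toFinset, Polynomial.mem_roots hp0]
    exact hroot i
  calc N = (Finset.univ.image (fun i : Fin N => ∑ j, c j * x i j)).card := by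
        rw [Finset.card_image_of_injective _ hinj, Finset.card_fin]
    _ ≤ p.roots.toFinset.card := Finset.card_le_card hsub
    _ ≤ Multiset.card p.roots := Multiset.toFinset_card_le _
    _ ≤ p.natDegree := Polynomial.card_roots' p
    _ ≤ M := hpdeg

end H113G
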