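import Pool.Agent.Helper113.Gorin.Defs

set_option autoImplicit false

open Metric Set Topology

namespace H113G




lemma mvdiff_9489 {m : ℕ} (q : MvPolynomial (Fin m) ℂ) :
    Differentiable ℂ (fun y : Fin m → ℂ => MvPolynomial.eval y q) := by
  induction q using MvPolynomial.induction_on with
  | C c => simp
  | add p q hp hq =>
    have h2 := hp.fun_add hq
    simp only [map_add]
    exact h2
  | mul_X p i hp =>
    have h1 : Differentiable ℂ (fun y : Fin m → ℂ => y i) := differentiable_apply i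
    have h2 := hp.fun_mul h1
    simp only [map_mul, MvPolynomial.eval_X]
    exact h2

lemma mvexists_9489 {k : ℕ} (q : MvPolynomial (Fin k) ℂ) (hq : q ≠ 0) :
    ∃ z : Fin k → ℂ, MvPolynomial.eval z q ≠ 0 := by
  by_contra hcon
  push Not at hcon
  apply hq
  apply MvPolynomial.funext
  intro x
  simpa using hcon x

lemma evalshift_9489 {k : ℕ} (w : Fin k → ℂ) (q : MvPolynomial (Fin k) ℂ) (z : Fin k → ℂ) :
    MvPolynomial.eval z (MvPolynomial.aeval
      (fun i => (MvPolynomial.X i + MvPolynomial.C (w i) : MvPolynomial (Fin k) ℂ)) q) =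
    MvPolynomial.eval (z + w) q := by
  induction q using MvPolynomial.induction_on with
  | C c => simp
  | add p q hp hq => rw [map_add, map_add, map_add, hp, hq]
  | mul_X p i hp =>
    rw [map_mul, map_mul, map_mul, hp, MvPolynomial.aeval_X, MvPolynomial.eval_X, map_add,
      MvPolynomial.eval_X, MvPolynomial.eval_C, Pi.add_apply]

lemma rootbound_9489 (p : Polynomial ℂ) (hp : p.Monic) (x : ℂ) (hx : p.eval x = 0) :
    ‖x‖ ≤ 1 + ∑ i ∈ Finset.range p.natDegree, ‖p.coeff i‖ := by
  by_cases h1 : ‖x‖ ≤ 1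
  · have : 0 ≤ ∑ i ∈ Finset.range p.natDegree, ‖p.coeff i‖ :=
      Finset.sum_nonneg (fun i _ => norm_nonneg _)
    linarith
  · push Not at h1
    have hx0 : 0 < ‖x‖ := by linarith
    rw [Polynomial.eval_eq_sum_range, Finset.sum_range_succ, hp.coeff_natDegree, one_mul] at hx
    have h2 : x ^ p.natDegree = - ∑ i ∈ Finset.range p.natDegree, p.coeff i * x ^ i := by
      linear_combination hx
    have hn : p.natDegree ≠ 0 := by
      intro h0
      rw [h0] at hx
      simp at hx
    obtain ⟨n, hn'⟩ := Nat.exists_eq_succ_of_ne_zero hn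
    have h3 : ‖x‖ ^ p.natDegree ≤
        ∑ i ∈ Finset.range p.natDegree, ‖p.coeff i‖ * ‖x‖ ^ n := by
      rw [← norm_pow, h2, norm_neg]
      refine (norm_sum_le _ _).trans (Finset.sum_le_sum ?_)
      intro i hi
      rw [norm_mul, norm_pow]
      apply mul_le_mul_of_nonneg_left _ (norm_nonneg _)
      apply pow_le_pow_right₀ h1.le
      have := Finset.mem_range.mp hi
      omega
    rw [← Finset.sum_mul, hn', pow_succ] at h3
    have h4 : 0 < ‖x‖ ^ n := pow_pos hx0 n
    have h5 : ‖x‖ ≤ ∑ i ∈ Finset.range p.natDegree, ‖p.coeff i‖ := by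
      rw [hn']
      have h6 : ‖x‖ * ‖x‖ ^ n ≤ (∑ i ∈ Finset.range (n + 1), ‖p.coeff i‖) * ‖x‖ ^ n := by
        simpa [mul_comm] using h3
      exact le_of_mul_le_mul_right h6 h4
    linarith

theorem cov_of_data {m k : ℕ} (Y : Set (Fin m → ℂ)) (hcl : IsClosed Y) (hne : Y.Nonempty)
    (π : Fin k → MvPolynomial (Fin m) ℂ) (Θ : MvPolynomial (Fin m) ℂ)
    (P : Polynomial (MvPolynomial (Fin k) ℂ)) (hP : P.Monic)
    (U V : Polynomial (MvPolynomial (Fin k) ℂ)) (d : MvPolynomial (Fin k) ℂ) (hd : d ≠ 0)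
    (hUV : U * P + V * Polynomial.derivative P = Polynomial.C d)
    (hrel : ∀ y ∈ Y, (P.map (MvPolynomial.eval (fun i => MvPolynomial.eval y (π i)))).eval
        (MvPolynomial.eval y Θ) = 0)
    (a : MvPolynomial (Fin k) ℂ) (Q : Fin m → Polynomial (MvPolynomial (Fin k) ℂ)) (ha : a ≠ 0)
    (hQ : ∀ y ∈ Y, ∀ j, MvPolynomial.eval (fun i => MvPolynomial.eval y (π i)) a * y j =
          ((Q j).map (MvPolynomial.eval (fun i => MvPolynomial.eval y (π i)))).eval
            (MvPolynomial.eval y Θ))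
    (hdom : ∀ D : MvPolynomial (Fin k) ℂ, D ≠ 0 →
        ∃ y ∈ Y, MvPolynomial.eval (fun i => MvPolynomial.eval y (π i)) D ≠ 0)
    (hint : ∀ j : Fin m, ∃ R : Polynomial (MvPolynomial (Fin k) ℂ), R.Monic ∧
        ∀ y ∈ Y, (R.map (MvPolynomial.eval (fun i => MvPolynomial.eval y (π i)))).eval
          (y j) = 0)
    (hsurj : ∀ (z : Fin k → ℂ) (ρ : ℂ), (P.map (MvPolynomial.eval z)).eval ρ = 0 →
        ∃ y ∈ Y, (∀ i, MvPolynomial.eval y (π i) = z i) ∧ MvPolynomial.eval y Θ = ρ)
    (hroots : ∀ z₀ : Fin k → ℂ, (∀ ρ : ℂ, (P.map (MvPolynomial.eval z₀)).eval ρ = 0 →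
      ((Polynomial.derivative P).map (MvPolynomial.eval z₀)).eval ρ ≠ 0) →
      ∃ r : ℝ, 0 < r ∧ ∃ ρ : Fin P.natDegree → (Fin k → ℂ) → ℂ,
      (∀ i, DifferentiableOn ℂ (ρ i) (ball z₀ r)) ∧
      ∀ z ∈ ball z₀ r, Function.Injective (fun i => ρ i z) ∧
        {x : ℂ | (P.map (MvPolynomial.eval z)).eval x = 0} = Set.range (fun i => ρ i z)) :
    ∃ (pr : (Fin m → ℂ) → (Fin k → ℂ)) (δ : MvPolynomial (Fin k) ℂ) (e : ℕ),
      0 < e ∧ Cov Y pr δ e := by
  obtain ⟨z₀, hz₀⟩ := mvexists_9489 (a * d) (mul_ne_zero ha hd)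
  set pr : (Fin m → ℂ) → (Fin k → ℂ) := fun y i => MvPolynomial.eval y (π i) - z₀ i with hpr
  set δ : MvPolynomial (Fin k) ℂ := MvPolynomial.aeval
      (fun i => (MvPolynomial.X i + MvPolynomial.C (z₀ i) : MvPolynomial (Fin k) ℂ)) (a * d) with hδ
  have hδe : ∀ z, MvPolynomial.eval z δ = MvPolynomial.eval (z + z₀) (a * d) := by
    intro z
    rw [hδ, evalshift_9489]
  have hπ : ∀ y, (fun i => MvPolynomial.eval y (π i)) = pr y + z₀ := by
    intro y
    funext i
    simp [hpr]
  refine ⟨pr, δ, P.natDegree, ?_, ?_⟩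
  · -- positivity of the degree
    obtain ⟨y, hy⟩ := hne
    have h1 := hrel y hy
    rcases Nat.eq_zero_or_pos P.natDegree with h0 | h0
    · exfalso
      have h2 : P = 1 := Polynomial.eq_one_of_monic_natDegree_zero hP h0
      rw [h2] at h1
      simp at h1
    · exact h0
  refine ⟨hcl, ?_, ?_, ?_, ?_, ?_⟩
  · rw [differentiable_pi]
    intro i
    exact (mvdiff_9489 (π i)).sub_const (z₀ i)
  · rw [hδe]
    simpa using hz₀
  · -- proper
    intro R
    choose Rj hRm hRr using hint
    have hbd : ∀ j, ∃ C : ℝ, ∀ z ∈ closedBall (0 : Fin k → ℂ) (R + ‖z₀‖),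
        ∑ i ∈ Finset.range (Rj j).natDegree, ‖MvPolynomial.eval z ((Rj j).coeff i)‖ ≤ C := by
      intro j
      have hc : ContinuousOn (fun z : Fin k → ℂ =>
          ∑ i ∈ Finset.range (Rj j).natDegree, ‖MvPolynomial.eval z ((Rj j).coeff i)‖)
          (closedBall (0 : Fin k → ℂ) (R + ‖z₀‖)) := by
        apply Continuous.continuousOn
        apply continuous_finsetSum
        intro i _
        exact ((mvdiff_9489 _).continuous).norm
      obtain ⟨C, hC⟩ := (isCompact_closedBall (0 : Fin k → ℂ) (R + ‖z₀‖)).exists_bound_of_continuousOn hc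
      refine ⟨C, fun z hz => ?_⟩
      exact (le_abs_self _).trans (by simpa [Real.norm_eq_abs] using hC z hz)
    choose C hC using hbd
    refine ⟨∑ j, (1 + |C j|), ?_⟩
    intro y hy hyR
    have hsn : 0 ≤ ∑ j, (1 + |C j|) :=
      Finset.sum_nonneg (fun j _ => by positivity)
    rw [pi_norm_le_iff_of_nonneg hsn]
    intro j
    have h1 := hRr j y hy
    rw [hπ] at h1
    have h2 := rootbound_9489 _ ((hRm j).map (MvPolynomial.eval (pr y + z₀))) (y j) h1
    rw [(hRm j).natDegree_map] at h2
    have h3 : (pr y + z₀) ∈ closedBall (0 : Fin k → ℂ) (R + ‖z₀‖) := by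
      rw [mem_closedBall_zero_iff]
      exact (norm_add_le _ _).trans (by linarith)
    have h4 := hC j _ h3
    simp only [Polynomial.coeff_map] at h2
    have h5 : 1 + |C j| ≤ ∑ j, (1 + |C j|) :=
      Finset.single_le_sum (f := fun j => 1 + |C j|) (fun j _ => by positivity) (Finset.mem_univ j)
    have h6 := le_abs_self (C j)
    linarith
  · -- dominant
    intro D hD
    obtain ⟨w, hw⟩ := mvexists_9489 D hD
    have hD' : MvPolynomial.aeval
      (fun i => (MvPolynomial.X i + MvPolynomial.C ((-z₀) i) : MvPolynomial (Fin k) ℂ)) D ≠ 0 := by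
      intro h0
      have h1 := evalshift_9489 (-z₀) D (w + z₀)
      rw [h0] at h1
      apply hw
      simpa using h1.symm
    obtain ⟨y, hy, hy2⟩ := hdom _ hD'
    refine ⟨y, hy, ?_⟩
    rw [evalshift_9489, hπ] at hy2
    simpa using hy2
  · -- sections
    intro z hz
    rw [hδe] at hz
    have hdz : MvPolynomial.eval (z + z₀) d ≠ 0 := by
      intro h0
      apply hz
      simp [h0]
    have hsimple : ∀ ρ : ℂ, (P.map (MvPolynomial.eval (z + z₀))).eval ρ = 0 →
      ((Polynomial.derivative P).map (MvPolynomial.eval (z + z₀))).eval ρ ≠ 0 := by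
      intro ρ h1 h2
      have h3 := congrArg (fun q => (q.map (MvPolynomial.eval (z + z₀))).eval ρ) hUV
      simp only [Polynomial.map_add, Polynomial.map_mul, Polynomial.eval_add, Polynomial.eval_mul,
        Polynomial.map_C, Polynomial.eval_C, h1, h2] at h3
      apply hdz
      rw [← h3]
      ring
    obtain ⟨r, hr, ρ, hρd, hρ⟩ := hroots (z + z₀) hsimple
    have hopen : IsOpen {z' : Fin k → ℂ | MvPolynomial.eval z' δ ≠ 0} :=
      isOpen_ne_fun (mvdiff_9489 δ).continuous continuous_const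
    have hzmem : z ∈ {z' : Fin k → ℂ | MvPolynomial.eval z' δ ≠ 0} := by
      show MvPolynomial.eval z δ ≠ 0
      rw [hδe]
      exact hz
    obtain ⟨r₂, hr₂, hr₂s⟩ := Metric.isOpen_iff.mp hopen z hzmem
    refine ⟨min r r₂, lt_min hr hr₂, ?_⟩
    have hshift : ∀ z' ∈ ball z (min r r₂), z' + z₀ ∈ ball (z + z₀) r := by
      intro z' hz'
      rw [mem_ball, dist_add_right]
      exact lt_of_lt_of_le (mem_ball.mp hz') (min_le_left _ _)
    have hne' : ∀ z' ∈ ball z (min r r₂), MvPolynomial.eval z' δ ≠ 0 := by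
      intro z' hz'
      exact hr₂s (ball_subset_ball (min_le_right _ _) hz')
    have hane : ∀ z' ∈ ball z (min r r₂), MvPolynomial.eval (z' + z₀) a ≠ 0 := by
      intro z' hz' h0
      apply hne' z' hz'
      rw [hδe]
      simp [h0]
    have hkey : ∀ z' ∈ ball z (min r r₂), ∀ y ∈ Y, pr y = z' → ∀ i,
        MvPolynomial.eval y Θ = ρ i (z' + z₀) →
        y = fun j => ((Q j).map (MvPolynomial.eval (z' + z₀))).eval (ρ i (z' + z₀)) /
          MvPolynomial.eval (z' + z₀) a := by
      intro z' hz' y hy hyz i hi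
      funext j
      have h1 := hQ y hy j
      rw [hπ, hyz, hi] at h1
      rw [eq_div_iff (hane z' hz'), ← h1]
      ring
    refine ⟨fun i z' j => ((Q j).map (MvPolynomial.eval (z' + z₀))).eval (ρ i (z' + z₀)) /
          MvPolynomial.eval (z' + z₀) a, ?_, ?_⟩
    · intro i
      rw [differentiableOn_pi]
      intro j
      simp only [div_eq_mul_inv]
      apply DifferentiableOn.fun_mul
      · have h1 : ∀ z' : Fin k → ℂ,
            ((Q j).map (MvPolynomial.eval (z' + z₀))).eval (ρ i (z' + z₀)) =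
            ∑ l ∈ Finset.range ((Q j).natDegree + 1),
              MvPolynomial.eval (z' + z₀) ((Q j).coeff l) * ρ i (z' + z₀) ^ l := by
          intro z'
          rw [Polynomial.eval_map, Polynomial.eval₂_eq_sum_range]
        simp only [h1]
        apply DifferentiableOn.fun_sum
        intro l _
        apply DifferentiableOn.mul
        · apply Differentiable.differentiableOn
          exact (mvdiff_9489 ((Q j).coeff l)).comp (differentiable_id.add_const z₀)
        · apply DifferentiableOn.pow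
          exact (hρd i).comp ((differentiable_id.add_const z₀).differentiableOn) hshift
      · apply DifferentiableOn.fun_inv
        · apply Differentiable.differentiableOn
          exact (mvdiff_9489 a).comp (differentiable_id.add_const z₀)
        · exact hane
    · intro z' hz'
      obtain ⟨hinj, hset⟩ := hρ (z' + z₀) (hshift z' hz')
      have hex : ∀ i, ∃ y ∈ Y, pr y = z' ∧ MvPolynomial.eval y Θ = ρ i (z' + z₀) := by
        intro i
        have h1 : ρ i (z' + z₀) ∈ {x : ℂ | (P.map (MvPolynomial.eval (z' + z₀))).eval x = 0} := by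
          rw [hset]
          exact ⟨i, rfl⟩
        obtain ⟨y, hy, hy1, hy2⟩ := hsurj (z' + z₀) _ h1
        refine ⟨y, hy, ?_, hy2⟩
        funext i
        simp only [hpr]
        rw [hy1 i]
        simp
      refine ⟨hne' z' hz', ?_, ?_⟩
      · intro i i' hii
        obtain ⟨y, hy, hyz, hyθ⟩ := hex i
        obtain ⟨y', hy', hyz', hyθ'⟩ := hex i'
        have h1 := hkey z' hz' y hy hyz i hyθ
        have h2 := hkey z' hz' y' hy' hyz' i' hyθ'
        have h3 : y = y' := by
          rw [h1, h2]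
          exact hii
        apply hinj
        show ρ i (z' + z₀) = ρ i' (z' + z₀)
        rw [← hyθ, ← hyθ', h3]
      · ext y
        constructor
        · rintro ⟨hy, hyz⟩
          have h1 := hrel y hy
          rw [hπ, hyz] at h1
          have h2 : MvPolynomial.eval y Θ ∈
              {x : ℂ | (P.map (MvPolynomial.eval (z' + z₀))).eval x = 0} := h1
          rw [hset] at h2
          obtain ⟨i, hi⟩ := h2
          exact ⟨i, (hkey z' hz' y hy hyz i hi.symm).symm⟩
        · rintro ⟨i, rfl⟩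
          obtain ⟨y, hy, hyz, hyθ⟩ := hex i
          have h1 := hkey z' hz' y hy hyz i hyθ
          show (fun j => ((Q j).map (MvPolynomial.eval (z' + z₀))).eval (ρ i (z' + z₀)) /
            MvPolynomial.eval (z' + z₀) a) ∈ {y | y ∈ Y ∧ pr y = z'}
          rw [← h1]
          exact ⟨hy, hyz⟩

end H113G
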