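import Pool.Agent.Helper113.Gorin.Defs

set_option autoImplicit false

open Metric Set Topology

namespace H113G



theorem exists_log_ball {k : ℕ} (z : Fin k → ℂ) (r : ℝ) (hr : 0 < r) (G : (Fin k → ℂ) → ℂ)
    (hG : ContinuousOn G (ball z r)) (h0 : ∀ x ∈ ball z r, G x ≠ 0) :
    ∃ l : (Fin k → ℂ) → ℂ, ContinuousOn l (ball z r) ∧ ∀ x ∈ ball z r, Complex.exp (l x) = G x := by
  have hc : ContractibleSpace (ball z r) :=
    (convex_ball z r).contractibleSpace (nonempty_ball.2 hr)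
  have hsc : IsSimplyConnected (ball z r) := by
    unfold IsSimplyConnected
    infer_instance
  obtain ⟨f, hf, he⟩ := Complex.exists_continuousOn_eqOn_exp_comp hsc isOpen_ball hG (by
    rintro ⟨x, hx, hx0⟩
    exact h0 x hx hx0)
  exact ⟨f, hf, fun x hx => he hx⟩

theorem cover_W {m k e : ℕ} (Y : Set (Fin m → ℂ)) (pr : (Fin m → ℂ) → (Fin k → ℂ))
    (δ : MvPolynomial (Fin k) ℂ) (h : Cov Y pr δ e) (g : (Fin m → ℂ) → ℂ)
    (hg : ContinuousOn g Y) (hg0 : ∀ y ∈ Y, g y ≠ 0) : IsCoveringMap (qW Y pr δ g) := by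
  intro z
  obtain ⟨r, hr, s, hs, hfib⟩ := h.sections z.1 z.2
  have hsec : ∀ i, ∀ z' ∈ ball z.1 r, s i z' ∈ Y ∧ pr (s i z') = z' := by
    intro i z' hz'
    have h1 := (hfib z' hz').2.2
    have h2 : s i z' ∈ {y | y ∈ Y ∧ pr y = z'} := by rw [h1]; exact mem_range_self i
    exact h2
  have hinj : ∀ z' ∈ ball z.1 r, Function.Injective (fun i => s i z') :=
    fun z' hz' => (hfib z' hz').2.1
  have hsurj : ∀ y ∈ Y, pr y ∈ ball z.1 r → ∃ i, s i (pr y) = y := by
    intro y hy hpy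
    have h1 := (hfib (pr y) hpy).2.2
    have h2 : y ∈ {y' | y' ∈ Y ∧ pr y' = pr y} := ⟨hy, rfl⟩
    rw [h1] at h2
    exact h2
  have hlog : ∀ i, ∃ l : (Fin k → ℂ) → ℂ, ContinuousOn l (ball z.1 r) ∧
      ∀ x ∈ ball z.1 r, Complex.exp (l x) = g (s i x) := by
    intro i
    apply exists_log_ball z.1 r hr (fun x => g (s i x))
    · exact hg.comp (hs i).continuousOn (fun x hx => (hsec i x hx).1)
    · intro x hx
      exact hg0 _ (hsec i x hx).1
  choose l hl hle using hlog
  have hprc : Continuous pr := h.diff.continuous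
  have hfc : Continuous (qW Y pr δ g) := by
    refine Continuous.subtype_mk ?_ _
    exact hprc.comp (continuous_fst.comp continuous_subtype_val)
  obtain ⟨U, hU⟩ : ∃ U : Set (Sp δ), U = {z' : Sp δ | z'.1 ∈ ball z.1 r} := ⟨_, rfl⟩
  have hUm : ∀ z' : Sp δ, z' ∈ U ↔ z'.1 ∈ ball z.1 r := by intro z'; rw [hU]; rfl
  have hUo : IsOpen U := by
    rw [hU]; exact isOpen_ball.preimage continuous_subtype_val
  let Ψ : U × (Fin e × ℤ) → (qW Y pr δ g) ⁻¹' U := fun p =>
    ⟨⟨(s p.2.1 p.1.1.1, l p.2.1 p.1.1.1 + p.2.2 * (2 * Real.pi * Complex.I)),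
      (hsec p.2.1 _ ((hUm _).1 p.1.2)).1, by
        simp only
        rw [(hsec p.2.1 _ ((hUm _).1 p.1.2)).2]; exact p.1.1.2, by
        simp only
        rw [Complex.exp_add, hle _ _ ((hUm _).1 p.1.2), Complex.exp_int_mul_two_pi_mul_I,
          mul_one]⟩, by
      rw [mem_preimage, hUm]
      show pr (s p.2.1 p.1.1.1) ∈ ball z.1 r
      rw [(hsec p.2.1 _ ((hUm _).1 p.1.2)).2]
      exact (hUm _).1 p.1.2⟩
  have hΨf : ∀ p, qW Y pr δ g (Ψ p).1 = p.1.1 := by
    intro p
    apply Subtype.ext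
    exact (hsec p.2.1 _ ((hUm _).1 p.1.2)).2
  have h2π : (2 * Real.pi * Complex.I : ℂ) ≠ 0 := Complex.two_pi_I_ne_zero
  have hwb : ∀ w : (qW Y pr δ g) ⁻¹' U, pr w.1.1.1 ∈ ball z.1 r := fun w => (hUm _).1 w.2
  have hΨinj : Function.Injective Ψ := by
    intro p p' hpp
    have h1 : p.1.1 = p'.1.1 := by rw [← hΨf p, ← hΨf p', hpp]
    have h1' : p.1 = p'.1 := Subtype.ext h1
    have h2 : (Ψ p).1.1 = (Ψ p').1.1 := by rw [hpp]
    have h3 : s p.2.1 p.1.1.1 = s p'.2.1 p'.1.1.1 := congrArg Prod.fst h2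
    have h4 : l p.2.1 p.1.1.1 + p.2.2 * (2 * Real.pi * Complex.I) =
      l p'.2.1 p'.1.1.1 + p'.2.2 * (2 * Real.pi * Complex.I) := congrArg Prod.snd h2
    rw [← h1] at h3 h4
    have h5 : p.2.1 = p'.2.1 := hinj _ ((hUm _).1 p.1.2) h3
    rw [← h5] at h4
    have h6 : (p.2.2 : ℂ) * (2 * Real.pi * Complex.I) = p'.2.2 * (2 * Real.pi * Complex.I) :=
      add_left_cancel h4
    have h7 := mul_right_cancel₀ h2π h6
    exact Prod.ext h1' (Prod.ext h5 (by exact_mod_cast h7))
  -- a point on the right sheet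
  have hpt : ∀ (w : (qW Y pr δ g) ⁻¹' U) (i : Fin e) (n : ℤ), s i (pr w.1.1.1) = w.1.1.1 →
      ‖w.1.1.2 - (l i (pr w.1.1.1) + n * (2 * Real.pi * Complex.I))‖ < 1 →
      Ψ (⟨qW Y pr δ g w.1, w.2⟩, (i, n)) = w := by
    intro w i n hi hn
    have h1 : Complex.exp w.1.1.2 = Complex.exp (l i (pr w.1.1.1)) := by
      rw [hle i _ (hwb w), hi]
      exact w.1.2.2.2
    obtain ⟨m', hm'⟩ := Complex.exp_eq_exp_iff_exists_int.1 h1
    have h2 : m' = n := by
      rw [hm'] at hn
      have h3 : l i (pr w.1.1.1) + m' * (2 * Real.pi * Complex.I) -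
        (l i (pr w.1.1.1) + n * (2 * Real.pi * Complex.I)) =
          ((m' - n : ℤ) : ℂ) * (2 * Real.pi * Complex.I) := by push_cast; ring
      rw [h3, norm_mul] at hn
      have h4 : ‖(2 * Real.pi * Complex.I : ℂ)‖ = 2 * Real.pi := by
        simp [abs_of_pos Real.pi_pos]
      rw [h4, Complex.norm_intCast] at hn
      by_contra hne
      have h5 : (1 : ℝ) ≤ |((m' - n : ℤ) : ℝ)| := by
        have : 1 ≤ |m' - n| := Int.one_le_abs (sub_ne_zero.2 hne)
        exact_mod_cast this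
      have h6 := Real.pi_gt_three
      nlinarith
    subst h2
    apply Subtype.ext
    apply Subtype.ext
    exact Prod.ext hi hm'.symm
  have hΨsurj : Function.Surjective Ψ := by
    intro w
    obtain ⟨i, hi⟩ := hsurj _ w.1.2.1 (hwb w)
    have h1 : Complex.exp w.1.1.2 = Complex.exp (l i (pr w.1.1.1)) := by
      rw [hle i _ (hwb w), hi]
      exact w.1.2.2.2
    obtain ⟨m', hm'⟩ := Complex.exp_eq_exp_iff_exists_int.1 h1
    refine ⟨_, hpt w i m' hi ?_⟩
    rw [hm', sub_self, norm_zero]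
    exact one_pos
  have hsc : ∀ i, Continuous (fun w : (qW Y pr δ g) ⁻¹' U => s i (pr w.1.1.1)) := by
    intro i
    apply (hs i).continuousOn.comp_continuous _ (fun w => hwb w)
    exact hprc.comp (continuous_fst.comp (continuous_subtype_val.comp continuous_subtype_val))
  have hlc : ∀ i, Continuous (fun w : (qW Y pr δ g) ⁻¹' U => l i (pr w.1.1.1)) := by
    intro i
    apply (hl i).comp_continuous _ (fun w => hwb w)
    exact hprc.comp (continuous_fst.comp (continuous_subtype_val.comp continuous_subtype_val))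
  have hΨc : Continuous Ψ := by
    rw [continuous_prod_of_discrete_right]
    rintro ⟨i, n⟩
    refine Continuous.subtype_mk (Continuous.subtype_mk ?_ _) _
    have c1 : Continuous (fun a : U => s i a.1.1) :=
      (hs i).continuousOn.comp_continuous (continuous_subtype_val.comp continuous_subtype_val)
        (fun a => (hUm _).1 a.2)
    have c2 : Continuous (fun a : U => l i a.1.1) :=
      (hl i).comp_continuous (continuous_subtype_val.comp continuous_subtype_val)
        (fun a => (hUm _).1 a.2)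
    have c3 : Continuous (fun _ : U => (n : ℂ) * (2 * Real.pi * Complex.I)) := continuous_const
    exact c1.prodMk (c2.add c3)
  have hfst : Continuous (fun w : (qW Y pr δ g) ⁻¹' U => w.1.1.1) :=
    continuous_fst.comp (continuous_subtype_val.comp continuous_subtype_val)
  have hsnd : Continuous (fun w : (qW Y pr δ g) ⁻¹' U => w.1.1.2) :=
    continuous_snd.comp (continuous_subtype_val.comp continuous_subtype_val)
  have hCclosed : ∀ i, IsClosed {w : (qW Y pr δ g) ⁻¹' U | s i (pr w.1.1.1) = w.1.1.1} :=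
    fun i => isClosed_eq (hsc i) hfst
  have hCopen : ∀ i, IsOpen {w : (qW Y pr δ g) ⁻¹' U | s i (pr w.1.1.1) = w.1.1.1} := by
    intro i
    rw [← isClosed_compl_iff]
    have e1 : {w : (qW Y pr δ g) ⁻¹' U | s i (pr w.1.1.1) = w.1.1.1}ᶜ =
        ⋃ j : {j : Fin e // j ≠ i}, {w : (qW Y pr δ g) ⁻¹' U | s j.1 (pr w.1.1.1) = w.1.1.1} := by
      ext w
      simp only [mem_compl_iff, mem_setOf_eq, mem_iUnion]
      constructor
      · intro hw
        obtain ⟨j, hj⟩ := hsurj _ w.1.2.1 (hwb w)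
        refine ⟨⟨j, ?_⟩, hj⟩
        rintro rfl
        exact hw hj
      · rintro ⟨j, hj⟩ hw
        exact j.2 (hinj _ (hwb w) (hj.trans hw.symm))
    rw [e1]
    exact isClosed_iUnion_of_finite (fun j => hCclosed j.1)
  have hΨo : IsOpenMap Ψ := by
    intro V hV
    have e1 : Ψ '' V = ⋃ d : Fin e × ℤ,
        ({w : (qW Y pr δ g) ⁻¹' U | s d.1 (pr w.1.1.1) = w.1.1.1} ∩
          {w : (qW Y pr δ g) ⁻¹' U |
            ‖w.1.1.2 - (l d.1 (pr w.1.1.1) + d.2 * (2 * Real.pi * Complex.I))‖ < 1}) ∩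
          (fun w : (qW Y pr δ g) ⁻¹' U => ((⟨qW Y pr δ g w.1, w.2⟩ : U), d)) ⁻¹' V := by
      ext w
      simp only [mem_image, mem_iUnion, mem_inter_iff, mem_setOf_eq, mem_preimage]
      constructor
      · rintro ⟨p, hp, rfl⟩
        have hpr : pr (Ψ p).1.1.1 = p.1.1.1 := (hsec p.2.1 _ ((hUm _).1 p.1.2)).2
        refine ⟨p.2, ⟨?_, ?_⟩, ?_⟩
        · rw [hpr]
        · rw [hpr]
          show ‖l p.2.1 p.1.1.1 + p.2.2 * (2 * Real.pi * Complex.I) -
            (l p.2.1 p.1.1.1 + p.2.2 * (2 * Real.pi * Complex.I))‖ < 1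
          rw [sub_self, norm_zero]; exact one_pos
        · have e2 : ((⟨qW Y pr δ g (Ψ p).1, (Ψ p).2⟩ : U), p.2) = p :=
            Prod.ext (Subtype.ext (hΨf p)) rfl
          rw [e2]; exact hp
      · rintro ⟨d, ⟨h1, h2⟩, h3⟩
        exact ⟨_, h3, hpt w d.1 d.2 h1 h2⟩
    rw [e1]
    apply isOpen_iUnion
    intro d
    refine IsOpen.inter (IsOpen.inter (hCopen d.1) ?_) ?_
    · apply isOpen_lt _ continuous_const
      exact (hsnd.sub ((hlc d.1).add continuous_const)).norm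
    · apply hV.preimage
      refine Continuous.prodMk ?_ continuous_const
      exact Continuous.subtype_mk (hfc.comp continuous_subtype_val) _
  let H := ((Equiv.ofBijective Ψ ⟨hΨinj, hΨsurj⟩).toHomeomorphOfContinuousOpen hΨc hΨo).symm
  refine IsEvenlyCovered.to_isEvenlyCovered_preimage (I := Fin e × ℤ)
    ⟨inferInstance, U, ?_, hUo, hUo.preimage hfc, H, ?_⟩
  · rw [hUm]; exact mem_ball_self hr
  · intro x
    have h1 : Ψ (H x) = x := by
      have := H.symm_apply_apply x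
      exact this
    have h2 := hΨf (H x)
    rw [h1] at h2
    exact h2.symm

end H113G
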