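import Pool.Agent.Helper113.Gorin.Defs

set_option autoImplicit false

open Metric Set Topology

namespace H113G



theorem cover_Y {m k e : ℕ} (Y : Set (Fin m → ℂ)) (pr : (Fin m → ℂ) → (Fin k → ℂ))
    (δ : MvPolynomial (Fin k) ℂ) (h : Cov Y pr δ e) : IsCoveringMap (qY Y pr δ) := by
  classical
  intro z
  have hprc : Continuous pr := h.diff.continuous
  have hqc : Continuous (qY Y pr δ) := (hprc.comp continuous_subtype_val).subtype_mk _
  obtain ⟨r, hr, s, hs1, hs2⟩ := h.sections z.1 z.2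
  obtain ⟨U, hU⟩ : ∃ U : Set (Sp δ), U = {z' | z'.1 ∈ ball z.1 r} := ⟨_, rfl⟩
  have hUm : ∀ z' : Sp δ, z' ∈ U ↔ z'.1 ∈ ball z.1 r := fun z' => by rw [hU]; rfl
  have hUo : IsOpen U := by
    rw [hU]
    exact isOpen_ball.preimage continuous_subtype_val
  have hball : ∀ y : (qY Y pr δ) ⁻¹' U, pr y.1.1 ∈ ball z.1 r := fun y => (hUm _).1 y.2
  have hsc : ∀ j, Continuous (fun y : (qY Y pr δ) ⁻¹' U => s j (pr y.1.1)) := fun j =>
    (hs1 j).continuousOn.comp_continuous
      (hprc.comp (continuous_subtype_val.comp continuous_subtype_val)) hball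
  have hmem : ∀ z' ∈ ball z.1 r, ∀ j, s j z' ∈ Y ∧ pr (s j z') = z' := by
    intro z' hz' j
    have h1 : s j z' ∈ {y | y ∈ Y ∧ pr y = z'} := by
      rw [(hs2 z' hz').2.2]
      exact ⟨j, rfl⟩
    exact h1
  have hidx : ∀ y : (qY Y pr δ) ⁻¹' U, ∃ j, s j (pr y.1.1) = y.1.1 := by
    intro y
    have h1 : y.1.1 ∈ {y' | y' ∈ Y ∧ pr y' = pr y.1.1} := ⟨y.1.2.1, rfl⟩
    rw [(hs2 _ (hball y)).2.2] at h1
    exact h1
  choose idx hidx using hidx
  have huniq : ∀ (y : (qY Y pr δ) ⁻¹' U) (j : Fin e), s j (pr y.1.1) = y.1.1 → idx y = j := by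
    intro y j hj
    apply (hs2 _ (hball y)).2.1
    show s (idx y) (pr y.1.1) = s j (pr y.1.1)
    rw [hidx, hj]
  have hidxc : Continuous idx := by
    rw [continuous_iff_isClosed]
    intro C _
    have h1 : idx ⁻¹' C = ⋃ j ∈ C, {y : (qY Y pr δ) ⁻¹' U | s j (pr y.1.1) = y.1.1} := by
      ext y
      rw [mem_preimage, mem_iUnion₂]
      constructor
      · intro hy
        exact ⟨idx y, hy, hidx y⟩
      · rintro ⟨j, hj, hy⟩
        rw [huniq y j hy]
        exact hj
    rw [h1]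
    exact (Set.toFinite C).isClosed_biUnion fun j _ =>
      isClosed_eq (hsc j) (continuous_subtype_val.comp continuous_subtype_val)
  apply IsEvenlyCovered.to_isEvenlyCovered_preimage (I := Fin e)
  refine ⟨inferInstance, U, (hUm z).2 (mem_ball_self hr), hUo, hUo.preimage hqc, ?_⟩
  have hball2 : ∀ p : U × Fin e, p.1.1.1 ∈ ball z.1 r := fun p => (hUm _).1 p.1.2
  have hm2 : ∀ p : U × Fin e, s p.2 p.1.1.1 ∈ Y ∧ MvPolynomial.eval (pr (s p.2 p.1.1.1)) δ ≠ 0 := by
    intro p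
    have h1 := hmem _ (hball2 p) p.2
    refine ⟨h1.1, ?_⟩
    rw [h1.2]
    exact p.1.1.2
  have hm3 : ∀ p : U × Fin e, (⟨s p.2 p.1.1.1, hm2 p⟩ : Yo Y pr δ) ∈ (qY Y pr δ) ⁻¹' U := by
    intro p
    rw [mem_preimage, hUm]
    show pr (s p.2 p.1.1.1) ∈ ball z.1 r
    rw [(hmem _ (hball2 p) p.2).2]
    exact hball2 p
  refine ⟨{ toFun := fun y => (⟨qY Y pr δ y.1, y.2⟩, idx y)
            invFun := fun p => ⟨⟨s p.2 p.1.1.1, hm2 p⟩, hm3 p⟩
            left_inv := ?_
            right_inv := ?_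
            continuous_toFun := ?_
            continuous_invFun := ?_ }, fun y => rfl⟩
  · intro y
    exact Subtype.ext (Subtype.ext (hidx y))
  · intro p
    refine Prod.ext (Subtype.ext (Subtype.ext ?_)) ?_
    · exact (hmem _ (hball2 p) p.2).2
    · apply huniq
      show s p.2 (pr (s p.2 p.1.1.1)) = s p.2 p.1.1.1
      rw [(hmem _ (hball2 p) p.2).2]
  · exact ((hqc.comp continuous_subtype_val).subtype_mk _).prodMk hidxc
  · refine Continuous.subtype_mk (Continuous.subtype_mk ?_ _) _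
    rw [continuous_prod_of_discrete_right]
    intro j
    exact (hs1 j).continuousOn.comp_continuous
      (continuous_subtype_val.comp continuous_subtype_val) (fun u => (hUm _).1 u.2)

end H113G
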