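import Pool.Agent.Helper113.Gorin.Defs

set_option autoImplicit false

open Metric Set Topology

namespace H113G



/-- a projection with finitely many separated sections over an open set is evenly covered -/
theorem evenly_9508 {W S : Type*} [TopologicalSpace W] [TopologicalSpace S] [T2Space W] {e : ℕ}
    (q : W → S) (hq : Continuous q) (z : S) (U : Set S) (hU : IsOpen U) (hz : z ∈ U)
    (s : Fin e → U → W) (hs : ∀ i, Continuous (s i)) (hsec : ∀ i x, q (s i x) = x.1)
    (hinj : ∀ x, Function.Injective (fun i => s i x))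
    (hfib : ∀ w, ∀ hw : q w ∈ U, ∃ i, s i ⟨q w, hw⟩ = w) : IsEvenlyCovered q z (Fin e) := by
  refine ⟨inferInstance, U, hz, hU, hU.preimage hq, ?_⟩
  have hmem : ∀ i x, s i x ∈ q ⁻¹' U := fun i x => by
    rw [Set.mem_preimage, hsec]; exact x.2
  let g : U × Fin e → q ⁻¹' U := fun p => ⟨s p.2 p.1, hmem _ _⟩
  have hbij : Function.Bijective g := by
    constructor
    · rintro ⟨x, i⟩ ⟨y, j⟩ hxy
      have h1 : s i x = s j y := congrArg Subtype.val hxy
      have h2 : x = y := by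
        apply Subtype.ext
        rw [← hsec i x, ← hsec j y, h1]
      subst h2
      have h3 : i = j := hinj x h1
      rw [h3]
    · rintro ⟨w, hw⟩
      obtain ⟨i, hi⟩ := hfib w hw
      exact ⟨(⟨q w, hw⟩, i), Subtype.ext hi⟩
  have hcont : Continuous g := by
    rw [continuous_prod_of_discrete_right]
    intro i
    exact (hs i).subtype_mk _
  have hclosed : IsClosedMap g := by
    intro C hC
    have hpr : Continuous (fun w : q ⁻¹' U => (⟨q w.1, w.2⟩ : U)) :=
      (hq.comp continuous_subtype_val).subtype_mk _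
    have hemb : ∀ i, IsClosedEmbedding (fun x : U => g (x, i)) := by
      intro i
      refine Function.LeftInverse.isClosedEmbedding (f := fun w : q ⁻¹' U => (⟨q w.1, w.2⟩ : U))
        ?_ hpr (hcont.comp (by fun_prop))
      intro x
      apply Subtype.ext
      exact hsec i x
    have himg : g '' C = ⋃ i : Fin e, (fun x : U => g (x, i)) '' {x | (x, i) ∈ C} := by
      ext w
      simp only [Set.mem_image, Set.mem_iUnion]
      constructor
      · rintro ⟨⟨x, i⟩, hx, rfl⟩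
        exact ⟨i, x, hx, rfl⟩
      · rintro ⟨i, x, hx, rfl⟩
        exact ⟨(x, i), hx, rfl⟩
    rw [himg]
    apply isClosed_iUnion_of_finite
    intro i
    apply (hemb i).isClosedMap
    exact hC.preimage (by fun_prop : Continuous fun x : U => (x, i))
  refine ⟨((Equiv.ofBijective g hbij).toHomeomorphOfContinuousClosed hcont hclosed).symm, ?_⟩
  intro w
  obtain ⟨⟨x, i⟩, rfl⟩ := hbij.2 w
  have h1 : (Equiv.ofBijective g hbij).symm (g (x, i)) = (x, i) :=
    (Equiv.ofBijective g hbij).symm_apply_apply (x, i)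
  have h2 : ((Equiv.ofBijective g hbij).toHomeomorphOfContinuousClosed hcont hclosed).symm
      (g (x, i)) = (x, i) := h1
  rw [h2]
  exact (hsec i x).symm

theorem cov_9508 {m k e : ℕ} (Y : Set (Fin m → ℂ)) (pr : (Fin m → ℂ) → (Fin k → ℂ))
    (δ : MvPolynomial (Fin k) ℂ) (h : Cov Y pr δ e) : IsCoveringMap (qY Y pr δ) := by
  intro z
  have hq : Continuous (qY Y pr δ) :=
    (h.diff.continuous.comp continuous_subtype_val).subtype_mk _
  obtain ⟨r, hr, s, hs, hz⟩ := h.sections z.1 z.2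
  have hmem : ∀ i, ∀ x ∈ ball z.1 r, s i x ∈ Y ∧ pr (s i x) = x := by
    intro i x hx
    have h1 := (hz x hx).2.2
    have h2 : s i x ∈ {y | y ∈ Y ∧ pr y = x} := by
      rw [h1]; exact ⟨i, rfl⟩
    exact h2
  refine IsEvenlyCovered.to_isEvenlyCovered_preimage (I := Fin e) ?_
  let U : Set (Sp δ) := {x | x.1 ∈ ball z.1 r}
  refine evenly_9508 (qY Y pr δ) hq z U (isOpen_ball.preimage continuous_subtype_val)
    (mem_ball_self hr)
    (fun i x => ⟨s i x.1.1, (hmem i x.1.1 x.2).1, by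
      rw [(hmem i x.1.1 x.2).2]; exact x.1.2⟩) ?_ ?_ ?_ ?_
  · intro i
    apply Continuous.subtype_mk
    have h1 : ContinuousOn (s i) (ball z.1 r) := (hs i).continuousOn
    exact h1.comp_continuous (by fun_prop) (fun x => x.2)
  · intro i x
    apply Subtype.ext
    exact (hmem i x.1.1 x.2).2
  · intro x i j hij
    exact (hz x.1.1 x.2).2.1 (congrArg Subtype.val hij)
  · rintro ⟨w, hw1, hw2⟩ hw
    have h1 := (hz (pr w) hw).2.2
    have h2 : w ∈ {y | y ∈ Y ∧ pr y = pr w} := ⟨hw1, rfl⟩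
    rw [h1] at h2
    obtain ⟨i, hi⟩ := h2
    exact ⟨i, Subtype.ext hi⟩


theorem linepoly_9508 {k : ℕ} (v : Fin k → ℂ) (δ : MvPolynomial (Fin k) ℂ) :
    ∃ Q : Polynomial ℂ, ∀ t : ℂ, Q.eval t = MvPolynomial.eval (t • v) δ := by
  induction δ using MvPolynomial.induction_on with
  | C a => exact ⟨Polynomial.C a, fun t => by simp⟩
  | add p q hp hq =>
    obtain ⟨P, hP⟩ := hp
    obtain ⟨Q, hQ⟩ := hq
    exact ⟨P + Q, fun t => by rw [Polynomial.eval_add, hP, hQ, map_add]⟩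
  | mul_X p i hp =>
    obtain ⟨P, hP⟩ := hp
    exact ⟨P * (Polynomial.C (v i) * Polynomial.X), fun t => by
      rw [Polynomial.eval_mul, hP, map_mul, Polynomial.eval_mul, Polynomial.eval_C,
        Polynomial.eval_X, MvPolynomial.eval_X, Pi.smul_apply, smul_eq_mul, mul_comm (v i) t]⟩

theorem line_9508 {k : ℕ} (δ : MvPolynomial (Fin k) ℂ)
    (h0 : MvPolynomial.eval (0 : Fin k → ℂ) δ ≠ 0) (v : Fin k → ℂ) :
    ∃ c : ℝ, ∀ s : ℂ, c < s.re → MvPolynomial.eval (Complex.exp s • v) δ ≠ 0 := by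
  obtain ⟨Q, hQ⟩ := linepoly_9508 v δ
  have hQ0 : Q ≠ 0 := by
    rintro rfl
    have h1 := hQ 0
    rw [Polynomial.eval_zero, zero_smul] at h1
    exact h0 h1.symm
  refine ⟨Real.log (1 + ∑ r ∈ Q.roots.toFinset, ‖r‖), fun s hs h1 => ?_⟩
  have hS : 0 ≤ ∑ r ∈ Q.roots.toFinset, ‖r‖ := Finset.sum_nonneg fun r _ => norm_nonneg r
  have h2 : Complex.exp s ∈ Q.roots.toFinset := by
    rw [Multiset.mem_toFinset, Polynomial.mem_roots hQ0, Polynomial.IsRoot.def, hQ, h1]
  have h3 : ‖Complex.exp s‖ ≤ ∑ r ∈ Q.roots.toFinset, ‖r‖ :=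
    Finset.single_le_sum (f := fun r : ℂ => ‖r‖) (fun r _ => norm_nonneg r) h2
  rw [Complex.norm_exp] at h3
  have h4 : 1 + ∑ r ∈ Q.roots.toFinset, ‖r‖ < Real.exp s.re := by
    rw [← Real.exp_log (by linarith : (0 : ℝ) < 1 + ∑ r ∈ Q.roots.toFinset, ‖r‖)]
    exact Real.exp_lt_exp.mpr hs
  linarith

theorem lifts_9508 {m k e : ℕ} (Y : Set (Fin m → ℂ)) (pr : (Fin m → ℂ) → (Fin k → ℂ))
    (δ : MvPolynomial (Fin k) ℂ) (h : Cov Y pr δ e) (v : Fin k → ℂ) (c : ℝ)
    (hc : ∀ s : ℂ, c < s.re → MvPolynomial.eval (Complex.exp s • v) δ ≠ 0) :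
    ∃ F : Fin e → {s : ℂ // c < s.re} → (Fin m → ℂ),
      (∀ i, Continuous (F i)) ∧ (∀ i s, F i s ∈ Y ∧ pr (F i s) = Complex.exp s.1 • v) ∧
      (∀ s, Function.Injective (fun i => F i s)) ∧
      (∀ s, ∀ y ∈ Y, pr y = Complex.exp s.1 • v → ∃ i, F i s = y) ∧
      (∃ π : Fin e → Fin e, Function.Injective π ∧ ∀ i, ∀ s : {s : ℂ // c < s.re},
        ∀ hs : c < (s.1 + 2 * Real.pi * Complex.I).re,
          F i ⟨s.1 + 2 * Real.pi * Complex.I, hs⟩ = F (π i) s) := by
  have hcov := cov_9508 Y pr δ h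
  have hconv : Convex ℝ {s : ℂ | c < s.re} := convex_halfSpace_re_gt c
  have hs₀ : c < ((c + 1 : ℝ) : ℂ).re := by rw [Complex.ofReal_re]; linarith
  have : ContractibleSpace {s : ℂ // c < s.re} := hconv.contractibleSpace ⟨_, hs₀⟩
  have : LocallyPathConnectedSpace {s : ℂ // c < s.re} := hconv.locallyPathConnectedSpace
  obtain ⟨s₀, hs₀d⟩ : ∃ s₀ : {s : ℂ // c < s.re}, s₀ = ⟨_, hs₀⟩ := ⟨_, rfl⟩
  let f : C({s : ℂ // c < s.re}, Sp δ) :=
    ⟨fun s => ⟨Complex.exp s.1 • v, hc s.1 s.2⟩, by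
      apply Continuous.subtype_mk
      exact (Complex.continuous_exp.comp continuous_subtype_val).smul continuous_const⟩
  obtain ⟨r, hr, σ, hσd, hσ⟩ := h.sections (Complex.exp s₀.1 • v) (hc s₀.1 s₀.2)
  have hσ0 := hσ _ (mem_ball_self hr)
  have hσmem : ∀ i, σ i (Complex.exp s₀.1 • v) ∈ Y ∧
      pr (σ i (Complex.exp s₀.1 • v)) = Complex.exp s₀.1 • v := by
    intro i
    have h2 : σ i (Complex.exp s₀.1 • v) ∈ {y | y ∈ Y ∧ pr y = Complex.exp s₀.1 • v} := by
      rw [hσ0.2.2]; exact ⟨i, rfl⟩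
    exact h2
  have hex : ∀ i : Fin e, ∃ F : C({s : ℂ // c < s.re}, Yo Y pr δ),
      (F s₀).1 = σ i (Complex.exp s₀.1 • v) ∧ qY Y pr δ ∘ F = f := by
    intro i
    obtain ⟨F, hF, -⟩ := hcov.existsUnique_continuousMap_lifts f s₀
      ⟨σ i (Complex.exp s₀.1 • v), (hσmem i).1, by rw [(hσmem i).2]; exact hc s₀.1 s₀.2⟩
      (Subtype.ext (hσmem i).2)
    exact ⟨F, congrArg Subtype.val hF.1, hF.2⟩
  choose F hF0 hFl using hex
  have hFpr : ∀ i s, pr (F i s).1 = Complex.exp s.1 • v := fun i s =>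
    congrArg Subtype.val (congrFun (hFl i) s)
  have huniq : ∀ G₁ G₂ : {s : ℂ // c < s.re} → Yo Y pr δ, Continuous G₁ → Continuous G₂ →
      qY Y pr δ ∘ G₁ = f → qY Y pr δ ∘ G₂ = f → ∀ s, G₁ s = G₂ s → G₁ = G₂ :=
    fun G₁ G₂ h1 h2 h3 h4 s h5 => hcov.eq_of_comp_eq h1 h2 (h3.trans h4.symm) s h5
  have hinj : ∀ s, Function.Injective (fun i => (F i s).1) := by
    intro s i j hij
    have h1 : (F i : {s : ℂ // c < s.re} → Yo Y pr δ) = F j :=
      huniq _ _ (F i).continuous (F j).continuous (hFl i) (hFl j) s (Subtype.ext hij)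
    have h2 : (F i s₀).1 = (F j s₀).1 := by rw [h1]
    rw [hF0, hF0] at h2
    exact hσ0.2.1 h2
  have hsurj : ∀ s : {s : ℂ // c < s.re}, ∀ y ∈ Y, pr y = Complex.exp s.1 • v →
      ∃ i, (F i s).1 = y := by
    intro s y hy hpy
    obtain ⟨r', hr', σ', -, hσ'⟩ := h.sections (Complex.exp s.1 • v) (hc s.1 s.2)
    have h0 := hσ' _ (mem_ball_self hr')
    have h1 : ∀ i, ∃ j, σ' j (Complex.exp s.1 • v) = (F i s).1 := by
      intro i
      have h2 : (F i s).1 ∈ {y | y ∈ Y ∧ pr y = Complex.exp s.1 • v} := ⟨(F i s).2.1, hFpr i s⟩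
      rw [h0.2.2] at h2
      exact h2
    choose φ hφ using h1
    have hφinj : Function.Injective φ := by
      intro i j hij
      apply hinj s
      show (F i s).1 = (F j s).1
      rw [← hφ i, ← hφ j, hij]
    have hφsurj : Function.Surjective φ := Finite.injective_iff_surjective.mp hφinj
    have h3 : y ∈ {y | y ∈ Y ∧ pr y = Complex.exp s.1 • v} := ⟨hy, hpy⟩
    rw [h0.2.2] at h3
    obtain ⟨j, hj⟩ := h3
    obtain ⟨i, rfl⟩ := hφsurj j
    exact ⟨i, by rw [← hφ i]; exact hj⟩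
  have hTre : ∀ s : {s : ℂ // c < s.re}, c < (s.1 + 2 * Real.pi * Complex.I).re := by
    intro s
    have : (s.1 + 2 * Real.pi * Complex.I).re = s.1.re := by simp
    rw [this]; exact s.2
  let T : {s : ℂ // c < s.re} → {s : ℂ // c < s.re} :=
    fun s => ⟨s.1 + 2 * Real.pi * Complex.I, hTre s⟩
  have hT : Continuous T := Continuous.subtype_mk (by fun_prop) _
  have hexp : ∀ s : {s : ℂ // c < s.re}, Complex.exp (T s).1 = Complex.exp s.1 := fun s =>
    Complex.exp_periodic s.1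
  have hfT : ∀ s, f (T s) = f s := fun s => Subtype.ext (by
    show Complex.exp (T s).1 • v = Complex.exp s.1 • v
    rw [hexp])
  have hπ : ∀ i, ∃ j, (F j s₀).1 = (F i (T s₀)).1 := by
    intro i
    exact hsurj s₀ _ (F i (T s₀)).2.1 (by rw [hFpr, hexp])
  choose π hπ' using hπ
  have hπl : ∀ i, (fun s => F i (T s)) = F (π i) := by
    intro i
    refine huniq _ _ ((F i).continuous.comp hT) (F (π i)).continuous ?_ (hFl (π i)) s₀
      (Subtype.ext (hπ' i).symm)
    funext s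
    have h1 := congrFun (hFl i) (T s)
    exact h1.trans (hfT s)
  refine ⟨fun i s => (F i s).1, fun i => continuous_subtype_val.comp (F i).continuous,
    fun i s => ⟨(F i s).2.1, hFpr i s⟩, hinj, hsurj, π, ?_, ?_⟩
  · intro i j hij
    apply hinj (T s₀)
    show (F i (T s₀)).1 = (F j (T s₀)).1
    rw [← hπ' i, ← hπ' j, hij]
  · intro i s hs
    exact congrArg Subtype.val (congrFun (hπl i) s)

theorem end_lifts {m k e : ℕ} (Y : Set (Fin m → ℂ)) (pr : (Fin m → ℂ) → (Fin k → ℂ))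
    (δ : MvPolynomial (Fin k) ℂ) (h : Cov Y pr δ e) (v : Fin k → ℂ) :
    ∃ (c : ℝ) (κ : ℕ) (Λ : Fin e → ℂ → (Fin m → ℂ)), EndLift Y pr δ e v c κ Λ := by
  classical
  obtain ⟨c, hc⟩ := line_9508 δ h.base v
  obtain ⟨F, hFc, hFY, hFinj, hFsurj, π, hπinj, hπ⟩ := lifts_9508 Y pr δ h v c hc
  have hπbij : Function.Bijective π := Finite.injective_iff_bijective.mp hπinj
  obtain ⟨Λ, hΛ⟩ : ∃ Λ : Fin e → ℂ → (Fin m → ℂ), ∀ (i : Fin e) (s : ℂ) (hs : c < s.re), Λ i s = F i ⟨s, hs⟩ :=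
    ⟨fun i s => if hs : c < s.re then F i ⟨s, hs⟩ else 0, fun i s hs => dif_pos hs⟩
  let p : Equiv.Perm (Fin e) := Equiv.ofBijective π hπbij
  have hp : ∀ n : ℕ, ∀ i, ∀ s : ℂ, c < s.re →
      Λ i (s + 2 * Real.pi * n * Complex.I) = Λ ((p ^ n) i) s := by
    intro n
    induction n with
    | zero => intro i s hs; simp
    | succ n ih =>
      intro i s hs
      have hre : (s + 2 * Real.pi * n * Complex.I).re = s.re := by simp
      have hs' : c < (s + 2 * Real.pi * n * Complex.I).re := by rw [hre]; exact hs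
      have hre2 : (s + 2 * Real.pi * n * Complex.I + 2 * Real.pi * Complex.I).re = s.re := by simp
      have hs'' : c < (s + 2 * Real.pi * n * Complex.I + 2 * Real.pi * Complex.I).re := by
        rw [hre2]; exact hs
      have h1 : s + 2 * Real.pi * ((n + 1 : ℕ) : ℂ) * Complex.I =
          s + 2 * Real.pi * n * Complex.I + 2 * Real.pi * Complex.I := by
        push_cast; ring
      rw [h1, hΛ i _ hs'', hπ i ⟨_, hs'⟩ hs'', ← hΛ (π i) _ hs', ih (π i) s hs]
      rfl
  refine ⟨c, orderOf p, Λ, ?_, ?_, hc, ?_, ?_⟩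
  · exact orderOf_pos p
  · intro i s₁ hs₁
    have hs₁' : c < s₁.re := hs₁
    apply DifferentiableAt.differentiableWithinAt
    obtain ⟨r, hr, σ, hσd, hσ⟩ := h.sections (Complex.exp s₁ • v) (hc s₁ hs₁')
    have hfib : ∀ s : ℂ, c < s.re → Complex.exp s • v ∈ ball (Complex.exp s₁ • v) r →
        ∃ j, σ j (Complex.exp s • v) = Λ i s := by
      intro s hs hb
      have h1 := (hσ _ hb).2.2
      have h2 : Λ i s ∈ {y | y ∈ Y ∧ pr y = Complex.exp s • v} := by
        rw [hΛ i s hs]; exact hFY i ⟨s, hs⟩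
      rw [h1] at h2
      exact h2
    have hopen : IsOpen {s : ℂ | c < s.re} := isOpen_lt continuous_const Complex.continuous_re
    have hev1 : ∀ᶠ s in 𝓝 s₁, c < s.re := hopen.mem_nhds hs₁
    have hexpc : Continuous fun s : ℂ => Complex.exp s • v :=
      Complex.continuous_exp.smul continuous_const
    have hev2 : ∀ᶠ s in 𝓝 s₁, Complex.exp s • v ∈ ball (Complex.exp s₁ • v) r :=
      hexpc.continuousAt.eventually (ball_mem_nhds _ hr)
    have hΛc : ContinuousAt (Λ i) s₁ := by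
      have h1 : ContinuousOn (Λ i) {s : ℂ | c < s.re} := by
        rw [continuousOn_iff_continuous_domRestrict]
        have hg : Continuous (fun x : {s : ℂ | c < s.re} => (⟨x.1, x.2⟩ : {s : ℂ // c < s.re})) :=
          Continuous.subtype_mk continuous_subtype_val _
        exact ((hFc i).comp hg).congr fun x => (hΛ i x.1 x.2).symm
      exact h1.continuousAt (hopen.mem_nhds hs₁)
    obtain ⟨j, hj⟩ := hfib s₁ hs₁' (mem_ball_self hr)
    have hσc : ∀ j', ContinuousAt (fun s : ℂ => σ j' (Complex.exp s • v)) s₁ := by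
      intro j'
      have h1 : ContinuousAt (σ j') (Complex.exp s₁ • v) :=
        ((hσd j').continuousOn).continuousAt (ball_mem_nhds _ hr)
      exact ContinuousAt.comp (f := fun s : ℂ => Complex.exp s • v) h1 hexpc.continuousAt
    have hne : ∀ᶠ s in 𝓝 s₁, ∀ j', j' ≠ j → Λ i s ≠ σ j' (Complex.exp s • v) := by
      rw [Filter.eventually_all]
      intro j'
      by_cases hjj : j' = j
      · exact Filter.Eventually.of_forall fun s h1 => absurd hjj h1
      · have h1 : Λ i s₁ ≠ σ j' (Complex.exp s₁ • v) := by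
          rw [← hj]
          intro h2
          exact hjj ((hσ _ (mem_ball_self hr)).2.1 h2).symm
        exact ((hΛc.ne_iff_eventually_ne (hσc j')).mp h1).mono fun s hs _ => hs
    have heq : Λ i =ᶠ[𝓝 s₁] fun s => σ j (Complex.exp s • v) := by
      filter_upwards [hev1, hev2, hne] with s h1 h2 h3
      obtain ⟨j', hj'⟩ := hfib s h1 h2
      by_cases hjj : j' = j
      · rw [← hj', hjj]
      · exact absurd hj'.symm (h3 j' hjj)
    refine DifferentiableAt.congr_of_eventuallyEq ?_ heq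
    have h1 : DifferentiableAt ℂ (σ j) (Complex.exp s₁ • v) :=
      (hσd j).differentiableAt (ball_mem_nhds _ hr)
    have h2 : DifferentiableAt ℂ (fun s : ℂ => Complex.exp s • v) s₁ :=
      Complex.differentiable_exp.differentiableAt.smul_const v
    exact DifferentiableAt.comp (f := fun s : ℂ => Complex.exp s • v) s₁ h1 h2
  · intro s hs
    ext y
    constructor
    · rintro ⟨hy, hpy⟩
      obtain ⟨i, hi⟩ := hFsurj ⟨s, hs⟩ y hy hpy
      exact ⟨i, by rw [← hi]; exact hΛ i s hs⟩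
    · rintro ⟨i, rfl⟩
      show Λ i s ∈ Y ∧ pr (Λ i s) = _
      rw [hΛ i s hs]
      exact hFY i ⟨s, hs⟩
  · intro i s hs
    rw [hp (orderOf p) i s hs, pow_orderOf_eq_one]
    rfl

end H113G
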