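import Pool.Agent.Helper113.Gorin.Defs

set_option autoImplicit false

open Metric Set Topology

namespace H113G



theorem end_log {φ : ℂ → ℂ} {c : ℝ} {κ : ℕ} (hφ : DifferentiableOn ℂ φ {s : ℂ | c < s.re})
    (h0 : ∀ s : ℂ, c < s.re → φ s ≠ 0)
    (hper : ∀ s : ℂ, c < s.re → φ (s + 2 * Real.pi * κ * Complex.I) = φ s) :
    ∃ (L : ℂ → ℂ) (w : ℤ), DifferentiableOn ℂ L {s : ℂ | c < s.re} ∧
      (∀ s : ℂ, c < s.re → Complex.exp (L s) = φ s) ∧
      ∀ s : ℂ, c < s.re → L (s + 2 * Real.pi * κ * Complex.I) = L s + 2 * Real.pi * Complex.I * w := by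
  have hopen : IsOpen {s : ℂ | c < s.re} := isOpen_lt continuous_const Complex.continuous_re
  have hconv : Convex ℝ {s : ℂ | c < s.re} := convex_halfSpace_re_gt c
  have hne : {s : ℂ | c < s.re}.Nonempty := ⟨((c + 1 : ℝ) : ℂ), by
    show c < ((c + 1 : ℝ) : ℂ).re
    rw [Complex.ofReal_re]; linarith⟩
  have hsc : IsSimplyConnected {s : ℂ | c < s.re} := by
    have := hconv.contractibleSpace hne
    show SimplyConnectedSpace {s : ℂ | c < s.re}
    infer_instance
  obtain ⟨L, hLc, hL⟩ := Complex.exists_continuousOn_eqOn_exp_comp hsc hopen hφ.continuousOn (by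
    rintro ⟨s, hs, h⟩
    exact h0 s hs h)
  have hL' : ∀ s : ℂ, c < s.re → Complex.exp (L s) = φ s := fun s hs => hL hs
  have hshift : ∀ s : ℂ, c < s.re → c < (s + 2 * Real.pi * κ * Complex.I).re := by
    intro s hs
    have : (s + 2 * Real.pi * κ * Complex.I).re = s.re := by simp
    rw [this]; exact hs
  -- differentiability
  have hLd : DifferentiableOn ℂ L {s : ℂ | c < s.re} := by
    intro s hs
    apply DifferentiableAt.differentiableWithinAt
    have hLs : ContinuousAt L s := hLc.continuousAt (hopen.mem_nhds hs)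
    have hφs : DifferentiableAt ℂ φ s := hφ.differentiableAt (hopen.mem_nhds hs)
    have h1 : ∀ᶠ z in 𝓝 s, L z = L s + Complex.log (φ z / φ s) := by
      have h2 : Filter.Tendsto (fun z => (L z - L s).im) (𝓝 s) (𝓝 0) := by
        have h3 : ContinuousAt (fun z => (L z - L s).im) s :=
          Complex.continuous_im.continuousAt.comp (hLs.sub continuousAt_const)
        have h4 := h3.tendsto
        simp only [sub_self, Complex.zero_im] at h4
        exact h4
      have h5 : ∀ᶠ z in 𝓝 s, (L z - L s).im ∈ Ioo (-Real.pi) Real.pi :=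
        h2 (Ioo_mem_nhds (by linarith [Real.pi_pos]) Real.pi_pos)
      filter_upwards [h5, hopen.mem_nhds hs] with z hz hzU
      have h6 : φ z / φ s = Complex.exp (L z - L s) := by
        rw [Complex.exp_sub, hL' z hzU, hL' s hs]
      rw [h6, Complex.log_exp hz.1 hz.2.le]
      ring
    have h7 : DifferentiableAt ℂ (fun z => L s + Complex.log (φ z / φ s)) s := by
      apply (differentiableAt_const _).add
      apply DifferentiableAt.clog
      · exact hφs.div_const _
      · rw [div_self (h0 s hs)]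
        exact Complex.one_mem_slitPlane
    exact h7.congr_of_eventuallyEq h1
  have hD : ∀ s : ℂ, c < s.re → ∃ n : ℤ, L (s + 2 * Real.pi * κ * Complex.I) =
      L s + n * (2 * Real.pi * Complex.I) := by
    intro s hs
    have h1 : Complex.exp (L (s + 2 * Real.pi * κ * Complex.I)) = Complex.exp (L s) := by
      rw [hL' _ (hshift s hs), hL' s hs, hper s hs]
    exact Complex.exp_eq_exp_iff_exists_int.1 h1
  have hpi : (2 * Real.pi * Complex.I : ℂ) ≠ 0 := Complex.two_pi_I_ne_zero
  let D : ℂ → ℝ := fun s => ((L (s + 2 * Real.pi * κ * Complex.I) - L s) / (2 * Real.pi * Complex.I)).re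
  have hDc : ContinuousOn D {s : ℂ | c < s.re} := by
    apply Complex.continuous_re.comp_continuousOn
    apply ContinuousOn.div_const
    apply ContinuousOn.sub _ hLc
    apply hLc.comp (by fun_prop)
    intro s hs
    exact hshift s hs
  have hDn : ∀ s : ℂ, c < s.re → ∀ n : ℤ, L (s + 2 * Real.pi * κ * Complex.I) =
      L s + n * (2 * Real.pi * Complex.I) → D s = n := by
    intro s hs n hn
    simp only [D]
    rw [hn, add_sub_cancel_left, mul_div_cancel_right₀ _ hpi, Complex.intCast_re]
  obtain ⟨s₀, hs₀⟩ := hne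
  obtain ⟨w, hw⟩ := hD s₀ hs₀
  refine ⟨L, w, hLd, hL', ?_⟩
  intro s hs
  obtain ⟨n, hn⟩ := hD s hs
  have h8 : D s = D s₀ := by
    refine hconv.isPreconnected.constant_of_mapsTo (T := range ((↑) : ℤ → ℝ))
      Int.isClosedEmbedding_coe_real.isEmbedding.isInducing.isDiscrete_range hDc ?_ hs hs₀
    intro z hz
    obtain ⟨m, hm⟩ := hD z hz
    exact ⟨m, (hDn z hz m hm).symm⟩
  rw [hDn s hs n hn, hDn s₀ hs₀ w hw] at h8
  have h9 : n = w := by exact_mod_cast h8
  rw [hn, h9]
  ring

end H113G
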