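import Pool.Agent.Helper113.Gorin.Defs

set_option autoImplicit false

open Metric Set Topology

namespace H113G



/-- lifting of a square whose left side is constant -/
theorem lift_square {W X : Type*} [TopologicalSpace W] [TopologicalSpace X] (q : W → X)
    (hq : IsCoveringMap q) (w₀ : W) (F : C(unitInterval × unitInterval, X))
    (hF0 : ∀ σ, F (0, σ) = q w₀) (Γ η : C(unitInterval, W)) (hΓ0 : Γ 0 = w₀)
    (hΓ : ∀ τ, q (Γ τ) = F (τ, 0)) (hη0 : η 0 = Γ 1) (hη : ∀ σ, q (η σ) = F (1, σ)) :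
    ∃ Γ' : C(unitInterval, W), Γ' 0 = w₀ ∧ Γ' 1 = η 1 ∧ ∀ τ, q (Γ' τ) = F (τ, 1) := by
  let G := hq.liftHomotopy F (ContinuousMap.const _ w₀) hF0
  have hG : ∀ p, q (G p) = F p := fun p => congr_fun (hq.liftHomotopy_lifts F _ hF0) p
  have hG0 : ∀ σ, G (0, σ) = w₀ := fun σ => hq.liftHomotopy_zero F _ hF0 σ
  have h1 : (fun τ => G (τ, 0)) = Γ := by
    refine hq.eq_of_comp_eq (by fun_prop) Γ.continuous ?_ 0 ?_
    · funext τ
      show q (G (τ, 0)) = q (Γ τ)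
      rw [hG, hΓ]
    · show G (0, 0) = Γ 0
      rw [hG0, hΓ0]
  have h2 : (fun σ => G (1, σ)) = η := by
    refine hq.eq_of_comp_eq (by fun_prop) η.continuous ?_ 0 ?_
    · funext σ
      show q (G (1, σ)) = q (η σ)
      rw [hG, hη]
    · show G (1, 0) = η 0
      rw [hη0]
      exact congr_fun h1 1
  refine ⟨⟨fun τ => G (τ, 1), by fun_prop⟩, hG0 1, congr_fun h2 1, fun τ => hG _⟩

theorem ends_transfer {k : ℕ} (δ : MvPolynomial (Fin k) ℂ)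
    {W : Type} [TopologicalSpace W] (q : W → Sp δ) (hq : IsCoveringMap q) (w₀ : W)
    (hw₀ : (q w₀).1 = 0) (z₁ : Fin k → ℂ) (ε : ℝ) (T : Set ℂ)
    (hT : ∀ z ∈ ball z₁ ε, ∀ t ∈ T, MvPolynomial.eval (t • z) δ ≠ 0)
    (hH : ∀ z ∈ ball z₁ ε, ∀ c : C(unitInterval, ℂ), Adm δ z 1 c →
        ∃ H : C(unitInterval × unitInterval, ℂ), (∀ τ, H (τ, 0) = c τ) ∧ (∀ τ, H (τ, 1) ∈ T) ∧
          (∀ σ, H (0, σ) = 0) ∧ (∀ σ, H (1, σ) = 1) ∧
          ∀ p, MvPolynomial.eval (H p • z) δ ≠ 0)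
    (e : OpenPartialHomeomorph W (Sp δ)) (he : q = e) (r : ℝ) (hr : r ≤ ε)
    (hr1 : ∀ x : Sp δ, x.1 ∈ ball z₁ r → x ∈ e.target)
    (hr2 : ∀ z ∈ ball z₁ r, MvPolynomial.eval z δ ≠ 0)
    (w w' : W) (hw : w ∈ e.source) (hw' : w' ∈ e.source) (hz : (q w).1 ∈ ball z₁ r)
    (hz' : (q w').1 ∈ ball z₁ r) (h : EndsAt q w₀ w (q w).1 1) :
    EndsAt q w₀ w' (q w').1 1 := by
  obtain ⟨c, hc, Γ, hΓ0, hΓ1, hΓ⟩ := h
  have hzε : (q w).1 ∈ ball z₁ ε := ball_subset_ball hr hz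
  obtain ⟨H, hH0, hHT, hHl, hHr, hHδ⟩ := hH _ hzε c hc
  -- first square
  let F1 : C(unitInterval × unitInterval, Sp δ) :=
    ⟨fun p => ⟨H p • (q w).1, hHδ p⟩, by
      refine Continuous.subtype_mk ?_ _
      exact H.continuous.smul continuous_const⟩
  obtain ⟨Γ', hΓ'0, hΓ'1, hΓ'⟩ := lift_square q hq w₀ F1
    (fun σ => by
      apply Subtype.ext
      show H (0, σ) • (q w).1 = (q w₀).1
      rw [hHl, zero_smul, hw₀]) Γ (ContinuousMap.const _ w) hΓ0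
    (fun τ => by
      apply Subtype.ext
      show (q (Γ τ)).1 = H (τ, 0) • (q w).1
      rw [hΓ, hH0]) hΓ1.symm
    (fun σ => by
      apply Subtype.ext
      show (q w).1 = H (1, σ) • (q w).1
      rw [hHr, one_smul])
  -- the segment
  let sg : unitInterval → (Fin k → ℂ) := fun σ =>
    (1 - (σ : ℝ)) • (q w).1 + (σ : ℝ) • (q w').1
  have hsgc : Continuous sg := by
    show Continuous fun σ : unitInterval => (1 - (σ : ℝ)) • (q w).1 + (σ : ℝ) • (q w').1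
    fun_prop
  have hsg : ∀ σ, sg σ ∈ ball z₁ r := fun σ =>
    (convex_ball z₁ r) hz hz' (sub_nonneg.2 σ.2.2) σ.2.1 (by ring)
  have hsg0 : sg 0 = (q w).1 := by simp [sg]
  have hsg1 : sg 1 = (q w').1 := by simp [sg]
  have hηc : Continuous fun σ => e.symm (⟨sg σ, hr2 _ (hsg σ)⟩ : Sp δ) := by
    have h1 : Continuous fun σ => (⟨sg σ, hr2 _ (hsg σ)⟩ : Sp δ) := hsgc.subtype_mk _
    exact e.continuousOn_symm.comp_continuous h1 (fun σ => hr1 _ (hsg σ))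
  let η : C(unitInterval, W) := ⟨fun σ => e.symm (⟨sg σ, hr2 _ (hsg σ)⟩ : Sp δ), hηc⟩
  have hη0 : η 0 = w := by
    show e.symm (⟨sg 0, hr2 _ (hsg 0)⟩ : Sp δ) = w
    have : (⟨sg 0, hr2 _ (hsg 0)⟩ : Sp δ) = e w := by
      apply Subtype.ext
      rw [← he]
      exact hsg0
    rw [this, e.left_inv hw]
  have hη1 : η 1 = w' := by
    show e.symm (⟨sg 1, hr2 _ (hsg 1)⟩ : Sp δ) = w'
    have : (⟨sg 1, hr2 _ (hsg 1)⟩ : Sp δ) = e w' := by
      apply Subtype.ext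
      rw [← he]
      exact hsg1
    rw [this, e.left_inv hw']
  have hη : ∀ σ, (q (η σ)).1 = sg σ := by
    intro σ
    have : q (η σ) = e (e.symm (⟨sg σ, hr2 _ (hsg σ)⟩ : Sp δ)) := by rw [he]; rfl
    rw [this, e.right_inv (hr1 _ (hsg σ))]
  -- second square
  let F2 : C(unitInterval × unitInterval, Sp δ) :=
    ⟨fun p => ⟨H (p.1, 1) • sg p.2, hT _ (ball_subset_ball hr (hsg p.2)) _ (hHT p.1)⟩, by
      refine Continuous.subtype_mk ?_ _
      exact (H.continuous.comp (by fun_prop)).smul (hsgc.comp continuous_snd)⟩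
  obtain ⟨Γ2, hΓ20, hΓ21, hΓ2⟩ := lift_square q hq w₀ F2
    (fun σ => by
      apply Subtype.ext
      show H (0, 1) • sg σ = (q w₀).1
      rw [hHl, zero_smul, hw₀]) Γ' η hΓ'0
    (fun τ => by
      apply Subtype.ext
      show (q (Γ' τ)).1 = H (τ, 1) • sg 0
      rw [hΓ', hsg0]
      rfl) (by rw [hη0, hΓ'1]; rfl)
    (fun σ => by
      apply Subtype.ext
      show (q (η σ)).1 = H (1, 1) • sg σ
      rw [hHr, one_smul, hη])
  refine ⟨⟨fun τ => H (τ, 1), by fun_prop⟩, ⟨hHl 1, hHr 1, fun τ => ?_⟩, Γ2, hΓ20, ?_, fun τ => ?_⟩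
  · exact hT _ (ball_subset_ball hr hz') _ (hHT τ)
  · rw [hΓ21, hη1]
  · have h3 := congrArg Subtype.val (hΓ2 τ)
    rw [h3]
    show H (τ, 1) • sg 1 = H (τ, 1) • (q w').1
    rw [hsg1]

theorem ends_one {k : ℕ} (δ : MvPolynomial (Fin k) ℂ)
    (h0 : MvPolynomial.eval (0 : Fin k → ℂ) δ ≠ 0)
    {W : Type} [TopologicalSpace W] (q : W → Sp δ) (hq : IsCoveringMap q) (w₀ : W)
    (hw₀ : (q w₀).1 = 0) (w₁ : W)
    (hpush : ∃ (ε : ℝ) (T : Set ℂ), 0 < ε ∧ IsCompact T ∧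
      (∀ z ∈ ball (q w₁).1 ε, ∀ t ∈ T, MvPolynomial.eval (t • z) δ ≠ 0) ∧
      ∀ z ∈ ball (q w₁).1 ε, ∀ c : C(unitInterval, ℂ), Adm δ z 1 c →
        ∃ H : C(unitInterval × unitInterval, ℂ), (∀ τ, H (τ, 0) = c τ) ∧ (∀ τ, H (τ, 1) ∈ T) ∧
          (∀ σ, H (0, σ) = 0) ∧ (∀ σ, H (1, σ) = 1) ∧
          ∀ p, MvPolynomial.eval (H p • z) δ ≠ 0) :
    ∀ᶠ w in 𝓝 w₁, (EndsAt q w₀ w (q w).1 1 ↔ EndsAt q w₀ w₁ (q w₁).1 1) := by
  obtain ⟨ε, T, hε, -, hT, hH⟩ := hpush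
  obtain ⟨e, hew, he⟩ := hq.isLocalHomeomorph w₁
  have ht1 : q w₁ ∈ e.target := by
    have h1 : q w₁ = e w₁ := by rw [he]
    rw [h1]
    exact e.map_source hew
  obtain ⟨r1, hr10, hr1⟩ := Metric.isOpen_iff.1 e.open_target _ ht1
  have hop : IsOpen {z : Fin k → ℂ | MvPolynomial.eval z δ ≠ 0} :=
    isOpen_ne_fun (MvPolynomial.continuous_eval δ) continuous_const
  obtain ⟨r2, hr20, hr2⟩ := Metric.isOpen_iff.1 hop (q w₁).1 (q w₁).2
  let r := min ε (min r1 r2)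
  have hr0 : 0 < r := lt_min hε (lt_min hr10 hr20)
  have hrε : r ≤ ε := min_le_left _ _
  have hA1 : ∀ x : Sp δ, x.1 ∈ ball (q w₁).1 r → x ∈ e.target := by
    intro x hx
    apply hr1
    rw [mem_ball] at hx ⊢
    exact lt_of_lt_of_le hx ((min_le_right _ _).trans (min_le_left _ _))
  have hA2 : ∀ z ∈ ball (q w₁).1 r, MvPolynomial.eval z δ ≠ 0 := by
    intro z hz
    exact hr2 (ball_subset_ball ((min_le_right _ _).trans (min_le_right _ _)) hz)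
  have hev1 : ∀ᶠ w in 𝓝 w₁, w ∈ e.source := e.open_source.mem_nhds hew
  have hcont : Continuous fun w => (q w).1 := continuous_subtype_val.comp hq.continuous
  have hev2 : ∀ᶠ w in 𝓝 w₁, (q w).1 ∈ ball (q w₁).1 r :=
    hcont.continuousAt.preimage_mem_nhds (ball_mem_nhds _ hr0)
  have hself : (q w₁).1 ∈ ball (q w₁).1 r := mem_ball_self hr0
  filter_upwards [hev1, hev2] with w hw hz
  exact ⟨ends_transfer δ q hq w₀ hw₀ _ ε T hT hH e he r hrε hA1 hA2 w w₁ hw hew hz hself,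
    ends_transfer δ q hq w₀ hw₀ _ ε T hT hH e he r hrε hA1 hA2 w₁ w hew hw hself hz⟩

end H113G
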