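import Pool.Agent.Helper113.Gorin.Defs

set_option autoImplicit false

open Metric Set Topology

namespace H113G



/-- endpoints of lifts of homotopic paths -/
theorem lift_end_aux {X E : Type*} [TopologicalSpace X] [TopologicalSpace E] {p : E → X}
    (cov : IsCoveringMap p) (e : E) (F : C(unitInterval × unitInterval, X))
    (hF0 : ∀ σ, F (0, σ) = F (0, 0)) (hF1 : ∀ σ, F (1, σ) = F (1, 0))
    (Γ : C(unitInterval, E)) (hΓ0 : Γ 0 = e) (hΓ : ∀ τ, p (Γ τ) = F (τ, 0)) :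
    ∃ Γ' : C(unitInterval, E), Γ' 0 = e ∧ Γ' 1 = Γ 1 ∧ ∀ τ, p (Γ' τ) = F (τ, 1) := by
  let γ₀ : C(unitInterval, X) := ⟨fun τ => F (τ, 0), by fun_prop⟩
  let γ₁ : C(unitInterval, X) := ⟨fun τ => F (τ, 1), by fun_prop⟩
  have h₀ : γ₀ 0 = p e := by
    show F (0, 0) = p e
    rw [← hΓ, hΓ0]
  have h₁ : γ₁ 0 = p e := by
    show F (0, 1) = p e
    rw [hF0, ← hΓ, hΓ0]
  let H : γ₀.HomotopyRel γ₁ {0, 1} :=
    { toFun := fun x => F (x.2, x.1)
      continuous_toFun := by fun_prop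
      map_zero_left := fun x => rfl
      map_one_left := fun x => rfl
      prop' := by
        intro t x hx
        rcases hx with rfl | hx
        · exact hF0 t
        · rw [Set.mem_singleton_iff] at hx
          subst hx
          exact hF1 t }
  have hG : Γ = cov.liftPath γ₀ e h₀ := (cov.eq_liftPath_iff' h₀).2 ⟨funext fun τ => hΓ τ, hΓ0⟩
  refine ⟨cov.liftPath γ₁ e h₁, cov.liftPath_zero _ _ _, ?_, fun τ => ?_⟩
  · rw [hG]
    exact (cov.liftPath_apply_one_eq_of_homotopicRel ⟨H⟩ e h₀ h₁).symm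
  · exact congrFun (cov.liftPath_lifts γ₁ e h₁) τ

theorem ends_zero {k : ℕ} (δ : MvPolynomial (Fin k) ℂ)
    (h0 : MvPolynomial.eval (0 : Fin k → ℂ) δ ≠ 0) (z₁ : Fin k → ℂ)
    (hpush : ∃ (ε : ℝ) (T : Set ℂ), 0 < ε ∧ IsCompact T ∧
      (∀ z ∈ ball z₁ ε, ∀ t ∈ T, MvPolynomial.eval (t • z) δ ≠ 0) ∧
      ∀ z ∈ ball z₁ ε, ∀ c : C(unitInterval, ℂ), Adm δ z 0 c →
        ∃ H : C(unitInterval × unitInterval, ℂ), (∀ τ, H (τ, 0) = c τ) ∧ (∀ τ, H (τ, 1) ∈ T) ∧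
          (∀ σ, H (0, σ) = 0) ∧ (∀ σ, H (1, σ) = 0) ∧
          ∀ p, MvPolynomial.eval (H p • z) δ ≠ 0)
    {W : Type} [TopologicalSpace W] (q : W → Sp δ) (hq : IsCoveringMap q) (w₀ : W)
    (hw₀ : (q w₀).1 = 0) :
    ∃ ε : ℝ, 0 < ε ∧ ∀ z ∈ ball z₁ ε, ∀ w : W, EndsAt q w₀ w z 0 ↔ EndsAt q w₀ w z₁ 0 := by
  obtain ⟨ε, T, hε, -, hT, hH⟩ := hpush
  refine ⟨ε, hε, ?_⟩
  have key : ∀ z ∈ ball z₁ ε, ∀ z' ∈ ball z₁ ε, ∀ w : W, EndsAt q w₀ w z 0 → EndsAt q w₀ w z' 0 := by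
    rintro z hz z' hz' w ⟨c, hc, Γ, hΓ0, hΓ1, hΓ⟩
    obtain ⟨H, H0, H1, Hl, Hr, Hne⟩ := hH z hz c hc
    let F₁ : C(unitInterval × unitInterval, Sp δ) :=
      ⟨fun x => ⟨H x • z, Hne x⟩, by
        refine Continuous.subtype_mk ?_ _
        exact (H.continuous).smul continuous_const⟩
    obtain ⟨Γ₁, hΓ₁0, hΓ₁1, hΓ₁⟩ := lift_end_aux hq w₀ F₁
      (fun σ => Subtype.ext (by show H (0, σ) • z = H (0, 0) • z; rw [Hl, Hl]))
      (fun σ => Subtype.ext (by show H (1, σ) • z = H (1, 0) • z; rw [Hr, Hr])) Γ hΓ0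
      (fun τ => Subtype.ext (by show (q (Γ τ)).1 = H (τ, 0) • z; rw [hΓ, H0]))
    have hseg : ∀ σ : unitInterval, (1 - (σ : ℝ)) • z + (σ : ℝ) • z' ∈ ball z₁ ε := by
      intro σ
      exact (convex_ball z₁ ε) hz hz' (by have := σ.2.2; linarith) σ.2.1 (by ring)
    let F₂ : C(unitInterval × unitInterval, Sp δ) :=
      ⟨fun x => ⟨H (x.1, 1) • ((1 - (x.2 : ℝ)) • z + (x.2 : ℝ) • z'),
        hT _ (hseg x.2) _ (H1 x.1)⟩, by
        refine Continuous.subtype_mk ?_ _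
        have h1 : Continuous (fun x : unitInterval × unitInterval => H (x.1, 1)) :=
          H.continuous.comp (continuous_fst.prodMk continuous_const)
        have h2 : Continuous (fun x : unitInterval × unitInterval =>
            (1 - (x.2 : ℝ)) • z + (x.2 : ℝ) • z') := by
          fun_prop
        exact h1.smul h2⟩
    obtain ⟨Γ₂, hΓ₂0, hΓ₂1, hΓ₂⟩ := lift_end_aux hq w₀ F₂
      (fun σ => Subtype.ext (by
        show H (0, 1) • ((1 - (σ : ℝ)) • z + (σ : ℝ) • z') = H (0, 1) • ((1 - ((0 : unitInterval) : ℝ)) • z + ((0 : unitInterval) : ℝ) • z')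
        rw [Hl, zero_smul, zero_smul]))
      (fun σ => Subtype.ext (by
        show H (1, 1) • ((1 - (σ : ℝ)) • z + (σ : ℝ) • z') = H (1, 1) • ((1 - ((0 : unitInterval) : ℝ)) • z + ((0 : unitInterval) : ℝ) • z')
        rw [Hr, zero_smul, zero_smul])) Γ₁ hΓ₁0
      (fun τ => by
        rw [hΓ₁]
        apply Subtype.ext
        show H (τ, 1) • z = H (τ, 1) • ((1 - ((0 : unitInterval) : ℝ)) • z + ((0 : unitInterval) : ℝ) • z')
        simp)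
    refine ⟨⟨fun τ => H (τ, 1), H.continuous.comp (continuous_id.prodMk continuous_const)⟩,
      ⟨Hl 1, Hr 1, fun τ => hT z' hz' _ (H1 τ)⟩, Γ₂, hΓ₂0, ?_, ?_⟩
    · rw [hΓ₂1, hΓ₁1, hΓ1]
    · intro τ
      rw [hΓ₂]
      show H (τ, 1) • ((1 - ((1 : unitInterval) : ℝ)) • z + ((1 : unitInterval) : ℝ) • z') = H (τ, 1) • z'
      simp
  intro z hz w
  exact ⟨key z hz z₁ (mem_ball_self hε) w, key z₁ (mem_ball_self hε) z hz w⟩

end H113G
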