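import Pool.Agent.Helper113.Gorin.Defs

set_option autoImplicit false

open Metric Set Topology

namespace H113G




theorem fv_liouville (F : Finset ℂ) : ∀ f : ℂ → ℂ, DifferentiableOn ℂ f (↑F : Set ℂ)ᶜ →
    (∃ C : ℝ, ∀ t, t ∉ F → ‖f t‖ ≤ C) → ∃ c : ℂ, ∀ t, t ∉ F → f t = c := by
  induction F using Finset.induction_on with
  | empty =>
    intro f hf hb
    obtain ⟨C, hC⟩ := hb
    have hf' : Differentiable ℂ f := by
      have : DifferentiableOn ℂ f univ := by simpa using hf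
      exact differentiableOn_univ.1 this
    have hbd : Bornology.IsBounded (range f) := by
      rw [isBounded_iff_forall_norm_le]
      exact ⟨C, by rintro _ ⟨t, rfl⟩; exact hC t (by simp)⟩
    exact ⟨f 0, fun t _ => hf'.apply_eq_apply_of_bounded hbd t 0⟩
  | insert a F ha ih =>
    intro f hf hb
    obtain ⟨C, hC⟩ := hb
    have hopen : IsOpen ((↑F : Set ℂ)ᶜ) := F.finite_toSet.isClosed.isOpen_compl
    have hs : (↑F : Set ℂ)ᶜ ∈ 𝓝 a := hopen.mem_nhds (by simpa using ha)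
    have hset : (↑F : Set ℂ)ᶜ \ {a} = (↑(insert a F) : Set ℂ)ᶜ := by
      ext t
      simp only [mem_diff, mem_compl_iff, Finset.mem_coe, mem_singleton_iff, Finset.coe_insert,
        mem_insert_iff, not_or]
      exact and_comm
    have hd : DifferentiableOn ℂ f ((↑F : Set ℂ)ᶜ \ {a}) := by rw [hset]; exact hf
    have hbb : BddAbove (norm ∘ f '' ((↑F : Set ℂ)ᶜ \ {a})) := by
      refine ⟨C, ?_⟩
      rintro _ ⟨t, ht, rfl⟩
      rw [hset] at ht
      exact hC t (by simpa using ht)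
    have hg := Complex.differentiableOn_update_limUnder_of_bddAbove hs hd hbb
    set g := Function.update f a ((𝓝[≠] a).limUnder f) with hgdef
    obtain ⟨c, hc⟩ := ih g hg ⟨max C ‖g a‖, fun t ht => by
      by_cases hta : t = a
      · rw [hta]; exact le_max_right _ _
      · have : g t = f t := by rw [hgdef, Function.update_of_ne hta]
        rw [this]
        exact (hC t (by simp [hta, ht])).trans (le_max_left _ _)⟩
    refine ⟨c, fun t ht => ?_⟩
    rw [Finset.mem_insert, not_or] at ht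
    have h1 := hc t ht.2
    rwa [hgdef, Function.update_of_ne ht.1] at h1

theorem fv_cont {m : ℕ} {Y : Set (Fin m → ℂ)} {u : (Fin m → ℂ) → ℂ} (hu : HolOn Y u) :
    ContinuousOn u Y := by
  intro p hp
  obtain ⟨U, hU, hpU, h, hh, heq⟩ := hu p hp
  have h1 : ContinuousWithinAt h Y p :=
    ((hh p hpU).differentiableAt (hU.mem_nhds hpU)).continuousAt.continuousWithinAt
  refine h1.congr_of_eventuallyEq ?_ (heq p hp hpU).symm
  filter_upwards [self_mem_nhdsWithin, mem_nhdsWithin_of_mem_nhds (hU.mem_nhds hpU)] with y hy hyU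
  exact (heq y hy hyU).symm

theorem fv_poly {k : ℕ} (δ : MvPolynomial (Fin k) ℂ) (v : Fin k → ℂ)
    (h0 : MvPolynomial.eval (0 : Fin k → ℂ) δ ≠ 0) :
    {t : ℂ | MvPolynomial.eval (t • v) δ = 0}.Finite := by
  let p : Polynomial ℂ := MvPolynomial.aeval (fun i => Polynomial.C (v i) * Polynomial.X) δ
  have hp : ∀ t : ℂ, p.eval t = MvPolynomial.eval (t • v) δ := by
    intro t
    have h1 : p.eval t = (Polynomial.aeval t) (MvPolynomial.aeval
      (fun i => Polynomial.C (v i) * Polynomial.X) δ) := (Polynomial.coe_aeval_eq_eval t ▸ rfl)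
    rw [h1, MvPolynomial.comp_aeval_apply, MvPolynomial.aeval_eq_eval]
    congr 2
    funext i
    rw [map_mul, Polynomial.aeval_C, Polynomial.aeval_X]
    exact mul_comm _ _
  have hne : p ≠ 0 := by
    intro h
    have := hp 0
    rw [h, Polynomial.eval_zero, zero_smul] at this
    exact h0 this.symm
  refine (p.roots.toFinset.finite_toSet).subset fun t ht => ?_
  simp only [Finset.mem_coe, Multiset.mem_toFinset, Polynomial.mem_roots hne,
    Polynomial.IsRoot.def]
  rw [hp]; exact ht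

theorem finite_values {m k e : ℕ} (Y : Set (Fin m → ℂ)) (pr : (Fin m → ℂ) → (Fin k → ℂ))
    (δ : MvPolynomial (Fin k) ℂ) (h : Cov Y pr δ e) (v : Fin k → ℂ) (u : (Fin m → ℂ) → ℂ)
    (hu : HolOn Y u)
    (hb : ∃ R C : ℝ, ∀ t : ℂ, R < ‖t‖ → ∀ y ∈ Y, pr y = t • v → ‖u y‖ ≤ C) :
    ∃ S : Finset ℂ, ∀ t : ℂ, MvPolynomial.eval (t • v) δ ≠ 0 → ∀ y ∈ Y, pr y = t • v → u y ∈ S := by
  classical
  obtain ⟨R, C, hRC⟩ := hb
  have hFfin := fv_poly δ v h.base
  set F : Finset ℂ := hFfin.toFinset with hF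
  have hFmem : ∀ t, t ∉ F ↔ MvPolynomial.eval (t • v) δ ≠ 0 := by
    intro t; rw [hF, Set.Finite.mem_toFinset]; rfl
  -- bound of u
  obtain ⟨M, hM0, hM⟩ : ∃ M : ℝ, 0 ≤ M ∧ ∀ t : ℂ, ∀ y ∈ Y, pr y = t • v → ‖u y‖ ≤ M := by
    obtain ⟨R', hR'⟩ := h.proper (|R| * ‖v‖)
    have hK : IsCompact (Y ∩ closedBall 0 R') := (isCompact_closedBall _ _).inter_left h.closed
    obtain ⟨C', hC'⟩ := hK.exists_bound_of_continuousOn ((fv_cont hu).mono inter_subset_left)
    refine ⟨max 0 (max C C'), le_max_left _ _, fun t y hy hyt => ?_⟩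
    rcases lt_or_ge R ‖t‖ with ht | ht
    · exact (hRC t ht y hy hyt).trans ((le_max_left _ _).trans (le_max_right _ _))
    · have h1 : ‖pr y‖ ≤ |R| * ‖v‖ := by
        rw [hyt, norm_smul]
        exact mul_le_mul_of_nonneg_right (ht.trans (le_abs_self R)) (norm_nonneg _)
      have h2 : y ∈ Y ∩ closedBall 0 R' := ⟨hy, by simpa using hR' y hy h1⟩
      exact (hC' y h2).trans ((le_max_right _ _).trans (le_max_right _ _))
  let G : ℂ → ℂ → ℂ := fun X t => ∏ᶠ y ∈ {y | y ∈ Y ∧ pr y = t • v}, (X - u y)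
  have hloc : ∀ t0, t0 ∉ F → ∃ r : ℝ, 0 < r ∧ ∃ s : Fin e → (Fin k → ℂ) → (Fin m → ℂ),
      (∀ i, DifferentiableOn ℂ (s i) (ball (t0 • v) r)) ∧
      ∀ t : ℂ, t • v ∈ ball (t0 • v) r → {y | y ∈ Y ∧ pr y = t • v} =
        Set.range (fun i => s i (t • v)) ∧ ∀ X, G X t = ∏ i, (X - u (s i (t • v))) := by
    intro t0 ht0
    obtain ⟨r, hr, s, hs, hs'⟩ := h.sections (t0 • v) ((hFmem t0).1 ht0)
    refine ⟨r, hr, s, hs, fun t ht => ?_⟩
    obtain ⟨_, hinj, hran⟩ := hs' (t • v) ht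
    refine ⟨hran, fun X => ?_⟩
    simp only [G]
    rw [hran, finprod_mem_range hinj, finprod_eq_prod_of_fintype]
  have hGd : ∀ X, DifferentiableOn ℂ (G X) (↑F : Set ℂ)ᶜ := by
    intro X t0 ht0
    obtain ⟨r, hr, s, hs, hs'⟩ := hloc t0 (by simpa using ht0)
    have hcont : Continuous (fun t : ℂ => t • v) := by fun_prop
    have hev : ∀ᶠ t in 𝓝 t0, t • v ∈ ball (t0 • v) r :=
      hcont.continuousAt.eventually (isOpen_ball.mem_nhds (mem_ball_self hr))
    have heq : G X =ᶠ[𝓝 t0] fun t => ∏ i, (X - u (s i (t • v))) := by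
      filter_upwards [hev] with t ht
      exact (hs' t ht).2 X
    have hui : ∀ i, DifferentiableAt ℂ (fun t : ℂ => u (s i (t • v))) t0 := by
      intro i
      have hsd : DifferentiableAt ℂ (fun t : ℂ => s i (t • v)) t0 := by
        have h1 : DifferentiableAt ℂ (s i) (t0 • v) :=
          (hs i).differentiableAt (isOpen_ball.mem_nhds (mem_ball_self hr))
        have h2 : DifferentiableAt ℂ (fun t : ℂ => t • v) t0 := by fun_prop
        exact h1.comp t0 h2
      have hp : s i (t0 • v) ∈ Y := by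
        have : s i (t0 • v) ∈ {y | y ∈ Y ∧ pr y = t0 • v} := by
          rw [(hs' t0 (mem_ball_self hr)).1]; exact ⟨i, rfl⟩
        exact this.1
      obtain ⟨U, hU, hpU, g, hg, hgeq⟩ := hu _ hp
      have h3 : DifferentiableAt ℂ (fun t : ℂ => g (s i (t • v))) t0 :=
        ((hg _ hpU).differentiableAt (hU.mem_nhds hpU)).comp t0 hsd
      refine h3.congr_of_eventuallyEq ?_
      have hevU : ∀ᶠ t in 𝓝 t0, s i (t • v) ∈ U :=
        hsd.continuousAt.eventually (hU.mem_nhds hpU)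
      filter_upwards [hevU, hev] with t htU ht
      have hyt : s i (t • v) ∈ {y | y ∈ Y ∧ pr y = t • v} := by
        rw [(hs' t ht).1]; exact ⟨i, rfl⟩
      exact (hgeq _ hyt.1 htU).symm
    have hprod : DifferentiableAt ℂ (fun t => ∏ i, (X - u (s i (t • v)))) t0 := by
      have := DifferentiableAt.fun_finsetProd (u := Finset.univ)
        (f := fun i (t : ℂ) => X - u (s i (t • v))) (x := t0)
        (fun i _ => (differentiableAt_const X).sub (hui i))
      exact this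
    exact (hprod.congr_of_eventuallyEq heq).differentiableWithinAt
  have hGb : ∀ X, ∃ C : ℝ, ∀ t, t ∉ F → ‖G X t‖ ≤ C := by
    intro X
    refine ⟨(‖X‖ + M) ^ e, fun t ht => ?_⟩
    obtain ⟨r, hr, s, hs, hs'⟩ := hloc t ht
    obtain ⟨hran, hG⟩ := hs' t (mem_ball_self hr)
    rw [hG X, norm_prod]
    calc ∏ i, ‖X - u (s i (t • v))‖ ≤ ∏ _i : Fin e, (‖X‖ + M) := by
          refine Finset.prod_le_prod (fun i _ => norm_nonneg _) fun i _ => ?_
          have hyt : s i (t • v) ∈ {y | y ∈ Y ∧ pr y = t • v} := by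
            rw [hran]; exact ⟨i, rfl⟩
          exact (norm_sub_le _ _).trans (add_le_add le_rfl (hM t _ hyt.1 hyt.2))
      _ = (‖X‖ + M) ^ e := by simp
  have h0F : (0 : ℂ) ∉ F := by
    rw [hFmem, zero_smul]; exact h.base
  obtain ⟨r0, hr0, s0, hs0, hs0'⟩ := hloc 0 h0F
  refine ⟨Finset.univ.image (fun i => u (s0 i ((0 : ℂ) • v))), ?_⟩
  intro t ht y hy hyt
  obtain ⟨c, hc⟩ := fv_liouville F (G (u y)) (hGd (u y)) (hGb (u y))
  have htF : t ∉ F := (hFmem t).2 ht
  have h1 : G (u y) t = 0 := by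
    obtain ⟨r, hr, s, hs, hs'⟩ := hloc t htF
    obtain ⟨hran, hG⟩ := hs' t (mem_ball_self hr)
    rw [hG]
    have hy' : y ∈ {y | y ∈ Y ∧ pr y = t • v} := ⟨hy, hyt⟩
    rw [hran] at hy'
    obtain ⟨i, hi⟩ := hy'
    refine Finset.prod_eq_zero (Finset.mem_univ i) ?_
    have : s i (t • v) = y := hi
    rw [this, sub_self]
  have h2 : G (u y) 0 = 0 := by rw [hc 0 h0F, ← hc t htF, h1]
  rw [(hs0' 0 (mem_ball_self hr0)).2, Finset.prod_eq_zero_iff] at h2
  obtain ⟨i, _, hi⟩ := h2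
  rw [Finset.mem_image]
  exact ⟨i, Finset.mem_univ i, (sub_eq_zero.1 hi).symm⟩

end H113G
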