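import Pool.Agent.Helper113.Gorin.Defs

set_option autoImplicit false

open Metric Set Topology

namespace H113G




theorem norm_9495 {k : ℕ} (p : Polynomial (FractionRing (MvPolynomial (Fin k) ℂ))) :
    ∃ (d : MvPolynomial (Fin k) ℂ) (P : Polynomial (MvPolynomial (Fin k) ℂ)), d ≠ 0 ∧
      P.map (algebraMap _ (FractionRing (MvPolynomial (Fin k) ℂ))) =
        Polynomial.C (algebraMap _ (FractionRing (MvPolynomial (Fin k) ℂ)) d) * p := by
  obtain ⟨b, hb, h⟩ := IsLocalization.integerNormalization_spec
    (nonZeroDivisors (MvPolynomial (Fin k) ℂ)) p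
  refine ⟨b, _, nonZeroDivisors.ne_zero hb, h.trans ?_⟩
  ext n
  rw [Polynomial.coeff_smul, Polynomial.coeff_C_mul, Algebra.smul_def]

theorem generic_alg {k : ℕ} (δ : MvPolynomial (Fin k) ℂ)
    (h0 : MvPolynomial.eval (0 : Fin k → ℂ) δ ≠ 0) :
    ∃ (D : MvPolynomial (Fin k) ℂ) (r : Polynomial (MvPolynomial (Fin k) ℂ)), D ≠ 0 ∧
      ∀ v : Fin k → ℂ, MvPolynomial.eval v D ≠ 0 →
        MvPolynomial.eval v r.leadingCoeff ≠ 0 ∧
        (∀ t : ℂ, MvPolynomial.eval (t • v) δ = 0 ↔ (r.map (MvPolynomial.eval v)).eval t = 0) ∧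
        (∀ t : ℂ, (r.map (MvPolynomial.eval v)).eval t = 0 →
          ((Polynomial.derivative r).map (MvPolynomial.eval v)).eval t ≠ 0) := by
  classical
  obtain ⟨ι, hι⟩ : ∃ ι : MvPolynomial (Fin k) ℂ →+* FractionRing (MvPolynomial (Fin k) ℂ),
    ι = algebraMap _ _ := ⟨_, rfl⟩
  have hinj : Function.Injective ι := by
    rw [hι]; exact IsFractionRing.injective _ _
  have hminj : Function.Injective (Polynomial.map ι) := Polynomial.map_injective ι hinj
  have hnorm : ∀ p : Polynomial (FractionRing (MvPolynomial (Fin k) ℂ)),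
      ∃ (d : MvPolynomial (Fin k) ℂ) (P : Polynomial (MvPolynomial (Fin k) ℂ)), d ≠ 0 ∧
      P.map ι = Polynomial.C (ι d) * p := by
    rw [hι]; exact norm_9495
  obtain ⟨q, hq⟩ : ∃ q : Polynomial (MvPolynomial (Fin k) ℂ),
    q = MvPolynomial.eval₂Hom ((Polynomial.C : MvPolynomial (Fin k) ℂ →+* _).comp MvPolynomial.C)
      (fun i => Polynomial.C (MvPolynomial.X i) * Polynomial.X) δ := ⟨_, rfl⟩
  have hqev : ∀ (v : Fin k → ℂ) (t : ℂ), (q.map (MvPolynomial.eval v)).eval t =
      MvPolynomial.eval (t • v) δ := by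
    intro v t
    have h1 : ((Polynomial.evalRingHom t).comp ((Polynomial.mapRingHom (MvPolynomial.eval v)).comp
      (MvPolynomial.eval₂Hom ((Polynomial.C : MvPolynomial (Fin k) ℂ →+* _).comp MvPolynomial.C)
      (fun i => Polynomial.C (MvPolynomial.X i) * Polynomial.X)))) = MvPolynomial.eval (t • v) := by
      apply MvPolynomial.ringHom_ext
      · intro a
        show Polynomial.eval t (Polynomial.map (MvPolynomial.eval v) (MvPolynomial.eval₂Hom
          ((Polynomial.C : MvPolynomial (Fin k) ℂ →+* _).comp MvPolynomial.C)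
          (fun i => Polynomial.C (MvPolynomial.X i) * Polynomial.X) (MvPolynomial.C a))) = _
        rw [MvPolynomial.eval₂Hom_C, RingHom.comp_apply, Polynomial.map_C, Polynomial.eval_C,
          MvPolynomial.eval_C, MvPolynomial.eval_C]
      · intro i
        show Polynomial.eval t (Polynomial.map (MvPolynomial.eval v) (MvPolynomial.eval₂Hom
          ((Polynomial.C : MvPolynomial (Fin k) ℂ →+* _).comp MvPolynomial.C)
          (fun i => Polynomial.C (MvPolynomial.X i) * Polynomial.X) (MvPolynomial.X i))) = _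
        rw [MvPolynomial.eval₂Hom_X', Polynomial.map_mul, Polynomial.map_C, Polynomial.map_X,
          Polynomial.eval_mul, Polynomial.eval_C, Polynomial.eval_X, MvPolynomial.eval_X,
          MvPolynomial.eval_X, Pi.smul_apply, smul_eq_mul, mul_comm]
    have h2 := RingHom.congr_fun h1 δ
    rw [hq]
    exact h2
  have hq0 : q ≠ 0 := by
    intro h
    have h1 := hqev 0 0
    rw [h, zero_smul] at h1
    simp only [Polynomial.map_zero, Polynomial.eval_zero] at h1
    exact h0 h1.symm
  have hq0' : q.map ι ≠ 0 := by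
    intro h
    apply hq0
    apply hminj
    rw [h, Polynomial.map_zero]
  obtain ⟨r0, n, hsq, hdvd1, hdvd2⟩ := exists_squarefree_dvd_pow_of_ne_zero hq0'
  rw [← PerfectField.separable_iff_squarefree] at hsq
  obtain ⟨a0, b0, hab⟩ := hsq
  obtain ⟨s0, hs0⟩ := hdvd1
  obtain ⟨s1, hs1⟩ := hdvd2
  obtain ⟨c, r, hc, hr⟩ := hnorm r0
  obtain ⟨e, s, he, hs⟩ := hnorm s0
  obtain ⟨f, u, hf, hu⟩ := hnorm s1
  obtain ⟨g, a, hg, ha⟩ := hnorm a0
  obtain ⟨h, b, hh, hb⟩ := hnorm b0
  have hr0 : r0 ≠ 0 := by
    intro h1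
    rw [h1, zero_mul] at hs0
    exact hq0' hs0
  have hrne : r ≠ 0 := by
    intro h1
    rw [h1, Polynomial.map_zero] at hr
    have h2 : Polynomial.C (ι c) ≠ 0 := by
      rw [Ne, Polynomial.C_eq_zero, map_eq_zero_iff ι hinj]
      exact hc
    exact (mul_ne_zero h2 hr0) hr.symm
  have hr' : (Polynomial.derivative r).map ι = Polynomial.C (ι c) * Polynomial.derivative r0 := by
    rw [← Polynomial.derivative_map, hr, Polynomial.derivative_C_mul]
  have e1 : Polynomial.C (c * e) * q = r * s := by
    apply hminj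
    rw [Polynomial.map_mul, Polynomial.map_mul, Polynomial.map_C, hr, hs, hs0, map_mul ι,
      Polynomial.C_mul]
    ring
  have e2 : Polynomial.C f * r ^ n = Polynomial.C (c ^ n) * q * u := by
    apply hminj
    rw [Polynomial.map_mul, Polynomial.map_mul, Polynomial.map_mul, Polynomial.map_pow,
      Polynomial.map_C, Polynomial.map_C, hr, hu, mul_pow, hs1, map_pow, Polynomial.C_pow]
    ring
  have e3 : Polynomial.C (c * g * h) = Polynomial.C h * a * r +
      Polynomial.C g * b * Polynomial.derivative r := by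
    apply hminj
    rw [Polynomial.map_add, Polynomial.map_mul, Polynomial.map_mul, Polynomial.map_mul,
      Polynomial.map_mul, Polynomial.map_C, Polynomial.map_C, Polynomial.map_C, hr, ha, hb, hr',
      map_mul ι, map_mul ι, Polynomial.C_mul, Polynomial.C_mul]
    linear_combination (-(Polynomial.C (ι c) * Polynomial.C (ι g) * Polynomial.C (ι h))) * hab
  refine ⟨c * e * f * g * h * r.leadingCoeff, r, ?_, ?_⟩
  · have := Polynomial.leadingCoeff_ne_zero.2 hrne
    exact mul_ne_zero (mul_ne_zero (mul_ne_zero (mul_ne_zero (mul_ne_zero hc he) hf) hg) hh) this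
  · intro v hv
    rw [map_mul, map_mul, map_mul, map_mul, map_mul] at hv
    have vl := right_ne_zero_of_mul hv
    have hv5 := left_ne_zero_of_mul hv
    have vh := right_ne_zero_of_mul hv5
    have hv4 := left_ne_zero_of_mul hv5
    have vg := right_ne_zero_of_mul hv4
    have hv3 := left_ne_zero_of_mul hv4
    have vf := right_ne_zero_of_mul hv3
    have hv2 := left_ne_zero_of_mul hv3
    have ve := right_ne_zero_of_mul hv2
    have vc := left_ne_zero_of_mul hv2
    have E : ∀ (p p' : Polynomial (MvPolynomial (Fin k) ℂ)) (t : ℂ), p = p' →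
        (p.map (MvPolynomial.eval v)).eval t = (p'.map (MvPolynomial.eval v)).eval t := by
      intro p p' t h; rw [h]
    refine ⟨vl, ?_, ?_⟩
    · intro t
      rw [← hqev]
      have f1 := E _ _ t e1
      have f2 := E _ _ t e2
      simp only [Polynomial.map_mul, Polynomial.map_C, Polynomial.eval_mul, Polynomial.eval_C,
        Polynomial.map_pow, Polynomial.eval_pow] at f1 f2
      constructor
      · intro h1
        rw [h1, mul_zero, zero_mul] at f2
        rcases mul_eq_zero.1 f2 with h2 | h2
        · exact absurd h2 vf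
        · exact eq_zero_of_pow_eq_zero h2
      · intro h1
        rw [h1, zero_mul, map_mul] at f1
        rcases mul_eq_zero.1 f1 with h2 | h2
        · exact absurd h2 (mul_ne_zero vc ve)
        · exact h2
    · intro t h1 h2
      have f3 := E _ _ t e3
      simp only [Polynomial.map_mul, Polynomial.map_add, Polynomial.map_C, Polynomial.eval_mul,
        Polynomial.eval_add, Polynomial.eval_C] at f3
      rw [h1, h2, mul_zero, mul_zero, add_zero, map_mul, map_mul] at f3
      exact (mul_ne_zero (mul_ne_zero vc vg) vh) f3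

end H113G
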