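import Pool.Agent.Helper113.Gorin.Defs

set_option autoImplicit false

open Metric Set Topology

namespace H113G




theorem gs_aux {N : ℕ} (q : Polynomial ℂ) (hq : q ≠ 0) (hN : q.natDegree = N)
    (hs : ∀ t : ℂ, q.eval t = 0 → (Polynomial.derivative q).eval t ≠ 0) :
    q.roots.toFinset.card = N := by
  classical
  rw [Multiset.toFinset_card_of_nodup, ← hN]
  · exact IsAlgClosed.card_roots_eq_natDegree
  · rw [Multiset.nodup_iff_count_le_one]
    intro t
    rw [Polynomial.count_roots]
    by_contra hc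
    push Not at hc
    rw [Polynomial.one_lt_rootMultiplicity_iff_isRoot hq] at hc
    exact hs t hc.1 hc.2

theorem gs_near {N : ℕ} (q : Polynomial ℂ) (hN : q.natDegree = N) (c ρ : ℝ) (hc : 0 < c) (hρ : 0 < ρ)
    (hl : c ≤ ‖q.leadingCoeff‖) (x : ℂ) (hx : ‖q.eval x‖ < c * ρ ^ N) :
    ∃ b, q.eval b = 0 ∧ ‖b - x‖ < ρ := by
  classical
  by_contra hcon
  push Not at hcon
  have hq : q ≠ 0 := by
    rintro rfl
    simp at hl
    linarith
  have h1 := (IsAlgClosed.splits q).eval_eq_prod_roots x
  have h2 : ‖q.eval x‖ = ‖q.leadingCoeff‖ * (q.roots.map (fun b => ‖x - b‖)).prod := by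
    rw [h1, norm_mul]
    congr 1
    have := map_multiset_prod (normHom : ℂ →*₀ ℝ) (q.roots.map (fun b => x - b))
    rw [Multiset.map_map] at this
    exact this
  have h3 : ρ ^ N ≤ (q.roots.map (fun b => ‖x - b‖)).prod := by
    have h4 : (q.roots.map (fun _ => ρ)).prod = ρ ^ N := by
      rw [Multiset.map_const', Multiset.prod_replicate, IsAlgClosed.card_roots_eq_natDegree, hN]
    rw [← h4]
    apply Multiset.prod_map_le_prod_map₀
    · intro i _; exact hρ.le
    · intro i hi
      rw [norm_sub_rev]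
      exact hcon i ((Polynomial.mem_roots hq).mp hi)
  rw [h2] at hx
  have : c * ρ ^ N ≤ ‖q.leadingCoeff‖ * (q.roots.map (fun b => ‖x - b‖)).prod :=
    mul_le_mul hl h3 (by positivity) (norm_nonneg _)
  linarith

theorem generic_stable {k : ℕ} (δ : MvPolynomial (Fin k) ℂ)
    (D : MvPolynomial (Fin k) ℂ) (r : Polynomial (MvPolynomial (Fin k) ℂ))
    (h : ∀ v : Fin k → ℂ, MvPolynomial.eval v D ≠ 0 →
        MvPolynomial.eval v r.leadingCoeff ≠ 0 ∧
        (∀ t : ℂ, MvPolynomial.eval (t • v) δ = 0 ↔ (r.map (MvPolynomial.eval v)).eval t = 0) ∧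
        (∀ t : ℂ, (r.map (MvPolynomial.eval v)).eval t = 0 →
          ((Polynomial.derivative r).map (MvPolynomial.eval v)).eval t ≠ 0)) :
    ∀ v : Fin k → ℂ, MvPolynomial.eval v D ≠ 0 → RootStable δ v := by
  intro v₁ hv₁
  classical
  set N := r.natDegree with hN
  have hnat : ∀ v, MvPolynomial.eval v D ≠ 0 → (r.map (MvPolynomial.eval v)).natDegree = N :=
    fun v hv => Polynomial.natDegree_map_of_leadingCoeff_ne_zero _ (h v hv).1
  have hlead : ∀ v, MvPolynomial.eval v D ≠ 0 →
      (r.map (MvPolynomial.eval v)).leadingCoeff = MvPolynomial.eval v r.leadingCoeff :=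
    fun v hv => Polynomial.leadingCoeff_map_of_leadingCoeff_ne_zero _ (h v hv).1
  have hne : ∀ v, MvPolynomial.eval v D ≠ 0 → r.map (MvPolynomial.eval v) ≠ 0 := by
    intro v hv h0
    have := hlead v hv
    rw [h0, Polynomial.leadingCoeff_zero] at this
    exact (h v hv).1 this.symm
  have hcard : ∀ v, MvPolynomial.eval v D ≠ 0 →
      (r.map (MvPolynomial.eval v)).roots.toFinset.card = N := by
    intro v hv
    refine gs_aux _ (hne v hv) (hnat v hv) fun t ht => ?_
    rw [Polynomial.derivative_map]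
    exact (h v hv).2.2 t ht
  let Z := (r.map (MvPolynomial.eval v₁)).roots.toFinset
  have hZ : Z.card = N := hcard v₁ hv₁
  let e : Fin N ≃ Z := (Z.equivFinOfCardEq hZ).symm
  let a : Fin N → ℂ := fun i => (e i : ℂ)
  have ha : Function.Injective a := Subtype.val_injective.comp e.injective
  have har : ∀ i, (r.map (MvPolynomial.eval v₁)).eval (a i) = 0 := by
    intro i
    have := (e i).2
    simp only [Z, Multiset.mem_toFinset] at this
    exact (Polynomial.mem_roots (hne v₁ hv₁)).mp this
  refine ⟨N, a, ha, ?_, ?_⟩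
  · intro t
    rw [(h v₁ hv₁).2.1 t]
    constructor
    · intro ht
      have hm : t ∈ Z := by
        simp only [Z, Multiset.mem_toFinset]
        exact (Polynomial.mem_roots (hne v₁ hv₁)).mpr ht
      refine ⟨e.symm ⟨t, hm⟩, ?_⟩
      simp [a]
    · rintro ⟨i, rfl⟩
      exact har i
  · intro ρ hρ
    -- separation
    obtain ⟨sep, hsep, hsep'⟩ : ∃ sep : ℝ, 0 < sep ∧ ∀ i j, i ≠ j → sep ≤ ‖a i - a j‖ := by
      have hfin : (Finset.univ.filter (fun p : Fin N × Fin N => p.1 ≠ p.2)).Nonempty ∨
          ¬ (Finset.univ.filter (fun p : Fin N × Fin N => p.1 ≠ p.2)).Nonempty := em _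
      rcases hfin with hfin | hfin
      · obtain ⟨p, hp, hmin⟩ := Finset.exists_min_image _ (fun p : Fin N × Fin N => ‖a p.1 - a p.2‖) hfin
        refine ⟨‖a p.1 - a p.2‖, ?_, fun i j hij => hmin (i, j) (by simp [hij])⟩
        rw [norm_pos_iff, sub_ne_zero]
        exact fun hh => (Finset.mem_filter.mp hp).2 (ha hh)
      · refine ⟨1, one_pos, fun i j hij => ?_⟩
        exact absurd ⟨(i, j), by simp [hij]⟩ hfin
    set ρ' := min ρ (sep / 2) with hρ'
    have hρ'0 : 0 < ρ' := lt_min hρ (by positivity)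
    set c := ‖MvPolynomial.eval v₁ r.leadingCoeff‖ / 2 with hc
    have hc0 : 0 < c := by
      have := norm_pos_iff.mpr (h v₁ hv₁).1
      positivity
    have hcont : ∀ P : MvPolynomial (Fin k) ℂ, Continuous fun v : Fin k → ℂ => MvPolynomial.eval v P :=
      fun P => MvPolynomial.continuous_eval P
    have hev : ∀ (v : Fin k → ℂ) (t : ℂ), (r.map (MvPolynomial.eval v)).eval t =
        MvPolynomial.eval v (r.eval (MvPolynomial.C t)) := by
      intro v t
      rw [Polynomial.eval_map]
      have : t = MvPolynomial.eval v (MvPolynomial.C t) := by simp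
      conv_lhs => rw [this]
      rw [Polynomial.eval₂_at_apply]
    have ev1 : ∀ᶠ v in 𝓝 v₁, MvPolynomial.eval v D ≠ 0 :=
      (hcont D).continuousAt.eventually_ne hv₁
    have ev2 : ∀ᶠ v in 𝓝 v₁, c < ‖MvPolynomial.eval v r.leadingCoeff‖ := by
      refine ((hcont r.leadingCoeff).norm.continuousAt).eventually_const_lt ?_
      have := norm_pos_iff.mpr (h v₁ hv₁).1
      simp only [hc]
      linarith
    have ev3 : ∀ᶠ v in 𝓝 v₁, ∀ i, ‖(r.map (MvPolynomial.eval v)).eval (a i)‖ < c * ρ' ^ N := by
      rw [Filter.eventually_all]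
      intro i
      simp only [hev]
      refine ((hcont (r.eval (MvPolynomial.C (a i)))).norm.continuousAt).eventually_lt_const ?_
      simp only [← hev, har i, norm_zero]
      positivity
    obtain ⟨ε, hε, hball⟩ := Metric.eventually_nhds_iff_ball.mp (ev1.and (ev2.and ev3))
    refine ⟨ε, hε, fun v hv => ?_⟩
    obtain ⟨g1, g2, g3⟩ := hball v hv
    have hex : ∀ i, ∃ b, (r.map (MvPolynomial.eval v)).eval b = 0 ∧ ‖b - a i‖ < ρ' := fun i =>
      gs_near _ (hnat v g1) c ρ' hc0 hρ'0 (by rw [hlead v g1]; exact g2.le) (a i) (g3 i)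
    choose b hb1 hb2 using hex
    have hbinj : Function.Injective b := by
      intro i j hij
      by_contra hne'
      have h1 := hsep' i j hne'
      have h2 : ‖a i - a j‖ ≤ ‖b i - a i‖ + ‖b j - a j‖ := by
        have : a i - a j = (b j - a j) - (b i - a i) := by rw [hij]; ring
        rw [this]
        exact (norm_sub_le _ _).trans (by linarith)
      have h3 : ρ' ≤ sep / 2 := min_le_right _ _
      linarith [hb2 i, hb2 j]
    refine ⟨b, fun i => (hb2 i).trans_le (min_le_left _ _), fun t => ?_⟩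
    rw [(h v g1).2.1 t]
    constructor
    · intro ht
      have himg : Finset.univ.image b = (r.map (MvPolynomial.eval v)).roots.toFinset := by
        apply Finset.eq_of_subset_of_card_le
        · intro x hx
          obtain ⟨i, _, rfl⟩ := Finset.mem_image.mp hx
          rw [Multiset.mem_toFinset]
          exact (Polynomial.mem_roots (hne v g1)).mpr (hb1 i)
        · rw [hcard v g1, Finset.card_image_of_injective _ hbinj]
          simp
      have : t ∈ Finset.univ.image b := by
        rw [himg, Multiset.mem_toFinset]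
        exact (Polynomial.mem_roots (hne v g1)).mpr ht
      obtain ⟨i, _, hi⟩ := Finset.mem_image.mp this
      exact ⟨i, hi.symm⟩
    · rintro ⟨i, rfl⟩
      exact hb1 i

end H113G
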