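import Pool.Agent.Helper113.Gorin.Defs

set_option autoImplicit false

open Metric Set Topology

namespace H113G



theorem hom_exists (B : Type) [CommRing B] [IsDomain B] [Algebra ℂ B] [Algebra.FiniteType ℂ B]
    (k : ℕ) (φ : MvPolynomial (Fin k) ℂ →ₐ[ℂ] B) (θ : B)
    (P : Polynomial (MvPolynomial (Fin k) ℂ)) (hfin : φ.Finite)
    (hP : P.eval₂ φ.toRingHom θ = 0)
    (hdvd : ∀ G : Polynomial (MvPolynomial (Fin k) ℂ), G.eval₂ φ.toRingHom θ = 0 → P ∣ G)
    (z : Fin k → ℂ) (ρ : ℂ) (h : (P.map (MvPolynomial.eval z)).eval ρ = 0) :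
    ∃ χ : B →ₐ[ℂ] ℂ, (∀ a, χ (φ a) = MvPolynomial.eval z a) ∧ χ θ = ρ := by
  classical
  set ev : Polynomial (MvPolynomial (Fin k) ℂ) →+* B := Polynomial.eval₂RingHom φ.toRingHom θ with hev
  set ε : Polynomial (MvPolynomial (Fin k) ℂ) →+* ℂ :=
    Polynomial.eval₂RingHom (MvPolynomial.eval z) ρ with hε
  have hker : RingHom.ker ev ≤ RingHom.ker ε := by
    intro G hG
    obtain ⟨Q, rfl⟩ := hdvd G hG
    rw [RingHom.mem_ker, map_mul]
    have h0 : ε P = 0 := by
      show P.eval₂ (MvPolynomial.eval z) ρ = 0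
      rw [Polynomial.eval₂_eq_eval_map]
      exact h
    rw [h0, zero_mul]
  have hint : ev.IsIntegral := by
    have h1 : (ev.comp Polynomial.C).IsIntegral := by
      have e : ev.comp Polynomial.C = φ.toRingHom := by
        apply RingHom.ext
        intro a
        show Polynomial.eval₂ φ.toRingHom θ (Polynomial.C a) = _
        rw [Polynomial.eval₂_C]
      rw [e]
      exact RingHom.Finite.to_isIntegral hfin
    exact RingHom.IsIntegral.tower_top _ _ h1
  have hmax : (RingHom.ker ε).IsMaximal := RingHom.ker_isMaximal_of_surjective ε (by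
    intro c
    refine ⟨Polynomial.C (MvPolynomial.C c), ?_⟩
    show Polynomial.eval₂ (MvPolynomial.eval z) ρ (Polynomial.C (MvPolynomial.C c)) = c
    rw [Polynomial.eval₂_C, MvPolynomial.eval_C])
  obtain ⟨M, hM, hMc⟩ : ∃ M : Ideal B, M.IsMaximal ∧ M.comap ev = RingHom.ker ε := by
    letI : Algebra (Polynomial (MvPolynomial (Fin k) ℂ)) B := ev.toAlgebra
    haveI : Algebra.IsIntegral (Polynomial (MvPolynomial (Fin k) ℂ)) B := ⟨hint⟩
    exact Ideal.exists_ideal_over_maximal_of_isIntegral (RingHom.ker ε) hker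
  letI : Field (B ⧸ M) := Ideal.Quotient.field M
  haveI hft : Algebra.FiniteType ℂ (B ⧸ M) :=
    Algebra.FiniteType.of_surjective (Ideal.Quotient.mkₐ ℂ M) (Ideal.Quotient.mkₐ_surjective ℂ M)
  haveI hfm : Module.Finite ℂ (B ⧸ M) := finite_of_finite_type_of_isJacobsonRing ℂ (B ⧸ M)
  have hbij : Function.Bijective (algebraMap ℂ (B ⧸ M)) :=
    IsAlgClosed.algebraMap_bijective_of_isIntegral
  let eq := AlgEquiv.ofBijective (Algebra.ofId ℂ (B ⧸ M)) hbij
  let χ : B →ₐ[ℂ] ℂ := (eq.symm : (B ⧸ M) →ₐ[ℂ] ℂ).comp (Ideal.Quotient.mkₐ ℂ M)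
  have hχ : ∀ b ∈ M, χ b = 0 := by
    intro b hb
    show eq.symm (Ideal.Quotient.mkₐ ℂ M b) = 0
    have : Ideal.Quotient.mkₐ ℂ M b = 0 := Ideal.Quotient.eq_zero_iff_mem.2 hb
    rw [this, map_zero]
  have hkey : ∀ G, ε G = 0 → χ (ev G) = 0 := by
    intro G hG
    apply hχ
    have : G ∈ M.comap ev := by rw [hMc]; exact hG
    exact this
  refine ⟨χ, ?_, ?_⟩
  · intro a
    have h1 := hkey (Polynomial.C a - Polynomial.C (MvPolynomial.C (MvPolynomial.eval z a))) (by
      show Polynomial.eval₂ (MvPolynomial.eval z) ρ (Polynomial.C a - Polynomial.C (MvPolynomial.C (MvPolynomial.eval z a))) = 0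
      rw [Polynomial.eval₂_sub, Polynomial.eval₂_C, Polynomial.eval₂_C, MvPolynomial.eval_C, sub_self])
    have h2 : ev (Polynomial.C a - Polynomial.C (MvPolynomial.C (MvPolynomial.eval z a))) =
        φ a - algebraMap ℂ B (MvPolynomial.eval z a) := by
      show Polynomial.eval₂ φ.toRingHom θ (Polynomial.C a - Polynomial.C (MvPolynomial.C (MvPolynomial.eval z a))) = _
      rw [Polynomial.eval₂_sub, Polynomial.eval₂_C, Polynomial.eval₂_C]
      have : φ.toRingHom (MvPolynomial.C (MvPolynomial.eval z a)) = algebraMap ℂ B (MvPolynomial.eval z a) :=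
        φ.commutes _
      rw [this]
      rfl
    rw [h2, map_sub, AlgHom.commutes] at h1
    exact sub_eq_zero.1 h1
  · have h1 := hkey (Polynomial.X - Polynomial.C (MvPolynomial.C ρ)) (by
      show Polynomial.eval₂ (MvPolynomial.eval z) ρ (Polynomial.X - Polynomial.C (MvPolynomial.C ρ)) = 0
      rw [Polynomial.eval₂_sub, Polynomial.eval₂_X, Polynomial.eval₂_C, MvPolynomial.eval_C, sub_self])
    have h2 : ev (Polynomial.X - Polynomial.C (MvPolynomial.C ρ)) = θ - algebraMap ℂ B ρ := by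
      show Polynomial.eval₂ φ.toRingHom θ (Polynomial.X - Polynomial.C (MvPolynomial.C ρ)) = _
      rw [Polynomial.eval₂_sub, Polynomial.eval₂_X, Polynomial.eval₂_C]
      have : φ.toRingHom (MvPolynomial.C ρ) = algebraMap ℂ B ρ := φ.commutes _
      rw [this]
    rw [h2, map_sub, AlgHom.commutes] at h1
    exact sub_eq_zero.1 h1

end H113G
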