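import Pool.Agent.Helper113.Gorin.Defs

set_option autoImplicit false

open Metric Set Topology

namespace H113G



theorem identity_thm {m : ℕ} (Y : Set (Fin m → ℂ)) (h : HasCharts Y) (hc : IsPreconnected Y)
    (hball : ∀ {n : ℕ} {U : Set (Fin n → ℂ)}, IsOpen U → Convex ℝ U →
      ∀ {φ : (Fin n → ℂ) → ℂ}, DifferentiableOn ℂ φ U → ∀ {x₀ : Fin n → ℂ}, x₀ ∈ U → φ x₀ ≠ 0 →
      IsPreconnected {x | x ∈ U ∧ φ x ≠ 0} ∧ U ⊆ closure {x | x ∈ U ∧ φ x ≠ 0})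
    (u : (Fin m → ℂ) → ℂ) (hu : HolOn Y u) (N : Set (Fin m → ℂ)) (hN : IsOpen N)
    (hYN : (Y ∩ N).Nonempty) (h0 : ∀ y ∈ Y, y ∈ N → u y = 0) : ∀ y ∈ Y, u y = 0 := by
  classical
  let OA : Set (Fin m → ℂ) := ⋃₀ {N' | IsOpen N' ∧ ∀ y ∈ Y, y ∈ N' → u y = 0}
  have hOA : IsOpen OA := isOpen_sUnion (fun N' hN' => hN'.1)
  have hOAu : ∀ y ∈ Y, y ∈ OA → u y = 0 := by
    rintro y hy ⟨N', hN', hyN'⟩
    exact hN'.2 y hy hyN'
  let OB : Set (Fin m → ℂ) := ⋃₀ {V | IsOpen V ∧ ∀ y ∈ Y, y ∈ V → y ∉ OA}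
  have hOB : IsOpen OB := isOpen_sUnion (fun V hV => hV.1)
  have hdisj : ¬ (Y ∩ (OA ∩ OB)).Nonempty := by
    rintro ⟨y, hy, hyA, V, hV, hyV⟩
    exact hV.2 y hy hyV hyA
  have hcov : Y ⊆ OA ∪ OB := by
    intro p hp
    obtain ⟨n, ψ, κ, V, hVo, hpV, _, hψ, hψ0, hψim, _, _⟩ := h p hp Set.univ Filter.univ_mem
    by_cases hmeet : ∃ q ∈ Y, q ∈ V ∧ q ∈ OA
    · left
      obtain ⟨q, hqY, hqV, N', hN', hqN'⟩ := hmeet
      refine ⟨V, ⟨hVo, ?_⟩, hpV⟩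
      -- differentiability of the composition
      have hψY : ∀ x ∈ ball (0 : Fin n → ℂ) 1, ψ x ∈ Y := by
        intro x hx
        have : ψ x ∈ Y ∩ V := by rw [← hψim]; exact ⟨x, hx, rfl⟩
        exact this.1
      have hψat : ∀ x ∈ ball (0 : Fin n → ℂ) 1, DifferentiableAt ℂ ψ x := fun x hx =>
        hψ.differentiableAt (isOpen_ball.mem_nhds hx)
      have hdiff : DifferentiableOn ℂ (fun x => u (ψ x)) (ball (0 : Fin n → ℂ) 1) := by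
        intro x hx
        obtain ⟨U', hU'o, hxU', g, hg, hgu⟩ := hu (ψ x) (hψY x hx)
        have h1 : DifferentiableAt ℂ (fun x => g (ψ x)) x :=
          (hg.differentiableAt (hU'o.mem_nhds hxU')).comp x (hψat x hx)
        have h2 : (fun x => u (ψ x)) =ᶠ[𝓝 x] fun x => g (ψ x) := by
          have h3 : ∀ᶠ x' in 𝓝 x, ψ x' ∈ U' :=
            (hψat x hx).continuousAt.eventually (hU'o.mem_nhds hxU')
          filter_upwards [h3, isOpen_ball.mem_nhds hx] with x' hx'1 hx'2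
          exact (hgu (ψ x') (hψY x' hx'2) hx'1).symm
        exact (h1.congr_of_eventuallyEq h2).differentiableWithinAt
      intro y hy hyV
      have hyim : y ∈ ψ '' ball 0 1 := by rw [hψim]; exact ⟨hy, hyV⟩
      obtain ⟨x0, hx0, rfl⟩ := hyim
      by_contra hne
      obtain ⟨_, hcl⟩ := hball (n := n) isOpen_ball (convex_ball (0 : Fin n → ℂ) 1) hdiff hx0 hne
      have hqim : q ∈ ψ '' ball 0 1 := by rw [hψim]; exact ⟨hqY, hqV⟩
      obtain ⟨x1, hx1, rfl⟩ := hqim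
      have hx1cl := hcl hx1
      have hnb : {x | x ∈ ball (0 : Fin n → ℂ) 1 ∧ ψ x ∈ N'} ∈ 𝓝 x1 := by
        have h3 : ∀ᶠ x' in 𝓝 x1, ψ x' ∈ N' :=
          (hψat x1 hx1).continuousAt.eventually (hN'.1.mem_nhds hqN')
        filter_upwards [h3, isOpen_ball.mem_nhds hx1] with x' hx'1 hx'2
        exact ⟨hx'2, hx'1⟩
      obtain ⟨x2, hx2a, hx2b⟩ := mem_closure_iff_nhds.1 hx1cl _ hnb
      exact hx2b.2 (hN'.2 _ (hψY x2 hx2a.1) hx2a.2)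
    · right
      refine ⟨V, ⟨hVo, ?_⟩, hpV⟩
      intro y hy hyV hyA
      exact hmeet ⟨y, hy, hyV, hyA⟩
  intro y hy
  have hYA : (Y ∩ OA).Nonempty := by
    obtain ⟨z, hzY, hzN⟩ := hYN
    exact ⟨z, hzY, N, ⟨hN, h0⟩, hzN⟩
  rcases hcov hy with hyA | hyB
  · exact hOAu y hy hyA
  · exact absurd (hc OA OB hOA hOB hcov hYA ⟨y, hy, hyB⟩) hdisj

end H113G
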