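import Pool.Agent.Helper113.Gorin.Defs

set_option autoImplicit false

open Metric Set Topology

namespace H113G



theorem int_kernel {e n : ℕ} (w : Fin e → Fin n → ℤ)
    (h : ∀ b : Fin n → ℤ, (∀ i, ∑ j, b j * w i j = 0) → b = 0)
    (μ : Fin n → ℂ) (hμ : ∀ i, ∑ j, μ j * (w i j : ℂ) = 0) : μ = 0 := by
  classical
  let W : Matrix (Fin e) (Fin n) ℚ := fun i j => (w i j : ℚ)
  have hinj : LinearMap.ker (Matrix.toLin' W) = ⊥ := by
    rw [LinearMap.ker_eq_bot']
    intro q hq
    obtain ⟨b, hb⟩ := IsLocalization.exist_integer_multiples (nonZeroDivisors ℤ) Finset.univ q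
    have hb' : ∀ j, ∃ c : ℤ, (c : ℚ) = ((b : ℤ) : ℚ) * q j := by
      intro j
      obtain ⟨c, hc⟩ := hb j (Finset.mem_univ j)
      refine ⟨c, ?_⟩
      have hc' : ((algebraMap ℤ ℚ) c) = (b : ℤ) • q j := hc
      rw [zsmul_eq_mul] at hc'
      exact hc'
    choose c hc using hb'
    have h1 : c = 0 := by
      apply h
      intro i
      have h2 := congrFun hq i
      rw [Matrix.toLin'_apply, Matrix.mulVec, dotProduct] at h2
      have h3 : ((∑ j, c j * w i j : ℤ) : ℚ) = ((b : ℤ) : ℚ) * ∑ j, W i j * q j := by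
        push_cast
        rw [Finset.mul_sum]
        refine Finset.sum_congr rfl fun j _ => ?_
        rw [hc]
        show _ = ((b : ℤ) : ℚ) * ((w i j : ℚ) * q j)
        ring
      rw [h2, Pi.zero_apply, mul_zero] at h3
      exact_mod_cast h3
    funext j
    have h4 := hc j
    rw [h1] at h4
    have hb0 : ((b : ℤ) : ℚ) ≠ 0 := by
      have := nonZeroDivisors.coe_ne_zero b
      exact_mod_cast this
    simp only [Pi.zero_apply, Int.cast_zero] at h4
    rcases mul_eq_zero.mp h4.symm with h5 | h5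
    · exact absurd h5 hb0
    · exact h5
  obtain ⟨g, hg⟩ := LinearMap.exists_leftInverse_of_injective _ hinj
  let V : Matrix (Fin n) (Fin e) ℚ := LinearMap.toMatrix' g
  have hVW : V * W = 1 := by
    have h1 := congrArg LinearMap.toMatrix' hg
    rw [LinearMap.toMatrix'_comp, LinearMap.toMatrix'_toLin', LinearMap.toMatrix'_id] at h1
    exact h1
  let φ : ℚ →+* ℂ := algebraMap ℚ ℂ
  have hVW' : V.map φ * W.map φ = 1 := by
    rw [← Matrix.map_mul, hVW]
    exact Matrix.map_one φ (map_zero φ) (map_one φ)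
  have hWμ : (W.map φ).mulVec μ = 0 := by
    funext i
    rw [Matrix.mulVec, dotProduct, Pi.zero_apply, ← hμ i]
    refine Finset.sum_congr rfl fun j _ => ?_
    rw [Matrix.map_apply, mul_comm]
    congr 1
  calc μ = (1 : Matrix (Fin n) (Fin n) ℂ).mulVec μ := (Matrix.one_mulVec μ).symm
    _ = (V.map φ * W.map φ).mulVec μ := by rw [hVW']
    _ = (V.map φ).mulVec ((W.map φ).mulVec μ) := by rw [Matrix.mulVec_mulVec]
    _ = 0 := by rw [hWμ, Matrix.mulVec_zero]

end H113G
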