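import Pool.Agent.Helper113.Gorin.Defs

set_option autoImplicit false

open Metric Set Topology

namespace H113G



theorem h845_contDiff_mv {k : ℕ} (p : MvPolynomial (Fin k) ℂ) :
    ContDiff ℂ 1 (fun z : Fin k → ℂ => MvPolynomial.eval z p) := by
  induction p using MvPolynomial.induction_on with
  | C a => simpa using contDiff_const
  | add p q hp hq => simpa using hp.add hq
  | mul_X p i hp =>
    simp only [map_mul, MvPolynomial.eval_X]
    exact hp.mul (contDiff_apply ℂ ℂ i)

theorem h845_contDiff_Phi {k : ℕ} (P : Polynomial (MvPolynomial (Fin k) ℂ)) :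
    ContDiff ℂ 1 (fun q : (Fin k → ℂ) × ℂ => (P.map (MvPolynomial.eval q.1)).eval q.2) := by
  have h : (fun q : (Fin k → ℂ) × ℂ => (P.map (MvPolynomial.eval q.1)).eval q.2) =
      fun q => ∑ i ∈ Finset.range (P.natDegree + 1), MvPolynomial.eval q.1 (P.coeff i) * q.2 ^ i := by
    funext q
    rw [Polynomial.eval_map, Polynomial.eval₂_eq_sum_range]
  rw [h]
  refine ContDiff.sum fun i _ => ?_
  exact ((h845_contDiff_mv (P.coeff i)).comp contDiff_fst).mul (contDiff_snd.pow i)

theorem local_roots {k : ℕ} (P : Polynomial (MvPolynomial (Fin k) ℂ)) (hP : P.Monic)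
    (z₀ : Fin k → ℂ)
    (hs : ∀ ρ : ℂ, (P.map (MvPolynomial.eval z₀)).eval ρ = 0 →
      ((Polynomial.derivative P).map (MvPolynomial.eval z₀)).eval ρ ≠ 0) :
    ∃ r : ℝ, 0 < r ∧ ∃ ρ : Fin P.natDegree → (Fin k → ℂ) → ℂ,
      (∀ i, DifferentiableOn ℂ (ρ i) (ball z₀ r)) ∧
      ∀ z ∈ ball z₀ r, Function.Injective (fun i => ρ i z) ∧
        {x : ℂ | (P.map (MvPolynomial.eval z)).eval x = 0} = Set.range (fun i => ρ i z) := by
  classical
  set p : (Fin k → ℂ) → Polynomial ℂ := fun z => P.map (MvPolynomial.eval z) with hp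
  have hmon : ∀ z, (p z).Monic := fun z => hP.map _
  have hdeg : ∀ z, (p z).natDegree = P.natDegree := fun z => hP.natDegree_map _
  have hder : ∀ z, (Polynomial.derivative P).map (MvPolynomial.eval z) = Polynomial.derivative (p z) :=
    fun z => (Polynomial.derivative_map P _).symm
  have hcard : Multiset.card (p z₀).roots = P.natDegree := by
    rw [← hdeg z₀]
    exact (Polynomial.splits_iff_card_roots.mp (IsAlgClosed.splits (p z₀)))
  have hnd : (p z₀).roots.Nodup := by
    rw [Multiset.nodup_iff_count_le_one]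
    intro a
    rw [Polynomial.count_roots]
    by_contra hc
    push Not at hc
    rw [Polynomial.one_lt_rootMultiplicity_iff_isRoot (hmon z₀).ne_zero] at hc
    obtain ⟨h1, h2⟩ := hc
    refine hs a h1 ?_
    rw [hder]; exact h2
  have hcard' : (p z₀).roots.toFinset.card = P.natDegree := by
    rw [Multiset.toFinset_card_of_nodup hnd, hcard]
  let e := ((p z₀).roots.toFinset.equivFinOfCardEq hcard').symm
  have hroot : ∀ i, (p z₀).eval ((e i : ℂ)) = 0 := by
    intro i
    have h1 := (e i).2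
    rw [Multiset.mem_toFinset, Polynomial.mem_roots (hmon z₀).ne_zero] at h1
    exact h1
  let Φ : (Fin k → ℂ) × ℂ → ℂ := fun q => (p q.1).eval q.2
  have hΦ : ContDiff ℂ 1 Φ := h845_contDiff_Phi P
  have hinv : ∀ i, (fderiv ℂ Φ (z₀, (e i : ℂ)) ∘L ContinuousLinearMap.inr ℂ (Fin k → ℂ) ℂ).IsInvertible := by
    intro i
    have h1 : HasFDerivAt Φ (fderiv ℂ Φ (z₀, (e i : ℂ))) (z₀, (e i : ℂ)) :=
      ((hΦ.differentiable (by norm_num)) _).hasFDerivAt
    have h2 : HasFDerivAt (fun x : ℂ => ((z₀, x) : (Fin k → ℂ) × ℂ)) (ContinuousLinearMap.inr ℂ (Fin k → ℂ) ℂ) (e i : ℂ) :=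
      hasFDerivAt_prodMk_right z₀ (e i : ℂ)
    have h3 := h1.comp (e i : ℂ) h2
    have h4 : HasFDerivAt (fun x : ℂ => (p z₀).eval x) (fderiv ℂ Φ (z₀, (e i : ℂ)) ∘L ContinuousLinearMap.inr ℂ (Fin k → ℂ) ℂ) (e i : ℂ) := h3
    have h5 : HasDerivAt (fun x : ℂ => (p z₀).eval x) ((Polynomial.derivative (p z₀)).eval (e i : ℂ)) (e i : ℂ) :=
      (p z₀).hasDerivAt _
    have h6 := h4.hasDerivAt.unique h5
    have h7 : (Polynomial.derivative (p z₀)).eval (e i : ℂ) ≠ 0 := by
      rw [← hder]; exact hs _ (hroot i)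
    refine ⟨ContinuousLinearEquiv.unitsEquivAut ℂ (Units.mk0 _ h7), ?_⟩
    ext
    simp only [ContinuousLinearEquiv.coe_coe, ContinuousLinearEquiv.unitsEquivAut_apply, one_mul, Units.val_mk0]
    rw [← h6]
  have hca : ∀ i, ContDiffAt ℂ 1 Φ (z₀, (e i : ℂ)) := fun i => hΦ.contDiffAt
  let ρ : Fin P.natDegree → (Fin k → ℂ) → ℂ := fun i => (hca i).implicitFunction one_ne_zero (hinv i)
  have hρ0 : ∀ i, ρ i z₀ = (e i : ℂ) := fun i => (hca i).implicitFunction_apply_self one_ne_zero (hinv i)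
  have hρ1 : ∀ i, ∀ᶠ z in 𝓝 z₀, (p z).eval (ρ i z) = 0 := by
    intro i
    have h1 := (hca i).eventually_apply_implicitFunction one_ne_zero (hinv i)
    filter_upwards [h1] with z hz
    have h2 : Φ (z, ρ i z) = Φ (z₀, (e i : ℂ)) := hz
    exact h2.trans (hroot i)
  have hρ2 : ∀ i, ContDiffAt ℂ 1 (ρ i) z₀ := fun i =>
    (hca i).contDiffAt_implicitFunction one_ne_zero (hinv i)
  have hρ3 : ∀ i, ∀ᶠ z in 𝓝 z₀, DifferentiableAt ℂ (ρ i) z := by
    intro i
    filter_upwards [(hρ2 i).eventually (by simp)] with z hz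
    exact hz.differentiableAt one_ne_zero
  have hρ4 : ∀ i j, i ≠ j → ∀ᶠ z in 𝓝 z₀, ρ i z ≠ ρ j z := by
    intro i j hij
    have h1 : ContinuousAt (ρ i) z₀ := (hρ2 i).continuousAt
    have h2 : ContinuousAt (ρ j) z₀ := (hρ2 j).continuousAt
    refine ContinuousAt.eventually_ne ?_ ?_ |>.mono ?_ (p := fun z => ρ i z - ρ j z ≠ 0)
    · exact h1.sub h2
    · rw [hρ0, hρ0]
      intro h3
      exact hij (e.injective (Subtype.ext (sub_eq_zero.mp h3)))
    · intro z hz h4
      exact hz (sub_eq_zero.mpr h4)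
  have hall : ∀ᶠ z in 𝓝 z₀, (∀ i, (p z).eval (ρ i z) = 0) ∧ (∀ i, DifferentiableAt ℂ (ρ i) z) ∧
      ∀ i j, i ≠ j → ρ i z ≠ ρ j z := by
    refine (Filter.eventually_all.mpr hρ1).and ((Filter.eventually_all.mpr hρ3).and ?_)
    refine Filter.eventually_all.mpr fun i => Filter.eventually_all.mpr fun j => ?_
    by_cases hij : i = j
    · exact Filter.Eventually.of_forall fun z h => absurd hij h
    · filter_upwards [hρ4 i j hij] with z hz _
      exact hz
  obtain ⟨r, hr, hball⟩ := Metric.eventually_nhds_iff_ball.mp hall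
  refine ⟨r, hr, ρ, fun i z hz => ((hball z hz).2.1 i).differentiableWithinAt, fun z hz => ?_⟩
  obtain ⟨g1, -, g3⟩ := hball z hz
  have hinj : Function.Injective (fun i => ρ i z) := by
    intro i j hij
    by_contra hc
    exact g3 i j hc hij
  refine ⟨hinj, ?_⟩
  have hsub : Finset.univ.image (fun i => ρ i z) ⊆ (p z).roots.toFinset := by
    intro x hx
    obtain ⟨i, -, rfl⟩ := Finset.mem_image.mp hx
    rw [Multiset.mem_toFinset, Polynomial.mem_roots (hmon z).ne_zero]
    exact g1 i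
  have heq : Finset.univ.image (fun i => ρ i z) = (p z).roots.toFinset := by
    refine Finset.eq_of_subset_of_card_le hsub ?_
    rw [Finset.card_image_of_injective _ hinj, Finset.card_univ, Fintype.card_fin]
    refine (Multiset.toFinset_card_le _).trans ?_
    rw [← hdeg z]
    exact Polynomial.card_roots' _
  ext x
  constructor
  · intro hx
    have h1 : x ∈ (p z).roots.toFinset := by
      rw [Multiset.mem_toFinset, Polynomial.mem_roots (hmon z).ne_zero]
      exact hx
    rw [← heq] at h1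
    obtain ⟨i, -, hi⟩ := Finset.mem_image.mp h1
    exact ⟨i, hi⟩
  · rintro ⟨i, rfl⟩
    exact g1 i

end H113G
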