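import Pool.Agent.Helper113.Gorin.Defs

set_option autoImplicit false

open Metric Set Topology

namespace H113G



theorem log_extend {m : ℕ} (Y : Set (Fin m → ℂ)) (h : HasCharts Y) (hc : IsPreconnected Y)
    (hball : ∀ {n : ℕ} {U : Set (Fin n → ℂ)}, IsOpen U → Convex ℝ U →
      ∀ {φ : (Fin n → ℂ) → ℂ}, DifferentiableOn ℂ φ U → ∀ {x₀ : Fin n → ℂ}, x₀ ∈ U → φ x₀ ≠ 0 →
      IsPreconnected {x | x ∈ U ∧ φ x ≠ 0} ∧ U ⊆ closure {x | x ∈ U ∧ φ x ≠ 0})
    (hid : ∀ (u : (Fin m → ℂ) → ℂ), HolOn Y u → ∀ (N : Set (Fin m → ℂ)), IsOpen N →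
      (Y ∩ N).Nonempty → (∀ y ∈ Y, y ∈ N → u y = 0) → ∀ y ∈ Y, u y = 0)
    (φ : (Fin m → ℂ) → ℂ) (hφ : HolOn Y φ) (y₁ : Fin m → ℂ) (hy₁ : y₁ ∈ Y) (h1 : φ y₁ ≠ 0)
    (g : (Fin m → ℂ) → ℂ) (hg : ContinuousOn g Y) (hg0 : ∀ y ∈ Y, g y ≠ 0)
    (hlog : HasLog {y | y ∈ Y ∧ φ y ≠ 0} g) : HasLog Y g := by
  obtain ⟨h0, hh0c, hh0e⟩ := hlog
  set Y0 : Set (Fin m → ℂ) := {y | y ∈ Y ∧ φ y ≠ 0} with hY0
  have local_step : ∀ p ∈ Y, ∃ (V : Set (Fin m → ℂ)) (k : (Fin m → ℂ) → ℂ), IsOpen V ∧ p ∈ V ∧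
      ContinuousOn k (Y ∩ V) ∧ (∀ y ∈ Y ∩ V, Complex.exp (k y) = g y) ∧
      (∀ y ∈ Y0 ∩ V, k y = h0 y) ∧ Y ∩ V ⊆ closure (Y0 ∩ V) := by
    intro p hp
    have hgp := hg0 p hp
    have hnear : ∀ᶠ y in 𝓝[Y] p, ‖g y - g p‖ < ‖g p‖ := by
      have h2 := Metric.tendsto_nhds.1 (hg p hp) ‖g p‖ (norm_pos_iff.2 hgp)
      simpa [dist_eq_norm] using h2
    rw [eventually_nhdsWithin_iff] at hnear
    obtain ⟨n, ψ, κ, V, hVo, hpV, hVN, hψ, hψ0, hψV, hκ, hκψ⟩ := h p hp _ hnear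
    have hN : ∀ y ∈ Y ∩ V, ‖g y - g p‖ < ‖g p‖ := fun y hy => hVN hy.2 hy.1
    have hslit : ∀ y ∈ Y ∩ V, g y / g p ∈ Complex.slitPlane := by
      intro y hy
      have e : g y / g p = 1 + (g y - g p) / g p := by field_simp; ring
      rw [e]
      refine Complex.mem_slitPlane_of_norm_lt_one ?_
      rw [norm_div, div_lt_one (norm_pos_iff.2 hgp)]
      exact hN y hy
    have hVc : ContinuousOn (fun y => Complex.log (g y / g p) + Complex.log (g p)) (Y ∩ V) :=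
      (((hg.mono inter_subset_left).div_const (g p)).clog hslit).add continuousOn_const
    have hVe : ∀ y ∈ Y ∩ V, Complex.exp (Complex.log (g y / g p) + Complex.log (g p)) = g y := by
      intro y hy
      rw [Complex.exp_add, Complex.exp_log (div_ne_zero (hg0 y hy.1) hgp), Complex.exp_log hgp,
        div_mul_cancel₀ _ hgp]
    have hψat : ∀ x ∈ ball (0 : Fin n → ℂ) 1, DifferentiableAt ℂ ψ x := fun x hx =>
      hψ.differentiableAt (isOpen_ball.mem_nhds hx)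
    have hψm : ∀ x ∈ ball (0 : Fin n → ℂ) 1, ψ x ∈ Y ∩ V := fun x hx =>
      hψV ▸ mem_image_of_mem ψ hx
    have hφψ : DifferentiableOn ℂ (fun x => φ (ψ x)) (ball (0 : Fin n → ℂ) 1) := by
      intro x hx
      obtain ⟨U, hU, hxU, w, hw, hwe⟩ := hφ (ψ x) (hψm x hx).1
      have hd : DifferentiableAt ℂ (fun x => w (ψ x)) x :=
        (hw.differentiableAt (hU.mem_nhds hxU)).comp x (hψat x hx)
      refine (hd.congr_of_eventuallyEq ?_).differentiableWithinAt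
      filter_upwards [(hψat x hx).continuousAt.eventually_mem (hU.mem_nhds hxU),
        isOpen_ball.mem_nhds hx] with x' h1 h2
      exact (hwe (ψ x') (hψm x' h2).1 h1).symm
    have hx0 : ∃ x₀ ∈ ball (0 : Fin n → ℂ) 1, φ (ψ x₀) ≠ 0 := by
      by_contra hcon
      push Not at hcon
      refine h1 (hid φ hφ V hVo ⟨p, hp, hpV⟩ (fun y hy hyV => ?_) y₁ hy₁)
      obtain ⟨x, hx, rfl⟩ : y ∈ ψ '' ball 0 1 := by rw [hψV]; exact ⟨hy, hyV⟩
      exact hcon x hx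
    obtain ⟨x₀, hx₀, hne⟩ := hx0
    obtain ⟨hpre, hcl⟩ := hball isOpen_ball (convex_ball _ _) hφψ hx₀ hne
    have himg : ψ '' {x | x ∈ ball (0 : Fin n → ℂ) 1 ∧ φ (ψ x) ≠ 0} = Y0 ∩ V := by
      ext y
      constructor
      · rintro ⟨x, ⟨hx, hxφ⟩, rfl⟩
        exact ⟨⟨(hψm x hx).1, hxφ⟩, (hψm x hx).2⟩
      · rintro ⟨⟨hyY, hyφ⟩, hyV⟩
        obtain ⟨x, hx, rfl⟩ : y ∈ ψ '' ball 0 1 := by rw [hψV]; exact ⟨hyY, hyV⟩
        exact ⟨x, ⟨hx, hyφ⟩, rfl⟩
    have hpre2 : IsPreconnected (Y0 ∩ V) := by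
      rw [← himg]
      exact hpre.image ψ (hψ.continuousOn.mono fun x hx => hx.1)
    have hcl2 : Y ∩ V ⊆ closure (Y0 ∩ V) := by
      rw [← hψV, ← himg]
      rintro _ ⟨x, hx, rfl⟩
      exact mem_closure_image (hψat x hx).continuousAt (hcl hx)
    have hy0 : ψ x₀ ∈ Y0 ∩ V := himg ▸ mem_image_of_mem ψ ⟨hx₀, hne⟩
    -- the difference is constant
    have hsub0 : Y0 ∩ V ⊆ Y ∩ V := fun y hy => ⟨hy.1.1, hy.2⟩
    have hFint : ∀ y ∈ Y0 ∩ V, ∃ j : ℤ, h0 y - (Complex.log (g y / g p) + Complex.log (g p)) =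
        j * (2 * Real.pi * Complex.I) := by
      intro y hy
      refine Complex.exp_eq_one_iff.1 ?_
      rw [Complex.exp_sub, hVe y (hsub0 hy), hh0e y hy.1]
      exact div_self (hg0 y hy.1.1)
    have hFc : ContinuousOn (fun y => ((h0 y - (Complex.log (g y / g p) + Complex.log (g p))) /
        (2 * Real.pi * Complex.I)).re) (Y0 ∩ V) := by
      refine Complex.continuous_re.comp_continuousOn ?_
      exact ((hh0c.mono fun y hy => hy.1).sub (hVc.mono hsub0)).div_const _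
    have hpi : (2 * Real.pi * Complex.I : ℂ) ≠ 0 := Complex.two_pi_I_ne_zero
    have hT : IsDiscrete (Set.range (fun j : ℤ => (j : ℝ))) := by
      rw [isDiscrete_iff_discreteTopology]
      exact (Int.isClosedEmbedding_coe_real.isEmbedding.toHomeomorph.symm).isEmbedding.discreteTopology
    have hmap : MapsTo (fun y => ((h0 y - (Complex.log (g y / g p) + Complex.log (g p))) /
        (2 * Real.pi * Complex.I)).re) (Y0 ∩ V) (Set.range (fun j : ℤ => (j : ℝ))) := by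
      intro y hy
      obtain ⟨j, hj⟩ := hFint y hy
      refine ⟨j, ?_⟩
      show (j : ℝ) = ((h0 y - (Complex.log (g y / g p) + Complex.log (g p))) /
        (2 * Real.pi * Complex.I)).re
      rw [hj, mul_div_assoc, div_self hpi, mul_one, Complex.intCast_re]
    have hconst : ∀ y ∈ Y0 ∩ V, h0 y - (Complex.log (g y / g p) + Complex.log (g p)) =
        h0 (ψ x₀) - (Complex.log (g (ψ x₀) / g p) + Complex.log (g p)) := by
      intro y hy
      have h2 := hpre2.constant_of_mapsTo hT hFc hmap hy hy0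
      obtain ⟨j, hj⟩ := hFint y hy
      obtain ⟨j', hj'⟩ := hFint _ hy0
      rw [hj, hj', mul_div_assoc, div_self hpi, mul_one, Complex.intCast_re, mul_div_assoc,
        div_self hpi, mul_one, Complex.intCast_re] at h2
      rw [hj, hj']
      have : j = j' := by exact_mod_cast h2
      rw [this]
    set cst : ℂ := h0 (ψ x₀) - (Complex.log (g (ψ x₀) / g p) + Complex.log (g p)) with hcst
    have hcexp : Complex.exp cst = 1 := by
      obtain ⟨j', hj'⟩ := hFint _ hy0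
      rw [hcst, hj']
      exact Complex.exp_int_mul_two_pi_mul_I j'
    refine ⟨V, fun y => Complex.log (g y / g p) + Complex.log (g p) + cst, hVo, hpV,
      hVc.add continuousOn_const, fun y hy => ?_, fun y hy => ?_, hcl2⟩
    · rw [Complex.exp_add, hVe y hy, hcexp, mul_one]
    · rw [← hconst y hy]
      ring
  choose! V k hVo hpV hkc hke hkh hcl using local_step
  -- compatibility
  have hcompat : ∀ p ∈ Y, ∀ y ∈ Y ∩ V p, k y y = k p y := by
    intro p hp y hy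
    have hyV : y ∈ V y := hpV y hy.1
    have hcl' : y ∈ closure (Y0 ∩ V y ∩ V p) := by
      have h2 := hcl y hy.1 ⟨hy.1, hyV⟩
      rw [mem_closure_iff_nhds] at h2 ⊢
      intro t ht
      obtain ⟨z, hz1, hz2⟩ := h2 (t ∩ V p) (Filter.inter_mem ht ((hVo p hp).mem_nhds hy.2))
      exact ⟨z, hz1.1, hz2, hz1.2⟩
    have hne : (𝓝[Y0 ∩ V y ∩ V p] y).NeBot := mem_closure_iff_nhdsWithin_neBot.1 hcl'
    have t1 : Filter.Tendsto (k y) (𝓝[Y0 ∩ V y ∩ V p] y) (𝓝 (k y y)) :=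
      (hkc y hy.1 y ⟨hy.1, hyV⟩).mono_left (nhdsWithin_mono _ fun z hz => ⟨hz.1.1.1, hz.1.2⟩)
    have t2 : Filter.Tendsto (k p) (𝓝[Y0 ∩ V y ∩ V p] y) (𝓝 (k p y)) :=
      (hkc p hp y hy).mono_left (nhdsWithin_mono _ fun z hz => ⟨hz.1.1.1, hz.2⟩)
    refine tendsto_nhds_unique_of_eventuallyEq t1 t2 ?_
    filter_upwards [self_mem_nhdsWithin] with z hz
    rw [hkh y hy.1 z hz.1, hkh p hp z ⟨hz.1.1, hz.2⟩]
  refine ⟨fun y => k y y, fun p hp => ?_, fun y hy => hke y hy y ⟨hy, hpV y hy⟩⟩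
  have h2 : ContinuousWithinAt (k p) Y p := by
    have h3 := hkc p hp p ⟨hp, hpV p hp⟩
    rwa [continuousWithinAt_inter ((hVo p hp).mem_nhds (hpV p hp))] at h3
  refine h2.congr_of_eventuallyEq ?_ rfl
  have h4 : V p ∈ 𝓝[Y] p := mem_nhdsWithin_of_mem_nhds ((hVo p hp).mem_nhds (hpV p hp))
  filter_upwards [h4, self_mem_nhdsWithin] with y hy1 hy2
  exact hcompat p hp y ⟨hy2, hy1⟩

end H113G
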