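import Pool.Agent.Helper113.Gorin.Defs

set_option autoImplicit false

open Metric Set Topology

namespace H113G



theorem lk_const (f : C(unitInterval, ℂ)) (h : ∀ τ, Complex.exp (f τ) = 1) (a b : unitInterval) :
    f a = f b := by
  have hlc : IsLocallyConstant f := by
    rw [IsLocallyConstant.iff_eventually_eq]
    intro x
    have hc := f.continuous.tendsto x
    have := hc (Metric.ball_mem_nhds (f x) one_pos)
    filter_upwards [this] with y hy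
    have h1 : Complex.exp (f y - f x) = 1 := by rw [Complex.exp_sub, h, h, div_one]
    obtain ⟨n, hn⟩ := Complex.exp_eq_one_iff.mp h1
    have h2 : ‖f y - f x‖ < 1 := by
      have h3 : f y ∈ Metric.ball (f x) 1 := hy
      rw [Metric.mem_ball, dist_eq_norm] at h3
      exact h3
    rw [hn] at h2
    have h3 : n = 0 := by
      by_contra hne
      have h4 : (1:ℝ) ≤ |(n:ℝ)| := by exact_mod_cast Int.one_le_abs hne
      rw [norm_mul, Complex.norm_intCast] at h2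
      have h5 : ‖(2 * Real.pi * Complex.I : ℂ)‖ = 2 * Real.pi := by
        simp [abs_of_pos Real.pi_pos]
      rw [h5] at h2
      have h6 := Real.pi_gt_three
      nlinarith
    rw [h3] at hn
    simp at hn
    exact sub_eq_zero.mp hn
  exact hlc.apply_eq_of_preconnectedSpace a b

theorem lk_loop {m k : ℕ} (Y : Set (Fin m → ℂ)) (pr : (Fin m → ℂ) → (Fin k → ℂ))
    (δ : MvPolynomial (Fin k) ℂ) (g : (Fin m → ℂ) → ℂ)
    (hcovW : IsCoveringMap (qW Y pr δ g)) (w₀ : Wg Y pr δ g)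
    (v₀ : Fin k → ℂ) (T : Set ℂ) (hpr0 : pr w₀.1.1 = 0)
    (hpush : ∀ c : C(unitInterval, ℂ), Adm δ v₀ 0 c →
        ∃ H : C(unitInterval × unitInterval, ℂ), (∀ τ, H (τ, 0) = c τ) ∧ (∀ τ, H (τ, 1) ∈ T) ∧
          (∀ σ, H (0, σ) = 0) ∧ (∀ σ, H (1, σ) = 0) ∧
          ∀ p, MvPolynomial.eval (H p • v₀) δ ≠ 0)
    (hK : HasLog {y | y ∈ Y ∧ ∃ t ∈ T, pr y = t • v₀} g)
    (w : Wg Y pr δ g) (hw : EndsAt (qW Y pr δ g) w₀ w v₀ 0) (hy : w.1.1 = w₀.1.1) : w = w₀ := by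
  obtain ⟨c, hc, Γ, hΓ0, hΓ1, hΓ⟩ := hw
  obtain ⟨H, H1, H2, H3, H4, H5⟩ := hpush c hc
  obtain ⟨hk, hkc, hke⟩ := hK
  let γ₀ : C(unitInterval, Sp δ) := ⟨fun τ => ⟨c τ • v₀, hc.2.2 τ⟩, by fun_prop⟩
  let γ₁ : C(unitInterval, Sp δ) := ⟨fun τ => ⟨H (τ, 1) • v₀, H5 _⟩, by fun_prop⟩
  have hom : γ₀.HomotopicRel γ₁ {0, 1} := by
    refine ⟨{ toFun := fun p => ⟨H (p.2, p.1) • v₀, H5 _⟩
              continuous_toFun := by fun_prop
              map_zero_left := ?_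
              map_one_left := ?_
              prop' := ?_ }⟩
    · intro x
      apply Subtype.ext
      show H (x, 0) • v₀ = c x • v₀
      rw [H1]
    · intro x
      rfl
    · intro t x hx
      apply Subtype.ext
      show H (x, t) • v₀ = c x • v₀
      rcases hx with hx | hx
      · rw [hx, H3, hc.1]
      · rw [Set.mem_singleton_iff] at hx
        rw [hx, H4, hc.2.1]
  have h0 : γ₀ 0 = qW Y pr δ g w₀ := by
    apply Subtype.ext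
    show c 0 • v₀ = pr w₀.1.1
    rw [hc.1, zero_smul, hpr0]
  have h1 : γ₁ 0 = qW Y pr δ g w₀ := by
    apply Subtype.ext
    show H (0, 1) • v₀ = pr w₀.1.1
    rw [H3, zero_smul, hpr0]
  have hΓl : Γ = hcovW.liftPath γ₀ w₀ h0 := by
    rw [IsCoveringMap.eq_liftPath_iff']
    refine ⟨?_, hΓ0⟩
    funext τ
    apply Subtype.ext
    exact hΓ τ
  have hend := hcovW.liftPath_apply_one_eq_of_homotopicRel hom w₀ h0 h1
  rw [← hΓl, hΓ1] at hend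
  set Γ' := hcovW.liftPath γ₁ w₀ h1 with hΓ'
  have hl := hcovW.liftPath_lifts γ₁ w₀ h1
  have hz := hcovW.liftPath_zero γ₁ w₀ h1
  rw [← hΓ'] at hl hz
  have hmem : ∀ τ, (Γ' τ).1.1 ∈ {y | y ∈ Y ∧ ∃ t ∈ T, pr y = t • v₀} := by
    intro τ
    refine ⟨(Γ' τ).2.1, H (τ, 1), H2 τ, ?_⟩
    have := congrArg Subtype.val (congrFun hl τ)
    exact this
  let f : C(unitInterval, ℂ) := ⟨fun τ => (Γ' τ).1.2 - hk ((Γ' τ).1.1), by
    refine Continuous.sub (by fun_prop) ?_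
    exact hkc.comp_continuous (by fun_prop) hmem⟩
  have hf : ∀ τ, Complex.exp (f τ) = 1 := by
    intro τ
    show Complex.exp ((Γ' τ).1.2 - hk ((Γ' τ).1.1)) = 1
    rw [Complex.exp_sub, hke _ (hmem τ), (Γ' τ).2.2.2, div_self]
    rw [← (Γ' τ).2.2.2]
    exact Complex.exp_ne_zero _
  have h01 := lk_const f hf 0 1
  have h02 : (Γ' 0).1.2 - hk ((Γ' 0).1.1) = (Γ' 1).1.2 - hk ((Γ' 1).1.1) := h01
  rw [hz, ← hend, hy] at h02
  have h03 : w.1.2 = w₀.1.2 := by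
    have := sub_left_injective h02
    exact this.symm
  exact Subtype.ext (Prod.ext hy h03)

theorem lk_unique {m k : ℕ} (Y : Set (Fin m → ℂ)) (pr : (Fin m → ℂ) → (Fin k → ℂ))
    (δ : MvPolynomial (Fin k) ℂ) (g : (Fin m → ℂ) → ℂ) (w₀ w w' : Wg Y pr δ g)
    (hR : EndsAt (qW Y pr δ g) w₀ w (pr w.1.1) 1)
    (hR' : EndsAt (qW Y pr δ g) w₀ w' (pr w'.1.1) 1) (hyy : w.1.1 = w'.1.1)
    (hloop : ∀ u : Wg Y pr δ g, EndsAt (qW Y pr δ g) w₀ u (pr w.1.1) 0 → u.1.1 = w₀.1.1 → u = w₀) :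
    w = w' := by
  obtain ⟨c, hc, Γ, hΓ0, hΓ1, hΓ⟩ := hR
  obtain ⟨c', hc', Γ', hΓ0', hΓ1', hΓ'⟩ := hR'
  rw [← hyy] at hc' hΓ'
  set z := pr w.1.1 with hz
  have hs : Complex.exp (w.1.2 - w'.1.2) = 1 := by
    rw [Complex.exp_sub, w.2.2.2, w'.2.2.2, hyy, div_self]
    rw [← w'.2.2.2]; exact Complex.exp_ne_zero _
  set s := w.1.2 - w'.1.2 with hsdef
  let tr : Wg Y pr δ g → Wg Y pr δ g := fun u => ⟨(u.1.1, u.1.2 + s), u.2.1, u.2.2.1, by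
    show Complex.exp (u.1.2 + s) = g u.1.1
    rw [Complex.exp_add, hs, mul_one, u.2.2.2]⟩
  have htr : Continuous tr := by
    apply Continuous.subtype_mk
    fun_prop
  let P1 : Path w₀ w := ⟨Γ, hΓ0, hΓ1⟩
  let P2 : Path (tr w₀) w := ⟨⟨fun τ => tr (Γ' τ), htr.comp Γ'.continuous⟩, by
    show tr (Γ' 0) = tr w₀
    rw [hΓ0'], by
    show tr (Γ' 1) = w
    rw [hΓ1']
    apply Subtype.ext
    apply Prod.ext
    · exact hyy.symm
    · show w'.1.2 + s = w.1.2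
      rw [hsdef]; ring⟩
  let Q1 : Path (0:ℂ) 1 := ⟨c, hc.1, hc.2.1⟩
  let Q2 : Path (0:ℂ) 1 := ⟨c', hc'.1, hc'.2.1⟩
  have hP1 : ∀ τ, pr (P1 τ).1.1 = Q1 τ • z := fun τ => hΓ τ
  have hP2 : ∀ τ, pr (P2 τ).1.1 = Q2 τ • z := fun τ => hΓ' τ
  have hA1 : ∀ τ, MvPolynomial.eval (Q1 τ • z) δ ≠ 0 := fun τ => hc.2.2 τ
  have hA2 : ∀ τ, MvPolynomial.eval (Q2 τ • z) δ ≠ 0 := fun τ => hc'.2.2 τ
  have hend : EndsAt (qW Y pr δ g) w₀ (tr w₀) z 0 := by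
    refine ⟨(Q1.trans Q2.symm).toContinuousMap, ⟨(Q1.trans Q2.symm).source,
      (Q1.trans Q2.symm).target, ?_⟩, (P1.trans P2.symm).toContinuousMap,
      (P1.trans P2.symm).source, (P1.trans P2.symm).target, ?_⟩
    · intro τ
      show MvPolynomial.eval ((Q1.trans Q2.symm) τ • z) δ ≠ 0
      rw [Path.trans_apply]
      split_ifs
      · exact hA1 _
      · rw [Path.symm_apply]; exact hA2 _
    · intro τ
      show pr ((P1.trans P2.symm) τ).1.1 = (Q1.trans Q2.symm) τ • z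
      rw [Path.trans_apply, Path.trans_apply]
      split_ifs
      · exact hP1 _
      · rw [Path.symm_apply, Path.symm_apply]; exact hP2 _
  have h1 := hloop (tr w₀) hend rfl
  have h2 : w₀.1.2 + s = w₀.1.2 := congrArg (fun u : Wg Y pr δ g => u.1.2) h1
  have h3 : s = 0 := by
    have h4 : w₀.1.2 + s = w₀.1.2 + 0 := by rw [h2, add_zero]
    exact add_left_cancel h4
  exact Subtype.ext (Prod.ext hyy (sub_eq_zero.mp h3))

theorem log_of_K {m k e : ℕ} (Y : Set (Fin m → ℂ)) (pr : (Fin m → ℂ) → (Fin k → ℂ))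
    (δ : MvPolynomial (Fin k) ℂ) (h : Cov Y pr δ e)
    (hconn : ∀ D : MvPolynomial (Fin k) ℂ, D ≠ 0 →
      IsPreconnected {v : Fin k → ℂ | MvPolynomial.eval v D ≠ 0})
    (D : MvPolynomial (Fin k) ℂ) (hD : D ≠ 0)
    (hgen : ∀ v, MvPolynomial.eval v D ≠ 0 → RootStable δ v)
    (y₀ : Yo Y pr δ) (hy₀ : pr y₀.1 = 0)
    (hbert : ∀ w : Yo Y pr δ, RootStable δ (pr w.1) → EndsAt (qY Y pr δ) y₀ w (pr w.1) 1)
    (g : (Fin m → ℂ) → ℂ) (hg : ContinuousOn g Y) (hg0 : ∀ y ∈ Y, g y ≠ 0)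
    (hcovW : IsCoveringMap (qW Y pr δ g))
    (hloc1 : ∀ w₀ w₁ : Wg Y pr δ g, pr w₀.1.1 = 0 → RootStable δ (pr w₁.1.1) →
      ∀ᶠ w in 𝓝 w₁, (EndsAt (qW Y pr δ g) w₀ w (pr w.1.1) 1 ↔
        EndsAt (qW Y pr δ g) w₀ w₁ (pr w₁.1.1) 1))
    (hloc0 : ∀ w₀ : Wg Y pr δ g, pr w₀.1.1 = 0 → ∀ z₁ : Fin k → ℂ, RootStable δ z₁ →
      ∃ ε : ℝ, 0 < ε ∧ ∀ z ∈ ball z₁ ε, ∀ w : Wg Y pr δ g,
        EndsAt (qW Y pr δ g) w₀ w z 0 ↔ EndsAt (qW Y pr δ g) w₀ w z₁ 0)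
    (v₀ : Fin k → ℂ) (hv₀ : MvPolynomial.eval v₀ D ≠ 0) (T : Set ℂ)
    (hT : ∀ t ∈ T, MvPolynomial.eval (t • v₀) δ ≠ 0)
    (hpush : ∀ c : C(unitInterval, ℂ), Adm δ v₀ 0 c →
        ∃ H : C(unitInterval × unitInterval, ℂ), (∀ τ, H (τ, 0) = c τ) ∧ (∀ τ, H (τ, 1) ∈ T) ∧
          (∀ σ, H (0, σ) = 0) ∧ (∀ σ, H (1, σ) = 0) ∧
          ∀ p, MvPolynomial.eval (H p • v₀) δ ≠ 0)
    (hK : HasLog {y | y ∈ Y ∧ ∃ t ∈ T, pr y = t • v₀} g) :
    HasLog {y | y ∈ Y ∧ MvPolynomial.eval (pr y) D ≠ 0 ∧ MvPolynomial.eval (pr y) δ ≠ 0} g := by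
  classical
  obtain ⟨h0, hh0⟩ : ∃ h0, Complex.exp h0 = g y₀.1 := ⟨_, Complex.exp_log (hg0 _ y₀.2.1)⟩
  let w₀ : Wg Y pr δ g := ⟨(y₀.1, h0), y₀.2.1, y₀.2.2, hh0⟩
  have hw₀ : pr w₀.1.1 = 0 := hy₀
  -- the loops do not depend on the line
  have hindep : ∀ z, MvPolynomial.eval z D ≠ 0 →
      {w | EndsAt (qW Y pr δ g) w₀ w z 0} = {w | EndsAt (qW Y pr δ g) w₀ w v₀ 0} := by
    intro z hz
    letI : TopologicalSpace (Set (Wg Y pr δ g)) := ⊥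
    haveI : DiscreteTopology (Set (Wg Y pr δ g)) := ⟨rfl⟩
    refine IsPreconnected.constant (hconn D hD)
      (f := fun z => {w | EndsAt (qW Y pr δ g) w₀ w z 0}) ?_ hz hv₀
    intro z₁ hz₁
    obtain ⟨ε, hε, hε2⟩ := hloc0 w₀ hw₀ z₁ (hgen z₁ hz₁)
    apply ContinuousAt.continuousWithinAt
    have hev : ∀ᶠ z in 𝓝 z₁, {w | EndsAt (qW Y pr δ g) w₀ w z₁ 0} =
        {w | EndsAt (qW Y pr δ g) w₀ w z 0} := by
      filter_upwards [Metric.ball_mem_nhds z₁ hε] with z hz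
      ext w
      exact (hε2 z hz w).symm
    exact Filter.Tendsto.congr' hev tendsto_const_nhds
  have hloop : ∀ z, MvPolynomial.eval z D ≠ 0 → ∀ u : Wg Y pr δ g,
      EndsAt (qW Y pr δ g) w₀ u z 0 → u.1.1 = w₀.1.1 → u = w₀ := by
    intro z hz u hu hu2
    have h1 : u ∈ {w | EndsAt (qW Y pr δ g) w₀ w z 0} := hu
    rw [hindep z hz] at h1
    exact lk_loop Y pr δ g hcovW w₀ v₀ T hw₀ hpush hK u h1 hu2
  have huniq : ∀ w w' : Wg Y pr δ g, MvPolynomial.eval (pr w.1.1) D ≠ 0 →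
      EndsAt (qW Y pr δ g) w₀ w (pr w.1.1) 1 → EndsAt (qW Y pr δ g) w₀ w' (pr w'.1.1) 1 →
      w.1.1 = w'.1.1 → w = w' := by
    intro w w' hwD h1 h2 h3
    exact lk_unique Y pr δ g w₀ w w' h1 h2 h3 (hloop _ hwD)
  have hex : ∀ y : Fin m → ℂ, ∀ hy : y ∈ Y ∧ MvPolynomial.eval (pr y) D ≠ 0 ∧
      MvPolynomial.eval (pr y) δ ≠ 0, ∃ η : ℂ, ∃ hη : Complex.exp η = g y,
      EndsAt (qW Y pr δ g) w₀ (⟨(y, η), hy.1, hy.2.2, hη⟩ : Wg Y pr δ g) (pr y) 1 := by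
    intro y hy
    let yo : Yo Y pr δ := ⟨y, hy.1, hy.2.2⟩
    obtain ⟨c, hc, Γ, hΓ0, hΓ1, hΓ⟩ := hbert yo (hgen _ hy.2.1)
    let γ : C(unitInterval, {z : ℂ // z ≠ 0}) :=
      ⟨fun τ => ⟨g (Γ τ).1, hg0 _ (Γ τ).2.1⟩, by
        apply Continuous.subtype_mk
        exact hg.comp_continuous (by fun_prop) (fun τ => (Γ τ).2.1)⟩
    have hγ0 : γ 0 = (fun z : ℂ ↦ (⟨_, z.exp_ne_zero⟩ : {z : ℂ // z ≠ 0})) h0 := by
      apply Subtype.ext
      show g (Γ 0).1 = Complex.exp h0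
      rw [hΓ0, hh0]
    let E := Complex.isCoveringMap_exp.liftPath γ h0 hγ0
    have hE0 : E 0 = h0 := Complex.isCoveringMap_exp.liftPath_zero γ h0 hγ0
    have hEl := Complex.isCoveringMap_exp.liftPath_lifts γ h0 hγ0
    have hE : ∀ τ, Complex.exp (E τ) = g (Γ τ).1 := fun τ =>
      congrArg Subtype.val (congrFun hEl τ)
    have hη : Complex.exp (E 1) = g y := by
      rw [hE, hΓ1]
    refine ⟨E 1, hη, c, hc, ⟨fun τ => ⟨((Γ τ).1, E τ), (Γ τ).2.1, (Γ τ).2.2, hE τ⟩, ?_⟩, ?_, ?_, ?_⟩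
    · apply Continuous.subtype_mk
      fun_prop
    · apply Subtype.ext
      show ((Γ 0).1, E 0) = (y₀.1, h0)
      rw [hΓ0, hE0]
    · apply Subtype.ext
      show ((Γ 1).1, E 1) = (y, E 1)
      rw [hΓ1]
    · intro τ
      exact hΓ τ
  let hf : (Fin m → ℂ) → ℂ := fun y =>
    if hy : y ∈ Y ∧ MvPolynomial.eval (pr y) D ≠ 0 ∧ MvPolynomial.eval (pr y) δ ≠ 0 then
      (hex y hy).choose else 0
  have hf1 : ∀ y, ∀ hy : y ∈ Y ∧ MvPolynomial.eval (pr y) D ≠ 0 ∧ MvPolynomial.eval (pr y) δ ≠ 0,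
      ∃ hη : Complex.exp (hf y) = g y,
      EndsAt (qW Y pr δ g) w₀ (⟨(y, hf y), hy.1, hy.2.2, hη⟩ : Wg Y pr δ g) (pr y) 1 := by
    intro y hy
    have e1 : hf y = (hex y hy).choose := dif_pos hy
    rw [e1]
    exact (hex y hy).choose_spec
  refine ⟨hf, ?_, fun y hy => (hf1 y hy).1⟩
  rw [continuousOn_iff_continuous_restrict, continuous_iff_continuousAt]
  rintro ⟨y1, hy1⟩
  obtain ⟨hη1, hR1⟩ := hf1 y1 hy1
  let w₁ : Wg Y pr δ g := ⟨(y1, hf y1), hy1.1, hy1.2.2, hη1⟩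
  let l : (Fin m → ℂ) → ℂ := fun y => hf y1 + Complex.log (g y / g y1)
  have hl : ∀ y ∈ Y, Complex.exp (l y) = g y := by
    intro y hy
    show Complex.exp (hf y1 + Complex.log (g y / g y1)) = g y
    rw [Complex.exp_add, hη1, Complex.exp_log (div_ne_zero (hg0 y hy) (hg0 y1 hy1.1))]
    have := hg0 y1 hy1.1
    field_simp
  let A : Set (Fin m → ℂ) :=
    {y | y ∈ Y ∧ MvPolynomial.eval (pr y) D ≠ 0 ∧ MvPolynomial.eval (pr y) δ ≠ 0}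
  let L : A → Wg Y pr δ g := fun y => ⟨(y.1, l y.1), y.2.1, y.2.2.2, hl y.1 y.2.1⟩
  have hl1 : l y1 = hf y1 := by
    show hf y1 + Complex.log (g y1 / g y1) = hf y1
    rw [div_self (hg0 y1 hy1.1), Complex.log_one, add_zero]
  have hgA : Continuous (fun y : A => g y.1) :=
    hg.comp_continuous (by fun_prop) (fun y => y.2.1)
  have hlc : ContinuousAt (fun y : A => l y.1) ⟨y1, hy1⟩ := by
    show ContinuousAt (fun y : A => hf y1 + Complex.log (g y.1 / g y1)) ⟨y1, hy1⟩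
    refine continuousAt_const.add (ContinuousAt.clog ?_ ?_)
    · exact (hgA.continuousAt).div_const _
    · show g y1 / g y1 ∈ Complex.slitPlane
      rw [div_self (hg0 y1 hy1.1)]
      exact Complex.one_mem_slitPlane
  have hLc : Filter.Tendsto L (𝓝 ⟨y1, hy1⟩) (𝓝 w₁) := by
    rw [tendsto_subtype_rng]
    show Filter.Tendsto (fun y : A => (y.1, l y.1)) (𝓝 ⟨y1, hy1⟩) (𝓝 (y1, hf y1))
    rw [← hl1]
    exact Filter.Tendsto.prodMk_nhds (continuous_subtype_val.tendsto _) hlc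
  have hev := hLc.eventually (hloc1 w₀ w₁ hw₀ (hgen _ hy1.2.1))
  have hev2 : ∀ᶠ y : A in 𝓝 ⟨y1, hy1⟩, l y.1 = A.restrict hf y := by
    filter_upwards [hev] with y hy
    have hRy : EndsAt (qW Y pr δ g) w₀ (L y) (pr (L y).1.1) 1 := hy.mpr hR1
    obtain ⟨hηy, hRy2⟩ := hf1 y.1 y.2
    have := huniq (L y) ⟨(y.1, hf y.1), y.2.1, y.2.2.2, hηy⟩ y.2.2.1 hRy hRy2 rfl
    exact congrArg (fun u : Wg Y pr δ g => u.1.2) this
  have hval : A.restrict hf ⟨y1, hy1⟩ = l y1 := hl1.symm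
  show Filter.Tendsto (A.restrict hf) (𝓝 ⟨y1, hy1⟩) (𝓝 (A.restrict hf ⟨y1, hy1⟩))
  rw [hval]
  exact Filter.Tendsto.congr' hev2 hlc

end H113G
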