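import Pool.Agent.Helper113.Gorin.Defs

set_option autoImplicit false

open Metric Set Topology

namespace H113G




theorem period_aux {n : ℕ} {c : ℝ} {κ : ℕ} (L : Fin n → ℂ → ℂ) (A : ℂ → ℂ) (cf lam : Fin n → ℂ)
    (hL : ∀ j, DifferentiableOn ℂ (L j) {s : ℂ | c < s.re})
    (hLp : ∀ j, ∀ s : ℂ, c < s.re → L j (s + 2 * Real.pi * κ * Complex.I) = L j s + lam j)
    (c' : ℝ) (hc' : c < c')
    (hA : ∀ t ∈ Set.Icc (0 : ℝ) (2 * Real.pi * κ), HasDerivAt A
      (∑ j, cf j * deriv (L j) (c' + t * Complex.I)) (c' + t * Complex.I))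
    (hAp : A ((c' : ℂ) + 2 * Real.pi * κ * Complex.I) = A c') : ∑ j, cf j * lam j = 0 := by
  have hHo : IsOpen {s : ℂ | c < s.re} := isOpen_lt continuous_const Complex.continuous_re
  set G : ℝ → ℂ := fun t => A (c' + t * Complex.I) - ∑ j, cf j * L j (c' + t * Complex.I) with hG
  have hline : ∀ t : ℝ, HasDerivAt (fun t : ℝ => ((c' : ℂ) + t * Complex.I)) Complex.I t := by
    intro t
    have h1 : HasDerivAt (fun t : ℝ => ((t : ℝ) : ℂ)) 1 t := Complex.ofRealCLM.hasDerivAt
    simpa using (h1.mul_const Complex.I).const_add (c' : ℂ)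
  have hd : ∀ t ∈ Set.Icc (0 : ℝ) (2 * Real.pi * κ), HasDerivAt G 0 t := by
    intro t ht
    have h1 : HasDerivAt (fun s => A s - ∑ j, cf j * L j s)
        ((∑ j, cf j * deriv (L j) (c' + t * Complex.I)) -
          ∑ j, cf j * deriv (L j) (c' + t * Complex.I)) (c' + t * Complex.I) := by
      refine (hA t ht).fun_sub (HasDerivAt.fun_sum fun j _ => ?_)
      refine HasDerivAt.const_mul _ ?_
      refine ((hL j).differentiableAt (hHo.mem_nhds ?_)).hasDerivAt
      simpa using hc'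
    have h2 := HasDerivAt.comp t h1 (hline t)
    rw [sub_self, zero_mul] at h2
    exact h2
  have hc := constant_of_has_deriv_right_zero (f := G) (a := 0) (b := 2 * Real.pi * κ)
    (fun t ht => (hd t ht).continuousAt.continuousWithinAt)
    (fun t ht => (hd t ⟨ht.1, ht.2.le⟩).hasDerivWithinAt)
  have hT : (0 : ℝ) ≤ 2 * Real.pi * κ := by positivity
  have h3 := hc _ (Set.right_mem_Icc.2 hT)
  simp only [hG] at h3
  push_cast at h3
  rw [hAp] at h3
  have h4 : ∀ j, L j ((c' : ℂ) + 2 * Real.pi * κ * Complex.I) = L j c' + lam j := fun j =>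
    hLp j c' (by simpa using hc')
  simp only [h4, zero_mul, add_zero, mul_add, Finset.sum_add_distrib] at h3
  linear_combination -h3

theorem period_line {c : ℝ} (T : ℝ) (f : ℂ → ℂ) (hf : AnalyticOnNhd ℂ f {s : ℂ | c < s.re})
    (hnc : ∃ s : ℂ, c < s.re ∧ f s ≠ 0) :
    ∃ c' : ℝ, c < c' ∧ ∀ t ∈ Set.Icc (0 : ℝ) T, f (c' + t * Complex.I) ≠ 0 := by
  have hpre : IsPreconnected {s : ℂ | c < s.re} := (convex_halfSpace_re_gt c).isPreconnected
  set R : Set ℂ := Set.Icc (c + 1) (c + 2) ×ℂ Set.Icc (0 : ℝ) T with hR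
  have hRc : IsCompact R := isCompact_Icc.reProdIm isCompact_Icc
  have hRH : R ⊆ {s : ℂ | c < s.re} := by
    intro s hs
    have h1 := (Complex.mem_reProdIm.1 hs).1.1
    show c < s.re
    linarith
  have hfin : ({s | f s = 0} ∩ R).Finite := by
    by_contra hinf
    obtain ⟨x, hx, hacc⟩ := Set.Infinite.exists_accPt_of_subset_isCompact hinf hRc
      Set.inter_subset_right
    have h1 : ∃ᶠ y in nhdsWithin x {x}ᶜ, f y = 0 := by
      rw [accPt_iff_frequently_nhdsNE] at hacc
      exact hacc.mono fun y hy => hy.1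
    have h2 := hf.eqOn_zero_of_preconnected_of_frequently_eq_zero hpre (hRH hx) h1
    obtain ⟨s, hs, hs'⟩ := hnc
    exact hs' (h2 hs)
  have h2 : (Complex.re '' ({s | f s = 0} ∩ R)).Finite := hfin.image _
  have h3 : (Set.Icc (c + 1) (c + 2)).Infinite := Set.Icc_infinite (by linarith)
  obtain ⟨c', hc1, hc2⟩ := (h3.sdiff h2).nonempty
  refine ⟨c', by linarith [hc1.1], fun t ht h0 => hc2 ⟨c' + t * Complex.I, ⟨h0, ?_⟩, by simp⟩⟩
  rw [hR, Complex.mem_reProdIm]
  simpa using ⟨hc1, ht⟩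

theorem period_lemma {n : ℕ} {c : ℝ} {κ : ℕ} (hκ : 0 < κ) (φ : ℂ → ℂ) (L : Fin n → ℂ → ℂ)
    (m₁ n₁ μ ν : Fin n → ℂ) (lam : Fin n → ℂ)
    (hφ : DifferentiableOn ℂ φ {s : ℂ | c < s.re})
    (hL : ∀ j, DifferentiableOn ℂ (L j) {s : ℂ | c < s.re})
    (hφp : ∀ s : ℂ, c < s.re → φ (s + 2 * Real.pi * κ * Complex.I) = φ s)
    (hLp : ∀ j, ∀ s : ℂ, c < s.re → L j (s + 2 * Real.pi * κ * Complex.I) = L j s + lam j)
    (h0 : ∀ s : ℂ, c < s.re → φ s ≠ 0) (h1 : ∀ s : ℂ, c < s.re → φ s ≠ 1)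
    (hnc : ∃ s : ℂ, c < s.re ∧ deriv φ s ≠ 0)
    (hm : ∀ s : ℂ, c < s.re → deriv φ s / φ s = ∑ j, m₁ j * deriv (L j) s)
    (hn : ∀ s : ℂ, c < s.re → -deriv φ s / (1 - φ s) = ∑ j, n₁ j * deriv (L j) s)
    (hrel : ∀ s : ℂ, c < s.re →
      dE m₁ n₁ μ ν (fun j => deriv (L j) s) (fun j => deriv (deriv (L j)) s) = 0) :
    ∑ j, μ j * lam j = 0 ∧ ∑ j, ν j * lam j = 0 := by
  have hHo : IsOpen {s : ℂ | c < s.re} := isOpen_lt continuous_const Complex.continuous_re
  have hφa : AnalyticOnNhd ℂ φ {s : ℂ | c < s.re} := hφ.analyticOnNhd hHo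
  have hLa : ∀ j, AnalyticOnNhd ℂ (L j) {s : ℂ | c < s.re} := fun j => (hL j).analyticOnNhd hHo
  obtain ⟨c', hc', hz⟩ := period_line (2 * Real.pi * κ) (deriv φ) hφa.deriv hnc
  have hLp' : ∀ j, ∀ s : ℂ, c < s.re →
      deriv (L j) (s + 2 * Real.pi * κ * Complex.I) = deriv (L j) s := by
    intro j s hs
    have e1 : (fun x => L j (x + 2 * Real.pi * κ * Complex.I)) =ᶠ[nhds s] fun x => L j x + lam j := by
      filter_upwards [hHo.mem_nhds hs] with x hx using hLp j x hx
    have e2 := e1.deriv_eq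
    rw [deriv_comp_add_const, deriv_add_const] at e2
    exact e2
  set X : ℂ → ℂ := fun s => ∑ j, m₁ j * deriv (L j) s with hX
  set Y : ℂ → ℂ := fun s => ∑ j, n₁ j * deriv (L j) s with hY
  set ξ : ℂ → ℂ := fun s => ∑ j, μ j * deriv (L j) s with hξ
  set η : ℂ → ℂ := fun s => ∑ j, ν j * deriv (L j) s with hη
  have hder : ∀ (cf : Fin n → ℂ) (s : ℂ), c < s.re →
      HasDerivAt (fun s => ∑ j, cf j * deriv (L j) s) (∑ j, cf j * deriv (deriv (L j)) s) s := by
    intro cf s hs
    refine HasDerivAt.fun_sum fun j _ => HasDerivAt.const_mul _ ?_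
    exact ((hLa j).deriv s hs).differentiableAt.hasDerivAt
  have hφd : ∀ s : ℂ, c < s.re → HasDerivAt φ (deriv φ s) s := fun s hs =>
    (hφa s hs).differentiableAt.hasDerivAt
  have hXφ : ∀ s : ℂ, c < s.re → X s * φ s = deriv φ s := by
    intro s hs
    have := hm s hs
    rw [div_eq_iff (h0 s hs)] at this
    exact this.symm
  have hYφ : ∀ s : ℂ, c < s.re → Y s * (1 - φ s) = -deriv φ s := by
    intro s hs
    have := hn s hs
    rw [div_eq_iff (sub_ne_zero.2 (h1 s hs).symm)] at this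
    exact this.symm
  have hcub : ∀ s : ℂ, c < s.re → Y s * (∑ j, m₁ j * deriv (deriv (L j)) s) -
      X s * (∑ j, n₁ j * deriv (deriv (L j)) s) = X s * Y s * (Y s - X s) := by
    intro s hs
    have d1 := ((hder m₁ s hs).fun_mul (hφd s hs)).fun_add
      ((hder n₁ s hs).fun_mul ((hφd s hs).const_sub 1))
    have d2 : HasDerivAt (fun s => X s * φ s + Y s * (1 - φ s)) 0 s := by
      have e1 : (fun s => X s * φ s + Y s * (1 - φ s)) =ᶠ[nhds s] fun _ => (0 : ℂ) := by
        filter_upwards [hHo.mem_nhds hs] with x hx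
        rw [hXφ x hx, hYφ x hx]; ring
      exact (hasDerivAt_const s (0 : ℂ)).congr_of_eventuallyEq e1
    have d3 := d1.unique d2
    have e1 := hXφ s hs
    have e2 := hYφ s hs
    have e3 := h0 s hs
    apply mul_left_cancel₀ e3
    have d3' : (∑ j, m₁ j * deriv (deriv (L j)) s) * φ s + X s * deriv φ s +
      ((∑ j, n₁ j * deriv (deriv (L j)) s) * (1 - φ s) + Y s * -deriv φ s) = 0 := d3
    generalize (∑ j, m₁ j * deriv (deriv (L j)) s) = X' at *
    generalize (∑ j, n₁ j * deriv (deriv (L j)) s) = Y' at *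
    generalize X s = x at *
    generalize Y s = y at *
    generalize φ s = f at *
    generalize deriv φ s = f' at *
    have e4 : y * (1 - f) = - x * f := by rw [e2, ← e1]; ring
    subst e1
    linear_combination y * d3' - (Y' ) * e4
  set Θ : ℂ → ℂ := fun s => ξ s / X s - η s / Y s with hΘ
  have hXne : ∀ s : ℂ, c < s.re → deriv φ s ≠ 0 → X s ≠ 0 := by
    intro s hs hne h
    apply hne
    rw [← hXφ s hs, h, zero_mul]
  have hYne : ∀ s : ℂ, c < s.re → deriv φ s ≠ 0 → Y s ≠ 0 := by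
    intro s hs hne h
    apply hne
    have := hYφ s hs
    rw [h, zero_mul] at this
    exact neg_eq_zero.1 this.symm
  have hΘd : ∀ s : ℂ, c < s.re → deriv φ s ≠ 0 → HasDerivAt Θ (η s - ξ s) s := by
    intro s hs hne
    have x0 := hXne s hs hne
    have y0 := hYne s hs hne
    have d1 := ((hder μ s hs).fun_div (hder m₁ s hs) x0).fun_sub
      ((hder ν s hs).fun_div (hder n₁ s hs) y0)
    refine d1.congr_deriv ?_
    have e1 := hcub s hs
    have e2 := hrel s hs
    simp only [dE] at e2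
    have e2' : η s * (∑ j, m₁ j * deriv (deriv (L j)) s) + Y s * (∑ j, μ j * deriv (deriv (L j)) s)
      - ξ s * (∑ j, n₁ j * deriv (deriv (L j)) s) - X s * (∑ j, ν j * deriv (deriv (L j)) s)
      - (ξ s * Y s * (Y s - X s) + X s * η s * (Y s - X s) + X s * Y s * (η s - ξ s)) = 0 := e2
    show ((∑ j, μ j * deriv (deriv (L j)) s) * X s - ξ s * (∑ j, m₁ j * deriv (deriv (L j)) s)) / X s ^ 2
      - ((∑ j, ν j * deriv (deriv (L j)) s) * Y s - η s * (∑ j, n₁ j * deriv (deriv (L j)) s)) / Y s ^ 2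
      = η s - ξ s
    generalize (∑ j, m₁ j * deriv (deriv (L j)) s) = X' at *
    generalize (∑ j, n₁ j * deriv (deriv (L j)) s) = Y' at *
    generalize (∑ j, μ j * deriv (deriv (L j)) s) = ξ' at *
    generalize (∑ j, ν j * deriv (deriv (L j)) s) = η' at *
    generalize X s = x at *
    generalize Y s = y at *
    generalize ξ s = a at *
    generalize η s = b at *
    field_simp
    linear_combination (x * y) * e2' - (a * y + b * x) * e1
  -- A and B
  set A : ℂ → ℂ := fun s => -(1 - φ s) * Θ s with hA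
  set B : ℂ → ℂ := fun s => φ s * Θ s with hB
  have hφΘ : ∀ s : ℂ, c < s.re → deriv φ s ≠ 0 →
      deriv φ s * Θ s = φ s * ξ s + (1 - φ s) * η s := by
    intro s hs hne
    have x0 := hXne s hs hne
    have y0 := hYne s hs hne
    have e1 := hXφ s hs
    have e2 := hYφ s hs
    simp only [hΘ]
    generalize X s = x at *
    generalize Y s = y at *
    generalize ξ s = a at *
    generalize η s = b at *
    generalize φ s = f at *
    generalize deriv φ s = f' at *
    field_simp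
    linear_combination (-(a * y)) * e1 + (-(b * x)) * e2
  have hAd : ∀ s : ℂ, c < s.re → deriv φ s ≠ 0 → HasDerivAt A (ξ s) s := by
    intro s hs hne
    have d1 := (((hφd s hs).const_sub 1).fun_neg).fun_mul (hΘd s hs hne)
    refine d1.congr_deriv ?_
    have e1 := hφΘ s hs hne
    linear_combination e1
  have hBd : ∀ s : ℂ, c < s.re → deriv φ s ≠ 0 → HasDerivAt B (η s) s := by
    intro s hs hne
    have d1 := (hφd s hs).fun_mul (hΘd s hs hne)
    refine d1.congr_deriv ?_
    have e1 := hφΘ s hs hne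
    linear_combination e1
  have hc0 : c < ((c' : ℂ)).re := by simpa using hc'
  have hΘp : Θ ((c' : ℂ) + 2 * Real.pi * κ * Complex.I) = Θ c' := by
    simp only [hΘ, hX, hY, hξ, hη, hLp' _ _ hc0]
  have hline : ∀ t : ℝ, c < ((c' : ℂ) + t * Complex.I).re := by
    intro t
    simpa using hc'
  constructor
  · refine period_aux L A μ lam hL hLp c' hc' (fun t ht => hAd _ (hline t) (hz t ht)) ?_
    simp only [hA, hΘp, hφp _ hc0]
  · refine period_aux L B ν lam hL hLp c' hc' (fun t ht => hBd _ (hline t) (hz t ht)) ?_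
    simp only [hB, hΘp, hφp _ hc0]

end H113G
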