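import Pool.Agent.Helper113.Gorin.Defs

set_option autoImplicit false

open Metric Set Topology

namespace H113G



/-- `u j ∘ σ` is holomorphic -/
theorem persist_aux1 {m k : ℕ} {Y : Set (Fin m → ℂ)} {pr : (Fin m → ℂ) → (Fin k → ℂ)}
    {v : Fin k → ℂ} {w : (Fin m → ℂ) → ℂ} (hw : HolOn Y w) {U : Set ℂ} (hU : IsOpen U)
    {σ : ℂ → (Fin m → ℂ)} (hσ : LSec Y pr v U σ) :
    DifferentiableOn ℂ (fun t => w (σ t)) U := by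
  intro t ht
  have hσt : DifferentiableAt ℂ σ t := hσ.1.differentiableAt (hU.mem_nhds ht)
  obtain ⟨V, hV, hpV, h, hh, hhe⟩ := hw (σ t) (hσ.2 t ht).1
  have h1 : DifferentiableAt ℂ h (σ t) := hh.differentiableAt (hV.mem_nhds hpV)
  have h2 : DifferentiableAt ℂ (fun x => h (σ x)) t := h1.comp t hσt
  have h3 : (fun x => w (σ x)) =ᶠ[𝓝 t] fun x => h (σ x) := by
    filter_upwards [hU.mem_nhds ht, hσt.continuousAt.preimage_mem_nhds (hV.mem_nhds hpV)]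
      with x hx hx'
    exact (hhe (σ x) (hσ.2 x hx).1 hx').symm
  exact (h2.congr_of_eventuallyEq h3).differentiableWithinAt

theorem persist_aux2 {m k n : ℕ} {Y : Set (Fin m → ℂ)} {pr : (Fin m → ℂ) → (Fin k → ℂ)}
    {v : Fin k → ℂ} {u : Fin n → (Fin m → ℂ) → ℂ} (hu : ∀ j, HolOn Y (u j))
    (hu0 : ∀ j, ∀ y ∈ Y, u j y ≠ 0) {U : Set ℂ} (hU : IsOpen U)
    {σ : ℂ → (Fin m → ℂ)} (hσ : LSec Y pr v U σ) (j : Fin n) :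
    DifferentiableOn ℂ (fun t => om u σ t j) U := by
  have h1 := persist_aux1 (hu j) hU hσ
  have h2 : DifferentiableOn ℂ (deriv (fun t => u j (σ t))) U := h1.deriv hU
  exact (differentiableOn_id.mul h2).div h1 (fun t ht => hu0 j _ (hσ.2 t ht).1)

theorem persist_aux3 {m k n : ℕ} {Y : Set (Fin m → ℂ)} {pr : (Fin m → ℂ) → (Fin k → ℂ)}
    {v : Fin k → ℂ} {u : Fin n → (Fin m → ℂ) → ℂ} (hu : ∀ j, HolOn Y (u j))
    (hu0 : ∀ j, ∀ y ∈ Y, u j y ≠ 0) (Z : (Fin n → ℂ) → (Fin n → ℂ) → ℂ)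
    (hZ : Differentiable ℂ (fun p : (Fin n → ℂ) × (Fin n → ℂ) => Z p.1 p.2))
    {U : Set ℂ} (hU : IsOpen U)
    {σ : ℂ → (Fin m → ℂ)} (hσ : LSec Y pr v U σ) :
    DifferentiableOn ℂ (fun t => Z (om u σ t) (om' u σ t)) U := by
  have h1 : DifferentiableOn ℂ (fun t => om u σ t) U :=
    differentiableOn_pi.2 fun j => persist_aux2 hu hu0 hU hσ j
  have h2 : DifferentiableOn ℂ (fun t => om' u σ t) U := by
    refine differentiableOn_pi.2 fun j => ?_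
    have h3 : DifferentiableOn ℂ (deriv (fun t => om u σ t j)) U :=
      (persist_aux2 hu hu0 hU hσ j).deriv hU
    exact differentiableOn_id.mul h3
  exact hZ.comp_differentiableOn (h1.prodMk h2)

/-- congruence of `Z (om ..) (om' ..)` -/
theorem persist_aux4 {m n : ℕ} (u : Fin n → (Fin m → ℂ) → ℂ)
    (Z : (Fin n → ℂ) → (Fin n → ℂ) → ℂ) {σ σ' : ℂ → (Fin m → ℂ)} {t : ℂ}
    (h : σ =ᶠ[𝓝 t] σ') :
    (fun x => Z (om u σ x) (om' u σ x)) =ᶠ[𝓝 t] fun x => Z (om u σ' x) (om' u σ' x) := by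
  have key : ∀ x, σ =ᶠ[𝓝 x] σ' → om u σ x = om u σ' x := by
    intro x hx
    funext j
    unfold om
    have h1 : (fun y => u j (σ y)) =ᶠ[𝓝 x] fun y => u j (σ' y) := by
      filter_upwards [hx] with y hy
      rw [hy]
    rw [h1.deriv_eq, hx.eq_of_nhds]
  have key' : ∀ x, (∀ᶠ y in 𝓝 x, σ =ᶠ[𝓝 y] σ') → om' u σ x = om' u σ' x := by
    intro x hx
    funext j
    unfold om'
    have h1 : (fun y => om u σ y j) =ᶠ[𝓝 x] fun y => om u σ' y j := by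
      filter_upwards [hx] with y hy
      rw [key y hy]
    rw [h1.deriv_eq]
  have h1 : ∀ᶠ x in 𝓝 t, σ =ᶠ[𝓝 x] σ' := eventually_eventually_nhds.2 h
  have h2 : ∀ᶠ x in 𝓝 t, ∀ᶠ y in 𝓝 x, σ =ᶠ[𝓝 y] σ' := eventually_eventually_nhds.2 h1
  filter_upwards [h1, h2] with x hx hx'
  rw [key x hx, key' x hx']

/-- the local section through a point -/
theorem persist_aux5 {m k e : ℕ} {Y : Set (Fin m → ℂ)} {pr : (Fin m → ℂ) → (Fin k → ℂ)}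
    {δ : MvPolynomial (Fin k) ℂ} (h : Cov Y pr δ e) {v : Fin k → ℂ} {t₀ : ℂ} {y₀ : Fin m → ℂ}
    (hy : y₀ ∈ Y) (hpr : pr y₀ = t₀ • v) (hδ : MvPolynomial.eval (t₀ • v) δ ≠ 0) :
    ∃ ρ : ℝ, 0 < ρ ∧ ∃ σ : ℂ → (Fin m → ℂ), LSec Y pr v (ball t₀ ρ) σ ∧ σ t₀ = y₀ ∧
      (∀ t ∈ ball t₀ ρ, MvPolynomial.eval (t • v) δ ≠ 0) ∧
      ∀ᶠ p : ℂ × (Fin m → ℂ) in 𝓝 (t₀, y₀), p.2 ∈ Y → pr p.2 = p.1 • v → p.2 = σ p.1 := by
  obtain ⟨r, hr, s, hs, hs'⟩ := h.sections (t₀ • v) hδ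
  have hc : Continuous fun t : ℂ => t • v := by fun_prop
  obtain ⟨ρ, hρ, hρs⟩ := Metric.isOpen_iff.1 (isOpen_ball.preimage hc) t₀
    (show t₀ • v ∈ ball (t₀ • v) r from mem_ball_self hr)
  have h0 := hs' (t₀ • v) (mem_ball_self hr)
  obtain ⟨i, hi⟩ : ∃ i, s i (t₀ • v) = y₀ := by
    have : y₀ ∈ Set.range (fun i => s i (t₀ • v)) := by
      rw [← h0.2.2]
      exact ⟨hy, hpr⟩
    exact this
  refine ⟨ρ, hρ, fun t => s i (t • v), ⟨?_, ?_⟩, hi, ?_, ?_⟩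
  · exact (hs i).comp (by fun_prop) hρs
  · intro t ht
    have h1 := (hs' (t • v) (hρs ht)).2.2
    have h2 : s i (t • v) ∈ {y | y ∈ Y ∧ pr y = t • v} := by
      rw [h1]
      exact ⟨i, rfl⟩
    exact h2
  · intro t ht
    exact (hs' (t • v) (hρs ht)).1
  · have h1 : ∀ j, j ≠ i → ∀ᶠ p : ℂ × (Fin m → ℂ) in 𝓝 (t₀, y₀), s j (p.1 • v) - p.2 ≠ 0 := by
      intro j hj
      have h2 : ContinuousAt (s j) (t₀ • v) :=
        ((hs j).continuousOn).continuousAt (isOpen_ball.mem_nhds (mem_ball_self hr))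
      have h3 : ContinuousAt (fun p : ℂ × (Fin m → ℂ) => s j (p.1 • v) - p.2) (t₀, y₀) := by
        apply ContinuousAt.sub
        · exact ContinuousAt.comp (f := fun p : ℂ × (Fin m → ℂ) => p.1 • v) (x := (t₀, y₀))
            (g := s j) h2 (by fun_prop)
        · fun_prop
      apply h3.eventually_ne
      show s j (t₀ • v) - y₀ ≠ 0
      rw [sub_ne_zero, ← hi]
      intro h4
      exact hj (h0.2.1 h4)
    have h2 : ∀ᶠ p : ℂ × (Fin m → ℂ) in 𝓝 (t₀, y₀), ∀ j, j ≠ i → s j (p.1 • v) - p.2 ≠ 0 := by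
      rw [Filter.eventually_all]
      intro j
      by_cases hj : j = i
      · simp [hj]
      · filter_upwards [h1 j hj] with p hp _
        exact hp
    have h3 : ∀ᶠ p : ℂ × (Fin m → ℂ) in 𝓝 (t₀, y₀), p.1 ∈ ball t₀ ρ :=
      (continuous_fst.tendsto (t₀, y₀)).eventually (isOpen_ball.mem_nhds (mem_ball_self hρ))
    filter_upwards [h2, h3] with p hp hp' hpY hpp
    have h4 : p.2 ∈ Set.range (fun i => s i (p.1 • v)) := by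
      rw [← (hs' (p.1 • v) (hρs hp')).2.2]
      exact ⟨hpY, hpp⟩
    obtain ⟨j, hj⟩ := h4
    by_cases hji : j = i
    · subst hji
      exact hj.symm
    · exact absurd (by rw [← hj]; simp) (hp j hji)

/-- two sections through the same point agree near it -/
theorem persist_aux6 {m k e : ℕ} {Y : Set (Fin m → ℂ)} {pr : (Fin m → ℂ) → (Fin k → ℂ)}
    {δ : MvPolynomial (Fin k) ℂ} (h : Cov Y pr δ e) {v : Fin k → ℂ} {t₀ : ℂ}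
    (hδ : MvPolynomial.eval (t₀ • v) δ ≠ 0) {U U' : Set ℂ} (hU : IsOpen U) (hU' : IsOpen U')
    (ht : t₀ ∈ U) (ht' : t₀ ∈ U') {σ σ' : ℂ → (Fin m → ℂ)} (hσ : LSec Y pr v U σ)
    (hσ' : LSec Y pr v U' σ') (he : σ t₀ = σ' t₀) : σ =ᶠ[𝓝 t₀] σ' := by
  obtain ⟨ρ, hρ, s, hs, hs0, -, hev⟩ := persist_aux5 h (hσ.2 t₀ ht).1 (hσ.2 t₀ ht).2 hδ
  have key : ∀ (V : Set ℂ) (τ : ℂ → (Fin m → ℂ)), IsOpen V → t₀ ∈ V → LSec Y pr v V τ →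
      τ t₀ = σ t₀ → τ =ᶠ[𝓝 t₀] s := by
    intro V τ hV htV hτ hτ0
    have h1 : ContinuousAt (fun t => (t, τ t)) t₀ :=
      continuousAt_id.prodMk (hτ.1.differentiableAt (hV.mem_nhds htV)).continuousAt
    have h2 : Filter.Tendsto (fun t => (t, τ t)) (𝓝 t₀) (𝓝 (t₀, σ t₀)) := by
      rw [← hτ0]
      exact h1
    filter_upwards [h2.eventually hev, hV.mem_nhds htV] with t h3 h4
    exact h3 (hτ.2 t h4).1 (hτ.2 t h4).2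
  exact (key U σ hU ht hσ rfl).trans (key U' σ' hU' ht' hσ' he.symm).symm

/-- the germ of section through `(t, y)` is a zero of the function -/
def PGood {m k n : ℕ} (Y : Set (Fin m → ℂ)) (pr : (Fin m → ℂ) → (Fin k → ℂ)) (v : Fin k → ℂ)
    (u : Fin n → (Fin m → ℂ) → ℂ) (Z : (Fin n → ℂ) → (Fin n → ℂ) → ℂ) (t : ℂ)
    (y : Fin m → ℂ) : Prop :=
  ∃ U : Set ℂ, IsOpen U ∧ t ∈ U ∧ ∃ σ, LSec Y pr v U σ ∧ σ t = y ∧
    ∀ᶠ x in 𝓝 t, Z (om u σ x) (om' u σ x) = 0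

theorem persist_aux7 {m k e : ℕ} {Y : Set (Fin m → ℂ)} {pr : (Fin m → ℂ) → (Fin k → ℂ)}
    {δ : MvPolynomial (Fin k) ℂ} (h : Cov Y pr δ e) {v : Fin k → ℂ}
    {n : ℕ} {u : Fin n → (Fin m → ℂ) → ℂ} (hu : ∀ j, HolOn Y (u j))
    (hu0 : ∀ j, ∀ y ∈ Y, u j y ≠ 0) (Z : (Fin n → ℂ) → (Fin n → ℂ) → ℂ)
    (hZ : Differentiable ℂ (fun p : (Fin n → ℂ) × (Fin n → ℂ) => Z p.1 p.2))
    {t₀ : ℂ} {ρ : ℝ} {σ : ℂ → (Fin m → ℂ)} (hσ : LSec Y pr v (ball t₀ ρ) σ)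
    (hδ : ∀ t ∈ ball t₀ ρ, MvPolynomial.eval (t • v) δ ≠ 0) {t : ℂ} (ht : t ∈ ball t₀ ρ) :
    PGood Y pr v u Z t (σ t) ↔ ∀ x ∈ ball t₀ ρ, Z (om u σ x) (om' u σ x) = 0 := by
  constructor
  · rintro ⟨U, hU, htU, σ', hσ', he, hev⟩
    have h1 := persist_aux6 h (hδ t ht) isOpen_ball hU ht htU hσ hσ' he.symm
    have h2 := persist_aux4 u Z h1
    have h3 : (fun x => Z (om u σ x) (om' u σ x)) =ᶠ[𝓝 t] 0 := by
      filter_upwards [h2, hev] with x hx hx'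
      rw [hx, hx']
      rfl
    have h4 : AnalyticOnNhd ℂ (fun x => Z (om u σ x) (om' u σ x)) (ball t₀ ρ) :=
      (persist_aux3 hu hu0 Z hZ isOpen_ball hσ).analyticOnNhd isOpen_ball
    exact fun x hx => h4.eqOn_zero_of_preconnected_of_eventuallyEq_zero
      (convex_ball t₀ ρ).isPreconnected ht h3 hx
  · intro h1
    refine ⟨ball t₀ ρ, isOpen_ball, ht, σ, hσ, rfl, ?_⟩
    filter_upwards [isOpen_ball.mem_nhds ht] with x hx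
    exact h1 x hx

theorem persist_aux8 {m k e : ℕ} {Y : Set (Fin m → ℂ)} {pr : (Fin m → ℂ) → (Fin k → ℂ)}
    {δ : MvPolynomial (Fin k) ℂ} (h : Cov Y pr δ e) {v : Fin k → ℂ}
    {n : ℕ} {u : Fin n → (Fin m → ℂ) → ℂ} (hu : ∀ j, HolOn Y (u j))
    (hu0 : ∀ j, ∀ y ∈ Y, u j y ≠ 0) (Z : (Fin n → ℂ) → (Fin n → ℂ) → ℂ)
    (hZ : Differentiable ℂ (fun p : (Fin n → ℂ) × (Fin n → ℂ) => Z p.1 p.2))
    (c : C(unitInterval, ℂ)) (hc : ∀ τ, MvPolynomial.eval (c τ • v) δ ≠ 0)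
    (Γ : C(unitInterval, Yo Y pr δ)) (hΓ : ∀ τ, pr (Γ τ).1 = c τ • v) (τ τ' : unitInterval) :
    PGood Y pr v u Z (c τ) (Γ τ).1 → PGood Y pr v u Z (c τ') (Γ τ').1 := by
  have hloc : IsLocallyConstant fun τ => PGood Y pr v u Z (c τ) (Γ τ).1 := by
    rw [IsLocallyConstant.iff_eventually_eq]
    intro τ₀
    obtain ⟨ρ, hρ, s, hs, hs0, hδ, hev⟩ :=
      persist_aux5 h (Γ τ₀).2.1 (hΓ τ₀) (hc τ₀)
    have h1 : Filter.Tendsto (fun τ => (c τ, (Γ τ).1)) (𝓝 τ₀) (𝓝 (c τ₀, (Γ τ₀).1)) :=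
      (c.continuous.prodMk (continuous_subtype_val.comp Γ.continuous)).tendsto τ₀
    have h2 : ∀ᶠ τ in 𝓝 τ₀, c τ ∈ ball (c τ₀) ρ :=
      (c.continuous.tendsto τ₀).eventually (isOpen_ball.mem_nhds (mem_ball_self hρ))
    filter_upwards [h1.eventually hev, h2] with τ h3 h4
    have h5 := h3 (Γ τ).2.1 (hΓ τ)
    have h6 := persist_aux7 h hu hu0 Z hZ hs hδ h4
    have h7 := persist_aux7 h hu hu0 Z hZ hs hδ (mem_ball_self hρ)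
    have h5' : (Γ τ).1 = s (c τ) := h5
    rw [← h5'] at h6
    rw [hs0] at h7
    exact propext (h6.trans h7.symm)
  have h1 := hloc.apply_eq_of_preconnectedSpace τ τ'
  exact fun h2 => by
    have h3 : PGood Y pr v u Z (c τ) (Γ τ).1 = PGood Y pr v u Z (c τ') (Γ τ').1 := h1
    rwa [h3] at h2

theorem persist {m k e : ℕ} (Y : Set (Fin m → ℂ)) (pr : (Fin m → ℂ) → (Fin k → ℂ))
    (δ : MvPolynomial (Fin k) ℂ) (h : Cov Y pr δ e) (v : Fin k → ℂ) (y₀ : Yo Y pr δ)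
    (hreach : ∀ (w : Yo Y pr δ) (t : ℂ), pr w.1 = t • v → EndsAt (qY Y pr δ) y₀ w v t)
    {n : ℕ} (u : Fin n → (Fin m → ℂ) → ℂ) (hu : ∀ j, HolOn Y (u j))
    (hu0 : ∀ j, ∀ y ∈ Y, u j y ≠ 0) (Z : (Fin n → ℂ) → (Fin n → ℂ) → ℂ)
    (hZ : Differentiable ℂ (fun p : (Fin n → ℂ) × (Fin n → ℂ) => Z p.1 p.2))
    {U₁ U₂ : Set ℂ} (hU₁ : IsOpen U₁) (hne : U₁.Nonempty) (hU₂ : IsOpen U₂)
    (σ₁ σ₂ : ℂ → (Fin m → ℂ)) (h₁ : LSec Y pr v U₁ σ₁) (h₂ : LSec Y pr v U₂ σ₂)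
    (hδ₁ : ∀ t ∈ U₁, MvPolynomial.eval (t • v) δ ≠ 0)
    (hδ₂ : ∀ t ∈ U₂, MvPolynomial.eval (t • v) δ ≠ 0)
    (h0 : ∀ t ∈ U₁, Z (om u σ₁ t) (om' u σ₁ t) = 0) :
    ∀ t ∈ U₂, Z (om u σ₂ t) (om' u σ₂ t) = 0 := by
  obtain ⟨t₁, ht₁⟩ := hne
  intro t₂ ht₂
  have hw₁ : MvPolynomial.eval (pr (σ₁ t₁)) δ ≠ 0 := by
    rw [(h₁.2 t₁ ht₁).2]
    exact hδ₁ t₁ ht₁
  have hw₂ : MvPolynomial.eval (pr (σ₂ t₂)) δ ≠ 0 := by
    rw [(h₂.2 t₂ ht₂).2]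
    exact hδ₂ t₂ ht₂
  obtain ⟨c₁, ⟨hc₁0, hc₁1, hc₁⟩, Γ₁, hΓ₁0, hΓ₁1, hΓ₁⟩ :=
    hreach ⟨σ₁ t₁, (h₁.2 t₁ ht₁).1, hw₁⟩ t₁ (h₁.2 t₁ ht₁).2
  obtain ⟨c₂, ⟨hc₂0, hc₂1, hc₂⟩, Γ₂, hΓ₂0, hΓ₂1, hΓ₂⟩ :=
    hreach ⟨σ₂ t₂, (h₂.2 t₂ ht₂).1, hw₂⟩ t₂ (h₂.2 t₂ ht₂).2
  have g1 : PGood Y pr v u Z (c₁ 1) (Γ₁ 1).1 := by
    rw [hc₁1, hΓ₁1]
    refine ⟨U₁, hU₁, ht₁, σ₁, h₁, rfl, ?_⟩
    filter_upwards [hU₁.mem_nhds ht₁] with x hx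
    exact h0 x hx
  have g2 := persist_aux8 h hu hu0 Z hZ c₁ hc₁ Γ₁ hΓ₁ 1 0 g1
  rw [hc₁0, hΓ₁0] at g2
  have g2' : PGood Y pr v u Z (c₂ 0) (Γ₂ 0).1 := by
    rw [hc₂0, hΓ₂0]
    exact g2
  have g3 := persist_aux8 h hu hu0 Z hZ c₂ hc₂ Γ₂ hΓ₂ 0 1 g2'
  rw [hc₂1, hΓ₂1] at g3
  obtain ⟨U, hU, htU, σ, hσ, he, hev⟩ := g3
  have h3 := persist_aux6 h (hδ₂ t₂ ht₂) hU₂ hU ht₂ htU h₂ hσ he.symm
  have h4 := (persist_aux4 u Z h3).eq_of_nhds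
  have h5 : Z (om u σ t₂) (om' u σ t₂) = 0 := hev.self_of_nhds
  exact h4.trans h5

end H113G
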