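import Pool.Agent.Helper113.Gorin.Defs

set_option autoImplicit false

open Metric Set Topology

namespace H113G



/-- push map -/
noncomputable def ppr {N : ℕ} (b : Fin N → ℂ) (ρ R : ℝ) (t : ℂ) : ℂ :=
  t + ∑ i, ((max ρ ‖t - b i‖ / ‖t - b i‖ - 1 : ℝ) : ℂ) * (t - b i)
    + ((R / max R ‖t‖ - 1 : ℝ) : ℂ) * t

theorem ppr_term {ρ : ℝ} (hρ : 0 < ρ) {w : ℂ} (h : ρ ≤ ‖w‖) :
    ((max ρ ‖w‖ / ‖w‖ - 1 : ℝ) : ℂ) * w = 0 := by
  rw [max_eq_right h, div_self (by linarith : ‖w‖ ≠ 0)]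
  simp

theorem ppr_clip {R : ℝ} (hR : 0 < R) {t : ℂ} (h : ‖t‖ ≤ R) :
    ((R / max R ‖t‖ - 1 : ℝ) : ℂ) * t = 0 := by
  rw [max_eq_left h, div_self hR.ne']
  simp

theorem ppr_main {N : ℕ} (a b : Fin N → ℂ) {ρ R : ℝ} (hρ : 0 < ρ)
    (h2 : ∀ i j, j ≠ i → 8 * ρ < ‖a i - a j‖) (hR : ∀ i, ‖a i‖ + 8 * ρ < R) (hR0 : 0 < R)
    (hb : ∀ i, ‖b i - a i‖ < ρ / 4) (t : ℂ) (ht : ∀ i, t ≠ b i) :
    (‖ppr b ρ R t‖ ≤ R ∧ ∀ i, ρ / 4 ≤ ‖ppr b ρ R t - a i‖) ∧
      (∀ σ : ℝ, 0 ≤ σ → σ ≤ 1 → ∀ j, ((1 - σ : ℝ) : ℂ) * t + (σ : ℂ) * ppr b ρ R t ≠ b j) ∧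
      ((∀ i, ρ ≤ ‖t - b i‖) → ‖t‖ ≤ R → ppr b ρ R t = t) := by
  have hB : (∀ i, ρ ≤ ‖t - b i‖) → ‖t‖ ≤ R → ppr b ρ R t = t := by
    intro h3 h4
    unfold ppr
    rw [Finset.sum_eq_zero (fun i _ => ppr_term hρ (h3 i)), ppr_clip hR0 h4, add_zero, add_zero]
  have hbR : ∀ i, ‖b i‖ + 7 * ρ < R := by
    intro i
    have h3 := norm_add_le (b i - a i) (a i)
    rw [sub_add_cancel] at h3
    have := hb i; have := hR i
    linarith
  have hbb : ∀ i j, j ≠ i → 7 * ρ < ‖b i - a j‖ := by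
    intro i j hij
    have h3 := norm_sub_le (b i - a j) (b i - a i)
    have h4 : b i - a j - (b i - a i) = a i - a j := by ring
    rw [h4] at h3
    have := h2 i j hij; have := hb i
    linarith
  have hbb' : ∀ i j, j ≠ i → 6 * ρ < ‖b i - b j‖ := by
    intro i j hij
    have h3 := norm_add_le (b i - b j) (b j - a j)
    have h4 : b i - b j + (b j - a j) = b i - a j := by ring
    rw [h4] at h3
    have := hbb i j hij; have := hb j
    linarith
  refine ⟨?_, ?_, hB⟩
  all_goals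
    by_cases hA : ∃ i, ‖t - b i‖ < ρ
  · -- near a root, image
    obtain ⟨i, hi⟩ := hA
    have hpos : 0 < ‖t - b i‖ := norm_pos_iff.2 (sub_ne_zero.2 (ht i))
    have hfar : ∀ j, j ≠ i → ρ ≤ ‖t - b j‖ := by
      intro j hj
      have h3 := norm_sub_le (t - b j) (t - b i)
      have h4 : t - b j - (t - b i) = b i - b j := by ring
      rw [h4] at h3
      have := hbb' i j hj
      linarith
    have htR : ‖t‖ ≤ R := by
      have h3 := norm_add_le (t - b i) (b i)
      rw [sub_add_cancel] at h3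
      have := hbR i
      linarith
    have hr : ppr b ρ R t = b i + ((ρ / ‖t - b i‖ : ℝ) : ℂ) * (t - b i) := by
      unfold ppr
      rw [ppr_clip hR0 htR, Finset.sum_eq_single i (fun j _ hj => ppr_term hρ (hfar j hj))
        (fun h => absurd (Finset.mem_univ i) h), max_eq_left hi.le]
      push_cast
      ring
    have hn : ‖((ρ / ‖t - b i‖ : ℝ) : ℂ) * (t - b i)‖ = ρ := by
      rw [norm_mul, Complex.norm_real, Real.norm_of_nonneg (by positivity)]
      field_simp
    rw [hr]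
    constructor
    · have h3 := norm_add_le (b i) (((ρ / ‖t - b i‖ : ℝ) : ℂ) * (t - b i))
      rw [hn] at h3
      have := hbR i
      linarith
    · intro j
      by_cases hj : j = i
      · subst hj
        have h3 := norm_sub_le (b j + ((ρ / ‖t - b j‖ : ℝ) : ℂ) * (t - b j) - a j) (b j - a j)
        have h4 : b j + ((ρ / ‖t - b j‖ : ℝ) : ℂ) * (t - b j) - a j - (b j - a j) =
          ((ρ / ‖t - b j‖ : ℝ) : ℂ) * (t - b j) := by ring
        rw [h4, hn] at h3
        have := hb j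
        linarith
      · have h3 := norm_sub_le (b i + ((ρ / ‖t - b i‖ : ℝ) : ℂ) * (t - b i) - a j)
          (((ρ / ‖t - b i‖ : ℝ) : ℂ) * (t - b i))
        have h4 : b i + ((ρ / ‖t - b i‖ : ℝ) : ℂ) * (t - b i) - a j -
          ((ρ / ‖t - b i‖ : ℝ) : ℂ) * (t - b i) = b i - a j := by ring
        rw [h4, hn] at h3
        have := hbb i j hj
        linarith
  · push Not at hA
    by_cases htR : ‖t‖ ≤ R
    · rw [hB hA htR]
      refine ⟨htR, fun i => ?_⟩
      have h3 := norm_sub_le (t - a i) (b i - a i)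
      have h4 : t - a i - (b i - a i) = t - b i := by ring
      rw [h4] at h3
      have := hA i; have := hb i
      linarith
    · push Not at htR
      have hr : ppr b ρ R t = ((R / ‖t‖ : ℝ) : ℂ) * t := by
        unfold ppr
        rw [Finset.sum_eq_zero (fun i _ => ppr_term hρ (hA i)), max_eq_right htR.le]
        push_cast
        ring
      have ht0 : 0 < ‖t‖ := hR0.trans htR
      have hn : ‖((R / ‖t‖ : ℝ) : ℂ) * t‖ = R := by
        rw [norm_mul, Complex.norm_real, Real.norm_of_nonneg (by positivity)]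
        field_simp
      rw [hr]
      refine ⟨hn.le, fun i => ?_⟩
      have h3 := norm_sub_norm_le (((R / ‖t‖ : ℝ) : ℂ) * t) (a i)
      rw [hn] at h3
      have := hR i
      linarith
  · -- near a root, segment
    obtain ⟨i, hi⟩ := hA
    have hpos : 0 < ‖t - b i‖ := norm_pos_iff.2 (sub_ne_zero.2 (ht i))
    have hfar : ∀ j, j ≠ i → ρ ≤ ‖t - b j‖ := by
      intro j hj
      have h3 := norm_sub_le (t - b j) (t - b i)
      have h4 : t - b j - (t - b i) = b i - b j := by ring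
      rw [h4] at h3
      have := hbb' i j hj
      linarith
    have htR : ‖t‖ ≤ R := by
      have h3 := norm_add_le (t - b i) (b i)
      rw [sub_add_cancel] at h3
      have := hbR i
      linarith
    have hr : ppr b ρ R t = b i + ((ρ / ‖t - b i‖ : ℝ) : ℂ) * (t - b i) := by
      unfold ppr
      rw [ppr_clip hR0 htR, Finset.sum_eq_single i (fun j _ hj => ppr_term hρ (hfar j hj))
        (fun h => absurd (Finset.mem_univ i) h), max_eq_left hi.le]
      push_cast
      ring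
    intro σ hσ0 hσ1 j hj
    set lam : ℝ := (1 - σ) + σ * (ρ / ‖t - b i‖) with hlam
    have e1 : ((1 - σ : ℝ) : ℂ) * t + (σ : ℂ) * ppr b ρ R t = b i + (lam : ℂ) * (t - b i) := by
      rw [hr, hlam]
      push_cast
      ring
    rw [e1] at hj
    have hq : 1 ≤ ρ / ‖t - b i‖ := by rw [one_le_div hpos]; exact hi.le
    have hlam1 : 1 ≤ lam := by rw [hlam]; nlinarith
    have hlam2 : lam * ‖t - b i‖ ≤ ρ := by
      rw [hlam]
      have : ((1 - σ) + σ * (ρ / ‖t - b i‖)) * ‖t - b i‖ = (1 - σ) * ‖t - b i‖ + σ * ρ := by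
        field_simp
      rw [this]
      nlinarith
    have e2 : ‖(lam : ℂ) * (t - b i)‖ = lam * ‖t - b i‖ := by
      rw [norm_mul, Complex.norm_real, Real.norm_of_nonneg (by linarith)]
    by_cases hji : j = i
    · subst hji
      have e3 : (lam : ℂ) * (t - b j) = 0 := by linear_combination hj
      rw [e3, norm_zero] at e2
      nlinarith
    · have e3 : (lam : ℂ) * (t - b i) = -(b i - b j) := by linear_combination hj
      rw [e3, norm_neg] at e2
      have := hbb' i j hji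
      linarith
  · push Not at hA
    by_cases htR : ‖t‖ ≤ R
    · rw [hB hA htR]
      intro σ _ _ j hj
      apply ht j
      rw [← hj]
      push_cast
      ring
    · push Not at htR
      have hr : ppr b ρ R t = ((R / ‖t‖ : ℝ) : ℂ) * t := by
        unfold ppr
        rw [Finset.sum_eq_zero (fun i _ => ppr_term hρ (hA i)), max_eq_right htR.le]
        push_cast
        ring
      have ht0 : 0 < ‖t‖ := hR0.trans htR
      intro σ hσ0 hσ1 j hj
      have e1 : ((1 - σ : ℝ) : ℂ) * t + (σ : ℂ) * ppr b ρ R t =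
          (((1 - σ) + σ * (R / ‖t‖) : ℝ) : ℂ) * t := by
        rw [hr]
        push_cast
        ring
      rw [e1] at hj
      have e2 : ‖b j‖ = (1 - σ) * ‖t‖ + σ * R := by
        rw [← hj, norm_mul, Complex.norm_real, Real.norm_of_nonneg]
        · field_simp
        · have : 0 ≤ R / ‖t‖ := by positivity
          nlinarith
      have := hbR j
      nlinarith

theorem ppr_cont {N : ℕ} (b : Fin N → ℂ) {ρ R : ℝ} (hR0 : 0 < R) {X : Type*} [TopologicalSpace X]
    {c : X → ℂ} (hc : Continuous c) (h : ∀ x i, c x ≠ b i) :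
    Continuous (fun x => ppr b ρ R (c x)) := by
  unfold ppr
  apply Continuous.add
  · apply Continuous.add hc
    apply continuous_finsetSum
    intro i _
    apply Continuous.mul
    · apply Complex.continuous_ofReal.comp
      apply Continuous.sub _ continuous_const
      apply Continuous.div
      · fun_prop
      · fun_prop
      · intro x
        exact (norm_pos_iff.2 (sub_ne_zero.2 (h x i))).ne'
    · fun_prop
  · apply Continuous.mul _ hc
    apply Complex.continuous_ofReal.comp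
    apply Continuous.sub _ continuous_const
    apply Continuous.div
    · fun_prop
    · fun_prop
    · intro x
      exact (lt_of_lt_of_le hR0 (le_max_left _ _)).ne'

theorem plane_push {k : ℕ} (δ : MvPolynomial (Fin k) ℂ)
    (h0 : MvPolynomial.eval (0 : Fin k → ℂ) δ ≠ 0) (z₁ : Fin k → ℂ) (hz : RootStable δ z₁)
    (t₁ : ℂ) (ht₁ : MvPolynomial.eval (t₁ • z₁) δ ≠ 0) :
    ∃ (ε : ℝ) (T : Set ℂ), 0 < ε ∧ IsCompact T ∧
      (∀ z ∈ ball z₁ ε, ∀ t ∈ T, MvPolynomial.eval (t • z) δ ≠ 0) ∧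
      ∀ z ∈ ball z₁ ε, ∀ c : C(unitInterval, ℂ), Adm δ z t₁ c →
        ∃ H : C(unitInterval × unitInterval, ℂ), (∀ τ, H (τ, 0) = c τ) ∧ (∀ τ, H (τ, 1) ∈ T) ∧
          (∀ σ, H (0, σ) = 0) ∧ (∀ σ, H (1, σ) = t₁) ∧
          ∀ p, MvPolynomial.eval (H p • z) δ ≠ 0 := by
  obtain ⟨N, a, ha, har, hst⟩ := hz
  have ha0 : ∀ i, 0 < ‖a i‖ := by
    intro i
    rw [norm_pos_iff]
    intro h
    have h1 := (har 0).2 ⟨i, h.symm⟩
    rw [zero_smul] at h1
    exact h0 h1
  have hat : ∀ i, 0 < ‖a i - t₁‖ := by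
    intro i
    rw [norm_pos_iff]
    intro h
    exact ht₁ ((har t₁).2 ⟨i, (sub_eq_zero.1 h).symm⟩)
  obtain ⟨ρ, ⟨hρ1, hρ2, hρ3⟩, hρ⟩ : ∃ ρ : ℝ, ((∀ i, 8 * ρ < ‖a i‖) ∧ (∀ i, 8 * ρ < ‖a i - t₁‖) ∧
      ∀ i j, j ≠ i → 8 * ρ < ‖a i - a j‖) ∧ 0 < ρ := by
    have key : ∀ x : ℝ, 0 < x → ∀ᶠ ρ in 𝓝 (0 : ℝ), 8 * ρ < x := by
      intro x hx
      have h1 : Filter.Tendsto (fun ρ : ℝ => 8 * ρ) (𝓝 0) (𝓝 (8 * 0)) :=
        (continuous_const.mul continuous_id).tendsto 0
      rw [mul_zero] at h1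
      exact h1.eventually (gt_mem_nhds hx)
    have k1 : ∀ᶠ ρ in 𝓝 (0 : ℝ), ∀ i, 8 * ρ < ‖a i‖ := Filter.eventually_all.2 fun i => key _ (ha0 i)
    have k2 : ∀ᶠ ρ in 𝓝 (0 : ℝ), ∀ i, 8 * ρ < ‖a i - t₁‖ :=
      Filter.eventually_all.2 fun i => key _ (hat i)
    have k3 : ∀ᶠ ρ in 𝓝 (0 : ℝ), ∀ i j, j ≠ i → 8 * ρ < ‖a i - a j‖ := by
      rw [Filter.eventually_all]; intro i
      rw [Filter.eventually_all]; intro j
      by_cases hij : j = i
      · exact Filter.Eventually.of_forall fun ρ h => absurd hij h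
      · filter_upwards [key ‖a i - a j‖ (norm_pos_iff.2 (sub_ne_zero.2 fun h => hij (ha h).symm))]
          with ρ h _
        exact h
    have h3 := (k1.and (k2.and k3)).filter_mono (nhdsWithin_le_nhds (s := Set.Ioi (0 : ℝ)))
    have h4 : ∀ᶠ ρ in 𝓝[>] (0 : ℝ), 0 < ρ := eventually_mem_nhdsWithin
    exact (h3.and h4).exists
  obtain ⟨ε, hε, hb⟩ := hst (ρ / 4) (by positivity)
  set R : ℝ := ∑ i, ‖a i‖ + 8 * ρ + ‖t₁‖ + 1 with hRdef
  have hRa : ∀ i, ‖a i‖ + 8 * ρ < R := by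
    intro i
    have h1 := Finset.single_le_sum (f := fun i => ‖a i‖) (fun i _ => norm_nonneg (a i))
      (Finset.mem_univ i)
    have h2 := norm_nonneg t₁
    rw [hRdef]; linarith
  have hRt : ‖t₁‖ ≤ R := by
    have h1 : 0 ≤ ∑ i, ‖a i‖ := Finset.sum_nonneg fun i _ => norm_nonneg _
    rw [hRdef]; linarith
  have hR0 : 0 < R := by
    have h1 : 0 ≤ ∑ i, ‖a i‖ := Finset.sum_nonneg fun i _ => norm_nonneg _
    have h2 := norm_nonneg t₁
    rw [hRdef]; linarith
  refine ⟨ε, {t | ‖t‖ ≤ R ∧ ∀ i, ρ / 4 ≤ ‖t - a i‖}, hε, ?_, ?_, ?_⟩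
  · apply (isCompact_closedBall (0 : ℂ) R).of_isClosed_subset
    · have e : {t : ℂ | ‖t‖ ≤ R ∧ ∀ i, ρ / 4 ≤ ‖t - a i‖} =
          {t : ℂ | ‖t‖ ≤ R} ∩ ⋂ i, {t : ℂ | ρ / 4 ≤ ‖t - a i‖} := by
        ext t; simp
      rw [e]
      apply IsClosed.inter
      · exact isClosed_le (by fun_prop) (by fun_prop)
      · exact isClosed_iInter fun i => isClosed_le (by fun_prop) (by fun_prop)
    · rintro t ⟨h1, _⟩
      rwa [mem_closedBall, dist_zero_right]
  · rintro z hz t ⟨_, h2⟩ h3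
    obtain ⟨b, hb1, hb2⟩ := hb z hz
    obtain ⟨i, hi⟩ := (hb2 t).1 h3
    have h4 := hb1 i
    have h5 := h2 i
    rw [hi] at h5
    linarith
  · rintro z hz c ⟨hc0, hc1, hc2⟩
    obtain ⟨b, hb1, hb2⟩ := hb z hz
    have hcb : ∀ τ i, c τ ≠ b i := fun τ i h => hc2 τ ((hb2 (c τ)).2 ⟨i, h⟩)
    have main := fun t ht => ppr_main a b hρ hρ3 hRa hR0 hb1 t ht
    have hfix0 : ppr b ρ R 0 = 0 := by
      apply (main 0 (by intro i; rw [← hc0]; exact hcb 0 i)).2.2
      · intro i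
        rw [zero_sub, norm_neg]
        have h1 := norm_sub_le (b i) (b i - a i)
        rw [sub_sub_cancel] at h1
        have := hb1 i; have := hρ1 i
        linarith
      · rw [norm_zero]; exact hR0.le
    have hfix1 : ppr b ρ R t₁ = t₁ := by
      apply (main t₁ (by intro i; rw [← hc1]; exact hcb 1 i)).2.2
      · intro i
        have h1 := norm_add_le (b i - a i) (t₁ - b i)
        have h2 : b i - a i + (t₁ - b i) = -(a i - t₁) := by ring
        rw [h2, norm_neg] at h1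
        have := hb1 i; have := hρ2 i
        linarith
      · exact hRt
    have hcont : Continuous (fun p : unitInterval × unitInterval =>
        ((1 - (p.2 : ℝ) : ℝ) : ℂ) * c p.1 + ((p.2 : ℝ) : ℂ) * ppr b ρ R (c p.1)) := by
      have h1 : Continuous (fun p : unitInterval × unitInterval => ppr b ρ R (c p.1)) :=
        ppr_cont b hR0 (by fun_prop) (fun p i => hcb p.1 i)
      have h2 : Continuous (fun p : unitInterval × unitInterval => c p.1) := by fun_prop
      have h3 : Continuous (fun p : unitInterval × unitInterval => (((p.2 : ℝ) : ℝ) : ℂ)) :=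
        Complex.continuous_ofReal.comp (continuous_subtype_val.comp continuous_snd)
      have h4 : Continuous (fun p : unitInterval × unitInterval => ((1 - (p.2 : ℝ) : ℝ) : ℂ)) :=
        Complex.continuous_ofReal.comp
          (continuous_const.sub (continuous_subtype_val.comp continuous_snd))
      exact (h4.mul h2).add (h3.mul h1)
    refine ⟨⟨_, hcont⟩, ?_, ?_, ?_, ?_, ?_⟩
    · intro τ
      simp
    · intro τ
      have h1 := (main (c τ) (hcb τ)).1
      have e : ((1 - ((1 : unitInterval) : ℝ) : ℝ) : ℂ) * c τ +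
          (((1 : unitInterval) : ℝ) : ℂ) * ppr b ρ R (c τ) = ppr b ρ R (c τ) := by simp
      simp only [ContinuousMap.coe_mk]
      rw [e]
      exact h1
    · intro σ
      simp only [ContinuousMap.coe_mk, hc0, hfix0]
      simp
    · intro σ
      simp only [ContinuousMap.coe_mk, hc1, hfix1]
      push_cast
      ring
    · rintro ⟨τ, σ⟩ h1
      simp only [ContinuousMap.coe_mk] at h1
      obtain ⟨j, hj⟩ := (hb2 _).1 h1
      exact (main (c τ) (hcb τ)).2.1 (σ : ℝ) σ.2.1 σ.2.2 j hj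

end H113G
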