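import Pool.Agent.Helper113.Gorin.Defs

set_option autoImplicit false

open Metric Set Topology

namespace H113G



theorem log_ball (c : ℂ) (ρ : ℝ) (G : ℂ → ℂ) (hG : ContinuousOn G (closedBall c ρ))
    (h0 : ∀ t ∈ closedBall c ρ, G t ≠ 0) :
    ∃ h : ℂ → ℂ, ContinuousOn h (closedBall c ρ) ∧
      ∀ t ∈ closedBall c ρ, Complex.exp (h t) = G t := by
  rcases lt_or_ge ρ 0 with hρ | hρ
  · refine ⟨0, continuousOn_const, ?_⟩
    intro t ht
    rw [closedBall_eq_empty.2 hρ] at ht
    exact absurd ht (notMem_empty _)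
  have hS : IsCompact (closedBall c ρ) := isCompact_closedBall c ρ
  have hcS : c ∈ closedBall c ρ := mem_closedBall_self hρ
  obtain ⟨ε, hε, hεG⟩ : ∃ ε > 0, ∀ t ∈ closedBall c ρ, ε ≤ ‖G t‖ := by
    obtain ⟨x, hx, hmin⟩ := hS.exists_isMinOn ⟨c, hcS⟩ hG.norm
    exact ⟨‖G x‖, norm_pos_iff.2 (h0 x hx), fun t ht => hmin ht⟩
  obtain ⟨δ, hδ, hδG⟩ := Metric.uniformContinuousOn_iff.1
    (hS.uniformContinuousOn_of_continuous hG) ε hε
  obtain ⟨n, hn⟩ := exists_nat_gt (ρ / δ)
  have hn0 : (0 : ℝ) < n := lt_of_le_of_lt (by positivity) hn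
  have hnC : (n : ℂ) ≠ 0 := by exact_mod_cast hn0.ne'
  let p : ℕ → ℂ → ℂ := fun k t => c + ((k : ℂ) / n) * (t - c)
  have hpS : ∀ k ≤ n, ∀ t ∈ closedBall c ρ, p k t ∈ closedBall c ρ := by
    intro k hk t ht
    rw [mem_closedBall, dist_eq_norm] at ht ⊢
    have h1 : p k t - c = ((k : ℂ) / n) * (t - c) := by simp [p]
    have h2 : ‖((k : ℂ) / n)‖ ≤ 1 := by
      rw [norm_div, Complex.norm_natCast, Complex.norm_natCast, div_le_one hn0]
      exact_mod_cast hk
    rw [h1, norm_mul]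
    calc ‖((k : ℂ) / n)‖ * ‖t - c‖ ≤ 1 * ρ :=
          mul_le_mul h2 ht (norm_nonneg _) zero_le_one
      _ = ρ := one_mul ρ
  have hpc : ∀ k, Continuous (p k) := by
    intro k
    simp only [p]
    fun_prop
  have hGp : ∀ k ≤ n, ContinuousOn (fun t => G (p k t)) (closedBall c ρ) := fun k hk =>
    hG.comp (hpc k).continuousOn (fun t ht => hpS k hk t ht)
  have hq : ∀ k < n, ∀ t ∈ closedBall c ρ, G (p (k + 1) t) / G (p k t) ∈ Complex.slitPlane := by
    intro k hk t ht
    have h1 := hpS k hk.le t ht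
    have h2 := hpS (k + 1) hk t ht
    have h3 : dist (p (k + 1) t) (p k t) < δ := by
      have h4 : p (k + 1) t - p k t = (t - c) / n := by
        simp only [p]
        push_cast
        field_simp
        ring
      rw [dist_eq_norm, h4, norm_div, Complex.norm_natCast, div_lt_iff₀ hn0]
      rw [mem_closedBall, dist_eq_norm] at ht
      rw [div_lt_iff₀ hδ] at hn
      linarith
    have h5 := hδG _ h2 _ h1 h3
    have h6 := hεG _ h1
    have h7 : ‖G (p (k + 1) t) / G (p k t) - 1‖ < 1 := by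
      have hne := h0 _ h1
      rw [div_sub_one hne, norm_div, div_lt_one (norm_pos_iff.2 hne), ← dist_eq_norm]
      exact h5.trans_le h6
    left
    have h8 := Complex.abs_re_le_norm (G (p (k + 1) t) / G (p k t) - 1)
    rw [Complex.sub_re, Complex.one_re] at h8
    have h9 := (abs_lt.1 (h8.trans_lt h7)).1
    linarith
  refine ⟨fun t => Complex.log (G c) +
    ∑ k ∈ Finset.range n, Complex.log (G (p (k + 1) t) / G (p k t)), ?_, ?_⟩
  · refine continuousOn_const.add (continuousOn_finset_sum _ fun k hk => ?_)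
    rw [Finset.mem_range] at hk
    refine ContinuousOn.clog ?_ (hq k hk)
    exact (hGp (k + 1) hk).div (hGp k hk.le) (fun t ht => h0 _ (hpS k hk.le t ht))
  · intro t ht
    rw [Complex.exp_add, Complex.exp_log (h0 c hcS), Complex.exp_sum]
    have h1 : ∏ k ∈ Finset.range n, Complex.exp (Complex.log (G (p (k + 1) t) / G (p k t))) =
        ∏ k ∈ Finset.range n, G (p (k + 1) t) / G (p k t) := by
      refine Finset.prod_congr rfl fun k hk => ?_
      rw [Finset.mem_range] at hk
      exact Complex.exp_log (Complex.slitPlane_ne_zero (hq k hk t ht))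
    have h2 : ∏ k ∈ Finset.range n, G (p (k + 1) t) / G (p k t) = G (p n t) / G (p 0 t) := by
      have h3 : ∀ N ≤ n, ∏ k ∈ Finset.range N, G (p (k + 1) t) / G (p k t) =
          G (p N t) / G (p 0 t) := by
        intro N
        induction N with
        | zero =>
          intro _
          rw [Finset.prod_range_zero, div_self (h0 _ (hpS 0 (Nat.zero_le _) t ht))]
        | succ N ih =>
          intro hN
          rw [Finset.prod_range_succ, ih (by omega)]
          have h4 := h0 _ (hpS N (by omega) t ht)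
          have h5 := h0 _ (hpS 0 (Nat.zero_le _) t ht)
          field_simp
      exact h3 n le_rfl
    have h4 : p n t = t := by simp [p, hnC]
    have h5 : p 0 t = c := by simp [p]
    rw [h1, h2, h4, h5, mul_div_cancel₀ _ (h0 c hcS)]

theorem rank_K {m k e : ℕ} (Y : Set (Fin m → ℂ)) (pr : (Fin m → ℂ) → (Fin k → ℂ))
    (δ : MvPolynomial (Fin k) ℂ) (h : Cov Y pr δ e) (v₀ : Fin k → ℂ) (T : Set ℂ)
    (hTc : IsCompact T) (hT : ∀ t ∈ T, MvPolynomial.eval (t • v₀) δ ≠ 0)
    (hpieces : ∀ {E : Type} [TopologicalSpace E] {ι : Type} [Fintype ι] (K : ι → Set E),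
      (∀ i, IsClosed (K i)) → (∀ i j, IsPreconnected (K i ∩ K j)) → ∀ (s : ℕ),
      Fintype.card ι * Fintype.card ι ≤ s → ∀ (g : Fin (s + 1) → E → ℂ),
      (∀ l i, HasLog (K i) (g l)) →
      ∃ a : Fin (s + 1) → ℤ, a ≠ 0 ∧ HasLog (⋃ i, K i) (fun y => ∏ l, g l y ^ a l)) :
    ∃ s : ℕ, ∀ g : Fin (s + 1) → (Fin m → ℂ) → ℂ, (∀ l, ContinuousOn (g l) Y) →
      (∀ l, ∀ y ∈ Y, g l y ≠ 0) →
      ∃ a : Fin (s + 1) → ℤ, a ≠ 0 ∧
        HasLog {y | y ∈ Y ∧ ∃ t ∈ T, pr y = t • v₀} (fun y => ∏ l, g l y ^ a l) := by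
  classical
  by_cases hv : v₀ = 0
  · -- the fibre over `0`
    subst hv
    obtain ⟨r, hr, σ, -, hσ⟩ := h.sections 0 h.base
    obtain ⟨-, -, hfib⟩ := hσ 0 (mem_ball_self hr)
    refine ⟨Fintype.card (Fin e) * Fintype.card (Fin e), fun g hgc hg0 => ?_⟩
    obtain ⟨a, ha, hlog⟩ := hpieces (fun i : Fin e => ({σ i 0} : Set (Fin m → ℂ)))
      (fun i => isClosed_singleton)
      (fun i j => (subsingleton_singleton.anti inter_subset_left).isPreconnected)
      (Fintype.card (Fin e) * Fintype.card (Fin e)) le_rfl g (by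
        intro l i
        refine ⟨fun _ => Complex.log (g l (σ i 0)), continuousOn_const, ?_⟩
        intro y hy
        rw [mem_singleton_iff] at hy
        rw [hy]
        apply Complex.exp_log
        have h1 : σ i 0 ∈ {y | y ∈ Y ∧ pr y = 0} := by
          rw [hfib]; exact mem_range_self i
        exact hg0 l _ h1.1)
    refine ⟨a, ha, ?_⟩
    obtain ⟨H, hH1, hH2⟩ := hlog
    have hsub : {y | y ∈ Y ∧ ∃ t ∈ T, pr y = t • (0 : Fin k → ℂ)} ⊆
        ⋃ i : Fin e, ({σ i 0} : Set (Fin m → ℂ)) := by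
      rintro y ⟨hy, t, -, ht⟩
      rw [smul_zero] at ht
      have h1 : y ∈ {y | y ∈ Y ∧ pr y = 0} := ⟨hy, ht⟩
      rw [hfib] at h1
      obtain ⟨i, hi⟩ := h1
      exact mem_iUnion.2 ⟨i, hi.symm⟩
    exact ⟨H, hH1.mono hsub, fun y hy => hH2 y (hsub hy)⟩
  · -- the main case
    have hvn : 0 < ‖v₀‖ := norm_pos_iff.2 hv
    obtain ⟨j₀, hj₀⟩ : ∃ j, v₀ j ≠ 0 := by
      by_contra hcon
      push Not at hcon
      exact hv (funext hcon)
    have hsec : ∀ t : ℂ, ∃ r : ℝ, 0 < r ∧ ∃ s : Fin e → (Fin k → ℂ) → (Fin m → ℂ), t ∈ T →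
        ((∀ i, DifferentiableOn ℂ (s i) (ball (t • v₀) r)) ∧
        ∀ z' ∈ ball (t • v₀) r, MvPolynomial.eval z' δ ≠ 0 ∧
          Function.Injective (fun i => s i z') ∧
          {y | y ∈ Y ∧ pr y = z'} = Set.range (fun i => s i z')) := by
      intro t
      by_cases ht : t ∈ T
      · obtain ⟨r, hr, s, hs⟩ := h.sections (t • v₀) (hT t ht)
        exact ⟨r, hr, s, fun _ => hs⟩
      · exact ⟨1, one_pos, fun _ _ => 0, fun h1 => absurd h1 ht⟩
    choose r hr s hs using hsec
    let ρ : ℂ → ℝ := fun t => r t / (2 * ‖v₀‖)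
    have hρ : ∀ t, 0 < ρ t := fun t => by
      have := hr t
      simp only [ρ]
      positivity
    obtain ⟨C, hCT, hCcov⟩ := hTc.elim_nhds_subcover (fun t => ball t (ρ t))
      (fun t _ => ball_mem_nhds t (hρ t))
    have hin : ∀ c : ℂ, ∀ t ∈ closedBall c (ρ c), t • v₀ ∈ ball (c • v₀) (r c) := by
      intro c t ht
      rw [mem_closedBall, dist_eq_norm] at ht
      rw [mem_ball, dist_eq_norm, ← sub_smul, norm_smul]
      calc ‖t - c‖ * ‖v₀‖ ≤ ρ c * ‖v₀‖ := mul_le_mul_of_nonneg_right ht hvn.le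
        _ = r c / 2 := by simp only [ρ]; field_simp
        _ < r c := by have := hr c; linarith
    let σ : ℂ → Fin e → ℂ → (Fin m → ℂ) := fun c i t => s c i (t • v₀)
    have hσc : ∀ c ∈ T, ∀ i, ContinuousOn (σ c i) (closedBall c (ρ c)) := by
      intro c hc i
      have h1 : ContinuousOn (s c i) (ball (c • v₀) (r c)) := ((hs c hc).1 i).continuousOn
      have h2 : Continuous (fun t : ℂ => t • v₀) := by fun_prop
      exact h1.comp h2.continuousOn (fun t ht => hin c t ht)
    have hσfib : ∀ c ∈ T, ∀ t ∈ closedBall c (ρ c),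
        {y | y ∈ Y ∧ pr y = t • v₀} = Set.range (fun i => σ c i t) := fun c hc t ht =>
      ((hs c hc).2 (t • v₀) (hin c t ht)).2.2
    have hσinj : ∀ c ∈ T, ∀ t ∈ closedBall c (ρ c), Function.Injective (fun i => σ c i t) :=
      fun c hc t ht => ((hs c hc).2 (t • v₀) (hin c t ht)).2.1
    have hσY : ∀ c ∈ T, ∀ i, ∀ t ∈ closedBall c (ρ c), σ c i t ∈ Y ∧ pr (σ c i t) = t • v₀ := by
      intro c hc i t ht
      have h1 : σ c i t ∈ {y | y ∈ Y ∧ pr y = t • v₀} := by
        rw [hσfib c hc t ht]; exact mem_range_self i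
      exact h1
    let K : (↥C × Fin e) → Set (Fin m → ℂ) := fun ci =>
      σ ci.1.1 ci.2 '' closedBall ci.1.1 (ρ ci.1.1)
    have hKcl : ∀ ci, IsClosed (K ci) := fun ci =>
      ((isCompact_closedBall _ _).image_of_continuousOn
        (hσc ci.1.1 (hCT _ ci.1.2) ci.2)).isClosed
    have hsm : ∀ t t' : ℂ, t • v₀ = t' • v₀ → t = t' := by
      intro t t' h1
      exact smul_left_injective ℂ hv h1
    have hKpre : ∀ ci cj, IsPreconnected (K ci ∩ K cj) := by
      rintro ⟨⟨c, hc⟩, i⟩ ⟨⟨c', hc'⟩, j⟩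
      have hcT := hCT c hc
      have hcT' := hCT c' hc'
      let D : Set ℂ := closedBall c (ρ c) ∩ closedBall c' (ρ c')
      have hDconv : Convex ℝ D := (convex_closedBall _ _).inter (convex_closedBall _ _)
      have hDpre : IsPreconnected D := hDconv.isPreconnected
      have hDcl : IsClosed D := isClosed_closedBall.inter isClosed_closedBall
      have hc1 : ∀ i', ContinuousOn (σ c i') D := fun i' => (hσc c hcT i').mono inter_subset_left
      have hc2 : ContinuousOn (σ c' j) D := (hσc c' hcT' j).mono inter_subset_right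
      let A : Fin e → Set ℂ := fun i' => {t | t ∈ D ∧ σ c i' t = σ c' j t}
      have hAcl : ∀ i', IsClosed (A i') := by
        intro i'
        have h1 : A i' = D ∩ (fun t => σ c i' t - σ c' j t) ⁻¹' {0} := by
          ext t
          simp only [A, mem_inter_iff, mem_preimage, mem_singleton_iff, sub_eq_zero, mem_setOf_eq]
        rw [h1]
        exact ((hc1 i').sub hc2).preimage_isClosed_of_isClosed hDcl isClosed_singleton
      have hAdisj : ∀ i' i'', i' ≠ i'' → ∀ t, t ∈ A i' → t ∉ A i'' := by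
        intro i' i'' hne t h1 h2
        exact hne (hσinj c hcT t h1.1.1 (h1.2.trans h2.2.symm))
      have hAcov : ∀ t ∈ D, ∃ i', t ∈ A i' := by
        intro t ht
        have h1 : σ c' j t ∈ {y | y ∈ Y ∧ pr y = t • v₀} := hσY c' hcT' j t ht.2
        rw [hσfib c hcT t ht.1] at h1
        obtain ⟨i', hi'⟩ := h1
        exact ⟨i', ht, hi'⟩
      have hdich : A i = ∅ ∨ A i = D := by
        by_contra hcon
        push Not at hcon
        obtain ⟨hne, hneD⟩ := hcon
        obtain ⟨t1, ht1⟩ := hne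
        have hsubD : A i ⊆ D := fun t ht => ht.1
        obtain ⟨t2, ht2D, ht2⟩ : ∃ t2 ∈ D, t2 ∉ A i := by
          by_contra hcon2
          push Not at hcon2
          exact hneD (subset_antisymm hsubD hcon2)
        obtain ⟨i2, hi2⟩ := hAcov t2 ht2D
        have h3 := isPreconnected_closed_iff.1 hDpre (A i) (⋃ i' ∈ {i' | i' ≠ i}, A i')
          (hAcl i) ((Set.toFinite {i' | i' ≠ i}).isClosed_biUnion fun i' _ => hAcl i')
          (by
            intro t ht
            obtain ⟨i', hi'⟩ := hAcov t ht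
            by_cases h4 : i' = i
            · left; rw [← h4]; exact hi'
            · right
              exact mem_biUnion (show i' ∈ {i' | i' ≠ i} from h4) hi')
          ⟨t1, ht1.1, ht1⟩
          ⟨t2, ht2D, mem_biUnion (show i2 ∈ {i' | i' ≠ i} from fun h5 => ht2 (h5 ▸ hi2)) hi2⟩
        obtain ⟨t3, -, h4, h5⟩ := h3
        rw [mem_iUnion₂] at h5
        obtain ⟨i3, hi3, h6⟩ := h5
        exact hAdisj i i3 (Ne.symm hi3) t3 h4 h6
      have hKK : K (⟨c, hc⟩, i) ∩ K (⟨c', hc'⟩, j) = σ c i '' A i := by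
        ext y
        constructor
        · rintro ⟨⟨t, ht, hy⟩, ⟨t', ht', hy'⟩⟩
          have h1 := (hσY c hcT i t ht).2
          have h2 := (hσY c' hcT' j t' ht').2
          have h3 : σ c i t = σ c' j t' := hy.trans hy'.symm
          rw [h3, h2] at h1
          have h4 : t' = t := hsm _ _ h1
          subst h4
          exact ⟨t', ⟨⟨ht, ht'⟩, h3⟩, hy⟩
        · rintro ⟨t, ht, rfl⟩
          exact ⟨⟨t, ht.1.1, rfl⟩, ⟨t, ht.1.2, ht.2.symm⟩⟩
      rw [hKK]
      rcases hdich with h1 | h1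
      · rw [h1, image_empty]; exact isPreconnected_empty
      · rw [h1]; exact hDpre.image _ (hc1 i)
    refine ⟨Fintype.card (↥C × Fin e) * Fintype.card (↥C × Fin e), fun g hgc hg0 => ?_⟩
    have hprc : Continuous pr := h.diff.continuous
    obtain ⟨a, ha, hlog⟩ := hpieces K hKcl hKpre
      (Fintype.card (↥C × Fin e) * Fintype.card (↥C × Fin e)) le_rfl g (by
        rintro l ⟨⟨c, hc⟩, i⟩
        have hcT := hCT c hc
        have hGc : ContinuousOn (fun t => g l (σ c i t)) (closedBall c (ρ c)) :=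
          (hgc l).comp (hσc c hcT i) (fun t ht => (hσY c hcT i t ht).1)
        obtain ⟨H, hH1, hH2⟩ := log_ball c (ρ c) _ hGc
          (fun t ht => hg0 l _ (hσY c hcT i t ht).1)
        let τ : (Fin m → ℂ) → ℂ := fun y => pr y j₀ / v₀ j₀
        have hτc : Continuous τ := by
          have h1 : Continuous (fun y => pr y j₀) := (continuous_apply j₀).comp hprc
          exact h1.div_const _
        have hτ : ∀ t ∈ closedBall c (ρ c), τ (σ c i t) = t := by
          intro t ht
          simp only [τ]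
          rw [(hσY c hcT i t ht).2, Pi.smul_apply, smul_eq_mul, mul_div_cancel_right₀ _ hj₀]
        refine ⟨fun y => H (τ y), ?_, ?_⟩
        · refine hH1.comp hτc.continuousOn ?_
          rintro y ⟨t, ht, rfl⟩
          rw [hτ t ht]
          exact ht
        · rintro y ⟨t, ht, rfl⟩
          simp only
          rw [hτ t ht]
          exact hH2 t ht)
    refine ⟨a, ha, ?_⟩
    obtain ⟨H, hH1, hH2⟩ := hlog
    have hsub : {y | y ∈ Y ∧ ∃ t ∈ T, pr y = t • v₀} ⊆ ⋃ ci, K ci := by
      rintro y ⟨hy, t, htT, ht⟩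
      have h1 := hCcov htT
      rw [mem_iUnion₂] at h1
      obtain ⟨c, hc, htc⟩ := h1
      have htc' : t ∈ closedBall c (ρ c) := ball_subset_closedBall htc
      have h2 : y ∈ {y | y ∈ Y ∧ pr y = t • v₀} := ⟨hy, ht⟩
      rw [hσfib c (hCT c hc) t htc'] at h2
      obtain ⟨i, hi⟩ := h2
      exact mem_iUnion.2 ⟨(⟨c, hc⟩, i), ⟨t, htc', hi⟩⟩
    exact ⟨H, hH1.mono hsub, fun y hy => hH2 y (hsub hy)⟩

end H113G
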