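import Pool.Agent.Helper113.Gorin.Defs

set_option autoImplicit false

open Metric Set Topology

namespace H113G



theorem reach {m k e : ℕ} (Y : Set (Fin m → ℂ)) (pr : (Fin m → ℂ) → (Fin k → ℂ))
    (δ : MvPolynomial (Fin k) ℂ) (h : Cov Y pr δ e) (y₀ : Yo Y pr δ) (hy₀ : pr y₀.1 = 0)
    (v : Fin k → ℂ)
    (hv : ∀ t : ℂ, t ≠ 0 → RootStable δ (t • v))
    (hbert : ∀ w : Yo Y pr δ, RootStable δ (pr w.1) → EndsAt (qY Y pr δ) y₀ w (pr w.1) 1) :
    ∀ (w : Yo Y pr δ) (t : ℂ), pr w.1 = t • v → EndsAt (qY Y pr δ) y₀ w v t := by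
  -- first case
  have case1 : ∀ (w : Yo Y pr δ) (t : ℂ), t ≠ 0 → pr w.1 = t • v → EndsAt (qY Y pr δ) y₀ w v t := by
    intro w t ht hw
    obtain ⟨c, ⟨hc0, hc1, hc⟩, Γ, hΓ0, hΓ1, hΓ⟩ := hbert w (by rw [hw]; exact hv t ht)
    refine ⟨⟨fun τ => c τ * t, by fun_prop⟩, ⟨?_, ?_, ?_⟩, Γ, hΓ0, hΓ1, ?_⟩
    · simp [hc0]
    · simp [hc1]
    · intro τ
      have := hc τ
      rw [hw, smul_smul] at this
      exact this
    · intro τ
      have := hΓ τ
      rw [hw, smul_smul] at this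
      exact this
  intro w t hw
  by_cases ht : t = 0
  · subst ht
    have hw0 : pr w.1 = 0 := by rw [hw, zero_smul]
    by_cases hv0 : v = 0
    · subst hv0
      have hrs : RootStable δ (pr w.1) := by
        have := hv 1 one_ne_zero
        rw [smul_zero] at this
        rw [hw0]; exact this
      obtain ⟨c, -, Γ, hΓ0, hΓ1, hΓ⟩ := hbert w hrs
      refine ⟨⟨fun _ => 0, continuous_const⟩, ⟨rfl, rfl, ?_⟩, Γ, hΓ0, hΓ1, ?_⟩
      · intro τ
        simpa using h.base
      · intro τ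
        rw [hΓ τ, hw0]
        simp
    · obtain ⟨r, hr, s, hs, hs2⟩ := h.sections 0 h.base
      have hvn : 0 < ‖v‖ := norm_pos_iff.mpr hv0
      obtain ⟨-, -, hfib⟩ := hs2 0 (mem_ball_self hr)
      have hwm : w.1 ∈ {y | y ∈ Y ∧ pr y = 0} := ⟨w.2.1, hw0⟩
      rw [hfib] at hwm
      obtain ⟨i, hi⟩ := hwm
      set η : ℝ := r / (2 * ‖v‖) with hη
      have hηpos : 0 < η := by positivity
      have hηv : η * ‖v‖ < r := by
        rw [hη]; field_simp; linarith
      -- the point along the segment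
      have hin : ∀ σ : unitInterval, (((η * (1 - (σ : ℝ)) : ℝ) : ℂ) • v) ∈ ball (0 : Fin k → ℂ) r := by
        intro σ
        rw [mem_ball_zero_iff, norm_smul, Complex.norm_real, Real.norm_eq_abs,
          abs_of_nonneg (mul_nonneg hηpos.le (by linarith [σ.2.2]))]
        have h1 : η * (1 - (σ : ℝ)) ≤ η := by nlinarith [σ.2.1]
        nlinarith
      have hmem : ∀ σ : unitInterval, s i (((η * (1 - (σ : ℝ)) : ℝ) : ℂ) • v) ∈ Y ∧
          pr (s i (((η * (1 - (σ : ℝ)) : ℝ) : ℂ) • v)) = (((η * (1 - (σ : ℝ)) : ℝ) : ℂ) • v) := by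
        intro σ
        have := (hs2 _ (hin σ)).2.2
        have h2 : s i (((η * (1 - (σ : ℝ)) : ℝ) : ℂ) • v) ∈ Set.range (fun i => s i (((η * (1 - (σ : ℝ)) : ℝ) : ℂ) • v)) := ⟨i, rfl⟩
        rw [← this] at h2
        exact h2
      have hne : ∀ σ : unitInterval, MvPolynomial.eval (((η * (1 - (σ : ℝ)) : ℝ) : ℂ) • v) δ ≠ 0 :=
        fun σ => (hs2 _ (hin σ)).1
      set G : unitInterval → Yo Y pr δ := fun σ => ⟨s i (((η * (1 - (σ : ℝ)) : ℝ) : ℂ) • v), (hmem σ).1, by
        rw [(hmem σ).2]; exact hne σ⟩ with hG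
      have hGc : Continuous G := by
        refine Continuous.subtype_mk ?_ _
        refine ContinuousOn.comp_continuous (hs i).continuousOn ?_ hin
        fun_prop
      have hG0pr : pr (G 0).1 = ((η : ℝ) : ℂ) • v := by
        have := (hmem 0).2
        simpa [hG] using this
      have hG1 : G 1 = w := by
        apply Subtype.ext
        rw [hG]
        simp only [Set.Icc.coe_one, sub_self, mul_zero, Complex.ofReal_zero, zero_smul]
        exact hi
      obtain ⟨c, ⟨hc0, hc1, hc⟩, Γ, hΓ0, hΓ1, hΓ⟩ := case1 (G 0) ((η : ℝ) : ℂ) (by exact_mod_cast hηpos.ne') hG0pr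
      let P : Path ((0 : ℂ), y₀) ((η : ℂ), G 0) :=
        { toFun := fun τ => (c τ, Γ τ), continuous_toFun := by fun_prop, source' := by simp [hc0, hΓ0], target' := by simp [hc1, hΓ1] }
      let P' : Path ((η : ℂ), G 0) ((0 : ℂ), w) :=
        { toFun := fun τ => (((η * (1 - (τ : ℝ)) : ℝ) : ℂ), G τ), continuous_toFun := by fun_prop,
          source' := by simp, target' := by simp [hG1] }
      have hall : ∀ τ : unitInterval, MvPolynomial.eval (((P.trans P') τ).1 • v) δ ≠ 0 ∧ pr ((P.trans P') τ).2.1 = ((P.trans P') τ).1 • v := by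
        intro τ
        have hr1 : (P.trans P') τ ∈ Set.range (P.trans P') := ⟨τ, rfl⟩
        rw [Path.trans_range] at hr1
        rcases hr1 with ⟨τ', hτ'⟩ | ⟨τ', hτ'⟩
        · rw [← hτ']
          exact ⟨hc τ', hΓ τ'⟩
        · rw [← hτ']
          exact ⟨hne τ', (hmem τ').2⟩
      refine ⟨⟨fun τ => ((P.trans P') τ).1, by fun_prop⟩, ⟨?_, ?_, fun τ => (hall τ).1⟩,
        ⟨fun τ => ((P.trans P') τ).2, by fun_prop⟩, ?_, ?_, fun τ => (hall τ).2⟩
      · simp
      · simp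
      · simp
      · simp
  · exact case1 w t ht hw

end H113G
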