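import Pool.Agent.Helper113.Gorin.Defs

set_option autoImplicit false

open Metric Set Topology

namespace H113G




section Key9485

open Polynomial nonZeroDivisors

theorem key9485 (A B : Type) [CommRing A] [IsDomain A] [IsIntegrallyClosed A] [CharZero A]
    [CommRing B] [IsDomain B] [Algebra A B] [FaithfulSMul A B] [Module.Finite A B] :
    ∃ (θ : B) (P : A[X]), P.Monic ∧
      (∃ (U V : A[X]) (d : A), d ≠ 0 ∧ U * P + V * derivative P = C d) ∧
      aeval θ P = 0 ∧ (∀ G : A[X], aeval θ G = 0 → P ∣ G) ∧
      (∀ b : B, ∃ (a : A) (Q : A[X]), a ≠ 0 ∧ algebraMap A B a * b = aeval θ Q) := by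
  let K := FractionRing A
  let L := FractionRing B
  letI : Algebra K L := FractionRing.liftAlgebra A L
  haveI : IsScalarTower A K L := FractionRing.isScalarTower_liftAlgebra A L
  haveI : Algebra.IsIntegral A B := inferInstance
  haveI : Algebra.IsAlgebraic A B := inferInstance
  haveI hloc : IsLocalization (Algebra.algebraMapSubmonoid B A⁰) L := inferInstance
  haveI : IsLocalizedModule A⁰ (IsScalarTower.toAlgHom A B L).toLinearMap := inferInstance
  haveI : Module.Finite K L :=
    Module.Finite.of_isLocalizedModule A⁰ (IsScalarTower.toAlgHom A B L).toLinearMap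
  haveI : CharZero K := inferInstance
  haveI : Algebra.IsSeparable K L := inferInstance
  obtain ⟨α, hα⟩ := Field.exists_primitive_element K L
  obtain ⟨⟨θ, ⟨a', ha'⟩⟩, hθ⟩ := IsLocalization.surj (Algebra.algebraMapSubmonoid B A⁰) α
  obtain ⟨a, ha, rfl⟩ := ha'
  have ha0 : a ≠ 0 := nonZeroDivisors.ne_zero ha
  simp only at hθ
  have hinjBL : Function.Injective (algebraMap B L) := IsFractionRing.injective B L
  have hinjAK : Function.Injective (algebraMap A K) := IsFractionRing.injective A K
  set θL : L := algebraMap B L θ with hθL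
  have haK : algebraMap A K a ≠ 0 := by
    rw [Ne, map_eq_zero_iff _ hinjAK]
    exact ha0
  have haL : algebraMap B L (algebraMap A B a) = algebraMap K L (algebraMap A K a) := by
    rw [← IsScalarTower.algebraMap_apply, ← IsScalarTower.algebraMap_apply]
  have htop : IntermediateField.adjoin K {θL} = ⊤ := by
    rw [← top_le_iff, ← hα, IntermediateField.adjoin_simple_le_iff]
    have h1 : α = θL * algebraMap K L ((algebraMap A K a)⁻¹) := by
      rw [map_inv₀, ← haL, ← hθ, mul_assoc, mul_inv_cancel₀, mul_one]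
      rw [haL, Ne, map_eq_zero]
      exact haK
    rw [h1]
    exact mul_mem (IntermediateField.mem_adjoin_simple_self K θL)
      (IntermediateField.algebraMap_mem _ _)
  have hint : IsIntegral A θ := Algebra.IsIntegral.isIntegral θ
  refine ⟨θ, minpoly A θ, minpoly.monic hint, ?_, minpoly.aeval A θ,
    fun G hG => minpoly.isIntegrallyClosed_dvd hint hG, ?_⟩
  · have h1 : minpoly K θL = (minpoly A θ).map (algebraMap A K) :=
      minpoly.isIntegrallyClosed_eq_field_fractions K L hint
    have h2 : (minpoly K θL).Separable := Algebra.IsSeparable.isSeparable K θL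
    rw [h1] at h2
    obtain ⟨U', V', hUV⟩ := h2
    obtain ⟨b1, hb1, e1⟩ := IsLocalization.integerNormalization_spec A⁰ U'
    obtain ⟨b2, hb2, e2⟩ := IsLocalization.integerNormalization_spec A⁰ V'
    refine ⟨C b2 * IsLocalization.integerNormalization A⁰ U',
      C b1 * IsLocalization.integerNormalization A⁰ V', b1 * b2,
      mul_ne_zero (nonZeroDivisors.ne_zero hb1) (nonZeroDivisors.ne_zero hb2), ?_⟩
    apply Polynomial.map_injective _ hinjAK
    rw [Polynomial.map_add, Polynomial.map_mul, Polynomial.map_mul, Polynomial.map_mul,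
      Polynomial.map_mul, e1, e2, Polynomial.map_C, Polynomial.map_C, Polynomial.map_C]
    have s1 : b1 • U' = C (algebraMap A K b1) * U' := by
      rw [← Polynomial.smul_eq_C_mul, algebraMap_smul]
    have s2 : b2 • V' = C (algebraMap A K b2) * V' := by
      rw [← Polynomial.smul_eq_C_mul, algebraMap_smul]
    rw [s1, s2, ← Polynomial.derivative_map, map_mul, C_mul]
    calc C (algebraMap A K b2) * (C (algebraMap A K b1) * U') * (minpoly A θ).map (algebraMap A K)
          + C (algebraMap A K b1) * (C (algebraMap A K b2) * V') *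
            derivative ((minpoly A θ).map (algebraMap A K))
        = C (algebraMap A K b1) * C (algebraMap A K b2) *
          (U' * (minpoly A θ).map (algebraMap A K) +
            V' * derivative ((minpoly A θ).map (algebraMap A K))) := by ring
      _ = _ := by rw [hUV, mul_one]
  · intro b
    have hmem : algebraMap B L b ∈ IntermediateField.adjoin K {θL} := by
      rw [htop]
      trivial
    have hintL : IsIntegral K θL := Algebra.IsIntegral.isIntegral θL
    rw [← IntermediateField.mem_toSubalgebra,
      IntermediateField.adjoin_simple_toSubalgebra_of_isAlgebraic hintL.isAlgebraic,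
      Algebra.adjoin_singleton_eq_range_aeval] at hmem
    obtain ⟨q, hq⟩ := hmem
    obtain ⟨c, hc, e⟩ := IsLocalization.integerNormalization_spec A⁰ q
    refine ⟨c, IsLocalization.integerNormalization A⁰ q, nonZeroDivisors.ne_zero hc, ?_⟩
    apply hinjBL
    rw [map_mul]
    have h3 : aeval θL ((IsLocalization.integerNormalization A⁰ q).map (algebraMap A K)) =
        aeval θL (IsLocalization.integerNormalization A⁰ q) := by
      rw [Polynomial.aeval_map_algebraMap]
    have h4 : aeval θL (IsLocalization.integerNormalization A⁰ q) =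
        algebraMap B L (aeval θ (IsLocalization.integerNormalization A⁰ q)) := by
      rw [hθL, Polynomial.aeval_algebraMap_apply]
    rw [← h4, ← h3, e]
    have s1 : c • q = C (algebraMap A K c) * q := by
      rw [← Polynomial.smul_eq_C_mul, algebraMap_smul]
    have hq' : aeval θL q = algebraMap B L b := hq
    rw [s1, map_mul, aeval_C, hq', ← IsScalarTower.algebraMap_apply, ← IsScalarTower.algebraMap_apply]

end Key9485

theorem ring_data (B : Type) [CommRing B] [IsDomain B] [Algebra ℂ B] [Algebra.FiniteType ℂ B] :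
    ∃ (k : ℕ) (φ : MvPolynomial (Fin k) ℂ →ₐ[ℂ] B) (θ : B)
      (P : Polynomial (MvPolynomial (Fin k) ℂ)),
      Function.Injective φ ∧ φ.Finite ∧ P.Monic ∧
      (∃ (U V : Polynomial (MvPolynomial (Fin k) ℂ)) (d : MvPolynomial (Fin k) ℂ), d ≠ 0 ∧
        U * P + V * Polynomial.derivative P = Polynomial.C d) ∧
      P.eval₂ φ.toRingHom θ = 0 ∧
      (∀ G : Polynomial (MvPolynomial (Fin k) ℂ), G.eval₂ φ.toRingHom θ = 0 → P ∣ G) ∧
      (∀ b : B, ∃ (a : MvPolynomial (Fin k) ℂ) (Q : Polynomial (MvPolynomial (Fin k) ℂ)),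
        a ≠ 0 ∧ φ a * b = Q.eval₂ φ.toRingHom θ) ∧
      (∀ b : B, ∃ R : Polynomial (MvPolynomial (Fin k) ℂ),
        R.Monic ∧ R.eval₂ φ.toRingHom b = 0) := by
  obtain ⟨k, φ, hinj, hfin⟩ := exists_finite_inj_algHom_of_fg ℂ B
  letI : Algebra (MvPolynomial (Fin k) ℂ) B := φ.toRingHom.toAlgebra
  haveI : Module.Finite (MvPolynomial (Fin k) ℂ) B := hfin
  haveI : FaithfulSMul (MvPolynomial (Fin k) ℂ) B :=
    (faithfulSMul_iff_algebraMap_injective _ _).mpr hinj
  haveI : IsIntegrallyClosed (MvPolynomial (Fin k) ℂ) := inferInstance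
  obtain ⟨θ, P, hP, hUV, hθ, hdvd, hb⟩ := key9485 (MvPolynomial (Fin k) ℂ) B
  refine ⟨k, φ, θ, P, hinj, hfin, hP, hUV, hθ, hdvd, hb, ?_⟩
  intro b
  have hint : IsIntegral (MvPolynomial (Fin k) ℂ) b := Algebra.IsIntegral.isIntegral b
  obtain ⟨R, hR, hR2⟩ := hint
  exact ⟨R, hR, hR2⟩

end H113G
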