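import Pool.Agent.Helper113.Gorin.Defs

set_option autoImplicit false

open Metric Set Topology

namespace H113G



theorem stable_smul {k : ℕ} (δ : MvPolynomial (Fin k) ℂ) (v : Fin k → ℂ) (hv : RootStable δ v)
    (t : ℂ) (ht : t ≠ 0) : RootStable δ (t • v) := by
  obtain ⟨N, a, ha, hz, hs⟩ := hv
  have htn : 0 < ‖t‖ := norm_pos_iff.2 ht
  refine ⟨N, fun i => a i / t, ?_, ?_, ?_⟩
  · intro i j hij
    apply ha
    simpa [div_left_inj' ht] using hij
  · intro s
    rw [smul_smul, hz]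
    constructor
    · rintro ⟨i, hi⟩
      exact ⟨i, by show s = _ / t; rw [← hi]; field_simp⟩
    · rintro ⟨i, hi⟩
      exact ⟨i, by rw [show s = _ / t from hi]; field_simp⟩
  · intro ρ hρ
    obtain ⟨ε, hε, hb⟩ := hs (ρ * ‖t‖) (mul_pos hρ htn)
    refine ⟨ε * ‖t‖, mul_pos hε htn, ?_⟩
    intro v' hv'
    have hmem : t⁻¹ • v' ∈ ball v ε := by
      rw [mem_ball, dist_eq_norm] at hv' ⊢
      have h1 : t⁻¹ • v' - v = t⁻¹ • (v' - t • v) := by
        rw [smul_sub, smul_smul, inv_mul_cancel₀ ht, one_smul]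
      rw [h1, norm_smul, norm_inv, inv_mul_lt_iff₀ htn, mul_comm]
      exact hv'
    obtain ⟨b, hb1, hb2⟩ := hb _ hmem
    refine ⟨fun i => b i / t, ?_, ?_⟩
    · intro i
      rw [← sub_div, norm_div, div_lt_iff₀ htn]
      exact hb1 i
    · intro s
      have h2 : s • v' = (s * t) • (t⁻¹ • v') := by
        rw [smul_smul, mul_assoc, mul_inv_cancel₀ ht, mul_one]
      rw [h2, hb2]
      constructor
      · rintro ⟨i, hi⟩
        exact ⟨i, by show s = _ / t; rw [← hi]; field_simp⟩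
      · rintro ⟨i, hi⟩
        exact ⟨i, by rw [show s = _ / t from hi]; field_simp⟩

end H113G
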