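import Pool.Agent.Helper113.Gorin.Defs
import Pool.Agent.Helper113.Gorin.Schottky
import Pool.Agent.Helper113.Gorin.G_ring_data
import Pool.Agent.Helper113.Gorin.G_hom_exists
import Pool.Agent.Helper113.Gorin.G_alg_data
import Pool.Agent.Helper113.Gorin.G_local_roots
import Pool.Agent.Helper113.Gorin.G_cov_of_data
import Pool.Agent.Helper113.Gorin.G_ball_minus
import Pool.Agent.Helper113.Gorin.G_charts_of_smooth
import Pool.Agent.Helper113.Gorin.G_identity_thm
import Pool.Agent.Helper113.Gorin.G_thin_thm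
import Pool.Agent.Helper113.Gorin.G_log_extend
import Pool.Agent.Helper113.Gorin.G_generic_alg
import Pool.Agent.Helper113.Gorin.G_generic_stable
import Pool.Agent.Helper113.Gorin.G_plane_push
import Pool.Agent.Helper113.Gorin.G_ends_zero
import Pool.Agent.Helper113.Gorin.G_ends_one
import Pool.Agent.Helper113.Gorin.G_cover_Y
import Pool.Agent.Helper113.Gorin.G_cover_W
import Pool.Agent.Helper113.Gorin.G_bertini
import Pool.Agent.Helper113.Gorin.G_log_of_K
import Pool.Agent.Helper113.Gorin.G_rank_pieces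
import Pool.Agent.Helper113.Gorin.G_rank_K
import Pool.Agent.Helper113.Gorin.G_stable_smul
import Pool.Agent.Helper113.Gorin.G_reach
import Pool.Agent.Helper113.Gorin.G_end_lifts
import Pool.Agent.Helper113.Gorin.G_big_picard
import Pool.Agent.Helper113.Gorin.G_end_growth
import Pool.Agent.Helper113.Gorin.G_end_bounded
import Pool.Agent.Helper113.Gorin.G_finite_values
import Pool.Agent.Helper113.Gorin.G_count_square
import Pool.Agent.Helper113.Gorin.G_count_general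
import Pool.Agent.Helper113.Gorin.G_Epol_props
import Pool.Agent.Helper113.Gorin.G_period_lemma
import Pool.Agent.Helper113.Gorin.G_persist
import Pool.Agent.Helper113.Gorin.G_int_kernel
import Pool.Agent.Helper113.Gorin.G_choose_v
import Pool.Agent.Helper113.Gorin.G_end_log

set_option autoImplicit false

/-! # Bounded number of holomorphic maps to `ℂ \ {0, 1}`: the assembly (problem MP_9bd952_ag) -/

open Metric Set Topology

namespace H113G

/-! ### Basic facts on `HolOn` -/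

theorem HolOn.continuousOn {m : ℕ} {Y : Set (Fin m → ℂ)} {u : (Fin m → ℂ) → ℂ} (hu : HolOn Y u) :
    ContinuousOn u Y := by
  intro p hp
  obtain ⟨U, hU, hpU, h, hh, hhu⟩ := hu p hp
  have h1 : ContinuousWithinAt h (Y ∩ U) p :=
    ((hh.continuousOn.continuousAt (hU.mem_nhds hpU)).continuousWithinAt)
  have h2 : ContinuousWithinAt u (Y ∩ U) p := by
    refine h1.congr ?_ ?_
    · intro y hy; exact (hhu y hy.1 hy.2).symm
    · exact (hhu p hp hpU).symm
  exact (continuousWithinAt_inter (hU.mem_nhds hpU)).1 h2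

theorem HolOn.comp {m : ℕ} {Y : Set (Fin m → ℂ)} {u : (Fin m → ℂ) → ℂ} (hu : HolOn Y u)
    {E : Type*} [NormedAddCommGroup E] [NormedSpace ℂ E]
    {U : Set E} {σ : E → (Fin m → ℂ)} (hU : IsOpen U) (hσ : DifferentiableOn ℂ σ U)
    (hσY : ∀ t ∈ U, σ t ∈ Y) : DifferentiableOn ℂ (fun t => u (σ t)) U := by
  intro t ht
  obtain ⟨V, hV, hpV, h, hh, hhu⟩ := hu (σ t) (hσY t ht)
  have hct : ContinuousAt σ t := (hσ.differentiableAt (hU.mem_nhds ht)).continuousAt
  have hev : ∀ᶠ x in 𝓝 t, σ x ∈ V ∧ x ∈ U :=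
    (hct.eventually (hV.mem_nhds hpV)).and (hU.mem_nhds ht)
  have h1 : DifferentiableAt ℂ (fun x => h (σ x)) t :=
    DifferentiableAt.comp t (hh.differentiableAt (hV.mem_nhds hpV))
      (hσ.differentiableAt (hU.mem_nhds ht))
  have h2 : DifferentiableAt ℂ (fun x => u (σ x)) t := by
    refine h1.congr_of_eventuallyEq ?_
    filter_upwards [hev] with x hx
    exact (hhu (σ x) (hσY x hx.2) hx.1).symm
  exact h2.differentiableWithinAt

theorem HolOn.of_diff {m : ℕ} (Y : Set (Fin m → ℂ)) {u : (Fin m → ℂ) → ℂ}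
    (hu : Differentiable ℂ u) : HolOn Y u :=
  fun _ _ => ⟨univ, isOpen_univ, mem_univ _, u, hu.differentiableOn, fun _ _ _ => rfl⟩

theorem HolOn.mul {m : ℕ} {Y : Set (Fin m → ℂ)} {u v : (Fin m → ℂ) → ℂ} (hu : HolOn Y u)
    (hv : HolOn Y v) : HolOn Y (fun y => u y * v y) := by
  intro p hp
  obtain ⟨U, hU, hpU, h, hh, hhu⟩ := hu p hp
  obtain ⟨V, hV, hpV, h', hh', hhv⟩ := hv p hp
  refine ⟨U ∩ V, hU.inter hV, ⟨hpU, hpV⟩, fun x => h x * h' x,
    (hh.mono inter_subset_left).mul (hh'.mono inter_subset_right), ?_⟩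
  intro y hy hyUV
  simp only [hhu y hy hyUV.1, hhv y hy hyUV.2]

theorem HolOn.const {m : ℕ} (Y : Set (Fin m → ℂ)) (c : ℂ) : HolOn Y (fun _ => c) :=
  HolOn.of_diff Y (differentiable_const c)

theorem HolOn.sub {m : ℕ} {Y : Set (Fin m → ℂ)} {u v : (Fin m → ℂ) → ℂ} (hu : HolOn Y u)
    (hv : HolOn Y v) : HolOn Y (fun y => u y - v y) := by
  intro p hp
  obtain ⟨U, hU, hpU, h, hh, hhu⟩ := hu p hp
  obtain ⟨V, hV, hpV, h', hh', hhv⟩ := hv p hp
  refine ⟨U ∩ V, hU.inter hV, ⟨hpU, hpV⟩, fun x => h x - h' x,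
    (hh.mono inter_subset_left).sub (hh'.mono inter_subset_right), ?_⟩
  intro y hy hyUV
  simp only [hhu y hy hyUV.1, hhv y hy hyUV.2]

theorem HolOn.inv {m : ℕ} {Y : Set (Fin m → ℂ)} {u : (Fin m → ℂ) → ℂ} (hu : HolOn Y u)
    (h0 : ∀ y ∈ Y, u y ≠ 0) : HolOn Y (fun y => (u y)⁻¹) := by
  intro p hp
  obtain ⟨U, hU, hpU, h, hh, hhu⟩ := hu p hp
  have hne : h p ≠ 0 := by rw [hhu p hp hpU]; exact h0 p hp
  have hV : IsOpen (U ∩ h ⁻¹' {0}ᶜ) := hh.continuousOn.isOpen_inter_preimage hU isOpen_compl_singleton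
  refine ⟨U ∩ h ⁻¹' {0}ᶜ, hV, ⟨hpU, hne⟩, fun x => (h x)⁻¹, ?_, ?_⟩
  · intro x hx
    exact ((hh.mono inter_subset_left) x hx).inv hx.2
  · intro y hy hyU
    simp only [hhu y hy hyU.1]

theorem HolOn.pow {m : ℕ} {Y : Set (Fin m → ℂ)} {u : (Fin m → ℂ) → ℂ} (hu : HolOn Y u) (n : ℕ) :
    HolOn Y (fun y => u y ^ n) := by
  induction n with
  | zero => simpa using HolOn.const Y 1
  | succ n ih => simpa [pow_succ] using ih.mul hu

theorem HolOn.zpow {m : ℕ} {Y : Set (Fin m → ℂ)} {u : (Fin m → ℂ) → ℂ} (hu : HolOn Y u)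
    (h0 : ∀ y ∈ Y, u y ≠ 0) (n : ℤ) : HolOn Y (fun y => u y ^ n) := by
  cases n with
  | ofNat n => simpa using hu.pow n
  | negSucc n =>
    simp only [zpow_negSucc]
    exact (hu.pow (n + 1)).inv (fun y hy => pow_ne_zero _ (h0 y hy))

theorem HolOn.prod {m : ℕ} {Y : Set (Fin m → ℂ)} {ι : Type*} (s : Finset ι)
    (u : ι → (Fin m → ℂ) → ℂ) (hu : ∀ i ∈ s, HolOn Y (u i)) :
    HolOn Y (fun y => ∏ i ∈ s, u i y) := by
  classical
  induction s using Finset.induction_on with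
  | empty => simpa using HolOn.const Y 1
  | insert a s ha ih =>
    simp only [Finset.prod_insert ha]
    exact (hu a (Finset.mem_insert_self a s)).mul
      (ih (fun i hi => hu i (Finset.mem_insert_of_mem hi)))

theorem HolOn.congr {m : ℕ} {Y : Set (Fin m → ℂ)} {u v : (Fin m → ℂ) → ℂ} (hu : HolOn Y u)
    (h : ∀ y ∈ Y, u y = v y) : HolOn Y v := by
  intro p hp
  obtain ⟨U, hU, hpU, f, hf, hfu⟩ := hu p hp
  exact ⟨U, hU, hpU, f, hf, fun y hy hyU => (hfu y hy hyU).trans (h y hy)⟩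

theorem differentiable_eval {k : ℕ} (D : MvPolynomial (Fin k) ℂ) :
    Differentiable ℂ (fun z : Fin k → ℂ => MvPolynomial.eval z D) := by
  induction D using MvPolynomial.induction_on with
  | C a => simp
  | add p q hp hq =>
    simp only [map_add]
    exact hp.add hq
  | mul_X p i hp =>
    simp only [map_mul, MvPolynomial.eval_X]
    exact hp.mul (differentiable_apply i)

theorem exists_eval_ne {k : ℕ} {D : MvPolynomial (Fin k) ℂ} (hD : D ≠ 0) :
    ∃ v : Fin k → ℂ, MvPolynomial.eval v D ≠ 0 := by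
  by_contra hcon
  push Not at hcon
  exact hD (MvPolynomial.funext (by simpa using hcon))

/-! ### The geometric package of a smooth connected affine algebraic set -/

theorem IsAlg.isClosed {m : ℕ} {Y : Set (Fin m → ℂ)} (hY : IsAlg Y) : IsClosed Y := by
  obtain ⟨S, rfl⟩ := hY
  have : {y : Fin m → ℂ | ∀ P ∈ S, MvPolynomial.eval y P = 0} =
      ⋂ P ∈ S, {y | MvPolynomial.eval y P = 0} := by
    ext y; simp
  rw [this]
  exact isClosed_biInter fun P _ =>
    isClosed_eq (differentiable_eval P).continuous continuous_const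

/-- the identity theorem, in the form used below -/
def HId {m : ℕ} (Y : Set (Fin m → ℂ)) : Prop :=
  ∀ (u : (Fin m → ℂ) → ℂ), HolOn Y u → ∀ (N : Set (Fin m → ℂ)), IsOpen N →
      (Y ∩ N).Nonempty → (∀ y ∈ Y, y ∈ N → u y = 0) → ∀ y ∈ Y, u y = 0

theorem hid_of {m : ℕ} {Y : Set (Fin m → ℂ)} (hS : IsSmooth Y) (hC : IsConnected Y) : HId Y :=
  fun u hu N hN hYN h0 => identity_thm Y (charts_of_smooth Y hS) hC.isPreconnected
    (fun {_ _} hU hc {_} hφ {_} hx h0 => ball_minus hU hc hφ hx h0) u hu N hN hYN h0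

theorem prime_of {m : ℕ} {Y : Set (Fin m → ℂ)} (hid : HId Y) (P Q : MvPolynomial (Fin m) ℂ)
    (h : ∀ y ∈ Y, MvPolynomial.eval y P * MvPolynomial.eval y Q = 0) :
    (∀ y ∈ Y, MvPolynomial.eval y P = 0) ∨ (∀ y ∈ Y, MvPolynomial.eval y Q = 0) := by
  by_cases hP : ∀ y ∈ Y, MvPolynomial.eval y P = 0
  · exact Or.inl hP
  · right
    push Not at hP
    obtain ⟨y₁, hy₁, h1⟩ := hP
    refine hid (fun y => MvPolynomial.eval y Q) (HolOn.of_diff Y (differentiable_eval Q))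
      {y | MvPolynomial.eval y P ≠ 0} ?_ ⟨y₁, hy₁, h1⟩ ?_
    · exact isOpen_ne_fun (differentiable_eval P).continuous continuous_const
    · intro y hy hy2
      exact (mul_eq_zero.1 (h y hy)).resolve_left hy2

theorem package {m : ℕ} {Y : Set (Fin m → ℂ)} (hY : IsAlg Y) (hS : IsSmooth Y)
    (hC : IsConnected Y) :
    ∃ (k : ℕ) (pr : (Fin m → ℂ) → (Fin k → ℂ)) (δ : MvPolynomial (Fin k) ℂ) (e : ℕ),
      0 < e ∧ Cov Y pr δ e := by
  obtain ⟨k, π, Θ, P, hP, ⟨U, V, d, hd, hUV⟩, hrel, ⟨a, Q, ha, hQ⟩, hdom, hint, hsurj⟩ :=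
    alg_data Y hY hC.nonempty (prime_of (hid_of hS hC))
      (fun B _ _ _ _ => ring_data B)
      (fun B _ _ _ _ k φ θ P h1 h2 h3 z ρ h4 => hom_exists B k φ θ P h1 h2 h3 z ρ h4)
  obtain ⟨pr, δ, e, he, hcov⟩ := cov_of_data Y hY.isClosed hC.nonempty π Θ P hP U V d hd hUV hrel
    a Q ha hQ hdom hint hsurj (fun z₀ hs => local_roots P hP z₀ hs)
  exact ⟨k, pr, δ, e, he, hcov⟩

theorem holOn_poly {m k e : ℕ} {Y : Set (Fin m → ℂ)} {pr : (Fin m → ℂ) → (Fin k → ℂ)}
    {δ : MvPolynomial (Fin k) ℂ} (hcov : Cov Y pr δ e) (D : MvPolynomial (Fin k) ℂ) :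
    HolOn Y (fun y => MvPolynomial.eval (pr y) D) :=
  HolOn.of_diff Y ((differentiable_eval D).comp hcov.diff)

theorem thin_of {m k e : ℕ} {Y : Set (Fin m → ℂ)} (hS : IsSmooth Y)
    (hC : IsConnected Y) {pr : (Fin m → ℂ) → (Fin k → ℂ)}
    {δ : MvPolynomial (Fin k) ℂ} (hcov : Cov Y pr δ e) (D : MvPolynomial (Fin k) ℂ) (hD : D ≠ 0) :
    IsPreconnected {y | y ∈ Y ∧ MvPolynomial.eval (pr y) D ≠ 0} ∧
      Y ⊆ closure {y | y ∈ Y ∧ MvPolynomial.eval (pr y) D ≠ 0} := by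
  obtain ⟨y₁, hy₁, h1⟩ := hcov.dominant D hD
  exact thin_thm Y (charts_of_smooth Y hS) hC.isPreconnected
    (fun {_ _} hU hc {_} hφ {_} hx h0 => ball_minus hU hc hφ hx h0) (hid_of hS hC)
    (fun y => MvPolynomial.eval (pr y) D) (holOn_poly hcov D) y₁ hy₁ h1

theorem conn_of {k : ℕ} (D : MvPolynomial (Fin k) ℂ) (hD : D ≠ 0) :
    IsPreconnected {v : Fin k → ℂ | MvPolynomial.eval v D ≠ 0} := by
  obtain ⟨v, hv⟩ := exists_eval_ne hD
  have := (ball_minus (U := (univ : Set (Fin k → ℂ))) isOpen_univ convex_univ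
    (φ := fun v => MvPolynomial.eval v D) (differentiable_eval D).differentiableOn
    (mem_univ v) hv).1
  simpa using this

theorem base_point {m k e : ℕ} {Y : Set (Fin m → ℂ)} {pr : (Fin m → ℂ) → (Fin k → ℂ)}
    {δ : MvPolynomial (Fin k) ℂ} (he : 0 < e) (hcov : Cov Y pr δ e) :
    ∃ y₀ : Yo Y pr δ, pr y₀.1 = 0 := by
  obtain ⟨r, hr, s, -, hs⟩ := hcov.sections 0 hcov.base
  have h1 := (hs 0 (mem_ball_self hr)).2.2
  have h2 : s ⟨0, he⟩ 0 ∈ {y | y ∈ Y ∧ pr y = 0} := by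
    rw [h1]; exact ⟨⟨0, he⟩, rfl⟩
  exact ⟨⟨s ⟨0, he⟩ 0, h2.1, by rw [h2.2]; exact hcov.base⟩, h2.2⟩

/-- connectedness along lines -/
theorem bertini_of {m k e : ℕ} {Y : Set (Fin m → ℂ)} (hS : IsSmooth Y)
    (hC : IsConnected Y) {pr : (Fin m → ℂ) → (Fin k → ℂ)}
    {δ : MvPolynomial (Fin k) ℂ} (hcov : Cov Y pr δ e)
    (y₀ : Yo Y pr δ) (hy₀ : pr y₀.1 = 0) :
    ∀ w : Yo Y pr δ, RootStable δ (pr w.1) → EndsAt (qY Y pr δ) y₀ w (pr w.1) 1 := by
  obtain ⟨D, r, hD, hr⟩ := generic_alg δ hcov.base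
  refine bertini Y pr δ hcov (thin_of hS hC hcov) ⟨D, hD, generic_stable δ D r hr⟩ y₀ hy₀ ?_
  intro w₁ hw₁
  have h1 : MvPolynomial.eval ((1 : ℂ) • pr w₁.1) δ ≠ 0 := by rw [one_smul]; exact w₁.2.2
  exact ends_one δ hcov.base (qY Y pr δ) (cover_Y Y pr δ hcov) y₀ hy₀ w₁
    (plane_push δ hcov.base (pr w₁.1) hw₁ 1 h1)

theorem finite_rank {m : ℕ} {Y : Set (Fin m → ℂ)} (hY : IsAlg Y) (hS : IsSmooth Y)
    (hC : IsConnected Y) : ∃ s, FiniteRank Y s := by
  obtain ⟨k, pr, δ, e, he, hcov⟩ := package hY hS hC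
  obtain ⟨D, r, hD, hr⟩ := generic_alg δ hcov.base
  have hgen := generic_stable δ D r hr
  obtain ⟨y₀, hy₀⟩ := base_point he hcov
  have hbert := bertini_of hS hC hcov y₀ hy₀
  obtain ⟨v₀, hv₀⟩ := exists_eval_ne hD
  have hb0 : MvPolynomial.eval ((0 : ℂ) • v₀) δ ≠ 0 := by rw [zero_smul]; exact hcov.base
  obtain ⟨ε, T, hε, hTc, hT, hpush⟩ := plane_push δ hcov.base v₀ (hgen v₀ hv₀) 0 hb0
  have hT' : ∀ t ∈ T, MvPolynomial.eval (t • v₀) δ ≠ 0 := hT v₀ (mem_ball_self hε)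
  obtain ⟨s, hs⟩ := rank_K Y pr δ hcov v₀ T hTc hT'
    (fun {_} _ {_} _ K h1 h2 s h3 g h4 => rank_pieces K h1 h2 s h3 g h4)
  refine ⟨s, fun g hg hg0 => ?_⟩
  obtain ⟨a, ha, hlog⟩ := hs g hg hg0
  refine ⟨a, ha, ?_⟩
  set G : (Fin m → ℂ) → ℂ := fun y => ∏ l, g l y ^ a l with hG
  have hGc : ContinuousOn G Y := by
    refine continuousOn_finsetProd _ fun l _ => ?_
    exact (hg l).zpow₀ (a l) (fun y hy => Or.inl (hg0 l y hy))
  have hG0 : ∀ y ∈ Y, G y ≠ 0 := fun y hy =>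
    Finset.prod_ne_zero_iff.2 fun l _ => zpow_ne_zero _ (hg0 l y hy)
  have hδ0 : δ ≠ 0 := by
    rintro rfl; exact hcov.base (by simp)
  have key := log_of_K Y pr δ hcov (fun D hD => conn_of D hD) D hD hgen y₀ hy₀ hbert G hGc hG0
    (cover_W Y pr δ hcov G hGc hG0)
    (fun w₀ w₁ hw₀ hw₁ => by
      have h1 : MvPolynomial.eval ((1 : ℂ) • pr w₁.1.1) δ ≠ 0 := by
        rw [one_smul]; exact w₁.2.2.1
      exact ends_one δ hcov.base (qW Y pr δ G) (cover_W Y pr δ hcov G hGc hG0) w₀ hw₀ w₁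
        (plane_push δ hcov.base (pr w₁.1.1) hw₁ 1 h1))
    (fun w₀ hw₀ z₁ hz₁ => by
      have h1 : MvPolynomial.eval ((0 : ℂ) • z₁) δ ≠ 0 := by
        rw [zero_smul]; exact hcov.base
      exact ends_zero δ hcov.base z₁ (plane_push δ hcov.base z₁ hz₁ 0 h1) (qW Y pr δ G)
        (cover_W Y pr δ hcov G hGc hG0) w₀ hw₀)
    v₀ hv₀ T hT' (fun c hc => hpush v₀ (mem_ball_self hε) c hc) hlog
  obtain ⟨y₁, hy₁, h1⟩ := hcov.dominant (D * δ) (mul_ne_zero hD hδ0)
  refine log_extend Y (charts_of_smooth Y hS) hC.isPreconnected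
    (fun {_ _} hU hc {_} hφ {_} hx h0 => ball_minus hU hc hφ hx h0) (hid_of hS hC)
    (fun y => MvPolynomial.eval (pr y) (D * δ)) (holOn_poly hcov _) y₁ hy₁ h1 G hGc hG0 ?_
  have hset : {y | y ∈ Y ∧ MvPolynomial.eval (pr y) (D * δ) ≠ 0} =
      {y | y ∈ Y ∧ MvPolynomial.eval (pr y) D ≠ 0 ∧ MvPolynomial.eval (pr y) δ ≠ 0} := by
    ext y; simp [not_or]
  rw [hset]
  exact key

/-! ### Growth at the ends -/

/-- at most exponential growth in `Re s` -/
def Tame (φ : ℂ → ℂ) : Prop :=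
  ∃ A C c' : ℝ, ∀ s : ℂ, c' < s.re → ‖φ s‖ ≤ C * Real.exp (A * s.re)

theorem Tame.mul {φ ψ : ℂ → ℂ} (h1 : Tame φ) (h2 : Tame ψ) : Tame (fun s => φ s * ψ s) := by
  obtain ⟨A, C, c, h⟩ := h1
  obtain ⟨A', C', c', h'⟩ := h2
  refine ⟨A + A', C * C', max c c', fun s hs => ?_⟩
  have h3 := h s (lt_of_le_of_lt (le_max_left _ _) hs)
  have h4 := h' s (lt_of_le_of_lt (le_max_right _ _) hs)
  rw [norm_mul]
  calc ‖φ s‖ * ‖ψ s‖ ≤ (C * Real.exp (A * s.re)) * (C' * Real.exp (A' * s.re)) :=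
        mul_le_mul h3 h4 (norm_nonneg _) ((norm_nonneg _).trans h3)
    _ = C * C' * Real.exp ((A + A') * s.re) := by
        rw [add_mul, Real.exp_add]; ring

theorem Tame.const (a : ℂ) : Tame (fun _ => a) := ⟨0, ‖a‖, 0, fun s _ => by simp⟩

theorem Tame.pow {φ : ℂ → ℂ} (h1 : Tame φ) (n : ℕ) : Tame (fun s => φ s ^ n) := by
  induction n with
  | zero => simpa using Tame.const 1
  | succ n ih => simpa [pow_succ] using ih.mul h1

theorem Tame.zpow {φ : ℂ → ℂ} (h1 : Tame φ) (h2 : Tame (fun s => (φ s)⁻¹)) (n : ℤ) :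
    Tame (fun s => φ s ^ n) := by
  cases n with
  | ofNat n => simpa using h1.pow n
  | negSucc n =>
    have := h2.pow (n + 1)
    simpa [zpow_negSucc, inv_pow] using this

theorem Tame.prod {ι : Type*} (t : Finset ι) (φ : ι → ℂ → ℂ) (h : ∀ i ∈ t, Tame (φ i)) :
    Tame (fun s => ∏ i ∈ t, φ i s) := by
  classical
  induction t using Finset.induction_on with
  | empty => simpa using Tame.const 1
  | insert a t ha ih =>
    simp only [Finset.prod_insert ha]
    exact (h a (Finset.mem_insert_self a t)).mul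
      (ih (fun i hi => h i (Finset.mem_insert_of_mem hi)))

/-- Schottky's theorem, as used in `big_picard` -/
def SchottkyStm : Prop :=
  ∀ (f : ℂ → ℂ) (M : ℝ), DifferentiableOn ℂ f (ball 0 1) →
      (∀ z ∈ ball (0 : ℂ) 1, f z ≠ 1) → (∀ z ∈ ball (0 : ℂ) 1, f z ≠ -1) → ‖f 0‖ ≤ M →
      ∀ z ∈ ball (0 : ℂ) (1 / 2), ‖f z‖ ≤ Real.exp (Real.pi * Real.exp (Real.pi * (M + 386)))

theorem tame_of_omit (hSch : SchottkyStm) {φ : ℂ → ℂ} {c : ℝ} {κ : ℕ} (hκ : 0 < κ)
    (hφ : DifferentiableOn ℂ φ {s : ℂ | c < s.re})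
    (hper : ∀ s : ℂ, c < s.re → φ (s + 2 * Real.pi * κ * Complex.I) = φ s)
    (h0 : ∀ s : ℂ, c < s.re → φ s ≠ 0) (h1 : ∀ s : ℂ, c < s.re → φ s ≠ 1) : Tame φ :=
  end_growth (fun {_ _} hr hf h0 h1 => big_picard hSch hr hf h0 h1) hκ hφ hper h0 h1

/-- a function with `φ ≠ 0, 1` and its relatives `1/φ`, `1-φ`, `1/(1-φ)` are all tame -/
theorem tame_four (hSch : SchottkyStm) {φ : ℂ → ℂ} {c : ℝ} {κ : ℕ} (hκ : 0 < κ)
    (hφ : DifferentiableOn ℂ φ {s : ℂ | c < s.re})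
    (hper : ∀ s : ℂ, c < s.re → φ (s + 2 * Real.pi * κ * Complex.I) = φ s)
    (h0 : ∀ s : ℂ, c < s.re → φ s ≠ 0) (h1 : ∀ s : ℂ, c < s.re → φ s ≠ 1) :
    Tame φ ∧ Tame (fun s => (φ s)⁻¹) ∧ Tame (fun s => 1 - φ s) ∧
      Tame (fun s => (1 - φ s)⁻¹) := by
  have hg : DifferentiableOn ℂ (fun s => 1 - φ s) {s : ℂ | c < s.re} :=
    (differentiableOn_const 1).sub hφ
  have hg0 : ∀ s : ℂ, c < s.re → 1 - φ s ≠ 0 := fun s hs h => h1 s hs (sub_eq_zero.1 h).symm
  have hg1 : ∀ s : ℂ, c < s.re → 1 - φ s ≠ 1 := fun s hs h => h0 s hs (by linear_combination -h)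
  refine ⟨tame_of_omit hSch hκ hφ hper h0 h1, ?_, ?_, ?_⟩
  · refine tame_of_omit (c := c) hSch hκ (hφ.inv fun s hs => h0 s hs) ?_ ?_ ?_
    · intro s hs; simp only [hper s hs]
    · intro s hs; exact inv_ne_zero (h0 s hs)
    · intro s hs h; exact h1 s hs (inv_eq_one.1 h)
  · refine tame_of_omit (c := c) hSch hκ hg ?_ hg0 hg1
    intro s hs; simp only [hper s hs]
  · refine tame_of_omit (c := c) hSch hκ (hg.inv fun s hs => hg0 s hs) ?_ ?_ ?_
    · intro s hs; simp only [hper s hs]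
    · intro s hs; exact inv_ne_zero (hg0 s hs)
    · intro s hs h; exact hg1 s hs (inv_eq_one.1 h)

/-! ### Sections near infinity -/

theorem end_section {m k e : ℕ} {Y : Set (Fin m → ℂ)} {pr : (Fin m → ℂ) → (Fin k → ℂ)}
    {δ : MvPolynomial (Fin k) ℂ} {v : Fin k → ℂ} {c : ℝ} {κ : ℕ}
    {Λ : Fin e → ℂ → (Fin m → ℂ)} (hE : EndLift Y pr δ e v c κ Λ) (a : Fin e)
    {n : ℕ} (u : Fin n → (Fin m → ℂ) → ℂ) (L : Fin n → ℂ → ℂ)
    (hL : ∀ j, DifferentiableOn ℂ (L j) {s : ℂ | c < s.re})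
    (hexp : ∀ j, ∀ s : ℂ, c < s.re → Complex.exp (L j s) = u j (Λ a s))
    (s₁ : ℂ) (hs₁ : c < s₁.re) :
    ∃ (U : Set ℂ) (ℓ : ℂ → ℂ) (σ : ℂ → (Fin m → ℂ)), IsOpen U ∧ Complex.exp s₁ ∈ U ∧
      ℓ (Complex.exp s₁) = s₁ ∧ (∀ t ∈ U, c < (ℓ t).re) ∧
      LSec Y pr v U σ ∧ (∀ t ∈ U, MvPolynomial.eval (t • v) δ ≠ 0) ∧
      (∀ t ∈ U, om u σ t = fun j => deriv (L j) (ℓ t)) ∧
      (∀ t ∈ U, om' u σ t = fun j => deriv (deriv (L j)) (ℓ t)) := by
  -- `ℓ t = s₁ + log (t / exp s₁)`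
  set ℓ : ℂ → ℂ := fun t => s₁ + Complex.log (t * Complex.exp (-s₁)) with hℓ
  have hE1 : Complex.exp s₁ * Complex.exp (-s₁) = 1 := by
    rw [← Complex.exp_add]; simp
  have hℓ1 : ℓ (Complex.exp s₁) = s₁ := by simp [hℓ, hE1]
  set O : Set ℂ := {t : ℂ | t * Complex.exp (-s₁) ∈ Complex.slitPlane} with hO
  have hOopen : IsOpen O :=
    Complex.isOpen_slitPlane.preimage (continuous_id.mul continuous_const)
  have hℓd : ∀ t ∈ O, HasDerivAt ℓ (t⁻¹) t := by
    intro t ht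
    have ht0 : t ≠ 0 := by
      rintro rfl
      have : (0 : ℂ) * Complex.exp (-s₁) ∈ Complex.slitPlane := ht
      simp at this
    have h1 : HasDerivAt (fun t : ℂ => t * Complex.exp (-s₁)) (Complex.exp (-s₁)) t := by
      simpa using (hasDerivAt_id t).mul_const (Complex.exp (-s₁))
    have h2 := (h1.clog ht).const_add s₁
    have h3 : t⁻¹ = Complex.exp (-s₁) / (t * Complex.exp (-s₁)) := by
      have h4 := Complex.exp_ne_zero (-s₁)
      rw [eq_div_iff (mul_ne_zero ht0 h4), ← mul_assoc, inv_mul_cancel₀ ht0, one_mul]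
    rw [h3]
    exact h2
  have hℓexp : ∀ t ∈ O, Complex.exp (ℓ t) = t := by
    intro t ht
    have ht1 : t * Complex.exp (-s₁) ≠ 0 := Complex.slitPlane_ne_zero ht
    simp only [hℓ]
    rw [Complex.exp_add, Complex.exp_log ht1]
    calc Complex.exp s₁ * (t * Complex.exp (-s₁)) = t * (Complex.exp s₁ * Complex.exp (-s₁)) := by
          ring
      _ = t := by rw [hE1, mul_one]
  have hℓc : ContinuousOn ℓ O := fun t ht => (hℓd t ht).continuousAt.continuousWithinAt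
  set H : Set ℂ := {s : ℂ | c < s.re} with hH
  have hHo : IsOpen H := isOpen_lt continuous_const Complex.continuous_re
  have hUo : IsOpen (O ∩ ℓ ⁻¹' H) := hℓc.isOpen_inter_preimage hOopen hHo
  refine ⟨O ∩ ℓ ⁻¹' H, ℓ, fun t => Λ a (ℓ t), hUo, ⟨?_, ?_⟩, hℓ1, fun t ht => ht.2, ⟨?_, ?_⟩,
    ?_, ?_, ?_⟩
  · show Complex.exp s₁ * Complex.exp (-s₁) ∈ Complex.slitPlane
    rw [hE1]; exact Complex.one_mem_slitPlane
  · show c < (ℓ (Complex.exp s₁)).re
    rw [hℓ1]; exact hs₁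
  · intro t ht
    have h1 : DifferentiableAt ℂ (Λ a) (ℓ t) :=
      (hE.diff a).differentiableAt (hHo.mem_nhds ht.2)
    exact (DifferentiableAt.comp t h1 (hℓd t ht.1).differentiableAt).differentiableWithinAt
  · intro t ht
    have h1 : Λ a (ℓ t) ∈ {y | y ∈ Y ∧ pr y = Complex.exp (ℓ t) • v} := by
      rw [hE.fib (ℓ t) ht.2]; exact ⟨a, rfl⟩
    refine ⟨h1.1, ?_⟩
    rw [h1.2, hℓexp t ht.1]
  · intro t ht
    have := hE.ne (ℓ t) ht.2
    rwa [hℓexp t ht.1] at this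
  all_goals
    have hom : ∀ t ∈ O ∩ ℓ ⁻¹' H, ∀ j, om u (fun t => Λ a (ℓ t)) t j = deriv (L j) (ℓ t) := by
      intro t ht j
      have ht0 : t ≠ 0 := by
        rintro rfl
        have : (0 : ℂ) * Complex.exp (-s₁) ∈ Complex.slitPlane := ht.1
        simp at this
      have hev : (fun x => u j (Λ a (ℓ x))) =ᶠ[𝓝 t] fun x => Complex.exp (L j (ℓ x)) := by
        filter_upwards [hUo.mem_nhds ht] with x hx
        exact (hexp j (ℓ x) hx.2).symm
      have hLd : HasDerivAt (L j) (deriv (L j) (ℓ t)) (ℓ t) :=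
        ((hL j).differentiableAt (hHo.mem_nhds ht.2)).hasDerivAt
      have h2 : HasDerivAt (fun x => Complex.exp (L j (ℓ x)))
          (Complex.exp (L j (ℓ t)) * (deriv (L j) (ℓ t) * t⁻¹)) t :=
        (hLd.comp t (hℓd t ht.1)).cexp
      simp only [om]
      rw [hev.deriv_eq, h2.deriv, ← hexp j (ℓ t) ht.2]
      have h3 := Complex.exp_ne_zero (L j (ℓ t))
      field_simp
  · intro t ht
    funext j
    exact hom t ht j
  · intro t ht
    funext j
    have ht0 : t ≠ 0 := by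
      rintro rfl
      have : (0 : ℂ) * Complex.exp (-s₁) ∈ Complex.slitPlane := ht.1
      simp at this
    have hev : (fun x => om u (fun t => Λ a (ℓ t)) x j) =ᶠ[𝓝 t] fun x => deriv (L j) (ℓ x) := by
      filter_upwards [hUo.mem_nhds ht] with x hx
      exact hom x hx j
    have hdd : DifferentiableOn ℂ (deriv (L j)) H := (hL j).deriv hHo
    have hLd : HasDerivAt (deriv (L j)) (deriv (deriv (L j)) (ℓ t)) (ℓ t) :=
      (hdd.differentiableAt (hHo.mem_nhds ht.2)).hasDerivAt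
    have h2 : HasDerivAt (fun x => deriv (L j) (ℓ x)) (deriv (deriv (L j)) (ℓ t) * t⁻¹) t :=
      hLd.comp t (hℓd t ht.1)
    simp only [om']
    rw [hev.deriv_eq, h2.deriv]
    field_simp

/-! ### General lemmas for the assembly -/

theorem const_of_exp_one {F : ℂ → ℂ} {S : Set ℂ} (hS : IsPreconnected S) (hF : ContinuousOn F S)
    (h1 : ∀ s ∈ S, Complex.exp (F s) = 1) : ∀ s ∈ S, ∀ s' ∈ S, F s = F s' := by
  classical
  -- consider `(F s).im / (2π)`, integer valued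
  have hint : ∀ s ∈ S, ∃ n : ℤ, F s = n * (2 * Real.pi * Complex.I) := fun s hs =>
    Complex.exp_eq_one_iff.1 (h1 s hs)
  have h2 : ContinuousOn (fun s => (F s).im / (2 * Real.pi)) S :=
    (Complex.continuous_im.comp_continuousOn hF).div_const _
  have hval : ∀ s ∈ S, ∀ n : ℤ, F s = n * (2 * Real.pi * Complex.I) →
      (F s).im / (2 * Real.pi) = n := by
    intro s _ n hn
    rw [hn]
    have h3 : ((n : ℂ) * (2 * Real.pi * Complex.I)).im = n * (2 * Real.pi) := by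
      simp
    rw [h3]
    field_simp
  have hT : IsDiscrete (Set.range ((↑) : ℤ → ℝ)) := by
    rw [isDiscrete_iff_discreteTopology]
    exact (Int.isClosedEmbedding_coe_real.isEmbedding.toHomeomorph).symm.isEmbedding.discreteTopology
  obtain ⟨y, -, hy⟩ := hS.eqOn_const_of_mapsTo hT h2
    (fun s hs => by
      obtain ⟨n, hn⟩ := hint s hs
      exact ⟨n, (hval s hs n hn).symm⟩) ⟨0, ⟨0, by simp⟩⟩
  intro s hs s' hs'
  obtain ⟨n, hn⟩ := hint s hs
  obtain ⟨n', hn'⟩ := hint s' hs'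
  have e1 := hval s hs n hn
  have e2 := hval s' hs' n' hn'
  have e3 : (F s).im / (2 * Real.pi) = y := hy hs
  have e4 : (F s').im / (2 * Real.pi) = y := hy hs'
  have : (n : ℝ) = n' := by rw [← e1, ← e2, e3, e4]
  have : n = n' := by exact_mod_cast this
  rw [hn, hn', this]

theorem logDeriv_rel {γ : Type*} [Fintype γ] {G : γ → ℂ → ℂ} {O : Set ℂ} (hO : IsOpen O)
    (hG : ∀ l, DifferentiableOn ℂ (G l) O) (hG0 : ∀ l, ∀ t ∈ O, G l t ≠ 0) (β : γ → ℤ) (C : ℂ)
    (hC : ∀ t ∈ O, ∏ l, G l t ^ β l = C) : ∀ t ∈ O, ∑ l, (β l : ℂ) * (deriv (G l) t / G l t) = 0 := by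
  intro t ht
  have hd : ∀ l, DifferentiableAt ℂ (G l) t := fun l => (hG l).differentiableAt (hO.mem_nhds ht)
  have h1 : logDeriv (fun x => ∏ l, G l x ^ β l) t = ∑ l, logDeriv (fun x => G l x ^ β l) t :=
    logDeriv_prod (s := Finset.univ) (f := fun l x => G l x ^ β l)
      (fun l _ => zpow_ne_zero _ (hG0 l t ht))
      (fun l _ => (hd l).zpow (Or.inl (hG0 l t ht)))
  have h2 : logDeriv (fun x => ∏ l, G l x ^ β l) t = 0 := by
    have hev : (fun x => ∏ l, G l x ^ β l) =ᶠ[𝓝 t] fun _ => C := by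
      filter_upwards [hO.mem_nhds ht] with x hx using hC x hx
    rw [logDeriv_apply, hev.deriv_eq]
    simp
  rw [h2] at h1
  rw [h1]
  refine Finset.sum_congr rfl fun l _ => ?_
  rw [logDeriv_fun_zpow (hd l), logDeriv_apply]

theorem clear_denoms {n : ℕ} (q : Fin n → ℚ) :
    ∃ (M : ℤ) (Q : Fin n → ℤ), M ≠ 0 ∧ ∀ j, (Q j : ℚ) = M * q j := by
  classical
  refine ⟨∏ j, ((q j).den : ℤ), fun j => (q j).num * ∏ i ∈ Finset.univ.erase j, ((q i).den : ℤ),
    ?_, ?_⟩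
  · exact Finset.prod_ne_zero_iff.2 fun j _ => by exact_mod_cast (q j).den_nz
  · intro j
    rw [← Finset.mul_prod_erase Finset.univ (fun i => ((q i).den : ℤ)) (Finset.mem_univ j)]
    push_cast
    have h1 : ((q j).den : ℚ) * q j = (q j).num := by
      rw [mul_comm]; exact Rat.mul_den_eq_num (q j)
    rw [← h1]; ring

theorem basis_choice {γ : Type} [Fintype γ] {e : ℕ} (w : Fin e → γ → ℤ) :
    ∃ (n : ℕ) (J : Fin n → γ) (q : γ → Fin n → ℚ), Function.Injective J ∧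
      (∀ b : Fin n → ℤ, (∀ a, ∑ j, b j * w a (J j) = 0) → b = 0) ∧
      ∀ l a, (w a l : ℚ) = ∑ j, q l j * w a (J j) := by
  classical
  obtain ⟨κ, a, ha, hspan, hli⟩ := exists_linearIndependent' ℚ
    (fun (l : γ) (i : Fin e) => (w i l : ℚ))
  have : Finite κ := Finite.of_injective a ha
  letI : Fintype κ := Fintype.ofFinite κ
  set E := (Fintype.equivFin κ).symm with hE
  have hmem : ∀ l : γ, ∃ c : κ → ℚ, ∑ i, c i • (fun (j : Fin e) => (w j (a i) : ℚ)) =
      fun (i : Fin e) => (w i l : ℚ) := by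
    intro l
    have h1 : (fun (i : Fin e) => (w i l : ℚ)) ∈
        Submodule.span ℚ (Set.range ((fun (l : γ) (i : Fin e) => (w i l : ℚ)) ∘ a)) := by
      rw [hspan]; exact Submodule.subset_span ⟨l, rfl⟩
    obtain ⟨c, hc⟩ := (Submodule.mem_span_range_iff_exists_fun ℚ).1 h1
    exact ⟨c, by simpa using hc⟩
  choose c hc using hmem
  refine ⟨Fintype.card κ, fun j => a (E j), fun l j => c l (E j), ha.comp E.injective, ?_, ?_⟩
  · intro b hb
    have h1 : ∑ i : κ, (b (E.symm i) : ℚ) •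
        (((fun (l : γ) (i : Fin e) => (w i l : ℚ)) ∘ a) i) = 0 := by
      funext i
      have h2 := hb i
      have h3 : ∑ j, (b j : ℚ) * (w i (a (E j)) : ℚ) = 0 := by exact_mod_cast h2
      rw [← E.sum_comp]
      simp only [Finset.sum_apply, Pi.smul_apply, smul_eq_mul, Function.comp_apply,
        Equiv.symm_apply_apply, Pi.zero_apply]
      exact h3
    have h2 := (Fintype.linearIndependent_iff.1 hli) (fun i => (b (E.symm i) : ℚ)) h1
    funext j
    have h3 := h2 (E j)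
    simpa using h3
  · intro l i
    have h1 := congrFun (hc l) i
    simp only [Finset.sum_apply, Pi.smul_apply, smul_eq_mul] at h1
    rw [← h1, ← E.sum_comp]

/-- the generators `f i`, `1 - f i` -/
def gen {m N : ℕ} (f : Fin N → (Fin m → ℂ) → ℂ) : Fin N ⊕ Fin N → (Fin m → ℂ) → ℂ :=
  Sum.elim f (fun i y => 1 - f i y)

/-- monomials in the generators -/
noncomputable def unit {m N : ℕ} (f : Fin N → (Fin m → ℂ) → ℂ) (b : Fin N ⊕ Fin N → ℤ)
    (y : Fin m → ℂ) : ℂ := ∏ l, gen f l y ^ b l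

/-- holomorphic functions omitting `0, 1` -/
structure Omit {m N : ℕ} (Y : Set (Fin m → ℂ)) (f : Fin N → (Fin m → ℂ) → ℂ) : Prop where
  hol : ∀ i, HolOn Y (f i)
  ne0 : ∀ i, ∀ y ∈ Y, f i y ≠ 0
  ne1 : ∀ i, ∀ y ∈ Y, f i y ≠ 1

theorem Omit.hol_gen {m N : ℕ} {Y : Set (Fin m → ℂ)} {f : Fin N → (Fin m → ℂ) → ℂ}
    (h : Omit Y f) (l : Fin N ⊕ Fin N) : HolOn Y (gen f l) := by
  rcases l with i | i
  · exact h.hol i
  · exact (HolOn.const Y 1).sub (h.hol i)

theorem Omit.gen_ne {m N : ℕ} {Y : Set (Fin m → ℂ)} {f : Fin N → (Fin m → ℂ) → ℂ}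
    (h : Omit Y f) (l : Fin N ⊕ Fin N) : ∀ y ∈ Y, gen f l y ≠ 0 := by
  intro y hy
  rcases l with i | i
  · exact h.ne0 i y hy
  · exact fun h1 => h.ne1 i y hy (sub_eq_zero.1 h1).symm

theorem Omit.hol_unit {m N : ℕ} {Y : Set (Fin m → ℂ)} {f : Fin N → (Fin m → ℂ) → ℂ}
    (h : Omit Y f) (b : Fin N ⊕ Fin N → ℤ) : HolOn Y (unit f b) :=
  HolOn.prod Finset.univ (fun l y => gen f l y ^ b l)
    (fun l _ => (h.hol_gen l).zpow (h.gen_ne l) (b l))

/-- logarithms of the generators at the ends -/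
structure Ends {m k : ℕ} (Y : Set (Fin m → ℂ)) (pr : (Fin m → ℂ) → (Fin k → ℂ))
    (δ : MvPolynomial (Fin k) ℂ) (e : ℕ) (v : Fin k → ℂ) (c : ℝ) (κ : ℕ)
    (Λ : Fin e → ℂ → (Fin m → ℂ)) {N : ℕ} (f : Fin N → (Fin m → ℂ) → ℂ)
    (L : Fin e → Fin N ⊕ Fin N → ℂ → ℂ) (w : Fin e → Fin N ⊕ Fin N → ℤ) : Prop where
  lift : EndLift Y pr δ e v c κ Λ
  holo : ∀ a l, DifferentiableOn ℂ (L a l) {s : ℂ | c < s.re}
  exp : ∀ a l, ∀ s : ℂ, c < s.re → Complex.exp (L a l s) = gen f l (Λ a s)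
  per : ∀ a l, ∀ s : ℂ, c < s.re →
    L a l (s + 2 * Real.pi * κ * Complex.I) = L a l s + 2 * Real.pi * Complex.I * w a l

theorem isOpen_half (c : ℝ) : IsOpen {s : ℂ | c < s.re} :=
  isOpen_lt continuous_const Complex.continuous_re

theorem preconn_half (c : ℝ) : IsPreconnected {s : ℂ | c < s.re} :=
  (convex_halfSpace_re_gt c).isPreconnected

theorem EndLift.mem {m k e : ℕ} {Y : Set (Fin m → ℂ)} {pr : (Fin m → ℂ) → (Fin k → ℂ)}
    {δ : MvPolynomial (Fin k) ℂ} {v : Fin k → ℂ} {c : ℝ} {κ : ℕ}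
    {Λ : Fin e → ℂ → (Fin m → ℂ)} (hE : EndLift Y pr δ e v c κ Λ) (a : Fin e) (s : ℂ)
    (hs : c < s.re) : Λ a s ∈ Y ∧ pr (Λ a s) = Complex.exp s • v := by
  have h1 : Λ a s ∈ {y | y ∈ Y ∧ pr y = Complex.exp s • v} := by
    rw [hE.fib s hs]; exact ⟨a, rfl⟩
  exact h1

theorem ends_exist {m k e N : ℕ} {Y : Set (Fin m → ℂ)} {pr : (Fin m → ℂ) → (Fin k → ℂ)}
    {δ : MvPolynomial (Fin k) ℂ} (hcov : Cov Y pr δ e) (v : Fin k → ℂ)
    {f : Fin N → (Fin m → ℂ) → ℂ} (hf : Omit Y f) :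
    ∃ (c : ℝ) (κ : ℕ) (Λ : Fin e → ℂ → (Fin m → ℂ)) (L : Fin e → Fin N ⊕ Fin N → ℂ → ℂ)
      (w : Fin e → Fin N ⊕ Fin N → ℤ), Ends Y pr δ e v c κ Λ f L w := by
  obtain ⟨c, κ, Λ, hE⟩ := end_lifts Y pr δ hcov v
  have h1 : ∀ (a : Fin e) (l : Fin N ⊕ Fin N), ∃ (L : ℂ → ℂ) (w : ℤ),
      DifferentiableOn ℂ L {s : ℂ | c < s.re} ∧
      (∀ s : ℂ, c < s.re → Complex.exp (L s) = gen f l (Λ a s)) ∧
      ∀ s : ℂ, c < s.re →
        L (s + 2 * Real.pi * κ * Complex.I) = L s + 2 * Real.pi * Complex.I * w := by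
    intro a l
    refine end_log (φ := fun s => gen f l (Λ a s)) ?_ ?_ ?_
    · exact (hf.hol_gen l).comp (isOpen_half c) (hE.diff a) (fun s hs => (hE.mem a s hs).1)
    · intro s hs; exact hf.gen_ne l _ (hE.mem a s hs).1
    · intro s hs; simp only [hE.per a s hs]
  choose L w h2 h3 h4 using h1
  exact ⟨c, κ, Λ, L, w, hE, h2, h3, h4⟩

/-- units whose windings at the ends vanish take finitely many values on the curve -/
theorem unit_finite (hSch : SchottkyStm) {m k e N : ℕ} {Y : Set (Fin m → ℂ)}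
    {pr : (Fin m → ℂ) → (Fin k → ℂ)} {δ : MvPolynomial (Fin k) ℂ} (hcov : Cov Y pr δ e)
    {v : Fin k → ℂ} {c : ℝ} {κ : ℕ} {Λ : Fin e → ℂ → (Fin m → ℂ)}
    {f : Fin N → (Fin m → ℂ) → ℂ} (hf : Omit Y f) {L : Fin e → Fin N ⊕ Fin N → ℂ → ℂ}
    {w : Fin e → Fin N ⊕ Fin N → ℤ} (hE : Ends Y pr δ e v c κ Λ f L w)
    (b : Fin N ⊕ Fin N → ℤ) (hb : ∀ a, ∑ l, b l * w a l = 0) :
    ∃ S : Finset ℂ, ∀ t : ℂ, MvPolynomial.eval (t • v) δ ≠ 0 → ∀ y ∈ Y, pr y = t • v →
      unit f b y ∈ S := by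
  refine finite_values Y pr δ hcov v (unit f b) (hf.hol_unit b) ?_
  have hκ := hE.lift.pos
  have hbd : ∀ a : Fin e, ∃ C c' : ℝ, ∀ s : ℂ, c' < s.re → ‖unit f b (Λ a s)‖ ≤ C := by
    intro a
    have hY : ∀ s : ℂ, c < s.re → Λ a s ∈ Y := fun s hs => (hE.lift.mem a s hs).1
    refine end_bounded (φ := fun s => unit f b (Λ a s)) (L := fun s => ∑ l, (b l : ℂ) * L a l s)
      (c := c) hκ ?_ ?_ ?_ ?_ ?_ ?_
    · exact (hf.hol_unit b).comp (isOpen_half c) (hE.lift.diff a) hY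
    · intro s hs
      exact Finset.prod_ne_zero_iff.2 fun l _ => zpow_ne_zero _ (hf.gen_ne l _ (hY s hs))
    · have hten : ∀ l, Tame (fun s => gen f l (Λ a s)) ∧ Tame (fun s => (gen f l (Λ a s))⁻¹) := by
        intro l
        have h4 : ∀ i : Fin N, Tame (fun s => f i (Λ a s)) ∧ Tame (fun s => (f i (Λ a s))⁻¹) ∧
            Tame (fun s => 1 - f i (Λ a s)) ∧ Tame (fun s => (1 - f i (Λ a s))⁻¹) := by
          intro i
          refine tame_four hSch (c := c) hκ ?_ ?_ ?_ ?_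
          · exact (hf.hol i).comp (isOpen_half c) (hE.lift.diff a) hY
          · intro s hs; simp only [hE.lift.per a s hs]
          · intro s hs; exact hf.ne0 i _ (hY s hs)
          · intro s hs; exact hf.ne1 i _ (hY s hs)
        rcases l with i | i
        · exact ⟨(h4 i).1, (h4 i).2.1⟩
        · exact ⟨(h4 i).2.2.1, (h4 i).2.2.2⟩
      exact Tame.prod Finset.univ (fun l s => gen f l (Λ a s) ^ b l)
        (fun l _ => (hten l).1.zpow (hten l).2 (b l))
    · refine continuousOn_finsetSum _ fun l _ => ?_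
      exact continuousOn_const.mul (hE.holo a l).continuousOn
    · intro s hs
      rw [Complex.exp_sum]
      unfold unit
      refine Finset.prod_congr rfl fun l _ => ?_
      rw [Complex.exp_int_mul, hE.exp a l s hs]
    · intro s hs
      have h1 : ∀ l, (b l : ℂ) * L a l (s + 2 * Real.pi * κ * Complex.I) =
          (b l : ℂ) * L a l s + 2 * Real.pi * Complex.I * ((b l : ℂ) * (w a l : ℂ)) := by
        intro l; rw [hE.per a l s hs]; ring
      simp only [h1, Finset.sum_add_distrib, ← Finset.mul_sum]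
      have h2 : (∑ l, (b l : ℂ) * (w a l : ℂ)) = 0 := by
        have := hb a
        exact_mod_cast this
      rw [h2]; ring
  choose C c' hC using hbd
  obtain ⟨M, hM⟩ := Finite.exists_le (fun a => max c (c' a))
  obtain ⟨K, hK⟩ := Finite.exists_le C
  refine ⟨Real.exp (max c M), K, fun t ht y hy hpy => ?_⟩
  have ht0 : 0 < ‖t‖ := (Real.exp_pos _).trans ht
  have ht1 : t ≠ 0 := norm_pos_iff.1 ht0
  have hre : max c M < (Complex.log t).re := by
    rw [Complex.log_re]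
    exact (Real.lt_log_iff_exp_lt ht0).2 ht
  have hlc : c < (Complex.log t).re := lt_of_le_of_lt (le_max_left _ _) hre
  have hlm : M < (Complex.log t).re := lt_of_le_of_lt (le_max_right _ _) hre
  have h1 : y ∈ Set.range (fun i => Λ i (Complex.log t)) := by
    rw [← hE.lift.fib _ hlc]
    exact ⟨hy, by rw [hpy, Complex.exp_log ht1]⟩
  obtain ⟨a, rfl⟩ := h1
  have h2 : c' a ≤ M := (le_max_right _ _).trans (hM a)
  exact (hC a (Complex.log t) (lt_of_le_of_lt h2 hlm)).trans (hK a)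

/-- a continuous function with finitely many values on a disc is constant there -/
theorem const_of_finite {F : ℂ → ℂ} {A : Set ℂ} (hA : IsPreconnected A) (hF : ContinuousOn F A)
    (S : Finset ℂ) (hS : ∀ t ∈ A, F t ∈ S) : ∀ t ∈ A, ∀ t' ∈ A, F t = F t' := by
  intro t ht t' ht'
  have hT : IsDiscrete (S : Set ℂ) := by
    rw [isDiscrete_iff_discreteTopology]
    infer_instance
  obtain ⟨y, -, hy⟩ := hA.eqOn_const_of_mapsTo hT hF (fun t ht => hS t ht) ⟨F t, hS t ht⟩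
  have e1 : F t = y := hy ht
  have e2 : F t' = y := hy ht'
  rw [e1, e2]

/-- the rank bounds the number of winding independent generators -/
theorem rank_le {m k e N : ℕ} {Y : Set (Fin m → ℂ)}
    {pr : (Fin m → ℂ) → (Fin k → ℂ)} {δ : MvPolynomial (Fin k) ℂ}
    {v : Fin k → ℂ} {c : ℝ} {κ : ℕ} {Λ : Fin e → ℂ → (Fin m → ℂ)}
    {f : Fin N → (Fin m → ℂ) → ℂ} (hf : Omit Y f) {L : Fin e → Fin N ⊕ Fin N → ℂ → ℂ}
    {w : Fin e → Fin N ⊕ Fin N → ℤ} (hE : Ends Y pr δ e v c κ Λ f L w) {s : ℕ}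
    (hFR : FiniteRank Y s) {n : ℕ} (J : Fin n → Fin N ⊕ Fin N)
    (hJ : ∀ b : Fin n → ℤ, (∀ a, ∑ j, b j * w a (J j) = 0) → b = 0) : n ≤ s := by
  classical
  by_contra hcon
  push Not at hcon
  have hns : s + 1 ≤ n := hcon
  obtain ⟨a, ha, h, hh, hexp⟩ := hFR (fun l => gen f (J (Fin.castLE hns l)))
    (fun l => (hf.hol_gen _).continuousOn) (fun l => hf.gen_ne _)
  set b : Fin n → ℤ := fun j => if hj : (j : ℕ) < s + 1 then a ⟨j, hj⟩ else 0 with hb
  have hbl : ∀ l : Fin (s + 1), b (Fin.castLE hns l) = a l := by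
    intro l
    have hl : ((Fin.castLE hns l : Fin n) : ℕ) < s + 1 := by simpa using l.2
    simp only [hb]
    rw [dif_pos hl]
    rfl
  have hsum : ∀ x : Fin n → ℤ, ∑ j, b j * x j = ∑ l, a l * x (Fin.castLE hns l) := by
    intro x
    have h1 : ∑ l, a l * x (Fin.castLE hns l) = ∑ l : Fin (s + 1),
        b (Fin.castLE hns l) * x (Fin.castLE hns l) := by
      refine Finset.sum_congr rfl fun l _ => ?_
      rw [hbl l]
    rw [h1]
    have hinj : Function.Injective (Fin.castLE hns : Fin (s + 1) → Fin n) :=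
      Fin.castLE_injective hns
    rw [← Finset.sum_image (f := fun j => b j * x j) (s := Finset.univ)
      (g := (Fin.castLE hns : Fin (s + 1) → Fin n)) (fun i _ j _ hij => hinj hij)]
    symm
    refine Finset.sum_subset (Finset.subset_univ _) ?_
    intro j _ hj
    have : b j = 0 := by
      simp only [hb]
      split_ifs with h2
      · exfalso
        apply hj
        rw [Finset.mem_image]
        exact ⟨⟨j, h2⟩, Finset.mem_univ _, by ext; simp⟩
      · rfl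
    rw [this, zero_mul]
  have hb0 : b = 0 := by
    refine hJ b fun i => ?_
    rw [hsum (fun j => w i (J j))]
    -- the winding of `h ∘ Λ i`
    have hc1 : ∀ x ∈ {s : ℂ | c < s.re}, ∀ x' ∈ {s : ℂ | c < s.re},
        h (Λ i x) - ∑ l, (a l : ℂ) * L i (J (Fin.castLE hns l)) x =
        h (Λ i x') - ∑ l, (a l : ℂ) * L i (J (Fin.castLE hns l)) x' := by
      refine const_of_exp_one
        (F := fun x => h (Λ i x) - ∑ l, (a l : ℂ) * L i (J (Fin.castLE hns l)) x)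
        (preconn_half c) ?_ ?_
      · refine ContinuousOn.sub ?_ ?_
        · exact hh.comp (hE.lift.diff i).continuousOn (fun x hx => (hE.lift.mem i x hx).1)
        · refine continuousOn_finsetSum _ fun l _ => ?_
          exact continuousOn_const.mul (hE.holo i _).continuousOn
      · intro x hx
        rw [Complex.exp_sub, hexp _ (hE.lift.mem i x hx).1, Complex.exp_sum]
        have h2 : ∏ l, Complex.exp ((a l : ℂ) * L i (J (Fin.castLE hns l)) x) =
            ∏ l, gen f (J (Fin.castLE hns l)) (Λ i x) ^ a l := by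
          refine Finset.prod_congr rfl fun l _ => ?_
          rw [Complex.exp_int_mul, hE.exp i _ x hx]
        rw [h2]
        refine div_self (Finset.prod_ne_zero_iff.2 fun l _ => zpow_ne_zero _ ?_)
        exact hf.gen_ne _ _ (hE.lift.mem i x hx).1
    set x₀ : ℂ := ((c + 1 : ℝ) : ℂ) with hx₀
    have hx0 : c < x₀.re := by simp [hx₀]
    have hx1 : c < (x₀ + 2 * Real.pi * κ * Complex.I).re := by simp [hx₀]
    have h3 := hc1 x₀ hx0 _ hx1
    rw [hE.lift.per i x₀ hx0] at h3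
    have h4 : ∀ l, (a l : ℂ) * L i (J (Fin.castLE hns l)) (x₀ + 2 * Real.pi * κ * Complex.I) =
        (a l : ℂ) * L i (J (Fin.castLE hns l)) x₀ +
          2 * Real.pi * Complex.I * ((a l : ℂ) * (w i (J (Fin.castLE hns l)) : ℂ)) := by
      intro l; rw [hE.per i _ x₀ hx0]; ring
    simp only [h4, Finset.sum_add_distrib, ← Finset.mul_sum] at h3
    have h5 : 2 * Real.pi * Complex.I * (∑ l, (a l : ℂ) * (w i (J (Fin.castLE hns l)) : ℂ)) = 0 := by
      linear_combination h3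
    have h6 : (2 : ℂ) * Real.pi * Complex.I ≠ 0 := Complex.two_pi_I_ne_zero
    have h7 := (mul_eq_zero.1 h5).resolve_left h6
    exact_mod_cast h7
  apply ha
  funext l
  have h1 := congrFun hb0 (Fin.castLE hns l)
  rw [hbl l] at h1
  simpa using h1

/-- relation between logarithmic derivatives along a holomorphic map into `Y` -/
theorem rel_of_const {m N : ℕ} {Y : Set (Fin m → ℂ)} {f : Fin N → (Fin m → ℂ) → ℂ}
    (hf : Omit Y f) {e : ℕ} {w : Fin e → Fin N ⊕ Fin N → ℤ} {y₀ : Fin m → ℂ}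
    (hK : ∀ b : Fin N ⊕ Fin N → ℤ, (∀ a, ∑ l, b l * w a l = 0) → ∀ y ∈ Y, unit f b y = unit f b y₀)
    {n : ℕ} (J : Fin n → Fin N ⊕ Fin N) (q : Fin N ⊕ Fin N → Fin n → ℚ)
    (hq : ∀ l a, (w a l : ℚ) = ∑ j, q l j * w a (J j))
    {O : Set ℂ} (hO : IsOpen O) {lam : ℂ → (Fin m → ℂ)} (hlam : DifferentiableOn ℂ lam O)
    (hlY : ∀ t ∈ O, lam t ∈ Y) (l : Fin N ⊕ Fin N) :
    ∀ t ∈ O, deriv (fun x => gen f l (lam x)) t / gen f l (lam t) =
      ∑ j, (q l j : ℂ) * (deriv (fun x => gen f (J j) (lam x)) t / gen f (J j) (lam t)) := by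
  classical
  intro t ht
  obtain ⟨M, Q, hM, hQ⟩ := clear_denoms (q l)
  set β : Fin N ⊕ Fin N → ℤ := fun l' => (if l' = l then M else 0) -
    ∑ j, if l' = J j then Q j else 0 with hβ
  have hsumR : ∀ (R : Type) [CommRing R] (x : Fin N ⊕ Fin N → R),
      ∑ l', (β l' : R) * x l' = (M : R) * x l - ∑ j, (Q j : R) * x (J j) := by
    intro R _ x
    simp only [hβ, Int.cast_sub, sub_mul, Finset.sum_sub_distrib, Int.cast_sum, Finset.sum_mul]
    congr 1
    · simp
    · rw [Finset.sum_comm]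
      refine Finset.sum_congr rfl fun j _ => ?_
      simp
  have hw : ∀ a, ∑ l', β l' * w a l' = 0 := by
    intro a
    have h1 := hsumR ℤ (fun l' => w a l')
    simp only [Int.cast_id] at h1
    rw [h1]
    have h2 : ((M * w a l - ∑ j, Q j * w a (J j) : ℤ) : ℚ) = 0 := by
      push_cast
      rw [hq l a, Finset.mul_sum, sub_eq_zero]
      refine Finset.sum_congr rfl fun j _ => ?_
      rw [hQ j]; ring
    exact_mod_cast h2
  have h3 := logDeriv_rel (G := fun l' x => gen f l' (lam x)) hO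
    (fun l' => (hf.hol_gen l').comp hO hlam hlY) (fun l' x hx => hf.gen_ne l' _ (hlY x hx)) β
    (unit f β y₀) (fun x hx => hK β hw _ (hlY x hx)) t ht
  have h4 := hsumR ℂ (fun l' => deriv (fun x => gen f l' (lam x)) t / gen f l' (lam t))
  rw [h4] at h3
  have hMc : (M : ℂ) ≠ 0 := by exact_mod_cast hM
  have hQc : ∀ j, (Q j : ℂ) = M * (q l j : ℂ) := by
    intro j
    have := hQ j
    have h5 : (((Q j : ℤ) : ℚ) : ℂ) = (((M : ℤ) * q l j : ℚ) : ℂ) := by rw [this]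
    push_cast at h5
    exact h5
  have h6 : ∑ j, (Q j : ℂ) * (deriv (fun x => gen f (J j) (lam x)) t / gen f (J j) (lam t)) =
      (M : ℂ) * ∑ j, (q l j : ℂ) *
        (deriv (fun x => gen f (J j) (lam x)) t / gen f (J j) (lam t)) := by
    rw [Finset.mul_sum]
    refine Finset.sum_congr rfl fun j _ => ?_
    rw [hQc j]; ring
  rw [h6, ← mul_sub] at h3
  exact sub_eq_zero.1 ((mul_eq_zero.1 h3).resolve_left hMc)

/-- the algebra of the cubic relation -/
theorem cubic_alg (F a b : ℂ) (h0 : F ≠ 0) (h1 : 1 - F ≠ 0) :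
    (-a / (1 - F)) * (b / F - a ^ 2 / F ^ 2) - (a / F) * (-b / (1 - F) - a ^ 2 / (1 - F) ^ 2) -
      (a / F) * (-a / (1 - F)) * ((-a / (1 - F)) - (a / F)) = 0 := by
  field_simp
  ring

/-- the cubic relation along a section -/
theorem cubic_rel {m N : ℕ} {Y : Set (Fin m → ℂ)} {f : Fin N → (Fin m → ℂ) → ℂ}
    (hf : Omit Y f) {n : ℕ} (J : Fin n → Fin N ⊕ Fin N) (q : Fin N ⊕ Fin N → Fin n → ℚ)
    {O : Set ℂ} (hO : IsOpen O) {lam : ℂ → (Fin m → ℂ)} (hlam : DifferentiableOn ℂ lam O)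
    (hlY : ∀ t ∈ O, lam t ∈ Y)
    (hrel : ∀ l, ∀ t ∈ O, deriv (fun x => gen f l (lam x)) t / gen f l (lam t) =
      ∑ j, (q l j : ℂ) * (deriv (fun x => gen f (J j) (lam x)) t / gen f (J j) (lam t)))
    (i : Fin N) : ∀ t ∈ O,
      (∑ j, (q (Sum.inr i) j : ℂ) * om (fun j => gen f (J j)) lam t j) *
        (∑ j, (q (Sum.inl i) j : ℂ) * om' (fun j => gen f (J j)) lam t j) -
      (∑ j, (q (Sum.inl i) j : ℂ) * om (fun j => gen f (J j)) lam t j) *
        (∑ j, (q (Sum.inr i) j : ℂ) * om' (fun j => gen f (J j)) lam t j) -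
      (∑ j, (q (Sum.inl i) j : ℂ) * om (fun j => gen f (J j)) lam t j) *
        (∑ j, (q (Sum.inr i) j : ℂ) * om (fun j => gen f (J j)) lam t j) *
        ((∑ j, (q (Sum.inr i) j : ℂ) * om (fun j => gen f (J j)) lam t j) -
          (∑ j, (q (Sum.inl i) j : ℂ) * om (fun j => gen f (J j)) lam t j)) = 0 := by
  intro t ht
  set u : Fin n → (Fin m → ℂ) → ℂ := fun j => gen f (J j) with hu
  -- sums of `om`
  have hom : ∀ l, ∀ x ∈ O, ∑ j, (q l j : ℂ) * om u lam x j =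
      x * deriv (fun x => gen f l (lam x)) x / gen f l (lam x) := by
    intro l x hx
    rw [mul_div_assoc, hrel l x hx, Finset.mul_sum]
    refine Finset.sum_congr rfl fun j _ => ?_
    simp only [om, hu]; ring
  have hhol : ∀ l, DifferentiableOn ℂ (fun x => gen f l (lam x)) O := fun l =>
    (hf.hol_gen l).comp hO hlam hlY
  have hdd : ∀ l, DifferentiableOn ℂ (deriv (fun x => gen f l (lam x))) O := fun l =>
    (hhol l).deriv hO
  have homd : ∀ j, DifferentiableAt ℂ (fun x => om u lam x j) t := by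
    intro j
    have h1 : DifferentiableAt ℂ (fun x => x * deriv (fun x => gen f (J j) (lam x)) x /
        gen f (J j) (lam x)) t :=
      (differentiableAt_id.mul ((hdd (J j)).differentiableAt (hO.mem_nhds ht))).div
        ((hhol (J j)).differentiableAt (hO.mem_nhds ht)) (hf.gen_ne _ _ (hlY t ht))
    exact h1
  have hom' : ∀ l, ∑ j, (q l j : ℂ) * om' u lam t j =
      t * deriv (fun x => x * deriv (fun x => gen f l (lam x)) x / gen f l (lam x)) t := by
    intro l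
    have hev : (fun x => x * deriv (fun x => gen f l (lam x)) x / gen f l (lam x)) =ᶠ[𝓝 t]
        fun x => ∑ j, (q l j : ℂ) * om u lam x j := by
      filter_upwards [hO.mem_nhds ht] with x hx
      exact (hom l x hx).symm
    rw [hev.deriv_eq]
    have h2 : deriv (fun x => ∑ j, (q l j : ℂ) * om u lam x j) t =
        ∑ j, (q l j : ℂ) * deriv (fun x => om u lam x j) t := by
      rw [deriv_fun_sum (fun j _ => (homd j).const_mul _)]
      refine Finset.sum_congr rfl fun j _ => ?_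
      rw [deriv_const_mul _ (homd j)]
    rw [h2, Finset.mul_sum]
    refine Finset.sum_congr rfl fun j _ => ?_
    simp only [om']; ring
  -- the function `F`
  set F : ℂ → ℂ := fun x => f i (lam x) with hF
  have hFd : DifferentiableOn ℂ F O := (hf.hol i).comp hO hlam hlY
  have hF0 : ∀ x ∈ O, F x ≠ 0 := fun x hx => hf.ne0 i _ (hlY x hx)
  have hF1 : ∀ x ∈ O, 1 - F x ≠ 0 := fun x hx h => hf.ne1 i _ (hlY x hx) (sub_eq_zero.1 h).symm
  have hFd' : DifferentiableOn ℂ (deriv F) O := hFd.deriv hO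
  have hgl : (fun x => gen f (Sum.inl i) (lam x)) = F := rfl
  have hgr : (fun x => gen f (Sum.inr i) (lam x)) = fun x => 1 - F x := rfl
  have hdr : ∀ x, deriv (fun x => 1 - F x) x = - deriv F x := fun x => deriv_const_sub 1
  have hFt : HasDerivAt F (deriv F t) t := (hFd.differentiableAt (hO.mem_nhds ht)).hasDerivAt
  have hF't : HasDerivAt (deriv F) (deriv (deriv F) t) t :=
    (hFd'.differentiableAt (hO.mem_nhds ht)).hasDerivAt
  set a : ℂ := t * deriv F t with ha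
  set b : ℂ := t * (deriv F t + t * deriv (deriv F) t) with hb
  have hprod : HasDerivAt (fun x => x * deriv F x) (deriv F t + t * deriv (deriv F) t) t := by
    have h := (hasDerivAt_id' t).fun_mul hF't
    simpa using h
  have e1 : ∑ j, (q (Sum.inl i) j : ℂ) * om u lam t j = a / F t := by
    rw [hom _ t ht, hgl]; rfl
  have e2 : ∑ j, (q (Sum.inr i) j : ℂ) * om u lam t j = -a / (1 - F t) := by
    rw [hom _ t ht, hgr, hdr]
    have : gen f (Sum.inr i) (lam t) = 1 - F t := rfl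
    rw [this, ha]; ring
  have e3 : ∑ j, (q (Sum.inl i) j : ℂ) * om' u lam t j = b / F t - a ^ 2 / F t ^ 2 := by
    rw [hom']
    have h1 : HasDerivAt (fun x => x * deriv F x / F x)
        (((deriv F t + t * deriv (deriv F) t) * F t - t * deriv F t * deriv F t) / F t ^ 2) t :=
      hprod.div hFt (hF0 t ht)
    have h2 : deriv (fun x => x * deriv (fun x => gen f (Sum.inl i) (lam x)) x /
        gen f (Sum.inl i) (lam x)) t = _ := h1.deriv
    rw [h2, ha, hb]
    have := hF0 t ht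
    field_simp
  have e4 : ∑ j, (q (Sum.inr i) j : ℂ) * om' u lam t j =
      -b / (1 - F t) - a ^ 2 / (1 - F t) ^ 2 := by
    rw [hom']
    have h3 : (fun x => x * deriv (fun x => gen f (Sum.inr i) (lam x)) x /
        gen f (Sum.inr i) (lam x)) = fun x => -(x * deriv F x) / (1 - F x) := by
      funext x
      rw [hgr, hdr]
      have : gen f (Sum.inr i) (lam x) = 1 - F x := rfl
      rw [this]; ring
    have h1 : HasDerivAt (fun x => -(x * deriv F x) / (1 - F x))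
        ((-(deriv F t + t * deriv (deriv F) t) * (1 - F t) - -(t * deriv F t) * (-deriv F t)) /
          (1 - F t) ^ 2) t := by
      have h4 : HasDerivAt (fun x => 1 - F x) (-deriv F t) t := by
        simpa using hFt.const_sub 1
      exact hprod.neg.div h4 (hF1 t ht)
    rw [h3, h1.deriv, ha, hb]
    have := hF1 t ht
    field_simp
  rw [e1, e2, e3, e4]
  exact cubic_alg (F t) a b (hF0 t ht) (hF1 t ht)

theorem dE_diff {n : ℕ} (m₁ n₁ μ ν : Fin n → ℂ) :
    Differentiable ℂ (fun p : (Fin n → ℂ) × (Fin n → ℂ) => dE m₁ n₁ μ ν p.1 p.2) := by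
  unfold dE
  fun_prop

/-- equal windings give proportional generators -/
theorem quot_const {m N : ℕ} {Y : Set (Fin m → ℂ)} {f : Fin N → (Fin m → ℂ) → ℂ}
    (hf : Omit Y f) {e : ℕ} {w : Fin e → Fin N ⊕ Fin N → ℤ} {y₀ : Fin m → ℂ}
    (hK : ∀ b : Fin N ⊕ Fin N → ℤ, (∀ a, ∑ l, b l * w a l = 0) → ∀ y ∈ Y, unit f b y = unit f b y₀)
    (l l' : Fin N ⊕ Fin N) (hw : ∀ a, w a l = w a l') :
    ∃ C : ℂ, ∀ y ∈ Y, gen f l y = C * gen f l' y := by
  classical
  set b : Fin N ⊕ Fin N → ℤ := fun x => (if x = l then 1 else 0) - (if x = l' then 1 else 0)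
    with hb
  have h1 : ∀ a, ∑ x, b x * w a x = 0 := by
    intro a
    simp only [hb, sub_mul, Finset.sum_sub_distrib, ite_mul, one_mul, zero_mul,
      Finset.sum_ite_eq', Finset.mem_univ, if_true]
    rw [hw a, sub_self]
  have h2 : ∀ y ∈ Y, unit f b y = gen f l y / gen f l' y := by
    intro y hy
    have h3 : unit f b y = ∏ x, (gen f x y ^ (if x = l then (1 : ℤ) else 0) /
        gen f x y ^ (if x = l' then (1 : ℤ) else 0)) := by
      unfold unit
      refine Finset.prod_congr rfl fun x _ => ?_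
      simp only [hb]
      rw [zpow_sub₀ (hf.gen_ne x y hy)]
    have h4 : ∀ l₀ : Fin N ⊕ Fin N, ∏ x, gen f x y ^ (if x = l₀ then (1 : ℤ) else 0) =
        gen f l₀ y := by
      intro l₀
      have h5 : ∀ x, gen f x y ^ (if x = l₀ then (1 : ℤ) else 0) =
          if x = l₀ then gen f x y else 1 := by
        intro x
        split_ifs <;> simp
      simp only [h5]
      rw [Finset.prod_ite_eq' Finset.univ l₀ (fun x => gen f x y)]
      simp
    rw [h3, Finset.prod_div_distrib, h4 l, h4 l']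
  refine ⟨unit f b y₀, fun y hy => ?_⟩
  have h3 := hK b h1 y hy
  rw [h2 y hy] at h3
  rw [← h3, div_mul_cancel₀ _ (hf.gen_ne l' y hy)]

theorem z_inj {m N : ℕ} {Y : Set (Fin m → ℂ)} {f : Fin N → (Fin m → ℂ) → ℂ}
    (hf : Omit Y f) {e : ℕ} {w : Fin e → Fin N ⊕ Fin N → ℤ} {y₀ : Fin m → ℂ}
    (hK : ∀ b : Fin N ⊕ Fin N → ℤ, (∀ a, ∑ l, b l * w a l = 0) → ∀ y ∈ Y, unit f b y = unit f b y₀)
    (hnc : ∀ i, ∃ a ∈ Y, ∃ b ∈ Y, f i a ≠ f i b) (hdist : ∀ i j, i ≠ j → ∃ y ∈ Y, f i y ≠ f j y)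
    {n : ℕ} (J : Fin n → Fin N ⊕ Fin N) (q : Fin N ⊕ Fin N → Fin n → ℚ)
    (hq : ∀ l a, (w a l : ℚ) = ∑ j, q l j * w a (J j)) :
    Function.Injective (fun i : Fin N =>
      (Sum.elim (fun j => (q (Sum.inl i) j : ℂ)) (fun j => (q (Sum.inr i) j : ℂ)) :
        Fin n ⊕ Fin n → ℂ)) := by
  intro i i' h
  by_contra hne
  have hl : ∀ j, q (Sum.inl i) j = q (Sum.inl i') j := by
    intro j
    have := congrFun h (Sum.inl j)
    simpa using this
  have hr : ∀ j, q (Sum.inr i) j = q (Sum.inr i') j := by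
    intro j
    have := congrFun h (Sum.inr j)
    simpa using this
  have hwl : ∀ a, w a (Sum.inl i) = w a (Sum.inl i') := by
    intro a
    have h1 : (w a (Sum.inl i) : ℚ) = w a (Sum.inl i') := by
      rw [hq, hq]
      exact Finset.sum_congr rfl fun j _ => by rw [hl j]
    exact_mod_cast h1
  have hwr : ∀ a, w a (Sum.inr i) = w a (Sum.inr i') := by
    intro a
    have h1 : (w a (Sum.inr i) : ℚ) = w a (Sum.inr i') := by
      rw [hq, hq]
      exact Finset.sum_congr rfl fun j _ => by rw [hr j]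
    exact_mod_cast h1
  obtain ⟨C, hC⟩ := quot_const hf hK _ _ hwl
  obtain ⟨C', hC'⟩ := quot_const hf hK _ _ hwr
  have hC1 : ∀ y ∈ Y, f i y = C * f i' y := hC
  have hC2 : ∀ y ∈ Y, 1 - f i y = C' * (1 - f i' y) := hC'
  obtain ⟨a, ha, b, hb, hab⟩ := hnc i'
  have h1 : (C - C') * (f i' a - f i' b) = 0 := by
    have e1 := hC1 a ha
    have e2 := hC2 a ha
    have e3 := hC1 b hb
    have e4 := hC2 b hb
    linear_combination -e1 - e2 + e3 + e4
  have h2 : C = C' := sub_eq_zero.1 ((mul_eq_zero.1 h1).resolve_right (sub_ne_zero.2 hab))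
  have h3 : C = 1 := by
    have e1 := hC1 a ha
    have e2 := hC2 a ha
    rw [← h2] at e2
    linear_combination -e1 - e2
  obtain ⟨y, hy, hne'⟩ := hdist i i' hne
  apply hne'
  rw [hC1 y hy, h3, one_mul]

/-- the generators are nonconstant along each end -/
theorem end_nonconst {m k e N : ℕ} {Y : Set (Fin m → ℂ)}
    {pr : (Fin m → ℂ) → (Fin k → ℂ)} {δ : MvPolynomial (Fin k) ℂ} (hcov : Cov Y pr δ e)
    {v : Fin k → ℂ} {c : ℝ} {κ : ℕ} {Λ : Fin e → ℂ → (Fin m → ℂ)}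
    {f : Fin N → (Fin m → ℂ) → ℂ} (hf : Omit Y f) {L : Fin e → Fin N ⊕ Fin N → ℂ → ℂ}
    {w : Fin e → Fin N ⊕ Fin N → ℤ} (hE : Ends Y pr δ e v c κ Λ f L w)
    (y₀ : Yo Y pr δ)
    (hreach : ∀ (w : Yo Y pr δ) (t : ℂ), pr w.1 = t • v → EndsAt (qY Y pr δ) y₀ w v t)
    {r₀ : ℝ} (hr₀ : 0 < r₀) {σ₀ : ℂ → (Fin m → ℂ)} (hσ₀ : LSec Y pr v (ball 0 r₀) σ₀)
    (hδ₀ : ∀ t ∈ ball (0 : ℂ) r₀, MvPolynomial.eval (t • v) δ ≠ 0) (i : Fin N)
    (hnc : ∃ t ∈ ball (0 : ℂ) r₀, f i (σ₀ t) ≠ f i (σ₀ 0)) (a : Fin e) :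
    ∃ s : ℂ, c < s.re ∧ deriv (fun x => f i (Λ a x)) s ≠ 0 := by
  by_contra hcon
  push Not at hcon
  obtain ⟨t₁, ht₁, hne⟩ := hnc
  set l : Fin N ⊕ Fin N := Sum.inl i with hl
  set u : Fin 1 → (Fin m → ℂ) → ℂ := fun _ => gen f l with hu
  set s₁ : ℂ := ((c + 1 : ℝ) : ℂ) with hs₁
  have hs1 : c < s₁.re := by simp [hs₁]
  obtain ⟨U, ℓ, σ, hU, hsU, hℓ, hℓc, hσ, hδU, homU, -⟩ := end_section hE.lift a u
    (fun _ => L a l) (fun _ => hE.holo a l) (fun _ s hs => hE.exp a l s hs) s₁ hs1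
  -- the logarithm has zero derivative
  have hLd : ∀ s : ℂ, c < s.re → deriv (L a l) s = 0 := by
    intro s hs
    have hd : HasDerivAt (L a l) (deriv (L a l) s) s :=
      ((hE.holo a l).differentiableAt ((isOpen_half c).mem_nhds hs)).hasDerivAt
    have h1 := hd.cexp
    have hev : (fun x => Complex.exp (L a l x)) =ᶠ[𝓝 s] fun x => f i (Λ a x) := by
      filter_upwards [(isOpen_half c).mem_nhds hs] with x hx
      exact hE.exp a l x hx
    have h2 : deriv (fun x => Complex.exp (L a l x)) s = 0 := by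
      rw [hev.deriv_eq]; exact hcon s hs
    rw [h1.deriv] at h2
    exact (mul_eq_zero.1 h2).resolve_left (Complex.exp_ne_zero _)
  have key := persist Y pr δ hcov v y₀ hreach u (fun _ => hf.hol_gen l) (fun _ => hf.gen_ne l)
    (fun w _ => w 0) (by fun_prop) hU ⟨_, hsU⟩ (isOpen_ball (x := (0 : ℂ)) (ε := r₀)) σ σ₀ hσ hσ₀
    hδU hδ₀ (fun t ht => by
      rw [homU t ht]
      exact hLd _ (hℓc t ht))
  -- hence `f i ∘ σ₀` has zero derivative off `0`
  set F : ℂ → ℂ := fun x => f i (σ₀ x) with hF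
  have hFd : DifferentiableOn ℂ F (ball 0 r₀) :=
    (hf.hol i).comp isOpen_ball hσ₀.1 (fun t ht => (hσ₀.2 t ht).1)
  have hz : ∀ t ∈ ball (0 : ℂ) r₀, t ≠ 0 → deriv F t = 0 := by
    intro t ht ht0
    have h1 := key t ht
    simp only [om, hu] at h1
    have h2 : gen f l (σ₀ t) ≠ 0 := hf.gen_ne l _ (hσ₀.2 t ht).1
    have h3 := (div_eq_zero_iff.1 h1).resolve_right h2
    exact (mul_eq_zero.1 h3).resolve_left ht0
  have hFc : ContinuousOn (deriv F) (ball 0 r₀) := (hFd.deriv isOpen_ball).continuousOn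
  have hz0 : ∀ t ∈ ball (0 : ℂ) r₀, deriv F t = 0 := by
    intro t ht
    by_cases ht0 : t = 0
    · subst ht0
      have hcat : ContinuousAt (deriv F) 0 := hFc.continuousAt (isOpen_ball.mem_nhds ht)
      have h1 : Filter.Tendsto (deriv F) (𝓝[≠] (0 : ℂ)) (𝓝 (deriv F 0)) :=
        hcat.tendsto.mono_left nhdsWithin_le_nhds
      have h2 : Filter.Tendsto (deriv F) (𝓝[≠] (0 : ℂ)) (𝓝 0) := by
        refine Filter.Tendsto.congr' ?_ tendsto_const_nhds
        filter_upwards [self_mem_nhdsWithin, mem_nhdsWithin_of_mem_nhds (isOpen_ball.mem_nhds ht)]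
          with x hx hx2
        exact (hz x hx2 hx).symm
      exact tendsto_nhds_unique h1 h2
    · exact hz t ht ht0
  apply hne
  exact isOpen_ball.is_const_of_deriv_eq_zero (convex_ball (0 : ℂ) r₀).isPreconnected hFd hz0 ht₁
    (mem_ball_self hr₀)

theorem main_bound (hSch : SchottkyStm) {m N : ℕ} {Y : Set (Fin m → ℂ)} (hY : IsAlg Y)
    (hS : IsSmooth Y) (hC : IsConnected Y) {s : ℕ} (hFR : FiniteRank Y s)
    (f : Fin N → (Fin m → ℂ) → ℂ) (hf : Omit Y f)
    (hnc : ∀ i, ∃ a ∈ Y, ∃ b ∈ Y, f i a ≠ f i b)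
    (hdist : ∀ i j, i ≠ j → ∃ y ∈ Y, f i y ≠ f j y) : N ≤ (6 * s + 1) ^ (2 * s) := by
  classical
  obtain ⟨k, pr, δ, e, he, hcov⟩ := package hY hS hC
  obtain ⟨D, r, hD, hr⟩ := generic_alg δ hcov.base
  have hgen := generic_stable δ D r hr
  obtain ⟨y₀, hy₀⟩ := base_point he hcov
  have hbert := bertini_of hS hC hcov y₀ hy₀
  -- the line
  obtain ⟨v, hv, r₀, hr₀, σ₀, hσ₀, hσ00, hδ₀, hsep⟩ := choose_v Y pr δ hcov (hid_of hS hC) D hD
    y₀.1 y₀.2.1 hy₀
    (ι := {b : Fin N ⊕ Fin N → ℤ // ∃ y ∈ Y, unit f b y ≠ unit f b y₀.1})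
    (fun b => unit f b.1) (fun b => hf.hol_unit b.1) (fun b => b.2)
  have hK1 : ∀ b : Fin N ⊕ Fin N → ℤ, (∀ t ∈ ball (0 : ℂ) r₀, unit f b (σ₀ t) = unit f b y₀.1) →
      ∀ y ∈ Y, unit f b y = unit f b y₀.1 := by
    intro b hb
    by_contra hcon
    push Not at hcon
    obtain ⟨t, ht, hne⟩ := hsep ⟨b, hcon⟩
    exact hne (hb t ht)
  have hreach := reach Y pr δ hcov y₀ hy₀ v (fun t ht => stable_smul δ v (hgen v hv) t ht) hbert
  obtain ⟨c, κ, Λ, L, w, hE⟩ := ends_exist hcov v hf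
  have hσY : ∀ t ∈ ball (0 : ℂ) r₀, σ₀ t ∈ Y := fun t ht => (hσ₀.2 t ht).1
  have hK : ∀ b : Fin N ⊕ Fin N → ℤ, (∀ a, ∑ l, b l * w a l = 0) →
      ∀ y ∈ Y, unit f b y = unit f b y₀.1 := by
    intro b hb
    obtain ⟨S, hSf⟩ := unit_finite hSch hcov hf hE b hb
    refine hK1 b fun t ht => ?_
    have h1 := const_of_finite (F := fun t => unit f b (σ₀ t))
      (convex_ball (0 : ℂ) r₀).isPreconnected
      ((hf.hol_unit b).comp isOpen_ball hσ₀.1 hσY).continuousOn S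
      (fun t ht => hSf t (hδ₀ t ht) _ (hσY t ht) (hσ₀.2 t ht).2) t ht 0 (mem_ball_self hr₀)
    simp only [hσ00] at h1
    exact h1
  obtain ⟨n, J, q, hJinj, hJ, hq⟩ := basis_choice w
  have hns : n ≤ s := rank_le hf hE hFR J hJ
  have hzi := z_inj hf hK hnc hdist J q hq
  set z : Fin N → (Fin n ⊕ Fin n) → ℂ := fun i =>
    Sum.elim (fun j => (q (Sum.inl i) j : ℂ)) (fun j => (q (Sum.inr i) j : ℂ)) with hz
  set u : Fin n → (Fin m → ℂ) → ℂ := fun j => gen f (J j) with hu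
  have hu1 : ∀ j, HolOn Y (u j) := fun j => hf.hol_gen _
  have hu0 : ∀ j, ∀ y ∈ Y, u j y ≠ 0 := fun j => hf.gen_ne _
  set Q : {t : ℂ // t ∈ ball (0 : ℂ) r₀} → MvPolynomial (Fin n ⊕ Fin n) ℂ := fun t =>
    Epol (om u σ₀ t.1) (om' u σ₀ t.1) with hQ
  have hrel0 := fun l => rel_of_const hf hK J q hq isOpen_ball hσ₀.1 hσY l
  have hcount : N ≤ (3 * Fintype.card (Fin n ⊕ Fin n) + 1) ^ Fintype.card (Fin n ⊕ Fin n) := by
    refine count_general (τ := Fin n ⊕ Fin n)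
      (fun Q hdeg z hz h0 hnd => count_square Q hdeg z hz h0 hnd) Q
      (fun t => (Epol_props _ _).1) z hzi ?_ ?_
    · intro i t
      simp only [hQ, hz]
      rw [(Epol_props _ _).2.1]
      exact cubic_rel hf J q isOpen_ball hσ₀.1 hσY hrel0 i t.1 t.2
    · intro i ξ hξ
      set μ : Fin n → ℂ := fun j => ξ (Sum.inl j) with hμ
      set ν : Fin n → ℂ := fun j => ξ (Sum.inr j) with hν
      have hξe : ξ = Sum.elim μ ν := by
        funext x
        rcases x with j | j <;> rfl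
      set m₁ : Fin n → ℂ := fun j => (q (Sum.inl i) j : ℂ) with hm₁
      set n₁ : Fin n → ℂ := fun j => (q (Sum.inr i) j : ℂ) with hn₁
      have hdE0 : ∀ t ∈ ball (0 : ℂ) r₀, dE m₁ n₁ μ ν (om u σ₀ t) (om' u σ₀ t) = 0 := by
        intro t ht
        have h1 := hξ ⟨t, ht⟩
        rw [hξe] at h1
        simp only [hQ, hz] at h1
        rw [(Epol_props (om u σ₀ t) (om' u σ₀ t)).2.2] at h1
        exact h1
      have hend : ∀ a : Fin e, ∀ s₁ : ℂ, c < s₁.re →
          dE m₁ n₁ μ ν (fun j => deriv (L a (J j)) s₁)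
            (fun j => deriv (deriv (L a (J j))) s₁) = 0 := by
        intro a s₁ hs₁
        obtain ⟨U, ℓ, σ, hU, hsU, hℓ, hℓc, hσ, hδU, homU, homU'⟩ := end_section hE.lift a u
          (fun j => L a (J j)) (fun j => hE.holo a (J j))
          (fun j s hs => hE.exp a (J j) s hs) s₁ hs₁
        have key := persist Y pr δ hcov v y₀ hreach u hu1 hu0 (dE m₁ n₁ μ ν)
          (dE_diff m₁ n₁ μ ν) isOpen_ball ⟨0, mem_ball_self hr₀⟩ hU σ₀ σ hσ₀ hσ hδ₀ hδU hdE0
          (Complex.exp s₁) hsU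
        rw [homU _ hsU, homU' _ hsU, hℓ] at key
        exact key
      have hper : ∀ a : Fin e, ∑ j, μ j * (2 * Real.pi * Complex.I * (w a (J j) : ℂ)) = 0 ∧
          ∑ j, ν j * (2 * Real.pi * Complex.I * (w a (J j) : ℂ)) = 0 := by
        intro a
        have hΛY : ∀ s ∈ {s : ℂ | c < s.re}, Λ a s ∈ Y := fun s hs => (hE.lift.mem a s hs).1
        have hrelΛ := fun l => rel_of_const hf hK J q hq (isOpen_half c) (hE.lift.diff a) hΛY l
        have hLder : ∀ (l : Fin N ⊕ Fin N) (s : ℂ), c < s.re →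
            deriv (L a l) s = deriv (fun x => gen f l (Λ a x)) s / gen f l (Λ a s) := by
          intro l s hs
          have hd : HasDerivAt (L a l) (deriv (L a l) s) s :=
            ((hE.holo a l).differentiableAt ((isOpen_half c).mem_nhds hs)).hasDerivAt
          have hev : (fun x => gen f l (Λ a x)) =ᶠ[𝓝 s] fun x => Complex.exp (L a l x) := by
            filter_upwards [(isOpen_half c).mem_nhds hs] with x hx
            exact (hE.exp a l x hx).symm
          rw [hev.deriv_eq, hd.cexp.deriv, ← hE.exp a l s hs]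
          rw [mul_comm, mul_div_assoc, div_self (Complex.exp_ne_zero _), mul_one]
        have hncσ : ∃ t ∈ ball (0 : ℂ) r₀, f i (σ₀ t) ≠ f i (σ₀ 0) := by
          by_contra hcon
          push Not at hcon
          have hb : ∀ y ∈ Y, unit f (fun x => if x = Sum.inl i then 1 else 0) y = f i y := by
            intro y _
            unfold unit
            have h5 : ∀ x, gen f x y ^ (if x = Sum.inl i then (1 : ℤ) else 0) =
                if x = Sum.inl i then gen f x y else 1 := by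
              intro x
              split_ifs <;> simp
            simp only [h5]
            rw [Finset.prod_ite_eq' Finset.univ (Sum.inl i) (fun x => gen f x y)]
            simp [gen]
          have h6 := hK1 (fun x => if x = Sum.inl i then 1 else 0) (fun t ht => by
            rw [hb _ (hσY t ht), hb _ y₀.2.1, hcon t ht, hσ00])
          obtain ⟨x, hx, y, hy, hxy⟩ := hnc i
          apply hxy
          rw [← hb x hx, ← hb y hy, h6 x hx, h6 y hy]
        refine period_lemma hE.lift.pos (fun x => f i (Λ a x)) (fun j => L a (J j)) m₁ n₁ μ ν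
          (fun j => 2 * Real.pi * Complex.I * (w a (J j) : ℂ)) (c := c) ?_ ?_ ?_ ?_ ?_ ?_ ?_ ?_ ?_ ?_
        · exact (hf.hol i).comp (isOpen_half c) (hE.lift.diff a) hΛY
        · exact fun j => hE.holo a (J j)
        · intro s hs
          simp only [hE.lift.per a s hs]
        · exact fun j s hs => hE.per a (J j) s hs
        · exact fun s hs => hf.ne0 i _ (hΛY s hs)
        · exact fun s hs => hf.ne1 i _ (hΛY s hs)
        · exact end_nonconst hcov hf hE y₀ hreach hr₀ hσ₀ hδ₀ i hncσ a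
        · intro s hs
          have h1 := hrelΛ (Sum.inl i) s hs
          have h2 : deriv (fun x => gen f (Sum.inl i) (Λ a x)) s / gen f (Sum.inl i) (Λ a s) =
              deriv (fun x => f i (Λ a x)) s / f i (Λ a s) := rfl
          rw [← h2, h1]
          refine Finset.sum_congr rfl fun j _ => ?_
          rw [hLder (J j) s hs]
        · intro s hs
          have h1 := hrelΛ (Sum.inr i) s hs
          have h2 : deriv (fun x => gen f (Sum.inr i) (Λ a x)) s / gen f (Sum.inr i) (Λ a s) =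
              -deriv (fun x => f i (Λ a x)) s / (1 - f i (Λ a s)) := by
            have h3 : (fun x => gen f (Sum.inr i) (Λ a x)) = fun x => 1 - f i (Λ a x) := rfl
            rw [h3, deriv_const_sub]
            rfl
          rw [← h2, h1]
          refine Finset.sum_congr rfl fun j _ => ?_
          rw [hLder (J j) s hs]
        · intro s hs
          exact hend a s hs
      have h2pi : (2 : ℂ) * Real.pi * Complex.I ≠ 0 := Complex.two_pi_I_ne_zero
      have hzero : ∀ μ' : Fin n → ℂ,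
          (∀ a : Fin e, ∑ j, μ' j * (2 * Real.pi * Complex.I * (w a (J j) : ℂ)) = 0) → μ' = 0 := by
        intro μ' hμ'
        refine int_kernel (fun a j => w a (J j)) hJ μ' fun a => ?_
        have h1 := hμ' a
        have h3 : ∑ j, μ' j * (2 * Real.pi * Complex.I * (w a (J j) : ℂ)) =
            2 * Real.pi * Complex.I * ∑ j, μ' j * (w a (J j) : ℂ) := by
          rw [Finset.mul_sum]
          exact Finset.sum_congr rfl fun j _ => by ring
        rw [h3] at h1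
        exact (mul_eq_zero.1 h1).resolve_left h2pi
      have hμ0 := hzero μ fun a => (hper a).1
      have hν0 := hzero ν fun a => (hper a).2
      rw [hξe, hμ0, hν0]
      funext x
      rcases x with j | j <;> rfl
  have hcard : Fintype.card (Fin n ⊕ Fin n) = 2 * n := by
    simp [two_mul]
  rw [hcard] at hcount
  refine hcount.trans ?_
  calc (3 * (2 * n) + 1) ^ (2 * n) ≤ (6 * s + 1) ^ (2 * n) :=
        Nat.pow_le_pow_left (by omega) _
    _ ≤ (6 * s + 1) ^ (2 * s) := Nat.pow_le_pow_right (by omega) (by omega)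

/-! ### Transfer of the rank and the final count -/

theorem transfer_rank {n m : ℕ} {X : Set (Fin n → ℂ)} {Y : Set (Fin m → ℂ)} (φ : ↥X ≃ₜ ↥Y)
    {s : ℕ} (h : FiniteRank X s) : FiniteRank Y s := by
  classical
  intro g hg hg0
  set g' : Fin (s + 1) → (Fin n → ℂ) → ℂ := fun l x =>
    if hx : x ∈ X then g l (φ ⟨x, hx⟩).1 else 1 with hg'
  have hg'X : ∀ l (x : ↥X), g' l x.1 = g l (φ x).1 := by
    intro l x
    simp only [hg']
    rw [dif_pos x.2]
  have hc : ∀ l, ContinuousOn (g' l) X := by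
    intro l
    rw [continuousOn_iff_continuous_domRestrict]
    have h1 : X.domRestrict (g' l) = fun x : ↥X => Y.domRestrict (g l) (φ x) := by
      funext x
      exact hg'X l x
    rw [h1]
    exact (continuousOn_iff_continuous_domRestrict.1 (hg l)).comp φ.continuous
  have h0 : ∀ l, ∀ x ∈ X, g' l x ≠ 0 := by
    intro l x hx
    rw [hg'X l ⟨x, hx⟩]
    exact hg0 l _ (φ ⟨x, hx⟩).2
  obtain ⟨a, ha, H, hH, hexp⟩ := h g' hc h0
  refine ⟨a, ha, fun y => if hy : y ∈ Y then H (φ.symm ⟨y, hy⟩).1 else 0, ?_, ?_⟩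
  · rw [continuousOn_iff_continuous_domRestrict]
    have h1 : Y.domRestrict (fun y => if hy : y ∈ Y then H (φ.symm ⟨y, hy⟩).1 else 0) =
        fun y : ↥Y => X.domRestrict H (φ.symm y) := by
      funext y
      simp only [Set.domRestrict_apply]
      rw [dif_pos y.2]
    rw [h1]
    exact (continuousOn_iff_continuous_domRestrict.1 hH).comp φ.symm.continuous
  · intro y hy
    simp only []
    rw [dif_pos hy, hexp _ (φ.symm ⟨y, hy⟩).2]
    refine Finset.prod_congr rfl fun l _ => ?_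
    rw [hg'X l (φ.symm ⟨y, hy⟩), Homeomorph.apply_symm_apply]

theorem final_bound (hSch : SchottkyStm) {m : ℕ} {Y : Set (Fin m → ℂ)} (hY : IsAlg Y)
    (hS : IsSmooth Y) (hC : IsConnected Y) {s : ℕ} (hFR : FiniteRank Y s) :
    {g : ↥Y → ℂ | (∀ y, g y ≠ 0 ∧ g y ≠ 1) ∧ (∃ a b, g a ≠ g b) ∧
        ∀ p : ↥Y, ∃ U : Set (Fin m → ℂ), IsOpen U ∧ (p : Fin m → ℂ) ∈ U ∧
          ∃ h : (Fin m → ℂ) → ℂ, DifferentiableOn ℂ h U ∧
            ∀ y : ↥Y, (y : Fin m → ℂ) ∈ U → h y = g y}.encard ≤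
      (((6 * s + 1) ^ (2 * s) : ℕ) : ℕ∞) := by
  classical
  by_contra hcon
  push Not at hcon
  set B : ℕ := (6 * s + 1) ^ (2 * s) with hB
  set A : Set (↥Y → ℂ) := {g : ↥Y → ℂ | (∀ y, g y ≠ 0 ∧ g y ≠ 1) ∧ (∃ a b, g a ≠ g b) ∧
        ∀ p : ↥Y, ∃ U : Set (Fin m → ℂ), IsOpen U ∧ (p : Fin m → ℂ) ∈ U ∧
          ∃ h : (Fin m → ℂ) → ℂ, DifferentiableOn ℂ h U ∧
            ∀ y : ↥Y, (y : Fin m → ℂ) ∈ U → h y = g y} with hA
  have h1 : ((B + 1 : ℕ) : ℕ∞) ≤ A.encard := by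
    have h2 := Order.add_one_le_of_lt hcon
    exact_mod_cast h2
  obtain ⟨T, hTA, hT⟩ := Set.exists_subset_encard_eq h1
  have hTf : T.Finite := Set.finite_of_encard_eq_coe hT
  have : Finite ↥T := hTf
  have hcard : Nat.card ↥T = B + 1 := by
    rw [Nat.card_coe_set_eq, Set.ncard, hT]
    rfl
  set E : Fin (B + 1) ≃ ↥T := (Finite.equivFinOfCardEq hcard).symm with hE
  set f : Fin (B + 1) → (Fin m → ℂ) → ℂ := fun i y =>
    if hy : y ∈ Y then (E i).1 ⟨y, hy⟩ else 2 with hf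
  have hfY : ∀ i (y : ↥Y), f i y.1 = (E i).1 y := by
    intro i y
    simp only [hf]
    rw [dif_pos y.2]
  have hmem : ∀ i, (E i).1 ∈ A := fun i => hTA (E i).2
  have hom : Omit Y f := by
    refine ⟨?_, ?_, ?_⟩
    · intro i p hp
      obtain ⟨U, hU, hpU, h, hh, hhg⟩ := (hmem i).2.2 ⟨p, hp⟩
      exact ⟨U, hU, hpU, h, hh, fun y hy hyU => by rw [hfY i ⟨y, hy⟩]; exact hhg ⟨y, hy⟩ hyU⟩
    · intro i y hy
      rw [hfY i ⟨y, hy⟩]
      exact ((hmem i).1 _).1
    · intro i y hy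
      rw [hfY i ⟨y, hy⟩]
      exact ((hmem i).1 _).2
  have key := main_bound hSch hY hS hC hFR f hom
    (fun i => by
      obtain ⟨a, b, hab⟩ := (hmem i).2.1
      exact ⟨a.1, a.2, b.1, b.2, by rw [hfY, hfY]; exact hab⟩)
    (fun i j hij => by
      by_contra hall
      push Not at hall
      apply hij
      apply E.injective
      apply Subtype.ext
      funext y
      rw [← hfY, ← hfY]
      exact hall y.1 y.2)
  rw [← hB] at key
  omega

theorem gorin (hSch : SchottkyStm) :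
  ∀ (n : ℕ) (X : Set (Fin n → ℂ)),
    (∃ S : Set (MvPolynomial (Fin n) ℂ), X = {x | ∀ P ∈ S, MvPolynomial.eval x P = 0}) →
    (∀ p ∈ X, ∃ U : Set (Fin n → ℂ), IsOpen U ∧ p ∈ U ∧
      ∃ (k : ℕ) (F : (Fin n → ℂ) → (Fin k → ℂ)), DifferentiableOn ℂ F U ∧
        (∀ x ∈ U, Function.Surjective ⇑(fderiv ℂ F x)) ∧ X ∩ U = U ∩ F ⁻¹' {0}) →
    IsConnected X →
    ∃ B : ℕ, ∀ (m : ℕ) (Y : Set (Fin m → ℂ)),
      (∃ S : Set (MvPolynomial (Fin m) ℂ), Y = {y | ∀ P ∈ S, MvPolynomial.eval y P = 0}) →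
      (∀ p ∈ Y, ∃ U : Set (Fin m → ℂ), IsOpen U ∧ p ∈ U ∧
        ∃ (k : ℕ) (F : (Fin m → ℂ) → (Fin k → ℂ)), DifferentiableOn ℂ F U ∧
          (∀ x ∈ U, Function.Surjective ⇑(fderiv ℂ F x)) ∧ Y ∩ U = U ∩ F ⁻¹' {0}) →
      IsConnected Y →
      Nonempty (↥X ≃ₜ ↥Y) →
      {g : ↥Y → ℂ | (∀ y, g y ≠ 0 ∧ g y ≠ 1) ∧ (∃ a b, g a ≠ g b) ∧
        ∀ p : ↥Y, ∃ U : Set (Fin m → ℂ), IsOpen U ∧ (p : Fin m → ℂ) ∈ U ∧
          ∃ h : (Fin m → ℂ) → ℂ, DifferentiableOn ℂ h U ∧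
            ∀ y : ↥Y, (y : Fin m → ℂ) ∈ U → h y = g y}.encard ≤ (B : ℕ∞) := by
  intro n X hX hXs hXc
  obtain ⟨s, hs⟩ := finite_rank hX hXs hXc
  refine ⟨(6 * s + 1) ^ (2 * s), fun m Y hY hYs hYc hXY => ?_⟩
  obtain ⟨φ⟩ := hXY
  exact final_bound hSch hY hYs hYc (transfer_rank φ hs)

end H113G
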