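import Pool.Agent.Helper113.Gorin.Defs

set_option autoImplicit false

open Metric Set Topology

namespace H113G



/-- the gradient at a point, as a linear map -/
noncomputable def cgD {τ : Type} [Fintype τ] [DecidableEq τ] (z : τ → ℂ) :
    MvPolynomial τ ℂ →ₗ[ℂ] (τ → ℂ) where
  toFun P := fun j => MvPolynomial.eval z (MvPolynomial.pderiv j P)
  map_add' P P' := by ext j; simp
  map_smul' c P := by ext j; simp [MvPolynomial.smul_eval]

theorem cgD_apply {τ : Type} [Fintype τ] [DecidableEq τ] (z : τ → ℂ) (P : MvPolynomial τ ℂ)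
    (j : τ) : cgD z P j = MvPolynomial.eval z (MvPolynomial.pderiv j P) := rfl

theorem cg_surj {τ : Type} [Fintype τ] [DecidableEq τ] {ι : Type} (Q : ι → MvPolynomial τ ℂ)
    (z : τ → ℂ) (hnd : ∀ ξ : τ → ℂ,
      (∀ α, ∑ j, ξ j * MvPolynomial.eval z (MvPolynomial.pderiv j (Q α)) = 0) → ξ = 0)
    (v : τ → ℂ) : ∃ R ∈ Submodule.span ℂ (Set.range Q), cgD z R = v := by
  have htop : Submodule.map (cgD z) (Submodule.span ℂ (Set.range Q)) = ⊤ := by
    by_contra hne
    obtain ⟨f, hf0, hf⟩ := Submodule.exists_le_ker_of_lt_top _ (lt_top_iff_ne_top.2 hne)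
    have hfsum : ∀ w : τ → ℂ, f w = ∑ j, f (Pi.single j 1) * w j := by
      intro w
      conv_lhs => rw [← LinearMap.sum_single_apply (fun _ => ℂ) w]
      rw [map_sum]
      refine Finset.sum_congr rfl fun j _ => ?_
      have : (Pi.single j (w j) : τ → ℂ) = w j • Pi.single j 1 := by
        ext k
        by_cases hk : k = j
        · subst hk; simp
        · simp [hk]
      show f (Pi.single j (w j)) = _
      rw [this, map_smul, smul_eq_mul, mul_comm]
    apply hf0
    have hξ := hnd (fun j => f (Pi.single j 1)) (fun α => by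
      have h1 : cgD z (Q α) ∈ LinearMap.ker f :=
        hf (Submodule.mem_map_of_mem (Submodule.subset_span ⟨α, rfl⟩))
      rw [LinearMap.mem_ker, hfsum] at h1
      exact h1)
    ext w
    simp only [LinearMap.coe_comp, Function.comp_apply, LinearMap.zero_apply]
    exact congrFun hξ _
  have : v ∈ Submodule.map (cgD z) (Submodule.span ℂ (Set.range Q)) := by rw [htop]; trivial
  obtain ⟨R, hR, he⟩ := this
  exact ⟨R, hR, he⟩

theorem count_general {τ : Type} [Fintype τ] [DecidableEq τ] {N : ℕ} {ι : Type}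
    (hsq : ∀ (Q : τ → MvPolynomial τ ℂ), (∀ α, (Q α).totalDegree ≤ 3) →
      ∀ (z : Fin N → τ → ℂ), Function.Injective z →
      (∀ i α, MvPolynomial.eval (z i) (Q α) = 0) →
      (∀ i, ∀ ξ : τ → ℂ,
        (∀ α, ∑ j, ξ j * MvPolynomial.eval (z i) (MvPolynomial.pderiv j (Q α)) = 0) → ξ = 0) →
      N ≤ (3 * Fintype.card τ + 1) ^ Fintype.card τ)
    (Q : ι → MvPolynomial τ ℂ) (hdeg : ∀ α, (Q α).totalDegree ≤ 3)
    (z : Fin N → τ → ℂ) (hz : Function.Injective z)
    (h0 : ∀ i α, MvPolynomial.eval (z i) (Q α) = 0)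
    (hnd : ∀ i, ∀ ξ : τ → ℂ,
      (∀ α, ∑ j, ξ j * MvPolynomial.eval (z i) (MvPolynomial.pderiv j (Q α)) = 0) → ξ = 0) :
    N ≤ (3 * Fintype.card τ + 1) ^ Fintype.card τ := by
  choose R hRV hRe using fun (i : Fin N) (a : τ) => cg_surj Q (z i) (hnd i) (Pi.single a 1)
  -- the matrices
  let M : Fin N → (Fin N → ℂ) → Matrix τ τ ℂ := fun i lam =>
    Matrix.of fun a j => ∑ k, lam k * cgD (z i) (R k a) j
  let MM : Fin N → Matrix τ τ (MvPolynomial (Fin N) ℂ) := fun i =>
    Matrix.of fun a j => ∑ k, MvPolynomial.X k * MvPolynomial.C (cgD (z i) (R k a) j)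
  have heval : ∀ i lam, MvPolynomial.eval lam (MM i).det = (M i lam).det := by
    intro i lam
    rw [RingHom.map_det]
    congr 1
    ext a j
    simp [MM, M]
  have hne : ∀ i, (MM i).det ≠ 0 := by
    intro i h
    have h1 := heval i (Pi.single i 1)
    rw [h, map_zero] at h1
    have h2 : M i (Pi.single i 1) = 1 := by
      ext a j
      show ∑ k, (Pi.single i 1 : Fin N → ℂ) k * cgD (z i) (R k a) j = (1 : Matrix τ τ ℂ) a j
      rw [Finset.sum_eq_single i]
      · rw [hRe i a, Pi.single_eq_same, one_mul, Matrix.one_apply, Pi.single_apply]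
        by_cases hja : j = a
        · subst hja; simp
        · rw [if_neg hja, if_neg (fun h => hja h.symm)]
      · intro k _ hk
        rw [Pi.single_eq_of_ne hk, zero_mul]
      · intro h
        exact absurd (Finset.mem_univ i) h
    rw [h2, Matrix.det_one] at h1
    exact zero_ne_one h1
  obtain ⟨lam, hlam⟩ : ∃ lam : Fin N → ℂ, ∀ i, (M i lam).det ≠ 0 := by
    have hprod : (∏ i, (MM i).det) ≠ 0 := Finset.prod_ne_zero_iff.2 fun i _ => hne i
    by_contra hcon
    push Not at hcon
    apply hprod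
    apply MvPolynomial.funext
    intro lam
    obtain ⟨i, hi⟩ := hcon lam
    rw [map_prod, map_zero]
    exact Finset.prod_eq_zero (Finset.mem_univ i) (by rw [heval, hi])
  have hV : ∀ a, ∑ k, lam k • R k a ∈ Submodule.span ℂ (Set.range Q) := fun a =>
    Submodule.sum_mem _ fun k _ => Submodule.smul_mem _ _ (hRV k a)
  refine hsq (fun a => ∑ k, lam k • R k a) (fun a => ?_) z hz (fun i a => ?_) (fun i ξ hξ => ?_)
  · have hle : Submodule.span ℂ (Set.range Q) ≤ MvPolynomial.restrictTotalDegree τ ℂ 3 := by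
      rw [Submodule.span_le]
      rintro _ ⟨α, rfl⟩
      rw [SetLike.mem_coe, MvPolynomial.mem_restrictTotalDegree]
      exact hdeg α
    have := hle (hV a)
    rwa [MvPolynomial.mem_restrictTotalDegree] at this
  · have hle : Submodule.span ℂ (Set.range Q) ≤
        LinearMap.ker (MvPolynomial.aeval (R := ℂ) (z i)).toLinearMap := by
      rw [Submodule.span_le]
      rintro _ ⟨α, rfl⟩
      rw [SetLike.mem_coe, LinearMap.mem_ker]
      show MvPolynomial.aeval (z i) (Q α) = 0
      rw [MvPolynomial.aeval_eq_eval]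
      exact h0 i α
    have := hle (hV a)
    rw [LinearMap.mem_ker] at this
    have h2 : MvPolynomial.aeval (z i) (∑ k, lam k • R k a) = 0 := this
    rw [MvPolynomial.aeval_eq_eval] at h2
    exact h2
  · refine Matrix.eq_zero_of_mulVec_eq_zero (hlam i) ?_
    ext a
    have h1 := hξ a
    show ∑ j, (∑ k, lam k * cgD (z i) (R k a) j) * ξ j = 0
    rw [← h1]
    refine Finset.sum_congr rfl fun j _ => ?_
    rw [mul_comm]
    congr 1
    rw [← cgD_apply, map_sum, Finset.sum_apply]
    refine Finset.sum_congr rfl fun k _ => ?_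
    rw [map_smul, Pi.smul_apply, smul_eq_mul]

end H113G
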