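import Pool.Agent.Helper113.Gorin.Defs

set_option autoImplicit false

open Metric Set Topology

namespace H113G



theorem int_const_aux {E : Type} [TopologicalSpace E] {S : Set E} (hS : IsPreconnected S)
    {h1 h2 : E → ℂ} (c1 : ContinuousOn h1 S) (c2 : ContinuousOn h2 S)
    (he : ∀ y ∈ S, Complex.exp (h1 y) = Complex.exp (h2 y)) :
    ∃ n : ℤ, ∀ y ∈ S, h1 y = h2 y + n * (2 * Real.pi * Complex.I) := by
  have hex : ∀ y ∈ S, ∃ n : ℤ, h1 y = h2 y + n * (2 * Real.pi * Complex.I) := fun y hy =>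
    Complex.exp_eq_exp_iff_exists_int.1 (he y hy)
  rcases S.eq_empty_or_nonempty with rfl | ⟨y0, hy0⟩
  · exact ⟨0, fun y hy => absurd hy (Set.notMem_empty y)⟩
  obtain ⟨n0, hn0⟩ := hex y0 hy0
  refine ⟨n0, fun y hy => ?_⟩
  obtain ⟨n, hn⟩ := hex y hy
  -- the real valued function
  let r : E → ℝ := fun y => (h1 y - h2 y).im / (2 * Real.pi)
  have hr : ContinuousOn r S := (Complex.continuous_im.comp_continuousOn (c1.sub c2)).div_const _
  have hval : ∀ (y : E) (m : ℤ), h1 y = h2 y + m * (2 * Real.pi * Complex.I) → r y = m := by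
    intro y m hm
    have h3 : h1 y - h2 y = ((m * (2 * Real.pi) : ℝ) : ℂ) * Complex.I := by
      rw [hm]; push_cast; ring
    change (h1 y - h2 y).im / (2 * Real.pi) = m
    rw [h3]
    simp
  have hord := (hS.image r hr).ordConnected
  have hlt : ∀ (p q : E) (m k : ℤ), p ∈ S → q ∈ S → r p = m → r q = k → ¬ m < k := by
    intro p q m k hp hq h3 h4 hmk
    have hmid : ((m : ℝ) + 1/2) ∈ r '' S := by
      refine hord.out ⟨p, hp, rfl⟩ ⟨q, hq, rfl⟩ ⟨?_, ?_⟩
      · rw [h3]; linarith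
      · rw [h4]
        have : (m : ℝ) + 1 ≤ k := by exact_mod_cast hmk
        linarith
    obtain ⟨z, hz, hrz⟩ := hmid
    obtain ⟨t, ht⟩ := hex z hz
    have h5 := hval z t ht
    rw [h5] at hrz
    have h6 : (2 * t : ℝ) = 2 * m + 1 := by linarith
    have h7 : (2 * t : ℤ) = 2 * m + 1 := by exact_mod_cast h6
    omega
  have e : n = n0 := by
    rcases lt_trichotomy n n0 with h3 | h3 | h3
    · exact absurd h3 (hlt y y0 n n0 hy hy0 (hval y n hn) (hval y0 n0 hn0))
    · exact h3
    · exact absurd h3 (hlt y0 y n0 n hy0 hy (hval y0 n0 hn0) (hval y n hn))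
  rw [← e]
  exact hn

theorem rank_pieces {E : Type} [TopologicalSpace E] {ι : Type} [Fintype ι] (K : ι → Set E)
    (hcl : ∀ i, IsClosed (K i)) (hconn : ∀ i j, IsPreconnected (K i ∩ K j)) (s : ℕ)
    (hs : Fintype.card ι * Fintype.card ι ≤ s) (g : Fin (s + 1) → E → ℂ)
    (hg : ∀ l i, HasLog (K i) (g l)) :
    ∃ a : Fin (s + 1) → ℤ, a ≠ 0 ∧ HasLog (⋃ i, K i) (fun y => ∏ l, g l y ^ a l) := by
  classical
  choose h hc he using hg
  have hn : ∀ (l : Fin (s + 1)) (i j : ι), ∃ n : ℤ, ∀ y ∈ K i ∩ K j,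
      h l i y = h l j y + n * (2 * Real.pi * Complex.I) := by
    intro l i j
    refine int_const_aux (hconn i j) ((hc l i).mono inter_subset_left)
      ((hc l j).mono inter_subset_right) ?_
    intro y hy
    rw [he l i y hy.1, he l j y hy.2]
  choose n hn using hn
  have hli : ¬ LinearIndependent ℤ (fun l : Fin (s + 1) => (fun p : ι × ι => n l p.1 p.2)) := by
    intro hli
    have := hli.fintype_card_le_finrank
    rw [Fintype.card_fin, Module.finrank_fintype_fun_eq_card, Fintype.card_prod] at this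
    omega
  rw [Fintype.not_linearIndependent_iff] at hli
  obtain ⟨a, ha, l0, hl0⟩ := hli
  have ha' : ∀ i j, ∑ l, a l * n l i j = 0 := by
    intro i j
    have := congrFun ha (i, j)
    simpa [Finset.sum_apply, smul_eq_mul] using this
  refine ⟨a, fun h0 => hl0 (by rw [h0]; rfl), ?_⟩
  let Hi : ι → E → ℂ := fun i y => ∑ l, (a l : ℂ) * h l i y
  have hagree : ∀ i j, ∀ y ∈ K i ∩ K j, Hi i y = Hi j y := by
    intro i j y hy
    change ∑ l, (a l : ℂ) * h l i y = ∑ l, (a l : ℂ) * h l j y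
    have e1 : ∀ l, (a l : ℂ) * h l i y = (a l : ℂ) * h l j y +
        ((a l * n l i j : ℤ) : ℂ) * (2 * Real.pi * Complex.I) := by
      intro l
      rw [hn l i j y hy]
      push_cast
      ring
    simp only [e1]
    rw [Finset.sum_add_distrib, ← Finset.sum_mul, ← Int.cast_sum, ha' i j]
    simp
  let H : E → ℂ := fun y => if hy : ∃ i, y ∈ K i then Hi hy.choose y else 0
  have hH : ∀ i, ∀ y ∈ K i, H y = Hi i y := by
    intro i y hy
    have hex : ∃ i, y ∈ K i := ⟨i, hy⟩
    change (if hy : ∃ i, y ∈ K i then Hi hy.choose y else 0) = Hi i y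
    rw [dif_pos hex]
    exact hagree _ _ y ⟨hex.choose_spec, hy⟩
  refine ⟨H, ?_, ?_⟩
  · refine LocallyFinite.continuousOn_iUnion (locallyFinite_of_finite K) hcl (fun i => ?_)
    have hcont : ContinuousOn (Hi i) (K i) :=
      continuousOn_finsetSum _ (fun l _ => continuousOn_const.mul (hc l i))
    exact hcont.congr (fun y hy => hH i y hy)
  · intro y hy
    obtain ⟨i, hi⟩ := Set.mem_iUnion.1 hy
    rw [hH i y hi]
    change Complex.exp (∑ l, (a l : ℂ) * h l i y) = _
    rw [Complex.exp_sum]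
    refine Finset.prod_congr rfl (fun l _ => ?_)
    rw [Complex.exp_int_mul, he l i y hi]

end H113G
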