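import Pool.Agent.Helper113.Gorin.Defs

set_option autoImplicit false

open Metric Set Topology

namespace H113G



theorem thin_thm {m : ℕ} (Y : Set (Fin m → ℂ)) (h : HasCharts Y) (hc : IsPreconnected Y)
    (hball : ∀ {n : ℕ} {U : Set (Fin n → ℂ)}, IsOpen U → Convex ℝ U →
      ∀ {φ : (Fin n → ℂ) → ℂ}, DifferentiableOn ℂ φ U → ∀ {x₀ : Fin n → ℂ}, x₀ ∈ U → φ x₀ ≠ 0 →
      IsPreconnected {x | x ∈ U ∧ φ x ≠ 0} ∧ U ⊆ closure {x | x ∈ U ∧ φ x ≠ 0})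
    (hid : ∀ (u : (Fin m → ℂ) → ℂ), HolOn Y u → ∀ (N : Set (Fin m → ℂ)), IsOpen N →
      (Y ∩ N).Nonempty → (∀ y ∈ Y, y ∈ N → u y = 0) → ∀ y ∈ Y, u y = 0)
    (φ : (Fin m → ℂ) → ℂ) (hφ : HolOn Y φ) (y₁ : Fin m → ℂ) (hy₁ : y₁ ∈ Y) (h1 : φ y₁ ≠ 0) :
    IsPreconnected {y | y ∈ Y ∧ φ y ≠ 0} ∧ Y ⊆ closure {y | y ∈ Y ∧ φ y ≠ 0} := by
  set Y0 : Set (Fin m → ℂ) := {y | y ∈ Y ∧ φ y ≠ 0} with hY0
  have hdense : Y ⊆ closure Y0 := by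
    intro p hp
    by_contra hcon
    have h0 := hid φ hφ (closure Y0)ᶜ isClosed_closure.isOpen_compl ⟨p, hp, hcon⟩ (by
      intro y hy hyN
      by_contra hne
      exact hyN (subset_closure ⟨hy, hne⟩))
    exact h1 (h0 y₁ hy₁)
  have hgood : ∀ p ∈ Y, ∃ V : Set (Fin m → ℂ), IsOpen V ∧ p ∈ V ∧ IsPreconnected (Y0 ∩ V) := by
    intro p hp
    obtain ⟨U, hU, hpU, g, hg, hgφ⟩ := hφ p hp
    obtain ⟨n, ψ, κ, V, hV, hpV, hVU, hψ, hψ0, himg, -, -⟩ := h p hp U (hU.mem_nhds hpU)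
    refine ⟨V, hV, hpV, ?_⟩
    have hmaps : ∀ x ∈ ball (0 : Fin n → ℂ) 1, ψ x ∈ Y ∩ V := by
      intro x hx
      rw [← himg]; exact ⟨x, hx, rfl⟩
    have hcomp : DifferentiableOn ℂ (fun x => g (ψ x)) (ball (0 : Fin n → ℂ) 1) :=
      hg.comp hψ (fun x hx => hVU (hmaps x hx).2)
    obtain ⟨y, hyV, hyY0⟩ := mem_closure_iff.1 (hdense hp) V hV hpV
    have hyim : y ∈ ψ '' ball 0 1 := by rw [himg]; exact ⟨hyY0.1, hyV⟩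
    obtain ⟨x₀, hx₀, rfl⟩ := hyim
    have hne : g (ψ x₀) ≠ 0 := by
      rw [hgφ _ hyY0.1 (hVU hyV)]; exact hyY0.2
    have hpre := (hball isOpen_ball (convex_ball _ _) hcomp hx₀ hne).1
    have himg2 : ψ '' {x | x ∈ ball (0 : Fin n → ℂ) 1 ∧ g (ψ x) ≠ 0} = Y0 ∩ V := by
      ext z
      constructor
      · rintro ⟨x, ⟨hx, hxne⟩, rfl⟩
        have hm := hmaps x hx
        refine ⟨⟨hm.1, ?_⟩, hm.2⟩
        rw [← hgφ _ hm.1 (hVU hm.2)]; exact hxne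
      · rintro ⟨⟨hzY, hzne⟩, hzV⟩
        have hzim : z ∈ ψ '' ball 0 1 := by rw [himg]; exact ⟨hzY, hzV⟩
        obtain ⟨x, hx, rfl⟩ := hzim
        refine ⟨x, ⟨hx, ?_⟩, rfl⟩
        rw [hgφ _ hzY (hVU hzV)]; exact hzne
    rw [← himg2]
    exact hpre.image _ (hψ.continuousOn.mono fun x hx => hx.1)
  refine ⟨?_, hdense⟩
  rw [isPreconnected_iff_subset_of_disjoint]
  intro u v hu hv huv hdisj
  set Gu : Set (Fin m → ℂ) := ⋃₀ {V | IsOpen V ∧ Y0 ∩ V ⊆ u} with hGu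
  set Gv : Set (Fin m → ℂ) := ⋃₀ {V | IsOpen V ∧ Y0 ∩ V ⊆ v} with hGv
  have hGuo : IsOpen Gu := isOpen_sUnion fun V hV => hV.1
  have hGvo : IsOpen Gv := isOpen_sUnion fun V hV => hV.1
  have hGu2 : ∀ y ∈ Y0, y ∈ Gu → y ∈ u := by
    rintro y hy ⟨V, hV, hyV⟩
    exact hV.2 ⟨hy, hyV⟩
  have hGv2 : ∀ y ∈ Y0, y ∈ Gv → y ∈ v := by
    rintro y hy ⟨V, hV, hyV⟩
    exact hV.2 ⟨hy, hyV⟩
  have hcov : Y ⊆ Gu ∪ Gv := by
    intro p hp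
    obtain ⟨V, hV, hpV, hVp⟩ := hgood p hp
    rcases isPreconnected_iff_subset_of_disjoint.1 hVp u v hu hv
      (inter_subset_left.trans huv) (by
        rw [← Set.subset_empty_iff, ← hdisj]
        exact inter_subset_inter_left _ inter_subset_left) with h | h
    · exact Or.inl ⟨V, ⟨hV, h⟩, hpV⟩
    · exact Or.inr ⟨V, ⟨hV, h⟩, hpV⟩
  have hempty : Y ∩ (Gu ∩ Gv) = ∅ := by
    rw [Set.eq_empty_iff_forall_notMem]
    rintro p ⟨hp, hpG⟩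
    obtain ⟨y, hyG, hyY0⟩ := mem_closure_iff.1 (hdense hp) (Gu ∩ Gv) (hGuo.inter hGvo) hpG
    have : y ∈ Y0 ∩ (u ∩ v) := ⟨hyY0, hGu2 y hyY0 hyG.1, hGv2 y hyY0 hyG.2⟩
    rw [hdisj] at this
    exact this
  rcases isPreconnected_iff_subset_of_disjoint.1 hc Gu Gv hGuo hGvo hcov hempty with h | h
  · exact Or.inl fun y hy => hGu2 y hy (h hy.1)
  · exact Or.inr fun y hy => hGv2 y hy (h hy.1)

end H113G
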